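import Pool.Agent.N174.Lef.Main

/-!
# The inductive step for towers of morphisms
-/

open CategoryTheory AlgebraicGeometry Finset Function TensorProduct

set_option linter.unusedSectionVars false

universe u v w x

namespace Pool.Agent.N174.Lef

open Pool.Agent.H914 Pool.Agent.H914.VarClass Pool.Agent.H914.VarClass.Obj
  Pool.Agent.H914.WeilCohomology Pool.Agent.H281R3.HT Pool.Agent.W552 Pool.Agent.TH125.Gal

variable {k : Type u} [Field k] {𝒱 : VarClass k} {ops : CycleOps 𝒱}
  {W : WeilCohomology.{u, v} ops}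

section mult

variable {X X' Y Y' : 𝒱.Obj} {n : ℕ}

/-- compatibility with the algebra structure -/
def Mlt (A : W.H X →ₗ[W.K] W.H Y) : Prop := A 1 = 1 ∧ ∀ a b, A (a * b) = A a * A b

theorem t2_one {A : W.H X →ₗ[W.K] W.H Y} {B : W.H X' →ₗ[W.K] W.H Y'} (hA : A 1 = 1)
    (hB : B 1 = 1) : t2 A B 1 = 1 := by
  have h1 := t2_apply A B 1 1
  rw [map_one, map_one, hA, hB, map_one, map_one, mul_one, mul_one] at h1
  exact h1

theorem t2_mlt {A : W.H X →ₗ[W.K] W.H Y} {B : W.H X' →ₗ[W.K] W.H Y'} (gA : Grd A) (gB : Grd B)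
    (hA : Mlt A) (hB : Mlt B) : Mlt (t2 A B) := by
  refine ⟨t2_one hA.1 hB.1, fun c c' => ?_⟩
  refine W.kunneth_induction (p := fun c => t2 A B (c * c') = t2 A B c * t2 A B c') ?_ ?_ c
  · intro a b ha hb
    rw [add_mul, map_add, map_add, ha, hb, add_mul]
  · intro i j a _ b hb
    refine W.kunneth_induction (p := fun c' => t2 A B (W.map (fst X X') a * W.map (snd X X') b *
      c') = t2 A B (W.map (fst X X') a * W.map (snd X X') b) * t2 A B c') ?_ ?_ c'
    · intro a b ha hb
      rw [mul_add, map_add, map_add, ha, hb, mul_add]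
    · intro i' j' a' ha' b' _
      have e : ∀ {U U' : 𝒱.Obj} (a : W.H U) {b : W.H U'} (_ : b ∈ W.gr U' j) {a' : W.H U}
          (_ : a' ∈ W.gr U i') (b' : W.H U'),
          W.map (fst U U') a * W.map (snd U U') b * (W.map (fst U U') a' * W.map (snd U U') b') =
          (-1 : W.K) ^ (j * i') • (W.map (fst U U') (a * a') * W.map (snd U U') (b * b')) := by
        intro U U' a b hb a' ha' b'
        have h1 : W.map (snd U U') b * W.map (fst U U') a' =
            (-1 : W.K) ^ (j * i') • (W.map (fst U U') a' * W.map (snd U U') b) :=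
          W.comm (W.map_mem _ hb) (W.map_mem _ ha')
        rw [mul_assoc, ← mul_assoc (W.map (snd U U') b), h1, smul_mul_assoc, mul_smul_comm,
          mul_assoc, ← mul_assoc (W.map (fst U U') a), ← map_mul, ← map_mul]
      rw [e a hb ha' b', map_smul, t2_apply, t2_apply, t2_apply,
        e (A a) (gB _ _ hb) (gA _ _ ha') (B b'), hA.2, hB.2]

theorem tens_mlt : ∀ (n : ℕ) (A : Fin (n + 1) → W.H X →ₗ[W.K] W.H Y), (∀ p, Grd (A p)) →
    (∀ p, Mlt (A p)) → Mlt (tens (ops := ops) A) := by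
  intro n
  induction n with
  | zero =>
    intro A _ hA
    have h1 : tens (ops := ops) A = A 0 := by
      refine mono_ext fun a => ?_
      rw [tens_mono, mono_zero]
      exact congrArg (A 0) (mono_zero X a).symm
    rw [h1]
    exact hA 0
  | succ n ih =>
    intro A gA hA
    rw [tens_succ]
    exact t2_mlt (gA 0) (tens_gr n _ fun p => gA p.succ) (hA 0)
      (ih _ (fun p => gA p.succ) fun p => hA p.succ)

theorem tens_prj : ∀ (n : ℕ) (A : Fin (n + 1) → W.H X →ₗ[W.K] W.H Y), (∀ p, A p 1 = 1) →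
    ∀ (p : Fin (n + 1)) (a : W.H X), tens (ops := ops) A (W.map (powerPrj ops X n p) a) =
      W.map (powerPrj ops Y n p) (A p a) := by
  intro n A hA p a
  have h1 : ∀ (U : 𝒱.Obj) (a : W.H U), W.map (powerPrj ops U n p) a =
      mono (powerPrj ops U n) (update (fun _ => 1) p a) := by
    intro U a
    rw [mono]
    have h2 : ∀ q, W.map (powerPrj ops U n q) (update (fun _ => (1 : W.H U)) p a q) =
        if q = p then W.map (powerPrj ops U n p) a else 1 := by
      intro q
      by_cases hq : q = p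
      · subst hq
        rw [update_self, if_pos rfl]
      · rw [update_of_ne hq, if_neg hq, map_one]
    simp only [h2]
    have h3 : ∀ (m : ℕ) (p : Fin m) (x : W.H (power ops U n)),
        (List.ofFn fun q => if q = p then x else 1).prod = x := by
      intro m
      induction m with
      | zero => intro p; exact p.elim0
      | succ m ih =>
        intro p x
        rw [List.ofFn_succ, List.prod_cons]
        refine Fin.cases ?_ (fun p => ?_) p
        · rw [if_pos rfl]
          have h4 : (fun i : Fin m => if i.succ = (0 : Fin (m + 1)) then x else 1) =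
              fun _ => (1 : W.H (power ops U n)) := by
            funext i
            rw [if_neg (Fin.succ_ne_zero i)]
          rw [h4, List.ofFn_const, List.prod_replicate, one_pow, mul_one]
        · rw [if_neg (Fin.succ_ne_zero p).symm, one_mul]
          simp only [Fin.succ_inj]
          exact ih p x
    exact (h3 (n + 1) p _).symm
  rw [h1, h1, tens_mono]
  congr 1
  funext q
  by_cases hq : q = p
  · subst hq
    rw [update_self, update_self]
  · rw [update_of_ne hq, update_of_ne hq, hA]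

end mult

section TP

variable {X Y Z : 𝒱.Obj} {n : ℕ} {f : X ⟶ Y} {Γ : Type w} [Group Γ] {χ : Γ →* W.Kˣ}
  {ρ : Γ →* (W.H X ≃ₐ[W.K] W.H X)} {ρY : Γ →* (W.H Y ≃ₐ[W.K] W.H Y)}
  {τ : Γ →* (W.H Z ≃ₐ[W.K] W.H Z)} {s : W.H X →ₗ[W.K] W.H Y}

/-- The Tate conjecture for `X ^ (n + 1) × Z`, in terms of the linear action. -/
def TP (χ : Γ →* W.Kˣ) (ρ : Γ →* (W.H X ≃ₐ[W.K] W.H X)) (n : ℕ)
    (τ : Γ →* (W.H Z ≃ₐ[W.K] W.H Z)) : Prop :=
  ∀ j, ∀ c ∈ W.gr ((power ops X n).prod Z) (2 * j), (∃ Δ : Subgroup Γ, Δ.FiniteIndex ∧ ∀ g ∈ Δ,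
    t2 (pact ρ n g) (lact τ g) c = (χ g : W.K) ^ j • c) → c ∈ algSpan W ((power ops X n).prod Z)

theorem TP_of_tate {υ : Γ →* (W.H ((power ops X n).prod Z) ≃ₐ[W.K] W.H ((power ops X n).prod Z))}
    (h : ∀ p, Intertwines (W.map (fst (power ops X n) Z ≫ powerPrj ops X n p)) ρ υ)
    (h' : Intertwines (W.map (snd (power ops X n) Z)) τ υ)
    (hT : TateAct χ (W.gr ((power ops X n).prod Z)) (algClasses W ((power ops X n).prod Z)) υ) :
    TP χ ρ n τ := by
  intro j c hc ⟨Δ, hΔ, h1⟩
  refine Submodule.span_mono (Set.subset_iUnion _ j) (hT j c hc ⟨Δ, hΔ, fun g hg => ?_⟩)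
  rw [← h1 g hg, ← act_t2 h h']
  rfl

theorem tate_of_TP {υ : Γ →* (W.H ((power ops X n).prod Z) ≃ₐ[W.K] W.H ((power ops X n).prod Z))}
    (h : ∀ p, Intertwines (W.map (fst (power ops X n) Z ≫ powerPrj ops X n p)) ρ υ)
    (h' : Intertwines (W.map (snd (power ops X n) Z)) τ υ) (hT : TP χ ρ n τ) :
    TateAct χ (W.gr ((power ops X n).prod Z)) (algClasses W ((power ops X n).prod Z)) υ := by
  intro j c hc ⟨Δ, hΔ, h1⟩
  refine algSpan_gr (hT j c hc ⟨Δ, hΔ, fun g hg => ?_⟩) hc
  rw [← h1 g hg, ← act_t2 h h']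
  rfl

/-- the projection of the product to two factors -/
noncomputable def prj2 (ops : CycleOps 𝒱) (X Z : 𝒱.Obj) (n : ℕ) (p p' : Fin (n + 1)) :
    (power ops X n).prod Z ⟶ X.prod X :=
  fst (power ops X n) Z ≫ Obj.lift (powerPrj ops X n p) (powerPrj ops X n p')

theorem lact_one_one (g : Γ) : lact τ g 1 = 1 := map_one (τ g)

theorem pact_mlt (h : ∀ g i, ∀ a ∈ W.gr X i, ρ g a ∈ W.gr X i) (g : Γ) :
    Mlt (pact (ops := ops) ρ n g) :=
  tens_mlt n _ (fun _ i a ha => h g i a ha) fun _ => ⟨map_one (ρ g), fun a b => map_mul (ρ g) a b⟩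

theorem prj2_act (h : ∀ g i, ∀ a ∈ W.gr X i, ρ g a ∈ W.gr X i) (g : Γ) (p p' : Fin (n + 1))
    (c : W.H (X.prod X)) : t2 (pact ρ n g) (lact τ g) (W.map (prj2 ops X Z n p p') c) =
      W.map (prj2 ops X Z n p p') (t2 (ρ g).toLinearMap (ρ g).toLinearMap c) := by
  have h1 : t2 (pact ρ n g) (lact τ g) ∘ₗ (W.map (prj2 ops X Z n p p')).toLinearMap =
      (W.map (prj2 ops X Z n p p')).toLinearMap ∘ₗ t2 (ρ g).toLinearMap (ρ g).toLinearMap := by
    refine ext2 fun a b => ?_
    have e : ∀ a b : W.H X, W.map (prj2 ops X Z n p p') (W.map (fst X X) a * W.map (snd X X) b) =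
        W.map (fst (power ops X n) Z) (W.map (powerPrj ops X n p) a *
          W.map (powerPrj ops X n p') b) := by
      intro a b
      rw [prj2, W.map_comp, map_mul (W.map (Obj.lift _ _)), ← W.map_comp, ← W.map_comp,
        Obj.lift_fst, Obj.lift_snd]
    change t2 (pact ρ n g) (lact τ g) (W.map (prj2 ops X Z n p p') _) =
      W.map (prj2 ops X Z n p p') (t2 (ρ g).toLinearMap (ρ g).toLinearMap _)
    rw [e, t2_apply, e]
    have h2 := t2_apply (X := power ops X n) (X' := Z) (pact ρ n g) (lact τ g)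
      (W.map (powerPrj ops X n p) a * W.map (powerPrj ops X n p') b) 1
    rw [map_one, mul_one, lact_one_one, map_one, mul_one] at h2
    rw [h2, (pact_mlt h g).2, pact, tens_prj n _ fun _ => map_one (ρ g),
      tens_prj n _ fun _ => map_one (ρ g)]
  exact LinearMap.congr_fun h1 c

theorem map_prj2 (p p' : Fin (n + 1)) (a b : W.H X) :
    W.map (prj2 ops X Z n p p') (W.map (fst X X) a * W.map (snd X X) b) =
      W.map (fst (power ops X n) Z) (W.map (powerPrj ops X n p) a *
        W.map (powerPrj ops X n p') b) := by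
  rw [prj2, W.map_comp, map_mul (W.map (Obj.lift _ _)), ← W.map_comp, ← W.map_comp,
    Obj.lift_fst, Obj.lift_snd]

theorem map_pmap_fst (f : X ⟶ Y) (a : W.H (power ops Y n)) :
    W.map (pmap (powerMap ops f n) (𝟙 Z)) (W.map (fst (power ops Y n) Z) a) =
      W.map (fst (power ops X n) Z) (W.map (powerMap ops f n) a) := by
  rw [← W.map_comp, ← W.map_comp, pmap, Obj.lift_fst]

theorem pmap_prj2 (f : X ⟶ Y) (p p' : Fin (n + 1)) (c : W.H (Y.prod Y)) :
    W.map (prj2 ops X Z n p p') (t2 (W.map f).toLinearMap (W.map f).toLinearMap c) =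
      W.map (pmap (powerMap ops f n) (𝟙 Z)) (W.map (prj2 ops Y Z n p p') c) := by
  have h1 : (W.map (prj2 ops X Z n p p')).toLinearMap ∘ₗ
      t2 (W.map f).toLinearMap (W.map f).toLinearMap =
      (W.map (pmap (powerMap ops f n) (𝟙 Z))).toLinearMap ∘ₗ
        (W.map (prj2 ops Y Z n p p')).toLinearMap := by
    refine ext2 fun a b => ?_
    change W.map (prj2 ops X Z n p p') (t2 (W.map f).toLinearMap (W.map f).toLinearMap _) =
      W.map (pmap (powerMap ops f n) (𝟙 Z)) (W.map (prj2 ops Y Z n p p') _)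
    rw [t2_apply, map_prj2, map_prj2, map_pmap_fst, map_mul (W.map (powerMap ops f n)),
      ← W.map_comp (powerMap ops f n), ← W.map_comp (powerMap ops f n), powerMap_prj,
      powerMap_prj, W.map_comp, W.map_comp]
    rfl
  exact LinearMap.congr_fun h1 c

/-- The pull-backs of the vanishing part of the diagonal are algebraic. -/
theorem dQ_prj2 (h : Data χ f ρ ρY s) (v : VB W f)
    (hgY : ∀ g i, ∀ a ∈ W.gr Y i, ρY g a ∈ W.gr Y i) (hT : TP χ ρY n τ) (p p' : Fin (n + 1)) :
    W.map (prj2 ops X Z n p p') (dQ v) ∈ algSpan W ((power ops X n).prod Z) := by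
  have hd : W.push (diag X) 1 ∈ algClasses W (X.prod X) X.dim := by
    refine alg_push (diag X) (i := X.dim) alg_one ?_
    rw [dim_prod]
    omega
  have hg : t2 s s (W.push (diag X) 1) ∈ W.gr (Y.prod Y) (2 * X.dim) :=
    t2_gr (fun i a ha => h.transfer.gr_mem i a ha) (fun i a ha => h.transfer.gr_mem i a ha) _ _
      (alg_gr hd)
  have h1 : W.map (prj2 ops Y Z n p p') (t2 s s (W.push (diag X) 1)) ∈
      algSpan W ((power ops Y n).prod Z) := by
    refine hT _ _ (W.map_mem _ hg) ?_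
    obtain ⟨Δ, hΔ, hs⟩ := h.seq
    refine ⟨Δ, hΔ, fun g hg => ?_⟩
    have h2 : (ρY g).toLinearMap ∘ₗ s = s ∘ₗ (ρ g).toLinearMap := by
      apply LinearMap.ext
      intro a
      exact (hs g hg a).symm
    rw [prj2_act hgY, t2_t2, h2, ← t2_t2, diag_act h, map_smul, map_smul]
  have h5 : dQ v = (-1 : W.K) ^ X.dim • (W.push (diag X) 1 -
      t2 (W.map f).toLinearMap (W.map f).toLinearMap (t2 s s (W.push (diag X) 1))) := by
    rw [dQ_eq h v, t2_t2]
    congr 1
    rw [eq_sub_iff_add_eq, add_comm]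
    exact (diag_split h).symm
  rw [h5, map_smul, map_sub, pmap_prj2]
  exact Submodule.smul_mem _ _ (Submodule.sub_mem _ (algSpan_map _ (alg_mem hd))
    (algSpan_map _ h1))

theorem mtch_alg' (h : Data χ f ρ ρY s) (v : VB W f)
    (hgY : ∀ g i, ∀ a ∈ W.gr Y i, ρY g a ∈ W.gr Y i) (hT : TP χ ρY n τ) {D m : ℕ}
    {q : Fin (n + 1) → Option (Fin D)} (e : Fin m × Fin 2 ≃ Free q) :
    W.map (fst (power ops X n) Z) (mtch (ops := ops) v e) ∈
      algSpan W ((power ops X n).prod Z) := by
  rw [mtch, List.ofFn_eq_map]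
  generalize List.finRange m = L
  induction L with
  | nil =>
    rw [List.map_nil, List.prod_nil, map_one]
    exact algSpan_one
  | cons l L ih =>
    rw [List.map_cons, List.prod_cons, map_mul]
    refine algSpan_mul ?_ ih
    rw [← W.map_comp]
    exact dQ_prj2 h v hgY hT _ _

/-- **The inductive step.** -/
theorem TP_step (h : Data χ f ρ ρY s)
    (hgY : ∀ g i, ∀ a ∈ W.gr Y i, ρY g a ∈ W.gr Y i)
    (hgZ : ∀ g i, ∀ a ∈ W.gr Z i, τ g a ∈ W.gr Z i)
    {g₀ : Γ} (hχ : χ g₀ = 1) (hY : ρY g₀ = 1) (hτ : τ g₀ = 1)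
    (hPL : PLAct (W.tr X) (vanishing W f) ρ g₀)
    (hK : Even X.dim → FewRoots W.K ∧ n + 1 < Module.finrank W.K (vanishing W f))
    (hT : TP χ ρY n τ) : TP χ ρ n τ := by
  obtain ⟨v⟩ := exists_VB h.transfer
  intro j c hcj ⟨Δ, hΔ, hc⟩
  set c' := (kEquiv W (power ops X n) Z).symm c with hc'
  have hcc : kEquiv W (power ops X n) Z c' = c := LinearEquiv.apply_symm_apply _ _
  have hc1 : ∀ g ∈ Δ, TensorProduct.map (pact ρ n g) (lact τ g) c' =
      (((χ ^ j) g : W.Kˣ) : W.K) • c' := by
    intro g hg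
    apply (kEquiv W (power ops X n) Z).injective
    have h1 : t2 (pact ρ n g) (lact τ g) c = kEquiv W (power ops X n) Z
      (TensorProduct.map (pact ρ n g) (lact τ g) c') := rfl
    rw [← h1, hc g hg, map_smul, hcc]
    simp
  have hcore := fun q => core_q (D := 2 * X.dim + 1) h v (τ := lact τ) (μ := χ ^ j) hχ
    (by rw [MonoidHom.pow_apply, hχ, one_pow]) hY
    (by rw [lact_apply, hτ]; rfl) hPL hK hΔ hc1 q
  have hsum : c' = ∑ q : Fin (n + 1) → Option (Fin (2 * X.dim + 1)),
      (tens (piq f s q)).rTensor (W.H Z) c' := by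
    have h1 := congrArg (fun A => LinearMap.rTensorHom (W.H Z) A c')
      (sum_piq (ops := ops) (n := n) (f := f) s)
    beta_reduce at h1
    rw [map_sum, LinearMap.sum_apply] at h1
    simp only [LinearMap.coe_rTensorHom, LinearMap.rTensor_id, LinearMap.id_apply] at h1
    exact h1.symm
  -- the terms
  have hterm : ∀ q : Fin (n + 1) → Option (Fin (2 * X.dim + 1)),
      proj (W.isInternal ((power ops X n).prod Z)) (2 * j)
        (kEquiv W (power ops X n) Z ((tens (piq f s q)).rTensor (W.H Z) c')) ∈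
          algSpan W ((power ops X n).prod Z) := by
    intro q
    obtain ⟨L, m, e, ε, z, hz, hq⟩ := hcore q
    rw [hq, map_sum, map_sum]
    refine Submodule.sum_mem _ fun l _ => ?_
    rw [map_smul, map_smul]
    refine Submodule.smul_mem _ _ ?_
    rw [kEquiv_mext, proj_mul (W.map_mem _ (mtch_mem v h.middle (e l))), map_proj]
    by_cases hl : 2 * (X.dim * m l) ≤ 2 * j
    · rw [if_pos hl]
      refine algSpan_mul (mtch_alg' h v hgY hT (e l)) (algSpan_map _ ?_)
      have hle : X.dim * m l ≤ j := by omega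
      have h2 : 2 * j - 2 * (X.dim * m l) = 2 * (j - X.dim * m l) := by omega
      rw [h2]
      refine hT (j - X.dim * m l) _ (proj_mem _ _ _) ?_
      obtain ⟨Δ', hΔ', hz'⟩ := hz l
      refine ⟨Δ', hΔ', fun g hg => ?_⟩
      have h4 : t2 (pact ρY n g) (lact τ g) (kEquiv W (power ops Y n) Z (z l)) =
          (χ g : W.K) ^ (j - X.dim * m l) • kEquiv W (power ops Y n) Z (z l) := by
        change kEquiv W (power ops Y n) Z (TensorProduct.map (pact ρY n g) (lact τ g)
          ((kEquiv W (power ops Y n) Z).symm (kEquiv W (power ops Y n) Z (z l)))) = _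
        rw [LinearEquiv.symm_apply_apply, hz' g hg, map_smul]
        congr 1
        have hχ0 : (χ g : W.K) ≠ 0 := Units.ne_zero _
        rw [MonoidHom.pow_apply, Units.val_pow_eq_pow_val, ← pow_sub₀ _ hχ0 hle]
      rw [← t2_proj (pact_gr hgY g) fun i a ha => hgZ g i a ha, h4, map_smul]
    · rw [if_neg hl]
      exact Submodule.zero_mem _
  rw [← proj_same (W.isInternal _) hcj, ← hcc, hsum, map_sum, map_sum]
  exact Submodule.sum_mem _ fun q _ => hterm q

end TP

end Pool.Agent.N174.Lef
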