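import Pool.Agent.TH125.Gal.Blk

/-!
# The coefficients of an invariant multilinear map
-/

open Finset Function

set_option linter.unusedSectionVars false

namespace Pool.Agent.N174.Lef

open Pool.Agent.TH125.Gal Pool.Agent.TH125

universe u v w x

variable {K : Type u} [Field K] {T : Type v} [AddCommGroup T] [Module K T]
  {N : Type w} [AddCommGroup N] [Module K N] {S : Type} [Fintype S] [dS : DecidableEq S]
  {J : Type} [Fintype J] [DecidableEq J]

/-- the factor which depends on the variable `j` -/
def fac (B : T →ₗ[K] T →ₗ[K] K) {m : ℕ} (e : Fin m × Fin 2 ≃ S) (v : S → T) (j : S) (x : T) : K :=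
  if (e.symm j).2 = 0 then B x (v (e ((e.symm j).1, 1))) else B (v (e ((e.symm j).1, 0))) x

theorem prod_update (B : T →ₗ[K] T →ₗ[K] K) {m : ℕ} (e : Fin m × Fin 2 ≃ S) (v : S → T) (j : S)
    (x : T) : ∏ l, B (update v j x (e (l, 0))) (update v j x (e (l, 1))) =
      fac B e v j x * ∏ l ∈ univ.erase (e.symm j).1, B (v (e (l, 0))) (v (e (l, 1))) := by
  rw [← Finset.mul_prod_erase univ _ (Finset.mem_univ (e.symm j).1)]
  congr 1
  · obtain ⟨⟨l, i⟩, rfl⟩ := e.surjective j
    rw [fac, Equiv.symm_apply_apply]
    have h01 : e (l, 0) ≠ e (l, 1) := fun h => absurd (Prod.mk.inj (e.injective h)).2 (by decide)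
    fin_cases i
    · simp only [Fin.zero_eta, if_true]
      rw [update_self, update_of_ne h01.symm]
    · simp only [Fin.mk_one, one_ne_zero, if_false]
      rw [update_self, update_of_ne h01]
  · refine Finset.prod_congr rfl fun l hl => ?_
    have h1 : ∀ i, e (l, i) ≠ j := by
      rintro i rfl
      rw [Equiv.symm_apply_apply] at hl
      exact (Finset.ne_of_mem_erase hl) rfl
    rw [update_of_ne (h1 0), update_of_ne (h1 1)]

theorem fac_add (B : T →ₗ[K] T →ₗ[K] K) {m : ℕ} (e : Fin m × Fin 2 ≃ S) (v : S → T) (j : S)
    (x y : T) : fac B e v j (x + y) = fac B e v j x + fac B e v j y := by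
  unfold fac
  split_ifs
  · rw [map_add, LinearMap.add_apply]
  · rw [map_add]

theorem fac_smul (B : T →ₗ[K] T →ₗ[K] K) {m : ℕ} (e : Fin m × Fin 2 ≃ S) (v : S → T) (j : S)
    (q : K) (x : T) : fac B e v j (q • x) = q * fac B e v j x := by
  unfold fac
  split_ifs
  · rw [map_smul, LinearMap.smul_apply, smul_eq_mul]
  · rw [map_smul, smul_eq_mul]

/-- the product of the values of the form on the pairs of a matching -/
noncomputable def mform (B : T →ₗ[K] T →ₗ[K] K) {m : ℕ} (e : Fin m × Fin 2 ≃ S) :
    MultilinearMap K (fun _ : S => T) K where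
  toFun v := ∏ l, B (v (e (l, 0))) (v (e (l, 1)))
  map_update_add' := by
    intro inst v j x y
    obtain rfl : inst = dS := Subsingleton.elim _ _
    rw [prod_update, prod_update, prod_update, fac_add, add_mul]
  map_update_smul' := by
    intro inst v j q x
    obtain rfl : inst = dS := Subsingleton.elim _ _
    rw [prod_update, prod_update, fac_smul, mul_assoc, smul_eq_mul]

theorem mform_apply (B : T →ₗ[K] T →ₗ[K] K) {m : ℕ} (e : Fin m × Fin 2 ≃ S) (v : S → T) :
    mform B e v = ∏ l, B (v (e (l, 0))) (v (e (l, 1))) := rfl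

/-- **The coefficients of a combination of products of forms.** -/
theorem extraction (B : T →ₗ[K] T →ₗ[K] K) (t : Module.Basis J K T)
    {h : MultilinearMap K (fun _ : S => T) N}
    (hh : (fun r : S → J => h fun j => t (r j)) ∈ Nod.Gen (fun _ : J => ())
      (Matrix.of fun i j => B (t i) (t j)) (fun _ : S => ())) :
    ∃ (L : ℕ) (m : Fin L → ℕ) (e : ∀ l, Fin (m l) × Fin 2 ≃ S) (φ : Fin L → (S → J) → K),
      (∀ v, h v = ∑ l, mform B (e l) v • ∑ r : S → J, φ l r • h fun j => t (r j)) ∧
      ∀ x : Fin L → N, (∀ v, ∑ l, mform B (e l) v • x l = 0) → ∀ l, x l = 0 := by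
  classical
  let 𝒢 : Set ((S → J) → K) := {G | ∃ (m : ℕ) (e : Fin m × Fin 2 ≃ S),
    G = fun r => mform B e fun j => t (r j)}
  obtain ⟨𝒮, hSA, hSspan, hSli⟩ := exists_linearIndependent K 𝒢
  have hfin : 𝒮.Finite := hSli.setFinite
  have := hfin.fintype
  let eS := Fintype.equivFin 𝒮
  have hinj : ∀ l : Fin (Fintype.card 𝒮), ∃ (m : ℕ) (e : Fin m × Fin 2 ≃ S),
      ((eS.symm l : 𝒮) : (S → J) → K) = fun r => mform B e fun j => t (r j) := fun l =>
    hSA (eS.symm l).2
  choose m e he using hinj
  let 𝒷 := Module.Basis.extend hSli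
  let ψ : Fin (Fintype.card 𝒮) → ((S → J) → K) →ₗ[K] K := fun l =>
    𝒷.coord ⟨(eS.symm l : 𝒮), Module.Basis.subset_extend hSli (eS.symm l).2⟩
  have hψ : ∀ l l', ψ l ((eS.symm l' : 𝒮) : (S → J) → K) = if l' = l then 1 else 0 := by
    intro l l'
    have h1 : ((eS.symm l' : 𝒮) : (S → J) → K) =
        𝒷 ⟨(eS.symm l' : 𝒮), Module.Basis.subset_extend hSli (eS.symm l').2⟩ :=
      (Module.Basis.extend_apply_self hSli ⟨((eS.symm l' : 𝒮) : (S → J) → K),
        Module.Basis.subset_extend hSli (eS.symm l').2⟩).symm
    change 𝒷.coord _ _ = _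
    rw [h1, Module.Basis.coord_apply, Module.Basis.repr_self, Finsupp.single_apply]
    congr 1
    apply propext
    rw [Subtype.mk.injEq, Subtype.ext_iff.symm, EmbeddingLike.apply_eq_iff_eq]
  -- the functionals as sums
  have hψsum : ∀ l (F : (S → J) → K), ψ l F = ∑ r, ψ l (Pi.single r 1) * F r := by
    intro l F
    conv_lhs => rw [show F = ∑ r, F r • (Pi.single r (1 : K) : (S → J) → K) by
      funext r
      rw [Finset.sum_apply, Finset.sum_eq_single r]
      · rw [Pi.smul_apply, Pi.single_eq_same, smul_eq_mul, mul_one]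
      · intro r' _ hr
        rw [Pi.smul_apply, Pi.single_eq_of_ne hr.symm, smul_zero]
      · intro hr
        exact absurd (Finset.mem_univ _) hr]
    rw [map_sum]
    refine Finset.sum_congr rfl fun r _ => ?_
    rw [map_smul, smul_eq_mul, mul_comm]
  -- expansion of the elements of the span
  have hexp : ∀ G ∈ 𝒢, ∀ r, G r = ∑ l, ψ l G * (mform B (e l) fun j => t (r j)) := by
    intro G hG
    have h1 : G ∈ Submodule.span K (Set.range fun l : Fin (Fintype.card 𝒮) =>
        ((eS.symm l : 𝒮) : (S → J) → K)) := by
      have h2 : (Set.range fun l : Fin (Fintype.card 𝒮) =>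
          ((eS.symm l : 𝒮) : (S → J) → K)) = 𝒮 := by
        ext x
        constructor
        · rintro ⟨l, rfl⟩
          exact (eS.symm l).2
        · intro hx
          exact ⟨eS ⟨x, hx⟩, by simp⟩
      rw [h2, hSspan]
      exact Submodule.subset_span hG
    obtain ⟨a, ha⟩ := (Submodule.mem_span_range_iff_exists_fun K).1 h1
    have h3 : ∀ l, ψ l G = a l := by
      intro l
      rw [← ha, map_sum, Finset.sum_eq_single l]
      · rw [map_smul, hψ, if_pos rfl, smul_eq_mul, mul_one]
      · intro l' _ hl
        rw [map_smul, hψ, if_neg hl, smul_zero]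
      · intro h
        exact absurd (Finset.mem_univ _) h
    intro r
    conv_lhs => rw [← ha]
    rw [Finset.sum_apply]
    refine Finset.sum_congr rfl fun l _ => ?_
    rw [Pi.smul_apply, h3, smul_eq_mul, he l]
  refine ⟨Fintype.card 𝒮, m, e, fun l r => ψ l (Pi.single r 1), ?_, ?_⟩
  · -- the expansion of h
    have hgen : ∀ F ∈ Nod.Gen (K := K) (M := N) (fun _ : J => ())
        (Matrix.of fun i j => B (t i) (t j)) (fun _ : S => ()), ∀ r : S → J,
        F r = ∑ l, (mform B (e l) fun j => t (r j)) • ∑ r' : S → J,
          ψ l (Pi.single r' 1) • F r' := by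
      intro F hF
      induction hF using Submodule.span_induction with
      | mem F hF =>
        obtain ⟨m', e', w, rfl⟩ := hF
        intro r
        have h1 : ∀ r' : S → J, Nod.gen (fun _ : J => ()) (Matrix.of fun i j => B (t i) (t j))
            (fun _ : S => ()) e' w r' = (mform B e' fun j => t (r' j)) • w := by
          intro r'
          rw [Nod.gen, if_pos (fun _ => rfl)]
          rfl
        rw [h1]
        simp only [h1]
        have h2 : ∀ l, ∑ r' : S → J, ψ l (Pi.single r' 1) • ((mform B e' fun j => t (r' j)) • w) =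
            ψ l (fun r' => mform B e' fun j => t (r' j)) • w := by
          intro l
          rw [hψsum, Finset.sum_smul]
          refine Finset.sum_congr rfl fun r' _ => ?_
          rw [smul_smul]
        simp only [h2]
        rw [hexp (fun r' => mform B e' fun j => t (r' j)) ⟨m', e', rfl⟩ r, Finset.sum_smul]
        refine Finset.sum_congr rfl fun l _ => ?_
        rw [smul_smul, mul_comm]
      | zero =>
        intro r
        simp
      | add F F' _ _ hF hF' =>
        intro r
        simp only [Pi.add_apply, smul_add, Finset.sum_add_distrib]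
        rw [hF r, hF' r]
      | smul q F _ hF =>
        intro r
        rw [Pi.smul_apply]
        conv_lhs => rw [hF r]
        rw [Finset.smul_sum]
        refine Finset.sum_congr rfl fun l _ => ?_
        rw [smul_comm, Finset.smul_sum]
        congr 1
        refine Finset.sum_congr rfl fun r' _ => ?_
        rw [Pi.smul_apply, smul_comm]
    have hml : h = ∑ l, (mform B (e l)).smulRight
        (∑ r : S → J, ψ l (Pi.single r 1) • h fun j => t (r j)) := by
      refine Module.Basis.ext_multilinear (fun _ => t) fun r => ?_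
      rw [MultilinearMap.sum_apply]
      exact hgen _ hh r
    intro v
    conv_lhs => rw [hml, MultilinearMap.sum_apply]
    rfl
  · intro x hx l
    have h1 : ∑ r : S → J, ψ l (Pi.single r 1) • ∑ l', (mform B (e l') fun j => t (r j)) • x l' =
        x l := by
      calc ∑ r : S → J, ψ l (Pi.single r 1) • ∑ l', (mform B (e l') fun j => t (r j)) • x l'
          = ∑ l', (∑ r : S → J, ψ l (Pi.single r 1) * (mform B (e l') fun j => t (r j))) •
              x l' := by
            simp only [Finset.smul_sum, smul_smul]
            rw [Finset.sum_comm]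
            refine Finset.sum_congr rfl fun l' _ => ?_
            rw [Finset.sum_smul]
        _ = ∑ l', (if l' = l then (1 : K) else 0) • x l' := by
            refine Finset.sum_congr rfl fun l' _ => ?_
            congr 1
            rw [← hψ l l', he l', hψsum]
        _ = x l := by
            rw [Finset.sum_eq_single l]
            · rw [if_pos rfl, one_smul]
            · intro l' _ hl
              rw [if_neg hl, zero_smul]
            · intro h
              exact absurd (Finset.mem_univ _) h
    rw [← h1]
    refine Finset.sum_eq_zero fun r _ => ?_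
    rw [hx, smul_zero]

end Pool.Agent.N174.Lef
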