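import Pool.Agent.TH125.Gal.Pub

/-!
# The Tate conjecture for the products with an arbitrary variety: definitions
-/

open CategoryTheory AlgebraicGeometry TensorProduct

universe u v w

namespace Pool.Agent.N174.Lef.Open

open Pool.Agent.TH125.Gal

section Alg

variable {K : Type v} [Field K] {A : Type v} [Ring A] [Algebra K A] {B : Type v} [Ring B]
  [Algebra K B] {C : Type v} [Ring C] [Algebra K C] {M : Type v} [AddCommGroup M] [Module K M]
  {Γ : Type w} [Group Γ]

/-- The linear map `s : A → B` preserves the degrees, it is zero on the subspace `T` of `A`, and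
`a - f (s a)` is in `T` for all `a`, where `f : B → A`. So `f ∘ s` is a projector with kernel `T`.
It is equivariant for a subgroup of finite index of `Γ`. -/
structure IsRetract (grA : ℕ → Submodule K A) (grB : ℕ → Submodule K B) (f : B →ₐ[K] A)
    (T : Submodule K A) (ρ : Γ →* (A ≃ₐ[K] A)) (ρ' : Γ →* (B ≃ₐ[K] B)) (s : A →ₗ[K] B) :
    Prop where
  gr_mem : ∀ i, ∀ a ∈ grA i, s a ∈ grB i
  sub_mem : ∀ a, a - f (s a) ∈ T
  ker : ∀ a ∈ T, s a = 0
  act : ∃ Δ : Subgroup Γ, Δ.FiniteIndex ∧ ∀ g ∈ Δ, ∀ a, s (ρ g a) = ρ' g (s a)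

/-- The map `a ↦ q (c p(a))` is equal to `s` in degree `i`, and zero in all other degrees. -/
def InducesIn (gr : ℕ → Submodule K A) (p : A →ₐ[K] C) (q : C →ₗ[K] B) (s : A →ₗ[K] B) (i : ℕ)
    (c : C) : Prop :=
  ∀ j, ∀ a ∈ gr j, q (c * p a) = if j = i then s a else 0

/-- There is a linear map `s : A → B` as in `IsRetract` which is in each degree induced by an
element of the set `S`. -/
def HasRetract (grA : ℕ → Submodule K A) (grB : ℕ → Submodule K B) (f : B →ₐ[K] A)
    (T : Submodule K A) (ρ : Γ →* (A ≃ₐ[K] A)) (ρ' : Γ →* (B ≃ₐ[K] B)) (p : A →ₐ[K] C)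
    (q : C →ₗ[K] B) (S : Set C) : Prop :=
  ∃ s : A →ₗ[K] B, IsRetract grA grB f T ρ ρ' s ∧ ∀ i, ∃ c ∈ S, InducesIn grA p q s i c

/-- Formal properties of a morphism of Lefschetz type `X ⟶ Y`, where `A = H(X)`, `B = H(Y)`,
`C = H(X × Y)` and `n = dim X`: the action of `Γ` on `A` has the formal properties of a Galois
action; `f : B → A` is equivariant and has a retraction along `T` given by elements of `S'`; the
subspace `T` is in degree `n` and irreducible under all subgroups of finite index of `Γ`; some `g`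
with `χ g = 1` acts trivially on `B` and `M`, and by a Picard-Lefschetz formula on `T`. If `n` is
even, the field contains only finitely many `ζ + ζ⁻¹`, `ζ` a root of unity, and the dimension of `T`
is greater than `N`. -/
structure LefschetzAct (χ : Γ →* Kˣ) (N n : ℕ) (grA : ℕ → Submodule K A)
    (grB : ℕ → Submodule K B) (tr : A →ₗ[K] K) (S : ℕ → Set A) (f : B →ₐ[K] A)
    (T : Submodule K A) (p : A →ₐ[K] C) (q : C →ₗ[K] B) (S' : Set C) (ρ : Γ →* (A ≃ₐ[K] A))
    (ρ' : Γ →* (B ≃ₐ[K] B)) (τ : Γ →* (M →ₗ[K] M)) : Prop where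
  galois : IsGaloisAct χ grA n tr S ρ
  equivariant : Intertwines f ρ' ρ
  retract : HasRetract grA grB f T ρ ρ' p q S'
  middle : T ≤ grA n
  irreducible : IrredAct ρ T
  node : ∃ g : Γ, χ g = 1 ∧ TrivAct ρ' g ∧ (∀ m, τ g m = m) ∧ PLAct tr T ρ g
  large : Even n → FewRoots K ∧ N < Module.finrank K T

/-- The part of degree `i` of the tensor product. -/
def tensDeg (grA : ℕ → Submodule K A) (grM : ℕ → Submodule K M) (i : ℕ) :
    Submodule K (A ⊗[K] M) :=
  Submodule.span K {c | ∃ a b, a + b = i ∧ ∃ x ∈ grA a, ∃ y ∈ grM b, c = x ⊗ₜ[K] y}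

/-- The group `Γ` acts on `A` by `ρ` and on `M` by `τ`. All elements `c` of `A ⊗ M` of degree
`2 * j` which are multiplied by `χ g ^ j` by all `g` in a subgroup of finite index are in `C j`,
for all `j`. -/
def TateTimesAct (χ : Γ →* Kˣ) (grA : ℕ → Submodule K A) (grM : ℕ → Submodule K M)
    (ρ : Γ →* (A ≃ₐ[K] A)) (τ : Γ →* (M →ₗ[K] M)) (C : ℕ → Submodule K (A ⊗[K] M)) : Prop :=
  ∀ j, ∀ c ∈ tensDeg grA grM (2 * j), (∃ Δ : Subgroup Γ, Δ.FiniteIndex ∧
    ∀ g ∈ Δ, TensorProduct.map (ρ g).toLinearMap (τ g) c = (χ g : K) ^ j • c) → c ∈ C j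

/-- The pull-back by `f` maps `C j` to `C' j`. -/
def PullStable (f : B →ₐ[K] A) (C : ℕ → Submodule K (B ⊗[K] M))
    (C' : ℕ → Submodule K (A ⊗[K] M)) : Prop :=
  ∀ j, ∀ c ∈ C j, f.toLinearMap.rTensor M c ∈ C' j

/-- The products of elements of `S i` and of `C j` are in `C (i + j)`. -/
def MulStable (S : ℕ → Set A) (C : ℕ → Submodule K (A ⊗[K] M)) : Prop :=
  ∀ i j, ∀ a ∈ S i, ∀ c ∈ C j, (LinearMap.mulLeft K a).rTensor M c ∈ C (i + j)

end Alg

open Pool.Agent.H914 Pool.Agent.H914.VarClass Pool.Agent.H914.VarClass.Obj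
  Pool.Agent.H914.WeilCohomology

variable {k : Type u} [Field k] {𝒱 : VarClass k} {ops : CycleOps 𝒱}

/-- The classes of the cycles of codimension `j` on `X`. -/
def cycles (W : WeilCohomology.{u, v} ops) (X : 𝒱.Obj) (j : ℕ) : Set (W.H X) :=
  {c | ∃ z, X.IsCyc j z ∧ W.cl X z = c}

/-- The cohomology `M` of a variety `U`, smooth but not necessarily proper, with its grading and an
action of the group `Γ`, and subspaces `cyc V j` of `H(V) ⊗ M = H(V × U)` for all `V` in `𝒱` (the
spans of the classes of the cycles of codimension `j` on `V × U`), compatible with pull-back by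
morphisms of the proper variety `V`, and with the product with the classes of cycles on `V`. -/
structure OpenVar (W : WeilCohomology.{u, v} ops) (Γ : Type w) [Group Γ] where
  /-- the cohomology of `U` -/
  M : Type v
  [grp : AddCommGroup M]
  [mod : Module W.K M]
  /-- the grading -/
  gr : ℕ → Submodule W.K M
  /-- the action -/
  act : Γ →* (M →ₗ[W.K] M)
  /-- the combinations of the classes of the cycles of codimension `j` on `V × U` -/
  cyc : ∀ V : 𝒱.Obj, ℕ → Submodule W.K (W.H V ⊗[W.K] M)
  pull : ∀ {V V' : 𝒱.Obj} (f : V ⟶ V'), PullStable (W.map f) (cyc V') (cyc V)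
  mul : ∀ V : 𝒱.Obj, MulStable (cycles W V) (cyc V)

attribute [instance] OpenVar.grp OpenVar.mod

variable {W : WeilCohomology.{u, v} ops} {Γ : Type w} [Group Γ]

/-- `V` is the product of `n + 1` copies of `X`, with an action on the cohomology which is
compatible with the projections. -/
inductive IsPower (X : GVar W Γ) (n : ℕ) : GVar W Γ → Prop
  | mk (υ : Γ →* (W.H (power ops X.X n) ≃ₐ[W.K] W.H (power ops X.X n))) :
      (∀ p, Intertwines (W.map (powerPrj ops X.X n p)) X.act υ) →
      IsPower X n ⟨power ops X.X n, υ⟩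

/-- The Tate conjecture for `V × U`: all classes in `H^(2 j)(V × U)` which are multiplied by
`χ g ^ j` by all `g` in a subgroup of finite index are combinations of the classes of the cycles of
codimension `j` on `V × U`, for all `j`. -/
def TateTimes (χ : Γ →* W.Kˣ) (V : GVar W Γ) (U : OpenVar W Γ) : Prop :=
  TateTimesAct χ (W.gr V.X) U.gr V.act U.act (U.cyc V.X)

/-- The morphism `f : X ⟶ Y` is of Lefschetz type over `U`: the action of `Γ` on the cohomology of
`X` has the formal properties of a Galois action; `f^*` is equivariant and has an equivariant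
retraction `s` along the vanishing cohomology `E = ker f_*`, given in each degree by an algebraic
correspondence (a cycle of codimension `dim X` on `X × Y`); `E` is in the middle degree and
irreducible under all subgroups of finite index of `Γ`; some element `g` of `Γ` with `χ g = 1` acts
trivially on the cohomology of `Y` and of `U`, and by a Picard-Lefschetz formula on `E`. If the
dimension of `X` is even, the coefficient field contains only finitely many `ζ + ζ⁻¹`, `ζ` a root
of unity, and `N < dim E`. -/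
def LefschetzOver (χ : Γ →* W.Kˣ) (N : ℕ) (X Y : GVar W Γ) (f : X.X ⟶ Y.X)
    (U : OpenVar W Γ) : Prop :=
  LefschetzAct χ N X.X.dim (W.gr X.X) (W.gr Y.X) (W.tr X.X) (cycles W X.X) (W.map f)
    (LinearMap.ker (W.push f)) (W.map (fst X.X Y.X)) (W.push (snd X.X Y.X))
    (cycles W (X.X.prod Y.X) X.X.dim) X.act Y.act U.act

/-- There are morphisms `X = X_r ⟶ X_(r-1) ⟶ ⋯ ⟶ X_0 = Y`, `r ≥ 0`, as in `LefschetzOver`. -/
inductive TowerOver (χ : Γ →* W.Kˣ) (N : ℕ) (U : OpenVar W Γ) (Y : GVar W Γ) : GVar W Γ → Prop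
  | base : TowerOver χ N U Y Y
  | step {X' X} (f : X.X ⟶ X'.X) : TowerOver χ N U Y X' → LefschetzOver χ N X X' f U →
      TowerOver χ N U Y X

end Pool.Agent.N174.Lef.Open
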