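import Pool.Agent.N174.Lef.TDefs

/-!
# Morphisms of Lefschetz type with an algebraic retraction: definitions
-/

open CategoryTheory AlgebraicGeometry

universe u v w

namespace Pool.Agent.N174.Lef

open Pool.Agent.TH125.Gal

section Alg

variable {K : Type v} [Field K] {A : Type v} [Ring A] [Algebra K A] {B : Type v} [Ring B]
  [Algebra K B] {C : Type v} [Ring C] [Algebra K C] {Γ : Type w} [Group Γ]

/-- The map `a ↦ q (c p(a))` is equal to `s` in degree `i`, and zero in all other degrees. -/
def InducesIn (gr : ℕ → Submodule K A) (p : A →ₐ[K] C) (q : C →ₗ[K] B) (s : A →ₗ[K] B) (i : ℕ)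
    (c : C) : Prop :=
  ∀ j, ∀ a ∈ gr j, q (c * p a) = if j = i then s a else 0

/-- There is a linear map `s : A → B` as in `IsRetract` which is equivariant for the action of a
subgroup of finite index, and which is in each degree induced by an element of the set `S`. -/
def HasRetractIn (grA : ℕ → Submodule K A) (grB : ℕ → Submodule K B) (f : B →ₐ[K] A)
    (T : Submodule K A) (ρ : Γ →* (A ≃ₐ[K] A)) (ρ' : Γ →* (B ≃ₐ[K] B)) (p : A →ₐ[K] C)
    (q : C →ₗ[K] B) (S : Set C) : Prop :=
  ∃ s : A →ₗ[K] B, IsRetract grA grB f T s ∧
    (∃ Δ : Subgroup Γ, Δ.FiniteIndex ∧ ∀ g ∈ Δ, ∀ a, s (ρ g a) = ρ' g (s a)) ∧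
    ∀ i, ∃ c ∈ S, InducesIn grA p q s i c

end Alg

open Pool.Agent.H914 Pool.Agent.H914.VarClass Pool.Agent.H914.VarClass.Obj
  Pool.Agent.H914.WeilCohomology

variable {k : Type u} [Field k] {𝒱 : VarClass k} {ops : CycleOps 𝒱}
  {W : WeilCohomology.{u, v} ops} {Γ : Type w} [Group Γ]

/-- There is a linear map `s` from the cohomology of `X` to the cohomology of `Y` which preserves
the degrees, is equivariant for a subgroup of finite index, and given in each degree by an algebraic
correspondence (a cycle of codimension `dim X` on `X × Y`), such that `f^* s` is the projector onto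
the image of `f^*` along the vanishing cohomology of `f`. -/
def HasAlgRetract (X Y : GVar W Γ) (f : X.X ⟶ Y.X) : Prop :=
  HasRetractIn (W.gr X.X) (W.gr Y.X) (W.map f) (vanishing W f) X.act Y.act
    (W.map (fst X.X Y.X)) (W.push (snd X.X Y.X)) (algClasses W (X.X.prod Y.X) X.X.dim)

/-- The morphism `f` is of Lefschetz type, with algebraic retraction: the action of `Γ` on the
cohomology of `X` has the formal properties of a Galois action, `f^*` is equivariant and has a
retraction as in `HasAlgRetract`, the vanishing cohomology of `f` is in the middle degree, and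
irreducible under all subgroups of finite index. -/
structure AlgLefschetzType (χ : Γ →* W.Kˣ) (X Y : GVar W Γ) (f : X.X ⟶ Y.X) : Prop where
  galois : IsGaloisVar χ X
  equivariant : Equivariant f
  retract : HasAlgRetract X Y f
  middleIrred : MiddleIrred (W.gr X.X) X.X.dim (vanishing W f) X.act

end Pool.Agent.N174.Lef
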