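import Pool.Agent.N174.Lef.Defs

/-!
# Towers of morphisms of Lefschetz type: definitions
-/

open CategoryTheory AlgebraicGeometry

universe u v w

namespace Pool.Agent.N174.Lef

open Pool.Agent.TH125.Gal

section Alg

variable {K : Type v} [Field K] {A : Type v} [Ring A] [Algebra K A] {B : Type v} [Ring B]
  [Algebra K B] {C : Type v} [Ring C] [Algebra K C] {Γ : Type w} [Group Γ]

/-- The linear map `s : A → B` preserves the degrees, it is zero on the subspace `T` of `A`, and
`a - f (s a)` is in `T` for all `a`, where `f : B → A`. So `f ∘ s` is a projector with kernel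
`T`. -/
structure IsRetract (grA : ℕ → Submodule K A) (grB : ℕ → Submodule K B) (f : B →ₐ[K] A)
    (T : Submodule K A) (s : A →ₗ[K] B) : Prop where
  gr_mem : ∀ i, ∀ a ∈ grA i, s a ∈ grB i
  sub_mem : ∀ a, a - f (s a) ∈ T
  ker : ∀ a ∈ T, s a = 0

/-- There is a linear map `s : A → B` as in `IsRetract` which is equivariant for the action of a
subgroup of finite index. -/
def HasRetract (grA : ℕ → Submodule K A) (grB : ℕ → Submodule K B) (f : B →ₐ[K] A)
    (T : Submodule K A) (ρ : Γ →* (A ≃ₐ[K] A)) (ρ' : Γ →* (B ≃ₐ[K] B)) : Prop :=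
  ∃ s : A →ₗ[K] B, IsRetract grA grB f T s ∧
    ∃ Δ : Subgroup Γ, Δ.FiniteIndex ∧ ∀ g ∈ Δ, ∀ a, s (ρ g a) = ρ' g (s a)

/-- The subspace `T` of `A` is contained in the part of degree `n`, and it is irreducible under all
subgroups of finite index. -/
structure MiddleIrred (gr : ℕ → Submodule K A) (n : ℕ) (T : Submodule K A)
    (ρ : Γ →* (A ≃ₐ[K] A)) : Prop where
  middle : T ≤ gr n
  irreducible : IrredAct ρ T

/-- Some `g` with `χ g = 1` acts trivially on `B` and `C` and by a Picard-Lefschetz formula on the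
subspace `T` of `A`. -/
def NodeAct (χ : Γ →* Kˣ) (tr : A →ₗ[K] K) (T : Submodule K A) (ρ : Γ →* (A ≃ₐ[K] A))
    (ρ' : Γ →* (B ≃ₐ[K] B)) (τ : Γ →* (C ≃ₐ[K] C)) : Prop :=
  ∃ g : Γ, χ g = 1 ∧ TrivAct ρ' g ∧ TrivAct τ g ∧ PLAct tr T ρ g

/-- If `n` is even, the field contains only finitely many `ζ + ζ⁻¹`, `ζ` a root of unity, and the
dimension of `T` is greater than `N`. -/
def LargeIfEven (n : ℕ) (T : Submodule K A) (N : ℕ) : Prop :=
  Even n → FewRoots K ∧ N < Module.finrank K T

end Alg

open Pool.Agent.H914 Pool.Agent.H914.VarClass Pool.Agent.H914.VarClass.Obj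
  Pool.Agent.H914.WeilCohomology Pool.Agent.H281R3.HT Pool.Agent.W552

variable {k : Type u} [Field k] {𝒱 : VarClass k} {ops : CycleOps 𝒱}
  {W : WeilCohomology.{u, v} ops} {Γ : Type w} [Group Γ]

/-- The morphism `f` is of Lefschetz type: the action of `Γ` on the cohomology of `X` has the formal
properties of a Galois action, `f^*` is equivariant and has a retraction as in `HasRetract`, the
vanishing cohomology of `f` is in the middle degree, and irreducible under all subgroups of finite
index. -/
structure LefschetzType (χ : Γ →* W.Kˣ) (X Y : GVar W Γ) (f : X.X ⟶ Y.X) : Prop where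
  galois : IsGaloisVar χ X
  equivariant : Equivariant f
  retract : HasRetract (W.gr X.X) (W.gr Y.X) (W.map f) (vanishing W f) X.act Y.act
  middleIrred : MiddleIrred (W.gr X.X) X.X.dim (vanishing W f) X.act

/-- Some element `g` of `Γ` with `χ g = 1` acts trivially on the cohomology of `Y` and of `Z`, and
by a Picard-Lefschetz formula on the vanishing cohomology of `f`. -/
def HasNode (χ : Γ →* W.Kˣ) (X Y Z : GVar W Γ) (f : X.X ⟶ Y.X) : Prop :=
  NodeAct χ (W.tr X.X) (vanishing W f) X.act Y.act Z.act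

/-- If the dimension of `X` is even, the coefficient field contains only finitely many `ζ + ζ⁻¹`,
`ζ` a root of unity, and the dimension of the vanishing cohomology of `f` is greater than `N`. -/
def LargeVanishing (X Y : GVar W Γ) (f : X.X ⟶ Y.X) (N : ℕ) : Prop :=
  LargeIfEven X.X.dim (vanishing W f) N

/-- There are morphisms `X = X_r ⟶ X_(r-1) ⟶ ⋯ ⟶ X_0 = Y`, `r ≥ 0`, of Lefschetz type, with a node
as in `HasNode` and with `LargeVanishing`. -/
inductive LefschetzTower (χ : Γ →* W.Kˣ) (Z : GVar W Γ) (N : ℕ) (Y : GVar W Γ) :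
    GVar W Γ → Prop
  | base : LefschetzTower χ Z N Y Y
  | step {X' X} (f : X.X ⟶ X'.X) : LefschetzTower χ Z N Y X' → LefschetzType χ X X' f →
      HasNode χ X X' Z f → LargeVanishing X X' f N → LefschetzTower χ Z N Y X

end Pool.Agent.N174.Lef
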