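import Pool.Agent.N174.Lef.Step
import Pool.Agent.N174.Lef.TDefs

/-!
# The Tate conjecture for towers of morphisms of Lefschetz type
-/

open CategoryTheory AlgebraicGeometry

universe u v w

namespace Pool.Agent.N174.Lef

open Pool.Agent.H914 Pool.Agent.H914.VarClass Pool.Agent.H914.VarClass.Obj
  Pool.Agent.H914.WeilCohomology Pool.Agent.H281R3.HT Pool.Agent.W552 Pool.Agent.TH125.Gal

variable {k : Type u} [Field k] {𝒱 : VarClass k} {ops : CycleOps 𝒱}
  {W : WeilCohomology.{u, v} ops} {Γ : Type w} [Group Γ] {χ : Γ →* W.Kˣ}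

theorem act_eq_one {X : GVar W Γ} {g : Γ} (h : TrivVar X g) : X.act g = 1 :=
  AlgEquiv.ext fun a => h a

theorem LefschetzType.data {X Y : GVar W Γ} {f : X.X ⟶ Y.X} (h : LefschetzType χ X Y f) :
    ∃ s, Data χ f X.act Y.act s := by
  obtain ⟨s, hs, hs'⟩ := h.retract
  exact ⟨s, h.galois.gr_mem, h.galois.tr_act, h.equivariant, ⟨hs.gr_mem, hs.sub_mem, hs.ker⟩, hs',
    h.middleIrred.middle, h.middleIrred.irreducible⟩

theorem tower_TP {X Y Z : GVar W Γ} {n : ℕ} (hY : IsGaloisVar χ Y) (hZ : IsGaloisVar χ Z)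
    (h : LefschetzTower χ Z (n + 1) Y X) (hT : TP χ Y.act n Z.act) :
    IsGaloisVar χ X ∧ TP χ X.act n Z.act := by
  induction h with
  | base => exact ⟨hY, hT⟩
  | step f _ hf hn hK ih =>
    obtain ⟨g, h1, h2, h3, h4⟩ := hn
    obtain ⟨s, hs⟩ := hf.data
    exact ⟨hf.galois, TP_step hs (fun g i a ha => ih.1.gr_mem g i a ha)
      (fun g i a ha => hZ.gr_mem g i a ha) h1 (act_eq_one h2) (act_eq_one h3) h4 hK ih.2⟩

/-- **The Lefschetz theorem for the Tate conjecture.** -/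
theorem tate_tower {X Y Z V V' : GVar W Γ} {n : ℕ} (hY : IsGaloisVar χ Y) (hZ : IsGaloisVar χ Z)
    (h : LefschetzTower χ Z (n + 1) Y X) (hYZ : IsPowProd Y n Z V') (hT : TateConjecture χ V')
    (hXZ : IsPowProd X n Z V) : TateConjecture χ V := by
  obtain ⟨υ', h1', h2'⟩ := hYZ
  obtain ⟨υ, h1, h2⟩ := hXZ
  exact tate_of_TP h1 h2 (tower_TP hY hZ h (TP_of_tate h1' h2' hT)).2

end Pool.Agent.N174.Lef
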