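import Pool.Agent.N174.Lef.DStep
import Pool.Agent.N174.Lef.NDefs
import Pool.Agent.N174.Lef.Twr

/-!
# The Lefschetz theorem for the conjecture D
-/

open CategoryTheory AlgebraicGeometry

universe u v w

namespace Pool.Agent.N174.Lef

open Pool.Agent.H914 Pool.Agent.H914.VarClass Pool.Agent.H914.VarClass.Obj
  Pool.Agent.H914.WeilCohomology Pool.Agent.H281R3.HT Pool.Agent.W552 Pool.Agent.TH125.Gal

variable {k : Type u} [Field k] {𝒱 : VarClass k} {ops : CycleOps 𝒱}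
  {W : WeilCohomology.{u, v} ops} {Γ : Type w} [Group Γ] {χ : Γ →* W.Kˣ}

theorem aop_of_induces {X Y : 𝒱.Obj} {s : W.H X →ₗ[W.K] W.H Y} {i : ℕ} {c : W.H (X.prod Y)}
    {j : ℕ} (hc : c ∈ algClasses W (X.prod Y) j)
    (h : InducesIn (W.gr X) (W.map (fst X Y)) (W.push (snd X Y)) s i c) :
    AOp W X Y (sd s i) := by
  refine ⟨c, AS.of hc, ?_⟩
  apply LinearMap.ext
  intro a
  refine gr_induction (W.isInternal X) (p := fun a => W.corr c a = sd s i a) ?_ ?_ a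
  · intro l a ha
    rw [corr_apply, h l a ha]
    change _ = s (proj (W.isInternal X) i a)
    by_cases hl : l = i
    · subst hl
      rw [if_pos rfl, proj_same _ ha]
    · rw [if_neg hl, proj_ne _ ha hl, map_zero]
  · intro a b ha hb
    rw [map_add, map_add, ha, hb]

theorem AlgLefschetzType.data {X Y : GVar W Γ} {f : X.X ⟶ Y.X} (h : AlgLefschetzType χ X Y f) :
    ∃ s, Data χ f X.act Y.act s ∧ ∀ i, AOp W X.X Y.X (sd s i) := by
  obtain ⟨s, hs, hs', ha⟩ := h.retract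
  refine ⟨s, ⟨h.galois.gr_mem, h.galois.tr_act, h.equivariant, ⟨hs.gr_mem, hs.sub_mem, hs.ker⟩,
    hs', h.middleIrred.middle, h.middleIrred.irreducible⟩, fun i => ?_⟩
  obtain ⟨c, hc, hci⟩ := ha i
  exact aop_of_induces hc hci

theorem lefschetz_D {X Y Z V : GVar W Γ} {n : ℕ} {f : X.X ⟶ Y.X}
    (h : AlgLefschetzType χ X Y f) (hn : HasNode χ X Y Z f) (hK : LargeVanishing X Y f (n + 1))
    (hXZ : IsPowProd X n Z V) (hV : IsGaloisVar χ V)
    (hD : HomEqNum W ((power ops Y.X n).prod Z.X)) : HomEqNum W V.X := by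
  obtain ⟨g, h1, h2, h3, h4⟩ := hn
  obtain ⟨s, hs, ha⟩ := h.data
  obtain ⟨υ, hυ, hυ'⟩ := hXZ
  refine D_step hs ha h1 (act_eq_one h2) (act_eq_one h3) h4 hK (fun j c hc => ?_) hD
  obtain ⟨Δ, hΔ, hg⟩ := hV.cl_fix j c hc
  refine ⟨Δ, hΔ, fun g hgΔ => ?_⟩
  rw [← act_t2 hυ hυ']
  exact hg g hgΔ

end Pool.Agent.N174.Lef
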