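import Pool.Agent.N174.Lef.CtrAct
import Pool.Agent.N174.Lef.ODefs
import Pool.Agent.N174.Lef.DMain

/-!
# The Tate conjecture for the products with an arbitrary variety
-/

open CategoryTheory AlgebraicGeometry TensorProduct

universe u v w

namespace Pool.Agent.N174.Lef.Open

open Pool.Agent.H914 Pool.Agent.H914.VarClass Pool.Agent.H914.VarClass.Obj
  Pool.Agent.H914.WeilCohomology Pool.Agent.H281R3.HT Pool.Agent.W552 Pool.Agent.TH125.Gal

variable {k : Type u} [Field k] {𝒱 : VarClass k} {ops : CycleOps 𝒱}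
  {W : WeilCohomology.{u, v} ops} {Γ : Type w} [Group Γ] {χ : Γ →* W.Kˣ}

theorem pact_of_power {X : 𝒱.Obj} {n : ℕ} {ρ : Γ →* (W.H X ≃ₐ[W.K] W.H X)}
    {υ : Γ →* (W.H (power ops X n) ≃ₐ[W.K] W.H (power ops X n))}
    (h : ∀ p, Intertwines (W.map (powerPrj ops X n p)) ρ υ) (g : Γ) :
    (υ g).toLinearMap = pact ρ n g := by
  have h' : ∀ p, Intertwines (W.map (𝟙 (power ops X n) ≫ powerPrj ops X n p)) ρ υ := by
    intro p
    rw [Category.id_comp]
    exact h p
  apply LinearMap.ext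
  intro a
  have h1 := act_power (ρ := ρ) (υ := υ) h' g a
  rw [W.map_id, W.map_id] at h1
  exact h1

variable {M : Type v} [AddCommGroup M] [Module W.K M]

theorem low_tensDeg {X Y : 𝒱.Obj} {δ : ℕ} {A : W.H X →ₗ[W.K] W.H Y}
    (hA : Pool.Agent.N174.Lef.Low δ A)
    (gr : ℕ → Submodule W.K M) {i : ℕ} {c : W.H X ⊗[W.K] M}
    (hc : c ∈ tensDeg (W.gr X) gr i) :
    (δ ≤ i → A.rTensor M c ∈ tensDeg (W.gr Y) gr (i - δ)) ∧ (i < δ → A.rTensor M c = 0) := by
  induction hc using Submodule.span_induction with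
  | mem c hc =>
    obtain ⟨a, b, hab, x, hx, y, hy, rfl⟩ := hc
    rw [LinearMap.rTensor_tmul]
    by_cases ha : a < δ
    · rw [hA.zero hx ha, zero_tmul]
      exact ⟨fun _ => Submodule.zero_mem _, fun _ => rfl⟩
    · exact ⟨fun _ => Submodule.subset_span ⟨a - δ, b, by omega, _, hA.mem hx, y, hy, rfl⟩,
        fun h => by omega⟩
  | zero =>
    rw [map_zero]
    exact ⟨fun _ => Submodule.zero_mem _, fun _ => rfl⟩
  | add a b _ _ ha hb =>
    rw [map_add]
    exact ⟨fun h => Submodule.add_mem _ (ha.1 h) (hb.1 h), fun h => by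
      rw [ha.2 h, hb.2 h, add_zero]⟩
  | smul r a _ ha =>
    rw [map_smul]
    exact ⟨fun h => Submodule.smul_mem _ _ (ha.1 h), fun h => by rw [ha.2 h, smul_zero]⟩

theorem div_semi {K : Type*} [Field K] {N : Type*} [AddCommGroup N] [Module K N] {x : K}
    (hx : x ≠ 0) {i j : ℕ} (hle : i ≤ j) {w w' : N} (h : x ^ j • w = x ^ i • w') :
    w' = x ^ (j - i) • w := by
  rw [pow_sub₀ _ hx hle, mul_comm, mul_smul, h, smul_smul, inv_mul_cancel₀ (pow_ne_zero _ hx),
    one_smul]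

theorem LefschetzOver.data {N : ℕ} {X Y : GVar W Γ} {f : X.X ⟶ Y.X} {U : OpenVar W Γ}
    (h : LefschetzOver χ N X Y f U) :
    ∃ s, Data χ f X.act Y.act s ∧ ∀ i, AOp W X.X Y.X (sd s i) := by
  obtain ⟨s, hs, ha⟩ := h.retract
  refine ⟨s, ⟨h.galois.gr_mem, h.galois.tr_act, h.equivariant, ⟨hs.gr_mem, hs.sub_mem, hs.ker⟩,
    hs.act, h.middle, h.irreducible⟩, fun i => ?_⟩
  obtain ⟨c, hc, hci⟩ := ha i
  exact aop_of_induces (j := X.X.dim) hc hci

/-- The Tate conjecture for the product of `n + 1` copies of `X` and `U`. -/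
def TO (χ : Γ →* W.Kˣ) (X : GVar W Γ) (n : ℕ) (U : OpenVar W Γ) : Prop :=
  ∀ j, ∀ c ∈ tensDeg (W.gr (power ops X.X n)) U.gr (2 * j), (∃ Δ : Subgroup Γ, Δ.FiniteIndex ∧
    ∀ g ∈ Δ, TensorProduct.map (pact X.act n g) (U.act g) c = (χ g : W.K) ^ j • c) →
    c ∈ U.cyc (power ops X.X n) j

theorem TO_step {X Y : GVar W Γ} {n : ℕ} {f : X.X ⟶ Y.X} {U : OpenVar W Γ}
    (h : LefschetzOver χ (n + 1) X Y f U) (hT : TO χ Y n U) : TO χ X n U := by
  set M := U.M with hMdef
  set τ := U.act with hτdef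
  have hK : Even X.X.dim → FewRoots W.K ∧ n + 1 < Module.finrank W.K (vanishing W f) :=
    h.large
  obtain ⟨g₀, hχ, h2, h3, hPL⟩ := h.node
  obtain ⟨s, hd, ha⟩ := h.data
  obtain ⟨v⟩ := exists_VB hd.transfer
  have hQ := dQ_as hd v ha
  intro j c hcj ⟨Δ, hΔ, hc⟩
  have hc1 : ∀ g ∈ Δ, TensorProduct.map (pact X.act n g) (τ g) c =
      (((χ ^ j) g : W.Kˣ) : W.K) • c := by
    intro g hg
    refine (hc g hg).trans ?_
    simp
  have hsum : c = ∑ q : Fin (n + 1) → Option (Fin (2 * X.X.dim + 1)),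
      (tens (piq f s q)).rTensor M c := by
    have h1 := congrArg (fun A => LinearMap.rTensorHom M A c)
      (sum_piq (ops := ops) (n := n) (f := f) s)
    beta_reduce at h1
    rw [map_sum, LinearMap.sum_apply] at h1
    simp only [LinearMap.coe_rTensorHom, LinearMap.rTensor_id, LinearMap.id_apply] at h1
    exact h1.symm
  rw [hsum]
  refine Submodule.sum_mem _ fun q _ => ?_
  obtain ⟨L, m, e, F, hF⟩ := core_z (D := 2 * X.X.dim + 1) hd v (τ := τ) (μ := χ ^ j) hχ
    (by rw [MonoidHom.pow_apply, hχ, one_pow]) (act_eq_one h2) (LinearMap.ext h3) hPL hK hΔ hc1 q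
  rw [hF]
  refine Submodule.sum_mem _ fun l _ => ?_
  rw [map_sum]
  refine Submodule.sum_mem _ fun l₁ _ => ?_
  rw [map_smul]
  refine Submodule.smul_mem _ _ ?_
  have hm : m l = m l₁ := by
    have h4 := card_free (e l)
    have h5 := card_free (e l₁)
    omega
  obtain ⟨h6, h7⟩ := low_tensDeg (low_ctr (ops := ops) v hd.transfer hd.middle (e l₁)) U.gr hcj
  by_cases hj : 2 * (X.X.dim * m l₁) ≤ 2 * j
  · have hle : X.X.dim * m l₁ ≤ j := by omega
    have h8 := h6 hj
    rw [show 2 * j - 2 * (X.X.dim * m l₁) = 2 * (j - X.X.dim * m l₁) by omega] at h8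
    obtain ⟨Δ', hΔ', hs'⟩ := hd.seq
    have h9 := hT (j - X.X.dim * m l₁) _ h8 ⟨Δ ⊓ Δ', inferInstance, fun g hg => by
      have h10 := ctr_act (ops := ops) hd v (hs' g hg.2) (e l₁) (τ g) c
      rw [hc1 g hg.1, map_smul] at h10
      rw [MonoidHom.pow_apply, Units.val_pow_eq_pow_val] at h10
      have h11 := div_semi (N := W.H (power ops Y.X n) ⊗[W.K] M) (Units.ne_zero (χ g)) hle h10
      exact h11⟩
    have h12 : mtch (ops := ops) v (e l) ∈
        algClasses W (power ops X.X n) (X.X.dim * m l) :=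
      (mtch_as v hQ (e l)).alg (mtch_mem v hd.middle (e l))
    have h13 := U.mul _ _ _ _ h12 _ (U.pull (powerMap ops f n) _ _ h9)
    have h14 : X.X.dim * m l + (j - X.X.dim * m l₁) = j := by
      rw [hm]
      exact Nat.add_sub_cancel' hle
    rw [← LinearMap.comp_apply, ← LinearMap.rTensor_comp, h14] at h13
    exact h13
  · rw [h7 (by omega), map_zero]
    exact Submodule.zero_mem _

theorem TO_tower {X Y : GVar W Γ} {n : ℕ} {U : OpenVar W Γ} (h : TowerOver χ (n + 1) U Y X)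
    (hT : TO χ Y n U) : TO χ X n U := by
  induction h with
  | base => exact hT
  | step f _ hf ih => exact TO_step hf ih

theorem TO_iff {X V : GVar W Γ} {n : ℕ} {U : OpenVar W Γ} (hX : IsPower X n V) :
    TateTimes χ V U ↔ TO χ X n U := by
  obtain ⟨υ, hυ⟩ := hX
  have h : ∀ g, (υ g).toLinearMap = pact X.act n g := pact_of_power hυ
  constructor
  · intro hT j c hc ⟨Δ, hΔ, h'⟩
    refine hT j c hc ⟨Δ, hΔ, fun g hg => ?_⟩
    have h1 := h' g hg
    rw [← h g] at h1
    exact h1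
  · intro hT j c hc ⟨Δ, hΔ, h'⟩
    refine hT j c hc ⟨Δ, hΔ, fun g hg => ?_⟩
    have h1 := h' g hg
    rw [h g] at h1
    exact h1

/-- **The Lefschetz theorem for the Tate conjecture for products with an open variety.** -/
theorem tate_open {X Y V V' : GVar W Γ} {n : ℕ} {U : OpenVar W Γ}
    (h : TowerOver χ (n + 1) U Y X) (hX : IsPower X n V) (hY : IsPower Y n V')
    (hT : TateTimes χ V' U) : TateTimes χ V U :=
  (TO_iff hX).2 (TO_tower h ((TO_iff hY).1 hT))

end Pool.Agent.N174.Lef.Open
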