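import Pool.Agent.N174.Lef.PTh

/-!
# The Lefschetz standard conjecture for morphisms with middle-dimensional vanishing cohomology
-/

open CategoryTheory AlgebraicGeometry Finset

set_option linter.unusedSectionVars false

universe u v

namespace Pool.Agent.N174.Lef

open Pool.Agent.H914 Pool.Agent.H914.VarClass Pool.Agent.H914.VarClass.Obj
  Pool.Agent.H914.WeilCohomology Pool.Agent.H281R3.HT Pool.Agent.W552

variable {k : Type u} [Field k] {𝒱 : VarClass k} {ops : CycleOps 𝒱}
  {W : WeilCohomology.{u, v} ops} {X Y Z : 𝒱.Obj}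

/-- A polarized variety with an algebraic `Λ`. -/
structure YL (W : WeilCohomology.{u, v} ops) (Y : 𝒱.Obj) (D : Y.Cycles)
    (Φ : Module.End W.K (W.H Y)) : Prop where
  hD : Y.IsCyc 1 D
  hHL : HardLefschetz W Y D
  aop : AOp W Y Y Φ
  hom : IsHom (W.gr Y) (-2) Φ
  lam : IsLam (W.gr Y) Y.dim (LinearMap.mulLeft W.K (W.cl Y D)) Φ
  pr : ∀ i, AOp W Y Y (proj (W.isInternal Y) i)

theorem exists_yl {D : Y.Cycles} (hD : Y.IsCyc 1 D) (hHL : HardLefschetz W Y D)
    (hB : LefschetzB W Y D) : ∃ Φ, YL W Y D Φ := by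
  obtain ⟨Φ, hΦ, hLam⟩ := lefschetzB_iff_rop.1 hB
  exact ⟨Φ, hD, hHL, AOp.of_rop hΦ, by simpa using rop_opAlg.hom hΦ, hLam,
    proj_aop hD hHL hB⟩

namespace YL

variable {D : Y.Cycles} {Φ : Module.End W.K (W.H Y)} (P : YL W Y D Φ)


include P

theorem hL : IsHom (W.gr Y) 2 (LinearMap.mulLeft W.K (W.cl Y D)) := by
  simpa using rop_opAlg.hom (rop_mulLeft (W := W) P.hD)

theorem Lop : AOp W Y Y (LinearMap.mulLeft W.K (W.cl Y D)) := AOp.of_rop (rop_mulLeft P.hD)

theorem L_mem {i : ℕ} {a : W.H Y} (ha : a ∈ W.gr Y i) (j : ℕ) :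
    (LinearMap.mulLeft W.K (W.cl Y D) ^ j) a ∈ W.gr Y (i + 2 * j) := pow_L_mem P.hL ha j

theorem ind {p : W.H Y → Prop} (hadd : ∀ a b, p a → p b → p (a + b))
    (hprim : ∀ i ≤ Y.dim, ∀ a ∈ W.gr Y i, (LinearMap.mulLeft W.K (W.cl Y D) ^ (Y.dim - i + 1)) a = 0 → ∀ j, p ((LinearMap.mulLeft W.K (W.cl Y D) ^ j) a))
    (a : W.H Y) : p a :=
  lef_induction' (W.isInternal Y) P.hL W_hbd P.hHL hadd hprim a

/-- The frame of an algebraic `Λ`. -/
theorem pl : ∃ g, Pl W Y D g := by
  obtain ⟨f, t, hf, hfv⟩ := exists_sl2 (W.isInternal Y) P.hL W_hbd P.hHL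
  have heR : ∀ i j, AOp W Y Y (eij (W.isInternal Y) (LinearMap.mulLeft W.K (W.cl Y D)) Φ i j) := by
    intro i j
    unfold eij
    have h1 : AOp W Y Y (1 - (LinearMap.mulLeft W.K (W.cl Y D)) * Φ) := AOp.ratSub.sub AOp.one (P.Lop.mul P.aop)
    exact (P.Lop.pow j).mul ((h1.mul (P.pr i)).mul (P.aop.pow j))
  have hfe : f = ∑ i ∈ range (Y.dim + 1), ∑ j ∈ range (Y.dim - i + 1),
      (((j : ℚ) * (((Y.dim - i : ℕ) : ℚ) - j + 1) : ℚ) : W.K) •
        (Φ * eij (W.isInternal Y) (LinearMap.mulLeft W.K (W.cl Y D)) Φ i j) := by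
    apply LinearMap.ext
    intro x
    refine P.ind (p := fun x => f x =
      (∑ i ∈ range (Y.dim + 1), ∑ j ∈ range (Y.dim - i + 1),
      (((j : ℚ) * (((Y.dim - i : ℕ) : ℚ) - j + 1) : ℚ) : W.K) •
        (Φ * eij (W.isInternal Y) (LinearMap.mulLeft W.K (W.cl Y D)) Φ i j)) x) ?_ ?_ x
    · intro a b ha hb; rw [map_add, map_add, ha, hb]
    · intro i hi a ha hp j
      by_cases hj : j ≤ Y.dim - i
      · rw [hfv i hi a ha hp j hj, LinearMap.sum_apply, Finset.sum_eq_single i]
        · rw [LinearMap.sum_apply, Finset.sum_eq_single j]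
          · rw [LinearMap.smul_apply, Module.End.mul_apply, eij_apply _ P.hL P.lam hi ha hp hj,
              if_pos ⟨rfl, rfl⟩]
            rcases Nat.eq_zero_or_pos j with rfl | h0
            · simp
            · have := (P.lam i hi a ha hp).2 (j - 1) (by omega)
              rw [show j - 1 + 1 = j by omega] at this
              rw [this]
              congr 1
              push_cast
              rfl
          · intro j' _ hj'
            rw [LinearMap.smul_apply, Module.End.mul_apply, eij_apply _ P.hL P.lam hi ha hp hj,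
              if_neg (by tauto), map_zero, smul_zero]
          · intro h'; exact absurd (Finset.mem_range.2 (by omega)) h'
        · intro i' _ hi'
          rw [LinearMap.sum_apply]
          apply Finset.sum_eq_zero
          intro j' _
          rw [LinearMap.smul_apply, Module.End.mul_apply, eij_apply _ P.hL P.lam hi ha hp hj,
            if_neg (by tauto), map_zero, smul_zero]
        · intro h'; exact absurd (Finset.mem_range.2 (by omega)) h'
      · rw [L_pow_gt hp (by omega), map_zero, map_zero]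
  have hfA : AOp W Y Y f := by
    rw [hfe]
    refine AOp.ratSub.sum _ fun i _ => AOp.ratSub.sum _ fun j _ => ?_
    exact (P.aop.mul (heR i j)).smul _
  exact ⟨f, ⟨P.hD, t, hfA⟩, ⟨P.hL, W_hbd, P.hHL, t⟩, P.pr⟩

end YL

/-- the push-forward is algebraic -/
theorem aop_push (f : X ⟶ Y) : AOp W X Y (W.push f) := by
  refine ⟨W.push (Obj.lift (𝟙 X) f) 1, AS.one.push _, ?_⟩
  apply LinearMap.ext
  intro a
  rw [corr_apply, ← W.push_mul, one_mul, ← W.map_comp, Obj.lift_fst, W.map_id,
    ← W.push_comp, Obj.lift_snd]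

section pull

variable {f : X ⟶ Y} {D : Y.Cycles} {Φ : Module.End W.K (W.H Y)} {c : ℚ} {m : ℕ}


variable (P : YL W Y D Φ)
  (hpush : W.push f 1 = (c : W.K) • W.cl Y D ^ m) (hm : X.dim + m = Y.dim) (hc : c ≠ 0)
  (hmid : vanishing W f ≤ W.gr X X.dim)

include hmid in
theorem van_proj {b : W.H X} (hb : b ∈ vanishing W f) {i : ℕ} (hi : X.dim ≠ i) :
    proj (W.isInternal X) i b = 0 := proj_ne _ (hmid hb) hi

include P hpush hm hc hmid in
/-- The image of the pull-back does not meet the vanishing cohomology. -/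
theorem im_van {a : W.H Y} (h : W.map f a ∈ vanishing W f) : W.map f a = 0 := by
  have h1 : W.map f a = W.map f (proj (W.isInternal Y) X.dim a) := by
    rw [← map_proj, proj_same _ (hmid h)]
  rw [h1] at h ⊢
  have h2 : (LinearMap.mulLeft W.K (W.cl Y D) ^ m) (proj (W.isInternal Y) X.dim a) = 0 := by
    have h3 := push_map hpush (proj (W.isInternal Y) X.dim a)
    rw [show W.push f _ = 0 from h] at h3
    exact (smul_eq_zero.1 h3.symm).resolve_left (by exact_mod_cast hc)
  have h4 := (P.hHL X.dim (by omega)).1 _ (proj_mem _ _ a) (by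
    rw [show Y.dim - X.dim = m by omega]
    exact h2)
  rw [h4, map_zero]

theorem finrank_push (f : X ⟶ Y) : Module.finrank W.K (LinearMap.range (W.push f)) =
    Module.finrank W.K (LinearMap.range (W.map f).toLinearMap) := by
  have hinj : ∀ X : 𝒱.Obj, Function.Injective (bil W X) := fun X =>
    (injective_iff_map_eq_zero _).2 fun a ha => W.nondeg a fun b => by
      rw [← bil_apply, ha]
      rfl
  have h1 : bil W Y ∘ₗ W.push f = (W.map f).toLinearMap.dualMap ∘ₗ bil W X := by
    apply LinearMap.ext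
    intro a
    apply LinearMap.ext
    intro b
    exact W.tr_push f a b
  have hsurj : LinearMap.range (bil W X) = ⊤ := by
    apply Submodule.eq_top_of_finrank_eq
    rw [LinearMap.finrank_range_of_inj (hinj X), Subspace.dual_finrank_eq]
  have h2 : Module.finrank W.K (LinearMap.range (bil W Y ∘ₗ W.push f)) =
      Module.finrank W.K (LinearMap.range (W.push f)) := by
    rw [LinearMap.range_comp]
    exact (Submodule.equivMapOfInjective _ (hinj Y) _).finrank_eq.symm
  rw [← h2, h1, LinearMap.range_comp, hsurj, Submodule.map_top,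
    LinearMap.finrank_range_dualMap_eq_finrank_range]

include P hpush hm hc hmid in
/-- **The decomposition of the cohomology.** -/
theorem decomp (b : W.H X) : ∃ a, b - W.map f a ∈ vanishing W f := by
  have h1 : vanishing W f ⊓ LinearMap.range (W.map f).toLinearMap = ⊥ := by
    rw [eq_bot_iff]
    rintro _ ⟨h, a, rfl⟩
    exact (Submodule.mem_bot _).2 (im_van P hpush hm hc hmid h)
  have h2 : vanishing W f ⊔ LinearMap.range (W.map f).toLinearMap = ⊤ := by
    apply Submodule.eq_top_of_finrank_eq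
    have h3 := Submodule.finrank_sup_add_finrank_inf_eq (vanishing W f)
      (LinearMap.range (W.map f).toLinearMap)
    rw [h1, finrank_bot, add_zero] at h3
    rw [h3, ← finrank_push, add_comm]
    exact LinearMap.finrank_range_add_finrank_ker (W.push f)
  have h3 : b ∈ vanishing W f ⊔ LinearMap.range (W.map f).toLinearMap := by
    rw [h2]
    exact Submodule.mem_top
  obtain ⟨e, he, _, ⟨a, rfl⟩, h4⟩ := Submodule.mem_sup.1 h3
  refine ⟨a, ?_⟩
  have h5 : b - W.map f a = e := by
    rw [← h4]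
    exact add_sub_cancel_right _ _
  rw [h5]
  exact he

/-- the transfer -/
noncomputable def stf (f : X ⟶ Y) (Φ : Module.End W.K (W.H Y)) (c : ℚ) (m : ℕ) :
    W.H X →ₗ[W.K] W.H Y := ((c⁻¹ : ℚ) : W.K) • ((Φ ^ m) ∘ₗ W.push f)

theorem stf_apply (b : W.H X) : stf f Φ c m b = ((c⁻¹ : ℚ) : W.K) • (Φ ^ m) (W.push f b) := rfl

theorem stf_van {b : W.H X} (hb : b ∈ vanishing W f) : stf f Φ c m b = 0 := by
  rw [stf_apply, show W.push f b = 0 from hb, map_zero, smul_zero]

include P in
theorem stf_aop : AOp W X Y (stf f Φ c m) := ((P.aop.pow m).comp (aop_push f)).smul _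

include P hpush hm hc in
theorem stf_map_L {i : ℕ} (hi : i ≤ Y.dim) {u : W.H Y} (hu : u ∈ W.gr Y i)
    (hp : (LinearMap.mulLeft W.K (W.cl Y D) ^ (Y.dim - i + 1)) u = 0) {j : ℕ} (hj : i + j ≤ X.dim) :
    stf f Φ c m (W.map f ((LinearMap.mulLeft W.K (W.cl Y D) ^ j) u)) = (LinearMap.mulLeft W.K (W.cl Y D) ^ j) u := by
  rw [stf_apply, push_map hpush, map_smul, smul_smul, ← Rat.cast_mul, inv_mul_cancel₀ hc,
    Rat.cast_one, one_smul, ← Module.End.mul_apply (LinearMap.mulLeft W.K (W.cl Y D) ^ m), ← pow_add,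
    lam_pow P.lam hi hu hp (by omega) m (by omega), Nat.add_sub_cancel_left]

include P hpush hm hmid in
theorem map_L_zero {i : ℕ} (hi : i ≤ Y.dim) {u : W.H Y} (hu : u ∈ W.gr Y i)
    (hp : (LinearMap.mulLeft W.K (W.cl Y D) ^ (Y.dim - i + 1)) u = 0) {j : ℕ} (hj : X.dim < i + j) :
    W.map f ((LinearMap.mulLeft W.K (W.cl Y D) ^ j) u) = 0 := by
  by_cases hix : X.dim < i
  · rw [map_L, map_prim_zero hpush hm hmid hix hi hu hp, map_zero]
  push Not at hix
  have h1 : W.map f ((LinearMap.mulLeft W.K (W.cl Y D) ^ (X.dim - i + 1)) u) ∈ vanishing W f := by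
    change W.push f _ = 0
    rw [push_map hpush, ← Module.End.mul_apply, ← pow_add,
      show m + (X.dim - i + 1) = Y.dim - i + 1 by omega, hp, smul_zero]
  have h2 := W.map_mem f (P.L_mem hu (X.dim - i + 1))
  have h3 := gr_disj (by omega) h2 (hmid h1)
  obtain ⟨l, rfl⟩ := Nat.exists_eq_add_of_le (show X.dim - i + 1 ≤ j by omega)
  rw [add_comm, pow_add, Module.End.mul_apply, map_L, h3, map_zero]

include P hpush hm hc hmid in
theorem map_stf_map (a : W.H Y) : W.map f (stf f Φ c m (W.map f a)) = W.map f a := by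
  refine P.ind (p := fun a => W.map f (stf f Φ c m (W.map f a)) = W.map f a) ?_ ?_ a
  · intro a b ha hb
    rw [map_add, map_add, map_add, ha, hb]
  · intro i hi u hu hp j
    by_cases hj : i + j ≤ X.dim
    · rw [stf_map_L P hpush hm hc hi hu hp hj]
    · rw [map_L_zero P hpush hm hmid hi hu hp (by omega), map_zero, map_zero]

include P hpush hm hc hmid in
theorem sub_stf (b : W.H X) : b - W.map f (stf f Φ c m b) ∈ vanishing W f := by
  obtain ⟨a, ha⟩ := decomp P hpush hm hc hmid b
  have h1 : stf f Φ c m b = stf f Φ c m (W.map f a) := by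
    rw [← sub_eq_zero, ← map_sub]
    exact stf_van ha
  rw [h1, map_stf_map P hpush hm hc hmid]
  exact ha

include P hm in
theorem stf_gr {i : ℕ} {a : W.H X} (ha : a ∈ W.gr X i) : stf f Φ c m a ∈ W.gr Y i := by
  rw [stf_apply]
  refine Submodule.smul_mem _ _ ?_
  have h1 := W.push_mem f ha
  rw [show (i : ℤ) + 2 * ((Y.dim : ℤ) - X.dim) = (i : ℤ) + 2 * m by omega] at h1
  have key : ∀ (l : ℕ) (b : W.H Y), b ∈ grZ (W.gr Y) ((i : ℤ) + 2 * l) →
      (Φ ^ l) b ∈ W.gr Y i := by
    intro l
    induction l with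
    | zero =>
      intro b hb
      rw [Nat.cast_zero, mul_zero, add_zero, grZ_natCast] at hb
      simpa using hb
    | succ l ih =>
      intro b hb
      rw [pow_succ, Module.End.mul_apply]
      refine ih _ ?_
      have h2 := P.hom _ b hb
      rwa [show (i : ℤ) + 2 * ((l + 1 : ℕ) : ℤ) + -2 = (i : ℤ) + 2 * l by push_cast; ring] at h2
  exact key m _ h1

include P hpush hm hc hmid in
theorem stf_transfer : IsTransfer W f (stf f Φ c m) where
  gr_mem i a ha := stf_gr P hm ha
  sub_mem b := sub_stf P hpush hm hc hmid b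
  ker a ha := stf_van ha

include P hpush hm hc hmid in
theorem proj_aop_pull (i : ℕ) : AOp W X X (proj (W.isInternal X) i) := by
  have hs := stf_aop (f := f) (c := c) (m := m) P
  have hJ : AOp W X X ((W.map f).toLinearMap ∘ₗ proj (W.isInternal Y) i ∘ₗ stf f Φ c m) :=
    (aop_map f).comp ((P.pr i).comp hs)
  have h0 : ∀ b, proj (W.isInternal X) i b = W.map f (proj (W.isInternal Y) i (stf f Φ c m b)) +
      proj (W.isInternal X) i (b - W.map f (stf f Φ c m b)) := by
    intro b
    rw [map_sub, map_proj]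
    abel
  by_cases hi : X.dim = i
  · have h1 : proj (W.isInternal X) i =
        (W.map f).toLinearMap ∘ₗ proj (W.isInternal Y) i ∘ₗ stf f Φ c m +
          (1 - (W.map f).toLinearMap ∘ₗ stf f Φ c m) := by
      apply LinearMap.ext
      intro b
      rw [h0 b, ← hi, proj_same _ (hmid (sub_stf P hpush hm hc hmid b))]
      rfl
    rw [h1]
    exact hJ.add (AOp.ratSub.sub AOp.one ((aop_map f).comp hs))
  · have h1 : proj (W.isInternal X) i =
        (W.map f).toLinearMap ∘ₗ proj (W.isInternal Y) i ∘ₗ stf f Φ c m := by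
      apply LinearMap.ext
      intro b
      rw [h0 b, van_proj hmid (sub_stf P hpush hm hc hmid b) hi, add_zero]
      rfl
    rw [h1]
    exact hJ

include P hpush hm hc hmid in
/-- elements of degree different from the middle degree come from `Y` -/
theorem eq_map {i : ℕ} (hi : i ≠ X.dim) {b : W.H X} (hb : b ∈ W.gr X i) :
    b = W.map f (stf f Φ c m b) := by
  rw [← sub_eq_zero]
  exact gr_disj hi (Submodule.sub_mem _ hb (W.map_mem f (stf_gr P hm hb)))
    (hmid (sub_stf P hpush hm hc hmid b))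

include P hpush hm hc hmid in
/-- **Hard Lefschetz.** -/
theorem hard_pull : HardLefschetz W X (ops.pull f D) := by
  have hinj : ∀ {j : ℕ} {a : W.H Y}, a ∈ W.gr Y j → j ≠ X.dim → (LinearMap.mulLeft W.K (W.cl Y D) ^ m) a = 0 →
      W.map f a = 0 := by
    intro j a ha hj h0
    refine gr_disj hj (W.map_mem f ha) (hmid ?_)
    change W.push f (W.map f a) = 0
    rw [push_map hpush, h0, smul_zero]
  intro i hi
  rcases Nat.eq_or_lt_of_le hi with rfl | hi'
  · refine ⟨fun a _ h0 => by simpa using h0, fun b hb => ⟨b, ?_, by simp⟩⟩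
    rwa [show 2 * X.dim - X.dim = X.dim by omega] at hb
  constructor
  · intro b hb h0
    have h1 := eq_map P hpush hm hc hmid (by omega) hb
    have ha := stf_gr (f := f) (c := c) P hm hb
    set a := stf f Φ c m b
    rw [h1, ← map_L] at h0
    have h2 : (LinearMap.mulLeft W.K (W.cl Y D) ^ (Y.dim - i)) a = 0 := by
      have h3 := push_map hpush ((LinearMap.mulLeft W.K (W.cl Y D) ^ (X.dim - i)) a)
      rw [h0, map_zero, ← Module.End.mul_apply, ← pow_add,
        show m + (X.dim - i) = Y.dim - i by omega] at h3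
      exact (smul_eq_zero.1 h3.symm).resolve_left (by exact_mod_cast hc)
    rw [h1, (P.hHL i (by omega)).1 a ha h2, map_zero]
  · intro b hb
    have h1 := eq_map P hpush hm hc hmid (by omega) hb
    have ha := stf_gr (f := f) (c := c) P hm hb
    set a := stf f Φ c m b
    obtain ⟨a', ha', h2⟩ := (P.hHL i (by omega)).2 ((LinearMap.mulLeft W.K (W.cl Y D) ^ m) a) (by
      have h3 := P.L_mem ha m
      rwa [show 2 * X.dim - i + 2 * m = 2 * Y.dim - i by omega] at h3)
    refine ⟨W.map f a', W.map_mem f ha', ?_⟩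
    rw [h1, ← map_L, ← sub_eq_zero, ← map_sub]
    have h4 := P.L_mem ha' (X.dim - i)
    rw [show i + 2 * (X.dim - i) = 2 * X.dim - i by omega] at h4
    refine hinj (Submodule.sub_mem _ h4 ha) (by omega) ?_
    rw [map_sub, ← Module.End.mul_apply, ← pow_add, show m + (X.dim - i) = Y.dim - i by omega,
      h2, sub_self]

/-- the operator `Λ` of `X` -/
noncomputable def lamX (f : X ⟶ Y) (Φ : Module.End W.K (W.H Y)) (c : ℚ) (m : ℕ) :
    Module.End W.K (W.H X) := (W.map f).toLinearMap ∘ₗ Φ ∘ₗ stf f Φ c m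

include P hpush hm hc hmid in
theorem prim_lift {i : ℕ} (hi : i ≤ X.dim) {b : W.H X} (hb : b ∈ W.gr X i)
    (hp : (LinearMap.mulLeft W.K (W.cl X (ops.pull f D)) ^ (X.dim - i + 1)) b = 0) : (LinearMap.mulLeft W.K (W.cl Y D) ^ (Y.dim - i + 1)) (stf f Φ c m b) = 0 := by
  have hE := sub_stf P hpush hm hc hmid b
  have h1 : (LinearMap.mulLeft W.K (W.cl X (ops.pull f D)) ^ (X.dim - i + 1)) (b - W.map f (stf f Φ c m b)) = 0 := by
    have h2 : W.cl X (ops.pull f D) * (b - W.map f (stf f Φ c m b)) = 0 := by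
      have h3 : W.cl X (ops.pull f D) * (b - W.map f (stf f Φ c m b)) ∈ vanishing W f := by
        change W.push f _ = 0
        rw [W.cl_pull, ← W.mul_push f (W.cl_mem P.hD), show W.push f _ = 0 from hE, mul_zero]
      have h4 : W.cl X (ops.pull f D) * (b - W.map f (stf f Φ c m b)) ∈ W.gr X (2 + X.dim) :=
        W.mul_mem (W.cl_mem (p := 1) (ops.pull_mem f P.hD)) (hmid hE)
      exact gr_disj (by omega) h4 (hmid h3)
    rw [pow_succ, Module.End.mul_apply, LinearMap.mulLeft_apply, h2, map_zero]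
  rw [map_sub, hp, zero_sub, neg_eq_zero, ← map_L] at h1
  have h3 := push_map hpush ((LinearMap.mulLeft W.K (W.cl Y D) ^ (X.dim - i + 1)) (stf f Φ c m b))
  rw [h1, map_zero, ← Module.End.mul_apply, ← pow_add,
    show m + (X.dim - i + 1) = Y.dim - i + 1 by omega] at h3
  exact (smul_eq_zero.1 h3.symm).resolve_left (by exact_mod_cast hc)

include P hpush hm hc hmid in
/-- **The Lefschetz standard conjecture.** -/
theorem yl_pull : YL W X (ops.pull f D) (lamX f Φ c m) where
  hD := ops.pull_mem f P.hD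
  hHL := hard_pull P hpush hm hc hmid
  aop := (aop_map f).comp (P.aop.comp (stf_aop P))
  hom := by
    intro i a ha
    by_cases hi : 0 ≤ i
    · obtain ⟨l, rfl⟩ := Int.eq_ofNat_of_zero_le hi
      rw [grZ_natCast] at ha
      have h1 := stf_gr (f := f) (c := c) P hm ha
      have h2 := P.hom l _ (by rw [grZ_natCast]; exact h1)
      by_cases hl : 2 ≤ l
      · rw [show ((l : ℕ) : ℤ) + -2 = ((l - 2 : ℕ) : ℤ) by omega, grZ_natCast] at h2 ⊢
        exact W.map_mem f h2
      · rw [grZ_of_neg (by omega)] at h2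
        have h3 := (Submodule.mem_bot _).1 h2
        change W.map f (Φ (stf f Φ c m a)) ∈ _
        rw [h3, map_zero]
        exact Submodule.zero_mem _
    · rw [grZ_of_neg (by omega)] at ha
      rw [(Submodule.mem_bot _).1 ha, map_zero]
      exact Submodule.zero_mem _
  lam := by
    intro i hi b hb hp
    have h1 := prim_lift P hpush hm hc hmid hi hb hp
    have ha := stf_gr (f := f) (c := c) P hm hb
    constructor
    · change W.map f (Φ (stf f Φ c m b)) = 0
      rw [(P.lam i (by omega) _ ha h1).1, map_zero]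
    · intro j hj
      have h2 := eq_map P hpush hm hc hmid (by omega) hb
      set a := stf f Φ c m b
      change W.map f (Φ (stf f Φ c m ((LinearMap.mulLeft W.K (W.cl X (ops.pull f D)) ^ (j + 1)) b))) = (LinearMap.mulLeft W.K (W.cl X (ops.pull f D)) ^ j) b
      rw [h2, ← map_L, ← map_L, stf_map_L P hpush hm hc (by omega) ha h1 (by omega),
        (P.lam i (by omega) _ ha h1).2 j (by omega)]
  pr := proj_aop_pull P hpush hm hc hmid

end pull

end Pool.Agent.N174.Lef
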