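import Pool.Agent.N174.Lef.Op
import Pool.Agent.N174.Lef.Ext

/-!
# Equivariance of the contractions
-/

open CategoryTheory AlgebraicGeometry Finset Function TensorProduct

set_option linter.unusedSectionVars false

universe u v w x

namespace Pool.Agent.N174.Lef

open Pool.Agent.H914 Pool.Agent.H914.VarClass Pool.Agent.H914.VarClass.Obj
  Pool.Agent.H914.WeilCohomology Pool.Agent.H281R3.HT Pool.Agent.W552 Pool.Agent.TH125.Gal

variable {k : Type u} [Field k] {𝒱 : VarClass k} {ops : CycleOps 𝒱}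
  {W : WeilCohomology.{u, v} ops} {X Y : 𝒱.Obj} {f : X ⟶ Y} {n D : ℕ}
  {Γ : Type w} [Group Γ] {M : Type x} [AddCommGroup M] [Module W.K M]

/-- the action on the cohomology of a power -/
noncomputable def pact (ρ : Γ →* (W.H X ≃ₐ[W.K] W.H X)) (n : ℕ) (g : Γ) :
    W.H (power ops X n) →ₗ[W.K] W.H (power ops X n) := tens fun _ => (ρ g).toLinearMap

theorem pact_one (ρ : Γ →* (W.H X ≃ₐ[W.K] W.H X)) : pact ρ n 1 = LinearMap.id := by
  rw [pact, map_one]
  exact tens_id

theorem pact_mul (ρ : Γ →* (W.H X ≃ₐ[W.K] W.H X)) (g g' : Γ) :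
    pact ρ n (g * g') = pact ρ n g ∘ₗ pact ρ n g' := by
  rw [pact, pact, pact, tens_comp, map_mul]
  rfl

theorem pact_of_one (ρ : Γ →* (W.H X ≃ₐ[W.K] W.H X)) {g : Γ} (h : ρ g = 1) :
    pact ρ n g = LinearMap.id := by
  rw [pact, h]
  exact tens_id

/-- the action on the tensor product, twisted by a character -/
noncomputable def sig (lam : Γ →* W.Kˣ) (ρ : Γ →* (W.H Y ≃ₐ[W.K] W.H Y)) (τ : Γ →* (M →ₗ[W.K] M))
    (n : ℕ) : Γ →* (W.H (power ops Y n) ⊗[W.K] M →ₗ[W.K] W.H (power ops Y n) ⊗[W.K] M) where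
  toFun g := (lam g : W.K) • TensorProduct.map (pact ρ n g) (τ g)
  map_one' := by
    rw [map_one, map_one, Units.val_one, one_smul, pact_one]
    exact TensorProduct.map_id
  map_mul' g g' := by
    rw [map_mul, map_mul, pact_mul, Module.End.mul_eq_comp, TensorProduct.map_comp, Units.val_mul,
      Module.End.mul_eq_comp, LinearMap.smul_comp, LinearMap.comp_smul, smul_smul]

theorem sig_apply (lam : Γ →* W.Kˣ) (ρ : Γ →* (W.H Y ≃ₐ[W.K] W.H Y)) (τ : Γ →* (M →ₗ[W.K] M))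
    (g : Γ) : sig (ops := ops) lam ρ τ n g =
      (lam g : W.K) • TensorProduct.map (pact ρ n g) (τ g) := rfl

/-- the formal properties -/
structure Data (χ : Γ →* W.Kˣ) (f : X ⟶ Y) (ρ : Γ →* (W.H X ≃ₐ[W.K] W.H X))
    (ρY : Γ →* (W.H Y ≃ₐ[W.K] W.H Y)) (s : W.H X →ₗ[W.K] W.H Y) : Prop where
  gr_mem : ∀ g i, ∀ a ∈ W.gr X i, ρ g a ∈ W.gr X i
  tr_act : ∀ g a, W.tr X (ρ g a) = (χ g : W.K) ^ X.dim * W.tr X a
  equi : ∀ g a, ρ g (W.map f a) = W.map f (ρY g a)
  transfer : IsTransfer W f s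
  seq : ∃ Δ : Subgroup Γ, Δ.FiniteIndex ∧ ∀ g ∈ Δ, ∀ a, s (ρ g a) = ρY g (s a)
  middle : vanishing W f ≤ W.gr X X.dim
  irr : IrredAct ρ (vanishing W f)

variable {χ : Γ →* W.Kˣ} {ρ : Γ →* (W.H X ≃ₐ[W.K] W.H X)} {ρY : Γ →* (W.H Y ≃ₐ[W.K] W.H Y)}
  {s : W.H X →ₗ[W.K] W.H Y}

theorem Data.bil_act (h : Data χ f ρ ρY s) (g : Γ) (a b : W.H X) :
    bil W X (ρ g a) (ρ g b) = (χ g : W.K) ^ X.dim * bil W X a b := by
  rw [bil_apply, ← map_mul, h.tr_act, bil_apply]

theorem Data.van_act (h : Data χ f ρ ρY s) (g : Γ) {a : W.H X} (ha : a ∈ vanishing W f) :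
    ρ g a ∈ vanishing W f := by
  change W.push f (ρ g a) = 0
  apply W.nondeg
  intro b
  have h1 : b = ρY g (ρY g⁻¹ b) := (act_inv ρY g b).symm
  rw [W.tr_push, h1, ← h.equi, ← map_mul, h.tr_act, ← bil_apply, van_map ha, mul_zero]

theorem proj_act (hgr : ∀ g i, ∀ a ∈ W.gr X i, ρ g a ∈ W.gr X i) (g : Γ) (i : ℕ) (a : W.H X) :
    proj (W.isInternal X) i (ρ g a) = ρ g (proj (W.isInternal X) i a) := by
  refine gr_induction (W.isInternal X) (p := fun a => proj (W.isInternal X) i (ρ g a) =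
    ρ g (proj (W.isInternal X) i a)) ?_ ?_ a
  · intro j a ha
    by_cases hij : j = i
    · subst hij
      rw [proj_same _ ha, proj_same _ (hgr g j a ha)]
    · rw [proj_ne _ ha hij, proj_ne _ (hgr g j a ha) hij, map_zero]
  · intro a b ha hb
    rw [map_add, map_add, ha, hb, map_add, map_add]

/-- the action on the vanishing cohomology -/
noncomputable def rhoV (h : Data χ f ρ ρY s) :
    Γ →* (vanishing W f →ₗ[W.K] vanishing W f) where
  toFun g := (ρ g).toLinearMap.restrict fun _ ht => h.van_act g ht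
  map_one' := by
    apply LinearMap.ext
    intro t
    apply Subtype.ext
    change ρ 1 (t : W.H X) = t
    rw [map_one]
    rfl
  map_mul' g g' := by
    apply LinearMap.ext
    intro t
    apply Subtype.ext
    change ρ (g * g') (t : W.H X) = ρ g (ρ g' (t : W.H X))
    rw [map_mul]
    rfl

theorem rhoV_apply (h : Data χ f ρ ρY s) (g : Γ) (t : vanishing W f) :
    (rhoV h g t : W.H X) = ρ g t := rfl

theorem SI_rhoV (h : Data χ f ρ ρY s) : SI (rhoV h) := by
  intro Δ hΔ U hU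
  have hst : ∀ g ∈ Δ, ∀ a ∈ U.map (vanishing W f).subtype,
      ρ g a ∈ U.map (vanishing W f).subtype := by
    rintro g hg _ ⟨x, hx, rfl⟩
    exact ⟨rhoV h g x, hU g hg x hx, rfl⟩
  rcases h.irr Δ hΔ (U.map (vanishing W f).subtype) (Submodule.map_subtype_le _ _) hst with
    h1 | h1
  · left
    rw [eq_bot_iff]
    intro x hx
    have h2 : (x : W.H X) ∈ U.map (vanishing W f).subtype := ⟨x, hx, rfl⟩
    rw [h1, Submodule.mem_bot] at h2
    exact (Submodule.mem_bot _).2 (Subtype.ext h2)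
  · right
    rw [eq_top_iff]
    intro x _
    have h2 : (x : W.H X) ∈ U.map (vanishing W f).subtype := by
      rw [h1]
      exact x.2
    obtain ⟨y, hy, hyx⟩ := h2
    have h3 : y = x := Subtype.ext hyx
    rwa [h3] at hy

theorem prod_free (q : Fin (n + 1) → Option (Fin D)) (a : W.K) :
    ∏ p, (if q p = none then a else 1) = a ^ Fintype.card (Free q) := by
  rw [Finset.prod_ite, Finset.prod_const_one, mul_one, Finset.prod_const, Fintype.card_subtype]

/-- equivariance of the operators -/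
theorem opK_act (h : Data χ f ρ ρY s) {g : Γ} (hg : ∀ a, s (ρ g a) = ρY g (s a))
    (q : Fin (n + 1) → Option (Fin D)) (z : Free q → W.H X) :
    tens (opK s q fun p => ρ g (z p)) ∘ₗ pact (ops := ops) ρ n g =
      ((χ g : W.K) ^ (X.dim * Fintype.card (Free q))) • (pact ρY n g ∘ₗ tens (opK s q z)) := by
  rw [pact, pact, tens_comp, tens_comp, pow_mul, ← prod_free q, ← tensML_apply, ← tensML_apply,
    ← MultilinearMap.map_smul_univ]
  congr 1
  funext p
  apply LinearMap.ext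
  intro a
  by_cases hp : q p = none
  · rw [if_pos hp]
    change opK s q (fun p => ρ g (z p)) p (ρ g a) =
      (χ g : W.K) ^ X.dim • ρY g (opK s q z p a)
    rw [opK_none _ hp, opK_none _ hp, ct_apply, ct_apply, h.bil_act, map_smul, map_one, smul_smul]
  · rw [if_neg hp]
    obtain ⟨i, hi⟩ := Option.ne_none_iff_exists'.1 hp
    change opK s q (fun p => ρ g (z p)) p (ρ g a) = (1 : W.K) • ρY g (opK s q z p a)
    rw [opK_some _ hi, opK_some _ hi, one_smul]
    change s (proj (W.isInternal X) i (ρ g a)) = ρY g (s (proj (W.isInternal X) i a))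
    rw [proj_act h.gr_mem, hg]

/-- the twisting character -/
noncomputable def lamq (χ μ : Γ →* W.Kˣ) (X : 𝒱.Obj) (q : Fin (n + 1) → Option (Fin D)) :
    Γ →* W.Kˣ := μ⁻¹ * χ ^ (X.dim * Fintype.card (Free q))

theorem lamq_apply (χ μ : Γ →* W.Kˣ) (X : 𝒱.Obj) (q : Fin (n + 1) → Option (Fin D)) (g : Γ) :
    (lamq χ μ X q g : W.K) = (μ g : W.K)⁻¹ * (χ g : W.K) ^ (X.dim * Fintype.card (Free q)) := by
  rw [lamq]
  simp

/-- **Equivariance.** -/
theorem hK_eqv (h : Data χ f ρ ρY s) {τ : Γ →* (M →ₗ[W.K] M)} {μ : Γ →* W.Kˣ}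
    {c : W.H (power ops X n) ⊗[W.K] M} {Δ : Subgroup Γ} (hΔ : Δ.FiniteIndex)
    (hc : ∀ g ∈ Δ, TensorProduct.map (pact ρ n g) (τ g) c = (μ g : W.K) • c)
    (q : Fin (n + 1) → Option (Fin D)) :
    Eqv (rhoV h) (sig (lamq χ μ X q) ρY τ n) (hK f s q c) := by
  obtain ⟨Δ', hΔ', hs⟩ := h.seq
  refine ⟨Δ ⊓ Δ', inferInstance, fun g hg z => ?_⟩
  have h1 : c = (μ g : W.K)⁻¹ • TensorProduct.map (pact ρ n g) (τ g) c := by
    rw [hc g hg.1, smul_smul, inv_mul_cancel₀ (Units.ne_zero _), one_smul]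
  have h2 : ∀ (A : W.H (power ops X n) →ₗ[W.K] W.H (power ops Y n)) (c : W.H (power ops X n) ⊗[W.K] M),
      A.rTensor M (TensorProduct.map (pact ρ n g) (τ g) c) =
        TensorProduct.map (A ∘ₗ pact ρ n g) (τ g) c := by
    intro A c
    rw [LinearMap.rTensor, ← LinearMap.comp_apply, ← TensorProduct.map_comp, LinearMap.id_comp]
  rw [hK_apply, hK_apply, sig_apply, LinearMap.smul_apply, lamq_apply]
  conv_lhs => rw [h1]
  rw [map_smul, h2]
  have h3 := opK_act (ops := ops) h (hs g hg.2) q (fun p => (z p : W.H X))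
  have h4 : (fun p => ((rhoV h g (z p) : vanishing W f) : W.H X)) =
      fun p => ρ g (z p : W.H X) := rfl
  rw [h4, h3, TensorProduct.map_smul_left, LinearMap.smul_apply, smul_smul]
  congr 1
  rw [LinearMap.rTensor, ← LinearMap.comp_apply, ← TensorProduct.map_comp, LinearMap.comp_id]

end Pool.Agent.N174.Lef
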