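import Pool.Agent.TH125.Gal.Pub

/-!
# The rational numbers contain finitely many `ζ + ζ⁻¹`
-/

universe u

namespace Pool.Agent.N174.Lef

open Pool.Agent.TH125.Gal

/-- the sequence `ζ ^ k + ζ⁻¹ ^ k` -/
def lucas (z : ℤ) : ℕ → ℤ × ℤ
  | 0 => (2, z)
  | k + 1 => ((lucas z k).2, z * (lucas z k).2 - (lucas z k).1)

theorem lucas_eq {L : Type*} [Field L] {ζ : L} (hζ : ζ ≠ 0) {z : ℤ} (hz : (z : L) = ζ + ζ⁻¹)
    (k : ℕ) : ((lucas z k).1 : L) = ζ ^ k + ζ⁻¹ ^ k ∧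
      ((lucas z k).2 : L) = ζ ^ (k + 1) + ζ⁻¹ ^ (k + 1) := by
  induction k with
  | zero =>
    simp only [lucas, pow_zero, zero_add, pow_one]
    exact ⟨by norm_num, hz⟩
  | succ k ih =>
    refine ⟨ih.2, ?_⟩
    simp only [lucas]
    push_cast
    rw [ih.1, ih.2, hz]
    have h1 : ζ * ζ⁻¹ = 1 := mul_inv_cancel₀ hζ
    have h2 : (ζ + ζ⁻¹) * (ζ ^ (k + 1) + ζ⁻¹ ^ (k + 1)) - (ζ ^ k + ζ⁻¹ ^ k) =
        ζ ^ (k + 1 + 1) + ζ⁻¹ ^ (k + 1 + 1) + (ζ * ζ⁻¹ - 1) * (ζ ^ k + ζ⁻¹ ^ k) := by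
      ring
    rw [h2, h1]
    ring

theorem lucas_lt {z : ℤ} (hz : 3 ≤ |z|) (k : ℕ) :
    2 ≤ |(lucas z k).1| ∧ |(lucas z k).1| < |(lucas z k).2| := by
  induction k with
  | zero => exact ⟨by norm_num [lucas], by simp only [lucas]; norm_num; omega⟩
  | succ k ih =>
    refine ⟨by simp only [lucas]; omega, ?_⟩
    simp only [lucas]
    have h1 : |z * (lucas z k).2| = |z| * |(lucas z k).2| := abs_mul _ _
    have h2 := abs_sub_abs_le_abs_sub (z * (lucas z k).2) (lucas z k).1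
    have h3 : 3 * |(lucas z k).2| ≤ |z| * |(lucas z k).2| :=
      mul_le_mul_of_nonneg_right hz (abs_nonneg _)
    have h4 := abs_nonneg (lucas z k).2
    omega

theorem fewRoots_of_rat {K : Type u} [Field K] [CharZero K] (h : ∀ r : K, ∃ q : ℚ, (q : K) = r) :
    FewRoots K := by
  refine Set.Finite.subset ((Set.finite_Icc (-2 : ℤ) 2).image fun z : ℤ => (z : K)) ?_
  rintro x ⟨ζ, ⟨m, hm, hζm⟩, hx⟩
  obtain ⟨q, rfl⟩ := h x
  have hζ0 : ζ ≠ 0 := by
    rintro rfl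
    rw [zero_pow (by omega)] at hζm
    exact zero_ne_one hζm
  have : CharZero (AlgebraicClosure K) := charZero_of_injective_algebraMap
    (algebraMap K (AlgebraicClosure K)).injective
  have hi : ∀ η : AlgebraicClosure K, η ^ m = 1 → IsIntegral ℤ η := fun η hη =>
    IsIntegral.of_pow (by omega : 0 < m) (by rw [hη]; exact isIntegral_one)
  have h1 : IsIntegral ℤ (ζ + ζ⁻¹) :=
    (hi ζ hζm).add (hi ζ⁻¹ (by rw [inv_pow, hζm, inv_one]))
  rw [← hx, map_ratCast] at h1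
  have h2 : IsIntegral ℤ q := by
    have h3 : ((q : ℚ) : AlgebraicClosure K) = algebraMap ℚ (AlgebraicClosure K) q := by
      rw [eq_ratCast]
    rw [h3] at h1
    exact (isIntegral_algebraMap_iff (algebraMap ℚ (AlgebraicClosure K)).injective).1 h1
  obtain ⟨z, hz⟩ := IsIntegrallyClosed.isIntegral_iff.1 h2
  have hz' : q = (z : ℚ) := by rw [← hz]; rfl
  subst hz'
  have hzz : ((z : ℤ) : AlgebraicClosure K) = ζ + ζ⁻¹ := by
    rw [← hx]
    simp
  refine ⟨z, ?_, by simp⟩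
  have hb : |z| ≤ 2 := by
    by_contra hcon
    push Not at hcon
    have h4 := lucas_lt (z := z) (by omega) (m - 1)
    have h5 := (lucas_eq hζ0 hzz (m - 1)).2
    have h6 : m - 1 + 1 = m := by omega
    rw [h6, hζm, inv_pow, hζm, inv_one] at h5
    have h7 : (lucas z (m - 1)).2 = 2 := by
      have h8 : (((lucas z (m - 1)).2 : ℤ) : AlgebraicClosure K) = ((2 : ℤ) : AlgebraicClosure K) := by
        rw [h5]
        norm_num
      exact_mod_cast h8
    rw [h7] at h4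
    norm_num at h4
    omega
  rw [abs_le] at hb
  exact Set.mem_Icc.2 hb

end Pool.Agent.N174.Lef
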