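import Pool.Agent.R920.MT.Defs
import Pool.Agent.Y121.AHS.Defs

/-!
# Hodge classes on families with a large monodromy: definitions
-/

open CategoryTheory AlgebraicGeometry

universe u v w

namespace Pool.Agent.N174.Lef.Hdg

section Alg

/-- An action of the group `Γ` on the algebra `A`. -/
structure Act (Γ : Type w) [Group Γ] (K : Type v) [Field K] (A : Type v) [Ring A]
    [Algebra K A] where
  /-- the action -/
  hom : Γ →* (A ≃ₐ[K] A)

variable {K : Type v} [Field K] {A : Type v} [Ring A] [Algebra K A] {B : Type v} [Ring B]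
  [Algebra K B] {C : Type v} [Ring C] [Algebra K C] {Γ : Type w} [Group Γ]

/-- The homomorphism `f` is equivariant. -/
def Equivar (f : B →ₐ[K] A) (σ : Act Γ K B) (ρ : Act Γ K A) : Prop :=
  ∀ g b, ρ.hom g (f b) = f (σ.hom g b)

/-- The element `c` is fixed by a subgroup of finite index. -/
def FixedFin (ρ : Act Γ K A) (c : A) : Prop :=
  ∃ Δ : Subgroup Γ, Δ.FiniteIndex ∧ ∀ g ∈ Δ, ρ.hom g c = c

/-- The subspace `T` is irreducible under all subgroups of finite index. -/
def Irred (ρ : Act Γ K A) (T : Submodule K A) : Prop :=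
  ∀ Δ : Subgroup Γ, Δ.FiniteIndex → ∀ U ≤ T, (∀ g ∈ Δ, ∀ a ∈ U, ρ.hom g a ∈ U) →
    U = ⊥ ∨ U = T

/-- Some `g` acts trivially on `B` and `C`, and by a Picard-Lefschetz formula on `T`. -/
def Node (tr : A →ₗ[K] K) (T : Submodule K A) (ρ : Act Γ K A) (σ : Act Γ K B)
    (τ : Act Γ K C) : Prop :=
  ∃ g : Γ, (∀ b, σ.hom g b = b) ∧ (∀ c, τ.hom g c = c) ∧
    ∃ δ ∈ T, δ ≠ 0 ∧ ∃ c : K, c ≠ 0 ∧ ∀ t ∈ T, ρ.hom g t = t + (c * tr (δ * t)) • δ

/-- The linear map `s : A → B` preserves the degrees, it is zero on the subspace `T` of `A`, and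
`a - f (s a)` is in `T` for all `a`, where `f : B → A`. So `f ∘ s` is a projector with kernel `T`.
It is equivariant for a subgroup of finite index of `Γ`. -/
structure IsRetract (grA : ℕ → Submodule K A) (grB : ℕ → Submodule K B) (f : B →ₐ[K] A)
    (T : Submodule K A) (ρ : Act Γ K A) (σ : Act Γ K B) (s : A →ₗ[K] B) : Prop where
  gr_mem : ∀ i, ∀ a ∈ grA i, s a ∈ grB i
  sub_mem : ∀ a, a - f (s a) ∈ T
  ker : ∀ a ∈ T, s a = 0
  act : ∃ Δ : Subgroup Γ, Δ.FiniteIndex ∧ ∀ g ∈ Δ, ∀ a, s (ρ.hom g a) = σ.hom g (s a)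

/-- The map `a ↦ q (c p(a))` is equal to `s` in degree `i`, and zero in all other degrees. -/
def InducesIn (gr : ℕ → Submodule K A) (p : A →ₐ[K] C) (q : C →ₗ[K] B) (s : A →ₗ[K] B) (i : ℕ)
    (c : C) : Prop :=
  ∀ j, ∀ a ∈ gr j, q (c * p a) = if j = i then s a else 0

/-- Formal properties of a morphism of Lefschetz type `X ⟶ Y`, where `A = H(X)`, `B = H(Y)`,
`C = H(X × Y)`, `n = dim X` and `T` is the vanishing cohomology: the action of `Γ` on `A` preserves
the degrees and the orientation; `f : B → A` is equivariant and has a retraction along `T` which is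
in each degree given by an element of the set `S` of classes on `X × Y`; the subspace `T` is in the
middle degree and irreducible under all subgroups of finite index of `Γ`. -/
structure LefschetzAct (n : ℕ) (grA : ℕ → Submodule K A) (grB : ℕ → Submodule K B)
    (tr : A →ₗ[K] K) (f : B →ₐ[K] A) (T : Submodule K A) (p : A →ₐ[K] C) (q : C →ₗ[K] B)
    (S : Set C) (ρ : Act Γ K A) (σ : Act Γ K B) : Prop where
  gr_mem : ∀ g i, ∀ a ∈ grA i, ρ.hom g a ∈ grA i
  tr_act : ∀ g a, tr (ρ.hom g a) = tr a
  equivariant : Equivar f σ ρ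
  retract : ∃ s : A →ₗ[K] B, IsRetract grA grB f T ρ σ s ∧ ∀ i, ∃ c ∈ S, InducesIn grA p q s i c
  middle : T ≤ grA n
  irreducible : Irred ρ T

end Alg

open Pool.Agent.H914 Pool.Agent.H914.VarClass Pool.Agent.H914.VarClass.Obj
  Pool.Agent.H914.WeilCohomology Pool.Agent.R920.MT Pool.Agent.Y121.AHS

variable {k : Type u} [Field k] {𝒱 : VarClass k} {ops : CycleOps 𝒱}

/-- A variety with an action of the group `Γ` on its cohomology algebra. -/
structure AVar (W : WeilCohomology.{u, v} ops) (Γ : Type w) [Group Γ] where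
  /-- the variety -/
  X : 𝒱.Obj
  /-- the action -/
  act : Act Γ W.K (W.H X)

section

variable {W : WeilCohomology.{u, v} ops} {Γ : Type w} [Group Γ]

/-- `V = X × (X × ⋯ (X × Z))` is the product of `n` copies of `X` and of `Z`, with actions on the
cohomology which are compatible with the projections. -/
inductive IsPowProd (X Z : AVar W Γ) : ℕ → AVar W Γ → Prop
  | zero : IsPowProd X Z 0 Z
  | succ {n V} (υ : Act Γ W.K (W.H (X.X.prod V.X))) : IsPowProd X Z n V →
      Equivar (W.map (fst X.X V.X)) X.act υ → Equivar (W.map (snd X.X V.X)) V.act υ →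
      IsPowProd X Z (n + 1) ⟨X.X.prod V.X, υ⟩

/-- The morphism `f : X ⟶ Y` is of Lefschetz type, with vanishing cohomology `ker f_*` and a
retraction given in each degree by a class in `P (X × Y) (dim X)`. -/
def IsLefschetz (P : Property W) (X Y : AVar W Γ) (f : X.X ⟶ Y.X) : Prop :=
  LefschetzAct X.X.dim (W.gr X.X) (W.gr Y.X) (W.tr X.X) (W.map f) (LinearMap.ker (W.push f))
    (W.map (fst X.X Y.X)) (W.push (snd X.X Y.X)) {c | P (X.X.prod Y.X) X.X.dim c} X.act Y.act

/-- Some element of `Γ` acts trivially on the cohomology of `Y` and of `Z`, and by a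
Picard-Lefschetz formula on the vanishing cohomology of `f`. -/
def HasNode (X Y Z : AVar W Γ) (f : X.X ⟶ Y.X) : Prop :=
  Node (W.tr X.X) (LinearMap.ker (W.push f)) X.act Y.act Z.act

/-- If the dimension of `X` is even, the dimension of the vanishing cohomology of `f` is greater
than `n`. -/
def LargeIfEven (W : WeilCohomology.{u, v} ops) {X Y : 𝒱.Obj} (f : X ⟶ Y) (n : ℕ) : Prop :=
  Even X.dim → n < Module.finrank W.K (LinearMap.ker (W.push f))

end

variable {T : HodgeTheory ops} {Γ : Type w} [Group Γ]

/-- The classes with the property `P` form a system of Hodge classes: it contains the classes of the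
algebraic cycles, and it is stable under linear combinations, products, pull-backs and
push-forwards. (Algebraic, motivated, absolutely Hodge and all Hodge classes are such systems.) -/
structure IsHodgeSystem (T : HodgeTheory ops) (P : Property T.W) : Prop where
  hodge : ∀ X j c, P X j c → IsHodge T X j c
  lin : Linear P
  cl : HasCycles P
  mul : MulClosed P
  map : PullClosed P
  push : PushClosed P

/-- Every Hodge class on `V` is fixed by a subgroup of finite index of `Γ`. (This is the case for
the very general members of a family, if `Γ` is the fundamental group of the base.) -/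
def HodgeFixed (T : HodgeTheory ops) (V : AVar T.W Γ) : Prop :=
  ∀ j c, IsHodge T V.X j c → FixedFin V.act c

/-- All Hodge classes on `V` have the property `P`. -/
def HodgeIn (T : HodgeTheory ops) (P : Property T.W) (V : 𝒱.Obj) : Prop :=
  ∀ j c, IsHodge T V j c → P V j c

end Pool.Agent.N174.Lef.Hdg
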