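import Pool.Agent.N174.Lef.LMain
import Pool.Agent.N174.Lef.HDefs
import Pool.Agent.N174.Lef.Few
import Pool.Agent.Y121.AHS.Conv
import Pool.Agent.R920.MT.Main
import Pool.Agent.Y133.Half.Iso

/-!
# The products of copies of a variety
-/

open CategoryTheory AlgebraicGeometry TensorProduct

universe u v w

namespace Pool.Agent.N174.Lef.Hdg

open Pool.Agent.H914 Pool.Agent.H914.VarClass Pool.Agent.H914.VarClass.Obj
  Pool.Agent.H914.WeilCohomology Pool.Agent.TH125.Gal

variable {k : Type u} [Field k] {𝒱 : VarClass k} {ops : CycleOps 𝒱}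
  {W : WeilCohomology.{u, v} ops} {Γ : Type w} [Group Γ]

/-- the conversion -/
def toG (X : AVar W Γ) : GVar W Γ := ⟨X.X, X.act.hom⟩

/-- isomorphisms of cohomology algebras -/
noncomputable def mapEquiv (W : WeilCohomology.{u, v} ops) {V V' : 𝒱.Obj} (φ : V ≅ V') :
    W.H V' ≃ₐ[W.K] W.H V :=
  AlgEquiv.ofAlgHom (W.map φ.hom) (W.map φ.inv)
    (by
      apply AlgHom.ext
      intro a
      rw [AlgHom.comp_apply, ← W.map_comp, φ.hom_inv_id, W.map_id]
      rfl)
    (by
      apply AlgHom.ext
      intro a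
      rw [AlgHom.comp_apply, ← W.map_comp, φ.inv_hom_id, W.map_id]
      rfl)

theorem mapEquiv_apply {V V' : 𝒱.Obj} (φ : V ≅ V') (a : W.H V') :
    mapEquiv W φ a = W.map φ.hom a := rfl

/-- the transported action -/
noncomputable def tact {V V' : 𝒱.Obj} (φ : V ≅ V') (υ : Γ →* (W.H V ≃ₐ[W.K] W.H V)) :
    Γ →* (W.H V' ≃ₐ[W.K] W.H V') :=
  (AlgEquiv.autCongr (mapEquiv W φ).symm).toMonoidHom.comp υ

theorem tact_apply {V V' : 𝒱.Obj} (φ : V ≅ V') (υ : Γ →* (W.H V ≃ₐ[W.K] W.H V)) (g : Γ)
    (a : W.H V') : υ g (W.map φ.hom a) = W.map φ.hom (tact φ υ g a) := by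
  have h1 : tact φ υ g a = (mapEquiv W φ).symm (υ g (mapEquiv W φ a)) := rfl
  rw [h1]
  exact (AlgEquiv.apply_symm_apply (mapEquiv W φ) _).symm

theorem tact_intertwines {V V' U : 𝒱.Obj} (φ : V ≅ V') {υ : Γ →* (W.H V ≃ₐ[W.K] W.H V)}
    {ρ : Γ →* (W.H U ≃ₐ[W.K] W.H U)} (π : V' ⟶ U)
    (h : Intertwines (W.map (φ.hom ≫ π)) ρ υ) : Intertwines (W.map π) ρ (tact φ υ) := by
  intro g a
  apply (mapEquiv W φ).injective
  rw [mapEquiv_apply, mapEquiv_apply, ← tact_apply, ← W.map_comp, ← W.map_comp]
  exact h g a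

/-- the isomorphism for one more factor -/
noncomputable def stepIso (X : 𝒱.Obj) {V P Z : 𝒱.Obj} (φ : V ≅ P.prod Z) :
    X.prod V ≅ (X.prod P).prod Z where
  hom := Obj.lift (Obj.lift (fst _ _) (snd _ _ ≫ φ.hom ≫ fst _ _)) (snd _ _ ≫ φ.hom ≫ snd _ _)
  inv := Obj.lift (fst _ _ ≫ fst _ _) (Obj.lift (fst _ _ ≫ snd _ _) (snd _ _) ≫ φ.inv)
  hom_inv_id := by
    apply Pool.Agent.Y133.Half.prod_hom_ext
    · simp
    · simp only [Category.assoc, Category.id_comp, Obj.lift_snd]
      rw [← Category.assoc, Iso.comp_inv_eq]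
      apply Pool.Agent.Y133.Half.prod_hom_ext <;> simp
  inv_hom_id := by
    apply Pool.Agent.Y133.Half.prod_hom_ext
    · apply Pool.Agent.Y133.Half.prod_hom_ext <;> simp
    · simp

theorem exists_power (X Z : AVar W Γ) : ∀ (n : ℕ) (V : AVar W Γ), IsPowProd X Z (n + 1) V →
    ∃ (φ : V.X ≅ (power ops X.X n).prod Z.X)
      (υ : Γ →* (W.H ((power ops X.X n).prod Z.X) ≃ₐ[W.K] W.H ((power ops X.X n).prod Z.X))),
      (∀ g c, V.act.hom g (W.map φ.hom c) = W.map φ.hom (υ g c)) ∧
      Pool.Agent.TH125.Gal.IsPowProd (toG X) n (toG Z) ⟨(power ops X.X n).prod Z.X, υ⟩ := by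
  intro n
  induction n with
  | zero =>
    intro V hV
    cases hV with
    | succ υ h1 h2 h3 =>
      cases h1
      have hid : ∀ c : W.H (X.X.prod Z.X), W.map (𝟙 (X.X.prod Z.X)) c = c := fun c => by
        rw [W.map_id]
      refine ⟨Iso.refl (X.X.prod Z.X), υ.hom, fun g c =>
        (congrArg (υ.hom g) (hid c)).trans (hid (υ.hom g c)).symm, ?_⟩
      refine Pool.Agent.TH125.Gal.IsPowProd.mk (X := toG X) (n := 0) (Z := toG Z) υ.hom
        (fun p => ?_) h3
      intro g a
      have e : fst (power ops X.X 0) Z.X ≫ powerPrj ops X.X 0 p = fst X.X Z.X := by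
        have hp : p = 0 := Fin.fin_one_eq_zero p
        subst hp
        exact Category.comp_id _
      have h8 := h2 g a
      rw [← e] at h8
      exact h8
  | succ n ih =>
    intro V hV
    cases hV with
    | @succ _ V' υ h1 h2 h3 =>
      obtain ⟨φ, υ', h4, h5⟩ := ih V' h1
      obtain ⟨h6, h7⟩ : (∀ p, Intertwines (W.map (fst (power ops X.X n) Z.X ≫
          powerPrj ops X.X n p)) X.act.hom υ') ∧
          Intertwines (W.map (snd (power ops X.X n) Z.X)) Z.act.hom υ' := by
        cases h5 with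
        | mk _ h6 h7 => exact ⟨h6, h7⟩
      have hφ := stepIso X.X φ
      have key : ∀ {U : AVar W Γ} (π : (power ops X.X n).prod Z.X ⟶ U.X),
          Intertwines (W.map π) U.act.hom υ' → Intertwines
            (W.map (snd X.X V'.X ≫ φ.hom ≫ π)) U.act.hom υ.hom := by
        intro U π hπ g a
        rw [W.map_comp, W.map_comp, h3, W.map_comp, W.map_comp]
        congr 1
        rw [h4, hπ g a]
      refine ⟨stepIso X.X φ, tact (stepIso X.X φ) υ.hom, fun g c => tact_apply _ _ g c, ?_⟩
      refine Pool.Agent.TH125.Gal.IsPowProd.mk (X := toG X) (Z := toG Z) _ (fun p => ?_) ?_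
      · refine tact_intertwines _ _ ?_
        refine Fin.cases ?_ (fun q => ?_) p
        · have e : (stepIso X.X φ).hom ≫ fst (power ops X.X (n + 1)) Z.X ≫
              powerPrj ops X.X (n + 1) 0 = fst X.X V'.X := by
            change (stepIso X.X φ).hom ≫ fst (X.X.prod (power ops X.X n)) Z.X ≫
              fst X.X (power ops X.X n) = _
            rw [stepIso]
            simp
          intro g a
          have h8 := h2 g a
          rw [← e] at h8
          exact h8
        · have e : (stepIso X.X φ).hom ≫ fst (power ops X.X (n + 1)) Z.X ≫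
              powerPrj ops X.X (n + 1) q.succ = snd X.X V'.X ≫ φ.hom ≫
                (fst (power ops X.X n) Z.X ≫ powerPrj ops X.X n q) := by
            change (stepIso X.X φ).hom ≫ fst (X.X.prod (power ops X.X n)) Z.X ≫
              snd X.X (power ops X.X n) ≫ powerPrj ops X.X n q = _
            rw [stepIso]
            simp
          intro g a
          have h8 := key (U := X) _ (h6 q) g a
          rw [← e] at h8
          exact h8
      · refine tact_intertwines _ _ ?_
        have e : (stepIso X.X φ).hom ≫ snd (power ops X.X (n + 1)) Z.X = snd X.X V'.X ≫ φ.hom ≫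
            snd (power ops X.X n) Z.X := by
          change (stepIso X.X φ).hom ≫ snd (X.X.prod (power ops X.X n)) Z.X = _
          rw [stepIso]
          simp
        intro g a
        have h8 := key (U := Z) _ h7 g a
        rw [← e] at h8
        exact h8

end Pool.Agent.N174.Lef.Hdg
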