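import Pool.Agent.N174.Lef.Act

/-!
# The structure of semi-invariant classes
-/

open CategoryTheory AlgebraicGeometry Finset Function TensorProduct

set_option linter.unusedSectionVars false

universe u v w x

namespace Pool.Agent.N174.Lef

open Pool.Agent.H914 Pool.Agent.H914.VarClass Pool.Agent.H914.VarClass.Obj
  Pool.Agent.H914.WeilCohomology Pool.Agent.H281R3.HT Pool.Agent.W552 Pool.Agent.TH125.Gal

variable {k : Type u} [Field k] {𝒱 : VarClass k} {ops : CycleOps 𝒱}
  {W : WeilCohomology.{u, v} ops} {X Y : 𝒱.Obj} {f : X ⟶ Y} {n D : ℕ}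
  {Γ : Type w} [Group Γ] {M : Type x} [AddCommGroup M] [Module W.K M]
  {χ : Γ →* W.Kˣ} {ρ : Γ →* (W.H X ≃ₐ[W.K] W.H X)} {ρY : Γ →* (W.H Y ≃ₐ[W.K] W.H Y)}
  {s : W.H X →ₗ[W.K] W.H Y}

/-- the class with the diagonal classes of a matching as coefficient -/
noncomputable def mext (v : VB W f) {q : Fin (n + 1) → Option (Fin D)} {m : ℕ}
    (e : Fin m × Fin 2 ≃ Free q) : W.H (power ops Y n) →ₗ[W.K] W.H (power ops X n) :=
  LinearMap.mulLeft W.K (mtch (ops := ops) v e) ∘ₗ (W.map (powerMap ops f n)).toLinearMap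

/-- **The structure of the components.** -/
theorem core_q (h : Data χ f ρ ρY s) (v : VB W f) {τ : Γ →* (M →ₗ[W.K] M)} {μ : Γ →* W.Kˣ}
    {g₀ : Γ} (hχ : χ g₀ = 1) (hμ : μ g₀ = 1) (hY : ρY g₀ = 1) (hτ : τ g₀ = 1)
    (hPL : PLAct (W.tr X) (vanishing W f) ρ g₀)
    (hK' : Even X.dim → FewRoots W.K ∧ n + 1 < Module.finrank W.K (vanishing W f))
    {c : W.H (power ops X n) ⊗[W.K] M} {Δ : Subgroup Γ} (hΔ : Δ.FiniteIndex)
    (hc : ∀ g ∈ Δ, TensorProduct.map (pact ρ n g) (τ g) c = (μ g : W.K) • c)
    (q : Fin (n + 1) → Option (Fin D)) :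
    ∃ (L : ℕ) (m : Fin L → ℕ) (e : ∀ l, Fin (m l) × Fin 2 ≃ Free q) (ε : Fin L → ℤ)
      (z : Fin L → W.H (power ops Y n) ⊗[W.K] M),
      (∀ l, ∃ Δ' : Subgroup Γ, Δ'.FiniteIndex ∧ ∀ g ∈ Δ',
        TensorProduct.map (pact ρY n g) (τ g) (z l) =
          ((μ g : W.K) * ((χ g : W.K) ^ (X.dim * m l))⁻¹) • z l) ∧
      (tens (piq f s q)).rTensor M c =
        ∑ l, (ε l : W.K) • (mext (ops := ops) v (e l)).rTensor M (z l) := by
  classical
  obtain ⟨δ, hδ, hδ0, x, hx, hgx⟩ := hPL
  have heven : (-1 : ℤ) ^ X.dim = 1 → Even X.dim := by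
    intro h
    by_contra h'
    rw [(Nat.not_even_iff_odd.1 h').neg_one_pow] at h
    exact absurd h (by decide)
  have hcard : Module.finrank W.K (vanishing W f) = v.N := by
    rw [Module.finrank_eq_card_basis v.u, Fintype.card_fin]
  have hE := hK_eqv (ops := ops) h hΔ hc q
  have h1 := gen_mem (S := Free q) (J := Fin v.N) (s := (-1) ^ X.dim)
    (μ := fun g => (χ g : W.K) ^ X.dim) (B := rform W X (vanishing W f))
    (neg_one_pow_eq_or ℤ _)
    (fun a b => by
      rw [rform_apply, rform_apply, van_symm h.middle a.2 b.2]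
      push_cast
      rfl)
    (van_nondeg h.transfer) (fun g => pow_ne_zero _ (Units.ne_zero _))
    (fun g a b => h.bil_act g a b) (SI_rhoV h) (g := g₀) (δ := ⟨δ, hδ⟩) (c := x)
    (fun h => hδ0 (congrArg Subtype.val h)) hx
    (fun t => Subtype.ext (hgx t t.2))
    (by rw [hχ, Units.val_one, one_pow])
    (σ := sig (lamq χ μ X q) ρY τ n)
    (by
      rw [sig_apply, lamq_apply, hχ, hμ, hτ, pact_of_one _ hY]
      simp only [Units.val_one, inv_one, one_pow, one_mul, one_smul]
      exact TensorProduct.map_id)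
    (fun h => ⟨(hK' (heven h)).1, by have := (hK' (heven h)).2; omega⟩)
    hE v.u
    (fun h => by
      have h2 := (hK' (heven h)).2
      rw [hcard] at h2
      refine lt_of_le_of_lt (Fintype.card_subtype_le _) ?_
      rw [Fintype.card_fin, Fintype.card_fin]
      exact h2)
  obtain ⟨L, m, e, φ, hexp, hind⟩ := extraction (rform W X (vanishing W f)) v.u h1
  choose ε hε using fun l => dstar (ops := ops) (n := n) (D := D) v h.transfer h.middle (e l)
  refine ⟨L, m, e, ε, fun l => ∑ r : Free q → Fin v.N, φ l r • hK f s q c fun j => v.u (r j),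
    ?_, ?_⟩
  · -- semi-invariance
    intro l
    obtain ⟨Δ₁, hΔ₁, hE⟩ := hE
    refine ⟨Δ₁, hΔ₁, fun g hg => ?_⟩
    have h2 := hind (fun l => sig (lamq χ μ X q) ρY τ n g
        (∑ r : Free q → Fin v.N, φ l r • hK f s q c fun j => v.u (r j)) -
        ((χ g : W.K) ^ X.dim) ^ m l •
        ∑ r : Free q → Fin v.N, φ l r • hK f s q c fun j => v.u (r j)) (fun y => by
      have h3 := hE g hg y
      rw [hexp y, hexp (fun j => rhoV h g (y j)), map_sum] at h3
      have h4 : ∀ l, mform (rform W X (vanishing W f)) (e l) (fun j => rhoV h g (y j)) =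
          ((χ g : W.K) ^ X.dim) ^ m l * mform (rform W X (vanishing W f)) (e l) y := by
        intro l
        rw [mform_apply, mform_apply]
        simp only [rform_apply, rhoV_apply, h.bil_act]
        rw [Finset.prod_mul_distrib, Finset.prod_const, Finset.card_univ, Fintype.card_fin]
      simp only [h4, map_smul] at h3
      simp only [smul_sub, Finset.sum_sub_distrib]
      rw [← h3, sub_eq_zero]
      refine Finset.sum_congr rfl fun l _ => ?_
      rw [smul_smul, mul_comm]) l
    have h5 := sub_eq_zero.1 h2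
    have hcd : Fintype.card (Free q) = 2 * m l := by
      rw [← Fintype.card_congr (e l), Fintype.card_prod, Fintype.card_fin, Fintype.card_fin,
        mul_comm]
    rw [sig_apply, LinearMap.smul_apply, lamq_apply, hcd] at h5
    have hχ0 : (χ g : W.K) ≠ 0 := Units.ne_zero _
    have hμ0 : (μ g : W.K) ≠ 0 := Units.ne_zero _
    have h6 := congrArg (fun y => ((μ g : W.K) * ((χ g : W.K) ^ (X.dim * (2 * m l)))⁻¹) • y) h5
    beta_reduce at h6
    rw [smul_smul, smul_smul] at h6
    have h7 : (μ g : W.K) * ((χ g : W.K) ^ (X.dim * (2 * m l)))⁻¹ *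
        ((μ g : W.K)⁻¹ * (χ g : W.K) ^ (X.dim * (2 * m l))) = 1 := by
      field_simp
    have h8 : (μ g : W.K) * ((χ g : W.K) ^ (X.dim * (2 * m l)))⁻¹ *
        ((χ g : W.K) ^ X.dim) ^ m l = (μ g : W.K) * ((χ g : W.K) ^ (X.dim * m l))⁻¹ := by
      have h9 : (χ g : W.K) ^ (X.dim * (2 * m l)) =
          (χ g : W.K) ^ (X.dim * m l) * (χ g : W.K) ^ (X.dim * m l) := by
        rw [← pow_add]
        congr 1
        ring
      rw [h9, ← pow_mul]
      field_simp
    rw [h7, one_smul, h8] at h6
    exact h6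
  · -- the formula
    have h2 : (tens (piq f s q)).rTensor M c = ∑ r : Free q → Fin v.N,
        (tens (opR v q r)).rTensor M (hK f s q c fun j => v.u (r j)) := by
      rw [star (ops := ops) v h.transfer q, ← LinearMap.coe_rTensorHom, map_sum,
        LinearMap.sum_apply]
      refine Finset.sum_congr rfl fun r _ => ?_
      rw [LinearMap.coe_rTensorHom, LinearMap.rTensor_comp, LinearMap.comp_apply, hK_apply]
    rw [h2]
    have h3 : ∀ r : Free q → Fin v.N, (hK f s q c fun j => v.u (r j)) =
        ∑ l, (∏ l', bil W X (v.u (r (e l (l', 0)))) (v.u (r (e l (l', 1))))) •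
          ∑ r' : Free q → Fin v.N, φ l r' • hK f s q c fun j => v.u (r' j) := fun r =>
      hexp fun j => v.u (r j)
    have h4 : ∀ l (r' : Free q → Fin v.N), ∑ r : Free q → Fin v.N,
        (∏ l', bil W X (v.u (r (e l (l', 0)))) (v.u (r (e l (l', 1))))) •
          (tens (opR v q r)).rTensor M (hK f s q c fun j => v.u (r' j)) =
        (ε l : W.K) • (mext (ops := ops) v (e l)).rTensor M (hK f s q c fun j => v.u (r' j)) := by
      intro l r'
      have h6 : ∑ r : Free q → Fin v.N,
          (∏ l', bil W X (v.u (r (e l (l', 0)))) (v.u (r (e l (l', 1))))) •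
            (tens (opR v q r) ∘ₗ tens (opK s q fun p => (v.u (r' p) : W.H X))) =
          (ε l : W.K) • (mext (ops := ops) v (e l) ∘ₗ
            tens (opK s q fun p => (v.u (r' p) : W.H X))) := hε l fun j => v.u (r' j)
      have h5 := congrArg (fun A => LinearMap.rTensorHom M A c) h6
      beta_reduce at h5
      rw [map_sum, LinearMap.sum_apply] at h5
      simp only [map_smul, LinearMap.smul_apply, LinearMap.coe_rTensorHom, LinearMap.rTensor_comp,
        LinearMap.comp_apply] at h5
      exact h5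
    calc ∑ r : Free q → Fin v.N, (tens (opR v q r)).rTensor M (hK f s q c fun j => v.u (r j))
        = ∑ r : Free q → Fin v.N, ∑ l, ∑ r' : Free q → Fin v.N, φ l r' •
            ((∏ l', bil W X (v.u (r (e l (l', 0)))) (v.u (r (e l (l', 1))))) •
              (tens (opR v q r)).rTensor M (hK f s q c fun j => v.u (r' j))) := by
          refine Finset.sum_congr rfl fun r _ => ?_
          conv_lhs => rw [h3 r]
          rw [map_sum]
          refine Finset.sum_congr rfl fun l _ => ?_
          rw [map_smul, map_sum, Finset.smul_sum]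
          refine Finset.sum_congr rfl fun r' _ => ?_
          rw [map_smul, smul_comm]
      _ = ∑ l, ∑ r' : Free q → Fin v.N, φ l r' • ∑ r : Free q → Fin v.N,
            (∏ l', bil W X (v.u (r (e l (l', 0)))) (v.u (r (e l (l', 1))))) •
              (tens (opR v q r)).rTensor M (hK f s q c fun j => v.u (r' j)) := by
          rw [Finset.sum_comm]
          refine Finset.sum_congr rfl fun l _ => ?_
          rw [Finset.sum_comm]
          refine Finset.sum_congr rfl fun r' _ => ?_
          rw [Finset.smul_sum]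
      _ = _ := by
          refine Finset.sum_congr rfl fun l _ => ?_
          rw [map_sum, Finset.smul_sum]
          refine Finset.sum_congr rfl fun r' _ => ?_
          rw [h4, map_smul, smul_comm]

/-- the sum of the projectors -/
theorem sum_piq (s : W.H X →ₗ[W.K] W.H Y) :
    ∑ q : Fin (n + 1) → Option (Fin (2 * X.dim + 1)), tens (ops := ops) (piq f s q) =
      LinearMap.id := by
  classical
  have h1 : ∑ o : Option (Fin (2 * X.dim + 1)),
      (o.elim (piE f s) fun i => (W.map f).toLinearMap ∘ₗ sd s i : W.H X →ₗ[W.K] W.H X) =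
      LinearMap.id := by
    rw [Fintype.sum_option]
    have h2 : ∑ i : Fin (2 * X.dim + 1), (W.map f).toLinearMap ∘ₗ sd s (i : ℕ) = piC f s := by
      have h3 := Finset.sum_range (n := 2 * X.dim + 1) fun i => (W.map f).toLinearMap ∘ₗ sd s i
      rw [← h3]
      apply LinearMap.ext
      intro a
      rw [LinearMap.sum_apply]
      change ∑ i ∈ range (2 * X.dim + 1), W.map f (s (proj (W.isInternal X) i a)) = W.map f (s a)
      rw [← map_sum, ← map_sum]
      congr 2
      have h4 := sum_proj (W.isInternal X) (N := 2 * X.dim + 1)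
        fun i hi => W.gr_eq_bot X i (by omega)
      have h5 := LinearMap.congr_fun h4 a
      rw [LinearMap.sum_apply] at h5
      exact h5
    change piE f s + ∑ i : Fin (2 * X.dim + 1), (W.map f).toLinearMap ∘ₗ sd s (i : ℕ) = _
    rw [h2, add_comm]
    exact piC_add_piE
  have h2 := (tensML (ops := ops) (W := W) (X := X) (Y := X) (n := n)).map_sum
    fun _ (o : Option (Fin (2 * X.dim + 1))) =>
      (o.elim (piE f s) fun i => (W.map f).toLinearMap ∘ₗ sd s i : W.H X →ₗ[W.K] W.H X)
  rw [h1] at h2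
  rw [tensML_apply, tens_id] at h2
  rw [h2]
  rfl

end Pool.Agent.N174.Lef
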