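import Pool.Agent.N174.Lef.Symp
import Pool.Agent.N174.Lef.Ext

/-!
# The Gram matrix of the products of forms
-/

open Finset Function

set_option linter.unusedSectionVars false

namespace Pool.Agent.N174.Lef

universe u v

/-- a generalized inverse of `Pᵀ * P` -/
theorem rat_inverse {R L : Type} [Fintype R] [Fintype L] [DecidableEq L] (P : Matrix R L ℚ) :
    ∃ F : Matrix L L ℚ, P * F * (P.transpose * P) = P := by
  classical
  let g := (P.transpose * P).mulVecLin
  obtain ⟨F0, hF0⟩ := LinearMap.exists_rightInverse_of_surjective g.rangeRestrict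
    (LinearMap.range_rangeRestrict g)
  obtain ⟨F, hF⟩ := LinearMap.exists_extend F0
  refine ⟨LinearMap.toMatrix' F, ?_⟩
  apply Matrix.toLin'.injective
  apply LinearMap.ext
  intro v
  rw [Matrix.toLin'_mul, Matrix.toLin'_mul, Matrix.toLin'_toMatrix']
  have h1 : g (F (g v)) = g v := by
    have h2 : F (g v) = F0 ⟨g v, LinearMap.mem_range_self g v⟩ := by rw [← hF]; rfl
    rw [h2]
    have h3 := LinearMap.congr_fun hF0 ⟨g v, LinearMap.mem_range_self g v⟩
    exact congrArg Subtype.val h3
  have h4 : F (g v) - v ∈ LinearMap.ker (P.transpose * P).mulVecLin := by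
    rw [LinearMap.mem_ker, map_sub, sub_eq_zero]
    exact h1
  rw [Matrix.ker_mulVecLin_transpose_mul_self, LinearMap.mem_ker, map_sub, sub_eq_zero] at h4
  exact h4

section count

variable {K : Type u} [Field K] {S : Type} [Fintype S] [DecidableEq S]
  {ι : Type} [Fintype ι] [DecidableEq ι]

theorem count_prod (c : ι → K) {m : ℕ} (e : Fin m × Fin 2 ≃ S) (r : S → ι)
    (h : ∀ k, r (e (k, 1)) = r (e (k, 0))) :
    ∏ k, c (r (e (k, 0))) = ∏ i, c i ^ ((univ.filter fun p => r p = i).card / 2) := by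
  have h1 : ∀ i, (univ.filter fun p => r p = i).card =
      2 * (univ.filter fun k => r (e (k, 0)) = i).card := by
    intro i
    have h2 : (univ.filter fun p => r p = i).card =
        (univ.filter fun kt : Fin m × Fin 2 => r (e kt) = i).card := by
      refine (Finset.card_bij (fun kt _ => e kt) ?_ ?_ ?_).symm
      · intro kt hkt
        simpa using hkt
      · intro a _ b _ hab
        exact e.injective hab
      · intro p hp
        refine ⟨e.symm p, by simpa using hp, by simp⟩
    rw [h2, Finset.card_filter, Finset.card_filter, Fintype.sum_prod_type, Finset.mul_sum]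
    refine Finset.sum_congr rfl fun k _ => ?_
    rw [Fin.sum_univ_two, h k]
    split_ifs <;> rfl
  simp only [h1, Nat.mul_div_cancel_left _ (Nat.succ_pos 1)]
  rw [← Finset.prod_fiberwise' univ (fun k => r (e (k, 0))) c]
  refine Finset.prod_congr rfl fun i _ => ?_
  rw [Finset.prod_const]

end count

section gram

variable {K : Type u} [Field K] {V : Type v} [AddCommGroup V] [Module K V]
  {B : V →ₗ[K] V →ₗ[K] K} {ι : Type} [Fintype ι] [DecidableEq ι] {b : ι → V} {σ : ι → ι}
  {c : ι → K} {s : ι → ℤ}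

/-- the dual family -/
noncomputable def dfam (b : ι → V) (σ : ι → ι) (c : ι → K) (s : ι → ℤ) (i : ι) : V :=
  (c i * (s i : K))⁻¹ • b (σ i)

theorem MonoFam.s_ne [CharZero K] (h : MonoFam B b σ c s) (i : ι) : (s i : K) ≠ 0 := by
  have h1 : s i ≠ 0 := by
    intro h0
    have := h.s_sq i
    rw [h0] at this
    exact absurd this (by decide)
  exact_mod_cast h1

theorem MonoFam.dual [CharZero K] (h : MonoFam B b σ c s) (i j : ι) :
    B (b i) (dfam b σ c s j) = if i = j then 1 else 0 := by
  rw [dfam, map_smul, h.gram, smul_eq_mul]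
  by_cases hij : i = j
  · subst hij
    rw [if_pos rfl, if_pos rfl, inv_mul_cancel₀ (mul_ne_zero (h.c_ne i) (h.s_ne i))]
  · rw [if_neg hij, if_neg, mul_zero]
    intro h'
    have h2 := congrArg σ h'
    rw [h.inv, h.inv] at h2
    exact hij h2.symm

theorem MonoFam.expand [CharZero K] (h : MonoFam B b σ c s) (x : V) :
    x = ∑ i, B x (dfam b σ c s i) • b i := by
  obtain ⟨a, ha⟩ := (Submodule.mem_span_range_iff_exists_fun K).1 (h.span x)
  have h1 : ∀ j, B x (dfam b σ c s j) = a j := by
    intro j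
    rw [← ha, map_sum, LinearMap.sum_apply, Finset.sum_eq_single j]
    · rw [map_smul, LinearMap.smul_apply, h.dual, if_pos rfl, smul_eq_mul, mul_one]
    · intro i _ hi
      rw [map_smul, LinearMap.smul_apply, h.dual, if_neg hi, smul_zero]
    · intro h
      exact absurd (Finset.mem_univ _) h
  conv_lhs => rw [← ha]
  refine Finset.sum_congr rfl fun i _ => ?_
  rw [h1]

theorem MonoFam.expand' [CharZero K] (h : MonoFam B b σ c s) (x : V) :
    x = ∑ i, B (b i) x • dfam b σ c s i := by
  obtain ⟨a, ha⟩ := (Submodule.mem_span_range_iff_exists_fun K).1 (h.span x)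
  have h1 : ∀ i, b i = (c (σ i) * (s (σ i) : K)) • dfam b σ c s (σ i) := by
    intro i
    rw [dfam, h.inv, smul_smul, mul_inv_cancel₀ (mul_ne_zero (h.c_ne _) (h.s_ne _)), one_smul]
  have h2 : ∀ j, B (b j) x = a (σ j) * (c j * s j) := by
    intro j
    rw [← ha, map_sum, Finset.sum_eq_single (σ j)]
    · rw [map_smul, h.gram, if_pos rfl, smul_eq_mul]
    · intro i _ hi
      rw [map_smul, h.gram, if_neg hi, smul_zero]
    · intro h
      exact absurd (Finset.mem_univ _) h
  conv_lhs => rw [← ha]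
  refine Fintype.sum_equiv (Function.Involutive.toPerm σ h.inv) _ _ fun i => ?_
  rw [Function.Involutive.coe_toPerm, h2, h.inv, h1 i, smul_smul]

variable {S : Type} [Fintype S] [DecidableEq S]

/-- the integral matrix -/
def pmat (σ : ι → ι) (s : ι → ℤ) {m : ℕ} (e : Fin m × Fin 2 ≃ S) (r : S → ι) : ℤ :=
  ∏ k, if r (e (k, 1)) = σ (r (e (k, 0))) then s (r (e (k, 0))) else 0

theorem mform_b (h : MonoFam B b σ c s) {m : ℕ} (e : Fin m × Fin 2 ≃ S) (r : S → ι) {D : K}
    (hD : (∀ k, r (e (k, 1)) = σ (r (e (k, 0)))) → ∏ k, c (r (e (k, 0))) = D) :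
    mform B e (fun p => b (r p)) = D * (pmat σ s e r : K) := by
  rw [mform_apply]
  simp only [h.gram]
  by_cases hc : ∀ k, r (e (k, 1)) = σ (r (e (k, 0)))
  · rw [← hD hc, pmat, Int.cast_prod, ← Finset.prod_mul_distrib]
    refine Finset.prod_congr rfl fun k _ => ?_
    rw [if_pos (hc k), if_pos (hc k)]
  · push Not at hc
    obtain ⟨k, hk⟩ := hc
    rw [Finset.prod_eq_zero (Finset.mem_univ k) (if_neg hk), pmat,
      Finset.prod_eq_zero (Finset.mem_univ k) (if_neg hk), Int.cast_zero, mul_zero]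

theorem mform_d [CharZero K] (h : MonoFam B b σ c s) {m : ℕ} (e : Fin m × Fin 2 ≃ S) (r : S → ι)
    {D : K} (hD : (∀ k, r (e (k, 1)) = σ (r (e (k, 0)))) → ∏ k, c (r (e (k, 0))) = D) :
    mform B e (fun p => dfam b σ c s (r p)) = D⁻¹ * (pmat σ s e r : K) := by
  rw [mform_apply]
  have h1 : ∀ i j, B (dfam b σ c s i) (dfam b σ c s j) =
      if j = σ i then (c i)⁻¹ * s i else 0 := by
    intro i j
    rw [dfam, map_smul, LinearMap.smul_apply, dfam, map_smul, h.gram, smul_eq_mul, smul_eq_mul]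
    by_cases hij : j = σ i
    · subst hij
      rw [if_pos rfl, if_pos rfl]
      have h3 : (s i : K) * s i = 1 := by exact_mod_cast h.s_sq i
      have h4 : (s i : K)⁻¹ = s i := inv_eq_of_mul_eq_one_left h3
      have h5 := mul_ne_zero (h.c_ne (σ i)) (h.s_ne (σ i))
      rw [inv_mul_cancel₀ h5, mul_one, mul_inv, h4]
    · rw [if_neg hij, if_neg, mul_zero, mul_zero]
      intro h'
      rw [h.inv] at h'
      apply hij
      rw [← h', h.inv]
  simp only [h1]
  by_cases hc : ∀ k, r (e (k, 1)) = σ (r (e (k, 0)))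
  · rw [← hD hc, pmat, Int.cast_prod, ← Finset.prod_inv_distrib, ← Finset.prod_mul_distrib]
    refine Finset.prod_congr rfl fun k _ => ?_
    rw [if_pos (hc k), if_pos (hc k)]
  · push Not at hc
    obtain ⟨k, hk⟩ := hc
    rw [Finset.prod_eq_zero (Finset.mem_univ k) (if_neg hk), pmat,
      Finset.prod_eq_zero (Finset.mem_univ k) (if_neg hk), Int.cast_zero, mul_zero]

/-- the matrix identity for a monomial family -/
theorem gram_mono [CharZero K] (h : MonoFam B b σ c s) {L : ℕ} {m : Fin L → ℕ}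
    (e : ∀ l, Fin (m l) × Fin 2 ≃ S) {D : (S → ι) → K} (hD0 : ∀ r, D r ≠ 0)
    (hD : ∀ r l, (∀ k, r (e l (k, 1)) = σ (r (e l (k, 0)))) →
      ∏ k, c (r (e l (k, 0))) = D r) :
    ∃ F : Fin L → Fin L → ℚ, ∀ (r : S → ι) (l₂ : Fin L), ∑ l, ∑ l₁,
      mform B (e l) (fun p => b (r p)) * (F l l₁ : K) * (∑ r' : S → ι,
        mform B (e l₁) (fun p => dfam b σ c s (r' p)) * mform B (e l₂) (fun p => b (r' p))) =
      mform B (e l₂) (fun p => b (r p)) := by
  classical
  obtain ⟨F, hF⟩ := rat_inverse (Matrix.of fun (r : S → ι) (l : Fin L) =>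
    ((pmat σ s (e l) r : ℤ) : ℚ))
  refine ⟨F, fun r l₂ => ?_⟩
  have h1 : ∀ r l, mform B (e l) (fun p => b (r p)) = D r * (pmat σ s (e l) r : K) :=
    fun r l => mform_b h (e l) r (hD r l)
  have h2 : ∀ r l, mform B (e l) (fun p => dfam b σ c s (r p)) =
      (D r)⁻¹ * (pmat σ s (e l) r : K) := fun r l => mform_d h (e l) r (hD r l)
  have h3 : ∀ l₁, ∑ r' : S → ι, mform B (e l₁) (fun p => dfam b σ c s (r' p)) *
      mform B (e l₂) (fun p => b (r' p)) =
      ((∑ r' : S → ι, (pmat σ s (e l₁) r' : ℚ) * (pmat σ s (e l₂) r' : ℚ) : ℚ) : K) := by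
    intro l₁
    push_cast
    refine Finset.sum_congr rfl fun r' _ => ?_
    rw [h1, h2]
    have := hD0 r'
    field_simp
  simp only [h3]
  have h4 := congrFun (congrFun hF r) l₂
  rw [Matrix.mul_apply] at h4
  simp only [Matrix.mul_apply, Matrix.transpose_apply, Matrix.of_apply] at h4
  have h5 := congrArg (fun q : ℚ => D r * (q : K)) h4
  beta_reduce at h5
  rw [h1 r l₂, ← Rat.cast_intCast (pmat σ s (e l₂) r), ← h5]
  push_cast
  rw [Finset.mul_sum, Finset.sum_comm]
  refine Finset.sum_congr rfl fun l₁ _ => ?_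
  rw [Finset.sum_mul, Finset.mul_sum]
  refine Finset.sum_congr rfl fun l _ => ?_
  rw [h1]
  ring

end gram

section basis

variable {K : Type u} [Field K] {V : Type v} [AddCommGroup V] [Module K V]
  {B : V →ₗ[K] V →ₗ[K] K} {ι J : Type} [Fintype ι] [Fintype J] [DecidableEq ι] [DecidableEq J]
  {S : Type} [Fintype S] [DecidableEq S]

/-- independence of the contraction of the basis -/
theorem contr_basis {N : Type*} [AddCommGroup N] [Module K N] {b b' : ι → V} {u t : J → V}
    (hb' : ∀ x, x = ∑ i, B (b i) x • b' i) (hu : ∀ x, x = ∑ j, B x (t j) • u j)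
    (α : MultilinearMap K (fun _ : S => V) K) (β : MultilinearMap K (fun _ : S => V) N) :
    ∑ r : S → ι, (α fun p => b' (r p)) • (β fun p => b (r p)) =
      ∑ r : S → J, (α fun p => t (r p)) • (β fun p => u (r p)) := by
  have h1 : ∀ r : S → ι, (β fun p => b (r p)) = ∑ r' : S → J,
      (∏ p, B (b (r p)) (t (r' p))) • (β fun p => u (r' p)) := by
    intro r
    conv_lhs => rw [show (fun p => b (r p)) = fun p => ∑ j, B (b (r p)) (t j) • u j from
      funext fun p => hu _]
    rw [MultilinearMap.map_sum]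
    refine Finset.sum_congr rfl fun r' _ => ?_
    rw [MultilinearMap.map_smul_univ]
  have h2 : ∀ r' : S → J, (α fun p => t (r' p)) = ∑ r : S → ι,
      (∏ p, B (b (r p)) (t (r' p))) • (α fun p => b' (r p)) := by
    intro r'
    conv_lhs => rw [show (fun p => t (r' p)) = fun p => ∑ i, B (b i) (t (r' p)) • b' i from
      funext fun p => hb' _]
    rw [MultilinearMap.map_sum]
    refine Finset.sum_congr rfl fun r _ => ?_
    rw [MultilinearMap.map_smul_univ]
  simp only [h1, h2, Finset.smul_sum, Finset.sum_smul]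
  rw [Finset.sum_comm]
  refine Finset.sum_congr rfl fun r' _ => Finset.sum_congr rfl fun r _ => ?_
  rw [smul_smul, smul_eq_mul, mul_comm]

/-- **The Gram matrix of the products of forms has a generalized inverse with rational
coefficients.** -/
theorem gram_inverse [CharZero K] [Module.Finite K V] {ε : ℤ} (hε : ε = 1 ∨ ε = -1)
    (hB : ∀ x y, B x y = ε * B y x) (hn : ∀ x, (∀ y, B x y = 0) → x = 0) {u t : J → V}
    (hu : ∀ x, x = ∑ j, B x (t j) • u j) {L : ℕ} {m : Fin L → ℕ}
    (e : ∀ l, Fin (m l) × Fin 2 ≃ S) :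
    ∃ F : Fin L → Fin L → ℚ, ∀ (x : S → V) (l₂ : Fin L), ∑ l, ∑ l₁,
      mform B (e l) x * (F l l₁ : K) * (∑ r : S → J,
        mform B (e l₁) (fun p => t (r p)) * mform B (e l₂) (fun p => u (r p))) =
      mform B (e l₂) x := by
  classical
  obtain ⟨ι, _, _, b, σ, c, s, h, D, hD0, hD⟩ : ∃ (ι : Type) (_ : Fintype ι)
      (_ : DecidableEq ι) (b : ι → V) (σ : ι → ι) (c : ι → K) (s : ι → ℤ)
      (_ : MonoFam B b σ c s) (D : (S → ι) → K), (∀ r, D r ≠ 0) ∧
      ∀ r l, (∀ k, r (e l (k, 1)) = σ (r (e l (k, 0)))) → ∏ k, c (r (e l (k, 0))) = D r := by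
    rcases hε with rfl | rfl
    · obtain ⟨ι, i1, i2, b, c, h⟩ := exists_ortho (B := B)
        (fun x y => by rw [hB, Int.cast_one, one_mul]) hn
      refine ⟨ι, i1, i2, b, id, c, fun _ => 1, h,
        fun r => ∏ i, c i ^ ((univ.filter fun p => r p = i).card / 2), fun r => ?_,
        fun r l hc => count_prod c (e l) r hc⟩
      exact Finset.prod_ne_zero_iff.2 fun i _ => pow_ne_zero _ (h.c_ne i)
    · obtain ⟨ι, i1, i2, b, σ, s, h⟩ := exists_symp (B := B) (fun x => by
        have h1 := hB x x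
        push_cast at h1
        have h2 : (2 : K) * B x x = 0 := by linear_combination h1
        exact (mul_eq_zero.1 h2).resolve_left two_ne_zero) hn
      exact ⟨ι, i1, i2, b, σ, fun _ => 1, s, h, fun _ => 1, fun _ => one_ne_zero,
        fun r l _ => Finset.prod_const_one⟩
  obtain ⟨F, hF⟩ := gram_mono h e hD0 hD
  refine ⟨F, fun x l₂ => ?_⟩
  have h1 : ∀ l₁, ∑ r' : S → ι, mform B (e l₁) (fun p => dfam b σ c s (r' p)) *
      mform B (e l₂) (fun p => b (r' p)) = ∑ r : S → J,
        mform B (e l₁) (fun p => t (r p)) * mform B (e l₂) (fun p => u (r p)) := fun l₁ =>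
    contr_basis (N := K) h.expand' hu (mform B (e l₁)) (mform B (e l₂))
  have hF' := fun r => hF r l₂
  simp only [h1] at hF'
  have h2 : ∀ β : MultilinearMap K (fun _ : S => V) K, β x = ∑ r : S → ι,
      (∏ p, B (x p) (dfam b σ c s (r p))) * β fun p => b (r p) := by
    intro β
    conv_lhs => rw [show x = fun p => ∑ i, B (x p) (dfam b σ c s i) • b i from
      funext fun p => h.expand _]
    rw [MultilinearMap.map_sum]
    refine Finset.sum_congr rfl fun r _ => ?_
    rw [MultilinearMap.map_smul_univ, smul_eq_mul]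
  have h4 : ∀ l, ∑ l₁, mform B (e l) x * (F l l₁ : K) * (∑ r : S → J,
        mform B (e l₁) (fun p => t (r p)) * mform B (e l₂) (fun p => u (r p))) =
      ∑ r : S → ι, (∏ p, B (x p) (dfam b σ c s (r p))) * ∑ l₁,
      ((mform B (e l) fun p => b (r p)) * (F l l₁ : K) * (∑ r : S → J,
        mform B (e l₁) (fun p => t (r p)) * mform B (e l₂) (fun p => u (r p)))) := by
    intro l
    have h5 : ∀ l₁, mform B (e l) x * (F l l₁ : K) * (∑ r : S → J,
        mform B (e l₁) (fun p => t (r p)) * mform B (e l₂) (fun p => u (r p))) =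
        ∑ r : S → ι, (∏ p, B (x p) (dfam b σ c s (r p))) *
          ((mform B (e l) fun p => b (r p)) * (F l l₁ : K) * (∑ r : S → J,
        mform B (e l₁) (fun p => t (r p)) * mform B (e l₂) (fun p => u (r p)))) := by
      intro l₁
      rw [h2 (mform B (e l)), Finset.sum_mul, Finset.sum_mul]
      refine Finset.sum_congr rfl fun r _ => ?_
      ring
    rw [Finset.sum_congr rfl fun l₁ _ => h5 l₁, Finset.sum_comm]
    refine Finset.sum_congr rfl fun r _ => ?_
    rw [Finset.mul_sum]
  rw [Finset.sum_congr rfl fun l _ => h4 l, Finset.sum_comm, h2 (mform B (e l₂))]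
  refine Finset.sum_congr rfl fun r _ => ?_
  rw [← Finset.mul_sum, hF']

end basis

end Pool.Agent.N174.Lef
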