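import Pool.Agent.N174.Lef.Core
import Pool.Agent.N174.Lef.Gram

/-!
# The structure of semi-invariant classes in terms of contractions
-/

open CategoryTheory AlgebraicGeometry Finset Function TensorProduct

set_option linter.unusedSectionVars false

universe u v w x

namespace Pool.Agent.N174.Lef

open Pool.Agent.H914 Pool.Agent.H914.VarClass Pool.Agent.H914.VarClass.Obj
  Pool.Agent.H914.WeilCohomology Pool.Agent.H281R3.HT Pool.Agent.W552 Pool.Agent.TH125.Gal

variable {k : Type u} [Field k] {𝒱 : VarClass k} {ops : CycleOps 𝒱}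
  {W : WeilCohomology.{u, v} ops} {X Y : 𝒱.Obj} {f : X ⟶ Y} {n D : ℕ}
  {Γ : Type w} [Group Γ] {M : Type x} [AddCommGroup M] [Module W.K M]
  {χ : Γ →* W.Kˣ} {ρ : Γ →* (W.H X ≃ₐ[W.K] W.H X)} {ρY : Γ →* (W.H Y ≃ₐ[W.K] W.H Y)}
  {s : W.H X →ₗ[W.K] W.H Y}

/-- the contraction with the diagonal classes of a matching -/
noncomputable def ctrOp (v : VB W f) (s : W.H X →ₗ[W.K] W.H Y)
    (q : Fin (n + 1) → Option (Fin D)) {m : ℕ} (e : Fin m × Fin 2 ≃ Free q) :
    W.H (power ops X n) →ₗ[W.K] W.H (power ops Y n) :=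
  ∑ r : Free q → Fin v.N, mform (rform W X (vanishing W f)) e (fun p => v.t (r p)) •
    tens (opK s q fun p => (v.u (r p) : W.H X))

theorem ctrOp_apply (v : VB W f) (q : Fin (n + 1) → Option (Fin D)) {m : ℕ}
    (e : Fin m × Fin 2 ≃ Free q) (c : W.H (power ops X n) ⊗[W.K] M) :
    (ctrOp (ops := ops) v s q e).rTensor M c = ∑ r : Free q → Fin v.N,
      mform (rform W X (vanishing W f)) e (fun p => v.t (r p)) •
        hK f s q c (fun p => v.u (r p)) := by
  rw [ctrOp, ← LinearMap.coe_rTensorHom, map_sum, LinearMap.sum_apply]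
  refine Finset.sum_congr rfl fun r _ => ?_
  rw [map_smul, LinearMap.smul_apply, LinearMap.coe_rTensorHom, hK_apply]

/-- the formula for one coefficient -/
theorem mext_span (v : VB W f) {q : Fin (n + 1) → Option (Fin D)} {m : ℕ}
    (e : Fin m × Fin 2 ≃ Free q) {ε : ℤ}
    (hε : ∀ x : Free q → vanishing W f,
      ∑ r : Free q → Fin v.N,
        (∏ l, bil W X (v.u (r (e (l, 0)))) (v.u (r (e (l, 1))))) •
          (tens (opR v q r) ∘ₗ tens (opK s q fun p => (x p : W.H X))) =
        (ε : W.K) • (LinearMap.mulLeft W.K (mtch (ops := ops) v e) ∘ₗ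
          (W.map (powerMap ops f n)).toLinearMap ∘ₗ tens (opK s q fun p => (x p : W.H X))))
    (c : W.H (power ops X n) ⊗[W.K] M) {z : W.H (power ops Y n) ⊗[W.K] M}
    (hz : z ∈ Submodule.span W.K (Set.range fun x => hK f s q c x)) :
    ∑ r : Free q → Fin v.N, (∏ l, bil W X (v.u (r (e (l, 0)))) (v.u (r (e (l, 1))))) •
      (tens (opR v q r)).rTensor M z = (ε : W.K) • (mext (ops := ops) v e).rTensor M z := by
  induction hz using Submodule.span_induction with
  | mem z hz =>
    obtain ⟨x, rfl⟩ := hz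
    beta_reduce
    have h6 : ∑ r : Free q → Fin v.N,
        (∏ l', bil W X (v.u (r (e (l', 0)))) (v.u (r (e (l', 1))))) •
          (tens (opR v q r) ∘ₗ tens (opK s q fun p => (x p : W.H X))) =
        (ε : W.K) • (mext (ops := ops) v e ∘ₗ
          tens (opK s q fun p => (x p : W.H X))) := hε x
    have h5 := congrArg (fun A => LinearMap.rTensorHom M A c) h6
    beta_reduce at h5
    rw [map_sum, LinearMap.sum_apply] at h5
    simp only [map_smul, LinearMap.smul_apply, LinearMap.coe_rTensorHom, LinearMap.rTensor_comp,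
      LinearMap.comp_apply] at h5
    exact h5
  | zero => simp
  | add a b _ _ ha hb =>
    simp only [map_add, smul_add, Finset.sum_add_distrib]
    rw [ha, hb]
  | smul r a _ ha =>
    simp only [map_smul]
    have h1 : ∀ r' : Free q → Fin v.N, (∏ l, bil W X (v.u (r' (e (l, 0))))
        (v.u (r' (e (l, 1))))) • r • (tens (opR v q r')).rTensor M a =
        r • ((∏ l, bil W X (v.u (r' (e (l, 0)))) (v.u (r' (e (l, 1))))) •
          (tens (opR v q r')).rTensor M a) := fun r' => smul_comm _ _ _
    rw [Finset.sum_congr rfl fun r' _ => h1 r', ← Finset.smul_sum, ha, smul_comm]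

/-- **The structure of the components**, with explicit coefficients. -/
theorem core_z (h : Data χ f ρ ρY s) (v : VB W f) {τ : Γ →* (M →ₗ[W.K] M)} {μ : Γ →* W.Kˣ}
    {g₀ : Γ} (hχ : χ g₀ = 1) (hμ : μ g₀ = 1) (hY : ρY g₀ = 1) (hτ : τ g₀ = 1)
    (hPL : PLAct (W.tr X) (vanishing W f) ρ g₀)
    (hK' : Even X.dim → FewRoots W.K ∧ n + 1 < Module.finrank W.K (vanishing W f))
    {c : W.H (power ops X n) ⊗[W.K] M} {Δ : Subgroup Γ} (hΔ : Δ.FiniteIndex)
    (hc : ∀ g ∈ Δ, TensorProduct.map (pact ρ n g) (τ g) c = (μ g : W.K) • c)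
    (q : Fin (n + 1) → Option (Fin D)) :
    ∃ (L : ℕ) (m : Fin L → ℕ) (e : ∀ l, Fin (m l) × Fin 2 ≃ Free q) (F : Fin L → Fin L → ℚ),
      (tens (piq f s q)).rTensor M c = ∑ l, (mext (ops := ops) v (e l)).rTensor M
        (∑ l₁, (F l l₁ : W.K) • (ctrOp (ops := ops) v s q (e l₁)).rTensor M c) := by
  classical
  obtain ⟨δ, hδ, hδ0, x, hx, hgx⟩ := hPL
  have heven : (-1 : ℤ) ^ X.dim = 1 → Even X.dim := by
    intro h
    by_contra h'
    rw [(Nat.not_even_iff_odd.1 h').neg_one_pow] at h
    exact absurd h (by decide)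
  have hcard : Module.finrank W.K (vanishing W f) = v.N := by
    rw [Module.finrank_eq_card_basis v.u, Fintype.card_fin]
  have hE := hK_eqv (ops := ops) h hΔ hc q
  have hsym : ∀ a b : vanishing W f, rform W X (vanishing W f) a b =
      (((-1 : ℤ) ^ X.dim : ℤ) : W.K) * rform W X (vanishing W f) b a := fun a b => by
    rw [rform_apply, rform_apply, van_symm h.middle a.2 b.2]
    push_cast
    rfl
  have h1 := gen_mem (S := Free q) (J := Fin v.N) (s := (-1) ^ X.dim)
    (μ := fun g => (χ g : W.K) ^ X.dim) (B := rform W X (vanishing W f))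
    (neg_one_pow_eq_or ℤ _) hsym
    (van_nondeg h.transfer) (fun g => pow_ne_zero _ (Units.ne_zero _))
    (fun g a b => h.bil_act g a b) (SI_rhoV h) (g := g₀) (δ := ⟨δ, hδ⟩) (c := x)
    (fun h => hδ0 (congrArg Subtype.val h)) hx
    (fun t => Subtype.ext (hgx t t.2))
    (by rw [hχ, Units.val_one, one_pow])
    (σ := sig (lamq χ μ X q) ρY τ n)
    (by
      rw [sig_apply, lamq_apply, hχ, hμ, hτ, pact_of_one _ hY]
      simp only [Units.val_one, inv_one, one_pow, one_mul, one_smul]
      exact TensorProduct.map_id)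
    (fun h => ⟨(hK' (heven h)).1, by have := (hK' (heven h)).2; omega⟩)
    hE v.u
    (fun h => by
      have h2 := (hK' (heven h)).2
      rw [hcard] at h2
      refine lt_of_le_of_lt (Fintype.card_subtype_le _) ?_
      rw [Fintype.card_fin, Fintype.card_fin]
      exact h2)
  obtain ⟨L, m, e, φ, hexp, -⟩ := extraction (rform W X (vanishing W f)) v.u h1
  obtain ⟨F, hF⟩ := gram_inverse (S := Free q) (J := Fin v.N) (neg_one_pow_eq_or ℤ X.dim)
    hsym (van_nondeg h.transfer) (u := v.u) (t := v.t) (fun x => Subtype.ext (by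
      conv_lhs => rw [expand_u v x.2]
      rw [Submodule.coe_sum]
      rfl)) e
  choose ε hε using fun l => dstar (ops := ops) (n := n) (D := D) v h.transfer h.middle (e l)
  set z : Fin L → W.H (power ops Y n) ⊗[W.K] M :=
    fun l => ∑ r : Free q → Fin v.N, φ l r • hK f s q c fun j => v.u (r j) with hz
  set z' : Fin L → W.H (power ops Y n) ⊗[W.K] M :=
    fun l => ∑ l₁, (F l l₁ : W.K) • (ctrOp (ops := ops) v s q (e l₁)).rTensor M c with hz'
  -- the contraction
  have hctr : ∀ l₁, (ctrOp (ops := ops) v s q (e l₁)).rTensor M c = ∑ l₂,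
      (∑ r : Free q → Fin v.N, mform (rform W X (vanishing W f)) (e l₁) (fun p => v.t (r p)) *
        mform (rform W X (vanishing W f)) (e l₂) (fun p => v.u (r p))) • z l₂ := by
    intro l₁
    rw [ctrOp_apply]
    have h3 : ∀ r : Free q → Fin v.N, (hK f s q c fun j => v.u (r j)) =
        ∑ l₂, mform (rform W X (vanishing W f)) (e l₂) (fun p => v.u (r p)) • z l₂ := fun r =>
      hexp fun j => v.u (r j)
    simp only [Finset.sum_smul]
    rw [Finset.sum_comm]
    refine Finset.sum_congr rfl fun r _ => ?_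
    rw [h3 r, Finset.smul_sum]
    refine Finset.sum_congr rfl fun l₂ _ => ?_
    rw [smul_smul]
  have hexp' : ∀ y : Free q → vanishing W f, hK f s q c y =
      ∑ l, mform (rform W X (vanishing W f)) (e l) y • z' l := by
    intro y
    have h3 : hK f s q c y = ∑ l₂, mform (rform W X (vanishing W f)) (e l₂) y • z l₂ := hexp y
    rw [h3]
    have h4 : ∀ l, mform (rform W X (vanishing W f)) (e l) y • z' l = ∑ l₂, (∑ l₁,
        mform (rform W X (vanishing W f)) (e l) y * (F l l₁ : W.K) *
        (∑ r : Free q → Fin v.N, mform (rform W X (vanishing W f)) (e l₁)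
          (fun p => v.t (r p)) * mform (rform W X (vanishing W f)) (e l₂)
          (fun p => v.u (r p)))) • z l₂ := by
      intro l
      simp only [hz', hctr, Finset.smul_sum, Finset.sum_smul, smul_smul]
      rw [Finset.sum_comm]
      refine Finset.sum_congr rfl fun l₂ _ => Finset.sum_congr rfl fun l₁ _ => ?_
      rw [Finset.mul_sum, Finset.sum_smul]
      refine Finset.sum_congr rfl fun r _ => ?_
      congr 1
      ring
    rw [Finset.sum_congr rfl fun l _ => h4 l, Finset.sum_comm]
    refine Finset.sum_congr rfl fun l₂ _ => ?_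
    rw [← Finset.sum_smul, hF y l₂]
  have hspan : ∀ l, z' l ∈ Submodule.span W.K (Set.range fun x => hK f s q c x) := by
    intro l
    refine Submodule.sum_mem _ fun l₁ _ => Submodule.smul_mem _ _ ?_
    rw [ctrOp_apply]
    exact Submodule.sum_mem _ fun r _ => Submodule.smul_mem _ _
      (Submodule.subset_span ⟨_, rfl⟩)
  -- the formula
  have h2 : (tens (piq f s q)).rTensor M c = ∑ r : Free q → Fin v.N,
      (tens (opR v q r)).rTensor M (hK f s q c fun j => v.u (r j)) := by
    rw [star (ops := ops) v h.transfer q, ← LinearMap.coe_rTensorHom, map_sum,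
      LinearMap.sum_apply]
    refine Finset.sum_congr rfl fun r _ => ?_
    rw [LinearMap.coe_rTensorHom, LinearMap.rTensor_comp, LinearMap.comp_apply, hK_apply]
  have h3 : (tens (piq f s q)).rTensor M c = ∑ l, (ε l : W.K) •
      (mext (ops := ops) v (e l)).rTensor M (z' l) := by
    rw [h2]
    have h3 : ∀ r : Free q → Fin v.N,
        (tens (opR v q r)).rTensor M (hK f s q c fun j => v.u (r j)) =
        ∑ l, (∏ l', bil W X (v.u (r (e l (l', 0)))) (v.u (r (e l (l', 1))))) •
          (tens (opR v q r)).rTensor M (z' l) := by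
      intro r
      conv_lhs => rw [hexp' fun j => v.u (r j)]
      rw [map_sum]
      refine Finset.sum_congr rfl fun l _ => ?_
      rw [map_smul]
      rfl
    rw [Finset.sum_congr rfl fun r _ => h3 r, Finset.sum_comm]
    refine Finset.sum_congr rfl fun l _ => ?_
    exact mext_span v (e l) (hε l) c (hspan l)
  refine ⟨L, m, e, fun l l₁ => ε l * F l l₁, ?_⟩
  rw [h3]
  refine Finset.sum_congr rfl fun l _ => ?_
  rw [← map_smul]
  congr 1
  rw [hz', Finset.smul_sum]
  refine Finset.sum_congr rfl fun l₁ _ => ?_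
  rw [smul_smul]
  push_cast
  rfl

end Pool.Agent.N174.Lef
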