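import Pool.Agent.N174.Lef.CtrF

/-!
# Degrees and equivariance of the contractions
-/

open CategoryTheory AlgebraicGeometry Finset Function TensorProduct

set_option linter.unusedSectionVars false

universe u v w x

namespace Pool.Agent.N174.Lef

open Pool.Agent.H914 Pool.Agent.H914.VarClass Pool.Agent.H914.VarClass.Obj
  Pool.Agent.H914.WeilCohomology Pool.Agent.H281R3.HT Pool.Agent.W552 Pool.Agent.TH125.Gal

variable {k : Type u} [Field k] {𝒱 : VarClass k} {ops : CycleOps 𝒱}
  {W : WeilCohomology.{u, v} ops}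

section low

variable {X X' Y Y' : 𝒱.Obj} {n : ℕ}

/-- the operator lowers the degree by `δ` -/
def Low (δ : ℕ) (A : W.H X →ₗ[W.K] W.H Y) : Prop :=
  ∀ l a, proj (W.isInternal Y) l (A a) = A (proj (W.isInternal X) (l + δ) a)

theorem eq_sum_proj (a : W.H X) :
    a = ∑ i ∈ range (2 * X.dim + 1), proj (W.isInternal X) i a := by
  have h4 := sum_proj (W.isInternal X) (N := 2 * X.dim + 1)
    fun i hi => W.gr_eq_bot X i (by omega)
  have h5 := LinearMap.congr_fun h4 a
  rw [LinearMap.sum_apply] at h5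
  exact h5.symm

theorem eq_zero_of_proj {a : W.H X} (h : ∀ i, proj (W.isInternal X) i a = 0) : a = 0 := by
  rw [eq_sum_proj a]
  exact Finset.sum_eq_zero fun i _ => h i

theorem mem_of_proj {a : W.H X} {i : ℕ} (h : ∀ l, l ≠ i → proj (W.isInternal X) l a = 0) :
    a ∈ W.gr X i := by
  have h1 : a = proj (W.isInternal X) i a := by
    rw [← sub_eq_zero]
    refine eq_zero_of_proj fun l => ?_
    rw [map_sub]
    by_cases hl : l = i
    · subst hl
      rw [proj_same _ (proj_mem _ _ _), sub_self]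
    · rw [h l hl, proj_ne _ (proj_mem _ _ _) (Ne.symm hl), sub_zero]
  rw [h1]
  exact proj_mem _ _ _

theorem Low.mem {δ : ℕ} {A : W.H X →ₗ[W.K] W.H Y} (hA : Low δ A) {i : ℕ} {a : W.H X}
    (ha : a ∈ W.gr X i) : A a ∈ W.gr Y (i - δ) := by
  refine mem_of_proj fun l hl => ?_
  rw [hA, proj_ne _ ha (by omega), map_zero]

theorem Low.zero {δ : ℕ} {A : W.H X →ₗ[W.K] W.H Y} (hA : Low δ A) {i : ℕ} {a : W.H X}
    (ha : a ∈ W.gr X i) (hi : i < δ) : A a = 0 := by
  refine eq_zero_of_proj fun l => ?_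
  rw [hA, proj_ne _ ha (by omega), map_zero]

theorem low_of {δ : ℕ} {A : W.H X →ₗ[W.K] W.H Y}
    (h : ∀ i, ∀ a ∈ W.gr X i, A a ∈ W.gr Y (i - δ) ∧ (i < δ → A a = 0)) : Low δ A := by
  intro l a
  refine gr_induction (W.isInternal X) (p := fun a => proj (W.isInternal Y) l (A a) =
    A (proj (W.isInternal X) (l + δ) a)) ?_ ?_ a
  · intro i a ha
    obtain ⟨h1, h2⟩ := h i a ha
    by_cases hi : i < δ
    · rw [h2 hi, map_zero, proj_ne _ ha (by omega), map_zero]
    · by_cases hl : i = l + δ
      · subst hl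
        rw [Nat.add_sub_cancel] at h1
        rw [proj_same _ h1, proj_same _ ha]
      · rw [proj_ne _ h1 (by omega), proj_ne _ ha hl, map_zero]
  · intro a b ha hb
    rw [map_add, map_add, ha, hb, map_add, map_add]

theorem low_smul {δ : ℕ} (c : W.K) {A : W.H X →ₗ[W.K] W.H Y} (hA : Low δ A) :
    Low δ (c • A) := by
  intro l a
  rw [LinearMap.smul_apply, LinearMap.smul_apply, map_smul, hA]

theorem low_sum {ι : Type*} (S : Finset ι) {δ : ℕ} {A : ι → W.H X →ₗ[W.K] W.H Y}
    (hA : ∀ i ∈ S, Low δ (A i)) : Low δ (∑ i ∈ S, A i) := by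
  intro l a
  rw [LinearMap.sum_apply, LinearMap.sum_apply, map_sum]
  exact Finset.sum_congr rfl fun i hi => hA i hi l a

theorem t2_low {δ δ' : ℕ} {A : W.H X →ₗ[W.K] W.H Y} {B : W.H X' →ₗ[W.K] W.H Y'} (hA : Low δ A)
    (hB : Low δ' B) : Low (δ + δ') (t2 A B) := by
  intro l c
  refine W.kunneth_induction (p := fun c => proj (W.isInternal _) l (t2 A B c) =
      t2 A B (proj (W.isInternal _) (l + (δ + δ')) c)) ?_ ?_ c
  · intro a b ha hb
    rw [map_add, map_add, map_add, map_add, ha, hb]
  · intro i j a ha b hb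
    rw [t2_apply]
    have h1 : W.map (fst X X') a * W.map (snd X X') b ∈ W.gr (X.prod X') (i + j) :=
      W.mul_mem (W.map_mem _ ha) (W.map_mem _ hb)
    by_cases hi : i < δ
    · rw [hA.zero ha hi, map_zero, zero_mul, map_zero]
      by_cases hij : i + j = l + (δ + δ')
      · rw [← hij, proj_same _ h1, t2_apply, hA.zero ha hi, map_zero, zero_mul]
      · rw [proj_ne _ h1 hij, map_zero]
    · by_cases hj : j < δ'
      · rw [hB.zero hb hj, map_zero, mul_zero, map_zero]
        by_cases hij : i + j = l + (δ + δ')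
        · rw [← hij, proj_same _ h1, t2_apply, hB.zero hb hj, map_zero, mul_zero]
        · rw [proj_ne _ h1 hij, map_zero]
      · have h2 : W.map (fst Y Y') (A a) * W.map (snd Y Y') (B b) ∈
            W.gr (Y.prod Y') ((i - δ) + (j - δ')) :=
          W.mul_mem (W.map_mem _ (hA.mem ha)) (W.map_mem _ (hB.mem hb))
        by_cases hij : i + j = l + (δ + δ')
        · have h3 : (i - δ) + (j - δ') = l := by omega
          rw [h3] at h2
          rw [← hij, proj_same _ h1, proj_same _ h2, t2_apply]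
        · rw [proj_ne _ h1 hij, proj_ne _ h2 (by omega), map_zero]

theorem tens_low : ∀ (n : ℕ) (δ : Fin (n + 1) → ℕ) (A : Fin (n + 1) → W.H X →ₗ[W.K] W.H Y),
    (∀ p, Low (δ p) (A p)) → Low (∑ p, δ p) (tens (ops := ops) A) := by
  intro n
  induction n with
  | zero =>
    intro δ A hA
    have h1 : tens (ops := ops) A = A 0 := by
      refine mono_ext fun a => ?_
      rw [tens_mono, mono_zero]
      exact congrArg (A 0) (mono_zero X a).symm
    rw [h1, Fin.sum_univ_one]
    exact hA 0
  | succ n ih =>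
    intro δ A hA
    rw [tens_succ, Fin.sum_univ_succ]
    exact t2_low (hA 0) (ih _ _ fun p => hA p.succ)

end low

section ctr

variable {X Y : 𝒱.Obj} {f : X ⟶ Y} {n D : ℕ} {s : W.H X →ₗ[W.K] W.H Y}

theorem low_ct {x : W.H X} (hx : x ∈ W.gr X X.dim) : Low X.dim (ct (W := W) Y x) := by
  refine low_of fun i a ha => ?_
  rw [ct_apply]
  by_cases hi : i = X.dim
  · subst hi
    rw [Nat.sub_self]
    exact ⟨Submodule.smul_mem _ _ (W.one_mem _), fun h => absurd h (lt_irrefl _)⟩
  · rw [bil_eq_zero hx ha (by omega), zero_smul]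
    exact ⟨Submodule.zero_mem _, fun _ => rfl⟩

theorem low_sd (hs : IsTransfer W f s) (i : ℕ) : Low 0 (sd s i) := by
  refine low_of fun l a ha => ⟨?_, fun h => absurd h (Nat.not_lt_zero _)⟩
  rw [Nat.sub_zero]
  change s (proj (W.isInternal X) i a) ∈ _
  by_cases hl : l = i
  · subst hl
    rw [proj_same _ ha]
    exact hs.gr_mem _ _ ha
  · rw [proj_ne _ ha hl, map_zero]
    exact Submodule.zero_mem _

theorem card_free {q : Fin (n + 1) → Option (Fin D)} {m : ℕ} (e : Fin m × Fin 2 ≃ Free q) :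
    Fintype.card (Free q) = 2 * m := by
  rw [← Fintype.card_congr e, Fintype.card_prod, Fintype.card_fin, Fintype.card_fin, mul_comm]

theorem low_ctr (v : VB W f) (hs : IsTransfer W f s) (hmid : vanishing W f ≤ W.gr X X.dim)
    {q : Fin (n + 1) → Option (Fin D)} {m : ℕ} (e : Fin m × Fin 2 ≃ Free q) :
    Low (2 * (X.dim * m)) (ctrOp (ops := ops) v s q e) := by
  refine low_sum _ fun r _ => low_smul _ ?_
  have h1 := tens_low (ops := ops) n (fun p => if q p = none then X.dim else 0)
    (opK s q fun p => (v.u (r p) : W.H X)) (fun p => by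
      by_cases h : q p = none
      · rw [if_pos h, opK_none _ h]
        exact low_ct (hmid (v.u _).2)
      · obtain ⟨i, hi⟩ := Option.ne_none_iff_exists'.1 h
        rw [if_neg h, opK_some _ hi]
        exact low_sd hs i)
  rw [Finset.sum_ite, Finset.sum_const_zero, add_zero, Finset.sum_const, smul_eq_mul,
    ← Fintype.card_subtype] at h1
  have h2 : Fintype.card {p // q p = none} = 2 * m := card_free e
  rw [h2] at h1
  have h3 : 2 * m * X.dim = 2 * (X.dim * m) := by ring
  rwa [h3] at h1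

variable {Γ : Type w} [Group Γ] {M : Type x} [AddCommGroup M] [Module W.K M]
  {χ : Γ →* W.Kˣ} {ρ : Γ →* (W.H X ≃ₐ[W.K] W.H X)} {ρY : Γ →* (W.H Y ≃ₐ[W.K] W.H Y)}

theorem hK_act (h : Data χ f ρ ρY s) {g : Γ} (hg : ∀ a, s (ρ g a) = ρY g (s a))
    (q : Fin (n + 1) → Option (Fin D)) (τg : M →ₗ[W.K] M)
    (c : W.H (power ops X n) ⊗[W.K] M) (z : Free q → vanishing W f) :
    hK f s q (TensorProduct.map (pact ρ n g) τg c) (fun j => rhoV h g (z j)) =
      ((χ g : W.K) ^ (X.dim * Fintype.card (Free q))) •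
        TensorProduct.map (pact ρY n g) τg (hK f s q c z) := by
  have h2 : ∀ (A : W.H (power ops X n) →ₗ[W.K] W.H (power ops Y n))
      (c : W.H (power ops X n) ⊗[W.K] M),
      A.rTensor M (TensorProduct.map (pact ρ n g) τg c) =
        TensorProduct.map (A ∘ₗ pact ρ n g) τg c := by
    intro A c
    rw [LinearMap.rTensor, ← LinearMap.comp_apply, ← TensorProduct.map_comp, LinearMap.id_comp]
  rw [hK_apply, hK_apply, h2]
  have h3 := opK_act (ops := ops) h hg q (fun p => (z p : W.H X))
  have h4 : (fun p => ((rhoV h g (z p) : vanishing W f) : W.H X)) =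
      fun p => ρ g (z p : W.H X) := rfl
  rw [h4, h3, TensorProduct.map_smul_left, LinearMap.smul_apply]
  congr 1
  rw [LinearMap.rTensor, ← LinearMap.comp_apply, ← TensorProduct.map_comp, LinearMap.comp_id]

/-- **Equivariance of the contractions.** -/
theorem ctr_act (h : Data χ f ρ ρY s) (v : VB W f) {g : Γ}
    (hg : ∀ a, s (ρ g a) = ρY g (s a)) {q : Fin (n + 1) → Option (Fin D)} {m : ℕ}
    (e : Fin m × Fin 2 ≃ Free q) (τg : M →ₗ[W.K] M) (c : W.H (power ops X n) ⊗[W.K] M) :
    (ctrOp (ops := ops) v s q e).rTensor M (TensorProduct.map (pact ρ n g) τg c) =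
      ((χ g : W.K) ^ (X.dim * m)) • TensorProduct.map (pact ρY n g) τg
        ((ctrOp (ops := ops) v s q e).rTensor M c) := by
  have hχ0 : (χ g : W.K) ^ X.dim ≠ 0 := pow_ne_zero _ (Units.ne_zero _)
  have hu : ∀ x : vanishing W f, x = ∑ j, rform W X (vanishing W f) x (v.t j) • v.u j := by
    intro x
    apply Subtype.ext
    conv_lhs => rw [expand_u v x.2]
    rw [Submodule.coe_sum]
    rfl
  have ht : ∀ x : vanishing W f, x = ∑ j, rform W X (vanishing W f) (v.u j) x • v.t j := by
    intro x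
    apply Subtype.ext
    conv_lhs => rw [expand_t v x.2]
    rw [Submodule.coe_sum]
    rfl
  have hB : ∀ x y : vanishing W f, rform W X (vanishing W f) (rhoV h g x) (rhoV h g y) =
      (χ g : W.K) ^ X.dim * rform W X (vanishing W f) x y := fun x y => h.bil_act g x y
  have h1 := contr_basis (B := rform W X (vanishing W f)) (S := Free q)
    (b := fun i => rhoV h g (v.u i)) (b' := fun i => ((χ g : W.K) ^ X.dim)⁻¹ • rhoV h g (v.t i))
    (u := v.u) (t := v.t) (fun x => by
      obtain ⟨y, rfl⟩ : ∃ y, rhoV h g y = x := by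
        refine ⟨rhoV h g⁻¹ x, ?_⟩
        have h2 : rhoV h g (rhoV h g⁻¹ x) = (rhoV h g * rhoV h g⁻¹) x := rfl
        rw [h2, ← map_mul, mul_inv_cancel, map_one]
        rfl
      conv_lhs => rw [ht y, map_sum]
      refine Finset.sum_congr rfl fun i _ => ?_
      rw [map_smul, hB, smul_smul]
      congr 1
      field_simp) hu
    (mform (rform W X (vanishing W f)) e)
    (hK f s q (TensorProduct.map (pact ρ n g) τg c))
  rw [ctrOp_apply, ← h1, ctrOp_apply, map_sum, Finset.smul_sum]
  refine Finset.sum_congr rfl fun r _ => ?_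
  have h2 := hK_act (ops := ops) h hg q τg c fun p => v.u (r p)
  rw [h2, MultilinearMap.map_smul_univ, Finset.prod_const, Finset.card_univ, map_smul,
    smul_smul, smul_smul]
  congr 1
  have h3 : (mform (rform W X (vanishing W f)) e fun p => rhoV h g (v.t (r p))) =
      ((χ g : W.K) ^ X.dim) ^ m * mform (rform W X (vanishing W f)) e fun p => v.t (r p) := by
    rw [mform_apply, mform_apply]
    simp only [hB]
    rw [Finset.prod_mul_distrib, Finset.prod_const, Finset.card_univ, Fintype.card_fin]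
  rw [h3, smul_eq_mul, pow_mul, pow_mul, inv_pow]
  have h4 := pow_ne_zero (Fintype.card (Free q)) hχ0
  field_simp

end ctr

end Pool.Agent.N174.Lef
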