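import Pool.Agent.N174.Lef.Step
import Pool.Agent.W552.AS

/-!
# External products of correspondences between different varieties
-/

open CategoryTheory AlgebraicGeometry Finset Function TensorProduct

set_option linter.unusedSectionVars false

universe u v w x

namespace Pool.Agent.N174.Lef

open Pool.Agent.H914 Pool.Agent.H914.VarClass Pool.Agent.H914.VarClass.Obj
  Pool.Agent.H914.WeilCohomology Pool.Agent.H281R3.HT Pool.Agent.W552 Pool.Agent.TH125.Gal

variable {k : Type u} [Field k] {𝒱 : VarClass k} {ops : CycleOps 𝒱}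
  {W : WeilCohomology.{u, v} ops} {X X' Y Y' Z : 𝒱.Obj}

/-- The projection `(X × X') × (Y × Y') → X × Y`. -/
noncomputable def r1 (X X' Y Y' : 𝒱.Obj) : (X.prod X').prod (Y.prod Y') ⟶ X.prod Y :=
  Obj.lift (fst (X.prod X') (Y.prod Y') ≫ fst X X') (snd (X.prod X') (Y.prod Y') ≫ fst Y Y')

/-- The projection `(X × X') × (Y × Y') → X' × Y'`. -/
noncomputable def r2 (X X' Y Y' : 𝒱.Obj) : (X.prod X').prod (Y.prod Y') ⟶ X'.prod Y' :=
  Obj.lift (fst (X.prod X') (Y.prod Y') ≫ snd X X') (snd (X.prod X') (Y.prod Y') ≫ snd Y Y')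

lemma r1_tmul (a : W.H X) (a' : W.H Y) :
    W.map (r1 X X' Y Y') (W.map (fst X Y) a * W.map (snd X Y) a') =
      W.map (fst _ _) (W.map (fst X X') a) * W.map (snd _ _) (W.map (fst Y Y') a') := by
  have e1 : r1 X X' Y Y' ≫ fst X Y = fst (X.prod X') (Y.prod Y') ≫ fst X X' := Obj.lift_fst _ _
  have e2 : r1 X X' Y Y' ≫ snd X Y = snd (X.prod X') (Y.prod Y') ≫ fst Y Y' := Obj.lift_snd _ _
  rw [map_mul (W.map (r1 X X' Y Y')), ← W.map_comp, ← W.map_comp, e1, e2, W.map_comp,
    W.map_comp]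

lemma r2_tmul (b : W.H X') (b' : W.H Y') :
    W.map (r2 X X' Y Y') (W.map (fst X' Y') b * W.map (snd X' Y') b') =
      W.map (fst _ _) (W.map (snd X X') b) * W.map (snd _ _) (W.map (snd Y Y') b') := by
  have e1 : r2 X X' Y Y' ≫ fst X' Y' = fst (X.prod X') (Y.prod Y') ≫ snd X X' :=
    Obj.lift_fst _ _
  have e2 : r2 X X' Y Y' ≫ snd X' Y' = snd (X.prod X') (Y.prod Y') ≫ snd Y Y' :=
    Obj.lift_snd _ _
  rw [map_mul (W.map (r2 X X' Y Y')), ← W.map_comp, ← W.map_comp, e1, e2, W.map_comp,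
    W.map_comp]

lemma push_r (A : W.H (X.prod Y)) (B : W.H (X'.prod Y')) :
    W.push (snd (X.prod X') (Y.prod Y')) (W.map (r1 X X' Y Y') A * W.map (r2 X X' Y Y') B) =
      W.map (fst Y Y') (W.push (snd X Y) A) * W.map (snd Y Y') (W.push (snd X' Y') B) := by
  refine W.kunneth_induction (p := fun A =>
    W.push (snd (X.prod X') (Y.prod Y')) (W.map (r1 X X' Y Y') A * W.map (r2 X X' Y Y') B) =
      W.map (fst Y Y') (W.push (snd X Y) A) * W.map (snd Y Y') (W.push (snd X' Y') B)) ?_ ?_ A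
  · intro a b ha hb
    rw [map_add, add_mul, map_add, ha, hb, map_add, map_add, add_mul]
  intro i j a ha a' ha'
  refine W.kunneth_induction (p := fun B =>
    W.push (snd (X.prod X') (Y.prod Y'))
      (W.map (r1 X X' Y Y') (W.map (fst X Y) a * W.map (snd X Y) a') *
      W.map (r2 X X' Y Y') B) =
      W.map (fst Y Y') (W.push (snd X Y) (W.map (fst X Y) a * W.map (snd X Y) a')) *
        W.map (snd Y Y') (W.push (snd X' Y') B)) ?_ ?_ B
  · intro a b ha hb
    rw [map_add, mul_add, map_add, ha, hb, map_add, map_add, mul_add]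
  intro l m b hb b' _
  rw [r1_tmul, r2_tmul]
  have hsw : W.map (snd _ _) (W.map (fst Y Y') a') * W.map (fst _ _) (W.map (snd X X') b) =
      (-1 : W.K) ^ (j * l) • (W.map (fst (X.prod X') (Y.prod Y')) (W.map (snd X X') b) *
        W.map (snd (X.prod X') (Y.prod Y')) (W.map (fst Y Y') a')) :=
    W.comm (W.map_mem _ (W.map_mem _ ha')) (W.map_mem _ (W.map_mem _ hb))
  have e1 : W.map (fst _ _) (W.map (fst X X') a) * W.map (snd _ _) (W.map (fst Y Y') a') *
      (W.map (fst (X.prod X') (Y.prod Y')) (W.map (snd X X') b) *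
        W.map (snd (X.prod X') (Y.prod Y')) (W.map (snd Y Y') b')) =
      (-1 : W.K) ^ (j * l) • (W.map (fst _ _) (W.map (fst X X') a * W.map (snd X X') b) *
        W.map (snd _ _) (W.map (fst Y Y') a' * W.map (snd Y Y') b')) := by
    rw [map_mul (W.map (fst (X.prod X') (Y.prod Y'))),
      map_mul (W.map (snd (X.prod X') (Y.prod Y'))),
      mul_assoc, ← mul_assoc (W.map (snd _ _) (W.map (fst Y Y') a')), hsw, smul_mul_assoc,
      mul_smul_comm, mul_assoc, mul_assoc]
  rw [e1, map_smul, push_snd, W.tr_prod, push_snd, push_snd, map_smul, map_smul, smul_mul_assoc,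
    mul_smul_comm, smul_smul, smul_smul]
  by_cases hl : l = 2 * X'.dim
  · have hs : (-1 : W.K) ^ (j * l) = 1 := by
      rw [hl, mul_left_comm, pow_mul]
      simp
    rw [hs, one_mul]
  · rw [W.tr_eq_zero hb hl]
    simp

/-- The external product of correspondences. -/
lemma corr_r (c : W.H (X.prod Y)) {p : ℕ} {d : W.H (X'.prod Y')} (hd : d ∈ W.gr _ (2 * p))
    (a : W.H X) (b : W.H X') :
    W.corr (W.map (r1 X X' Y Y') c * W.map (r2 X X' Y Y') d)
      (W.map (fst X X') a * W.map (snd X X') b) =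
      W.map (fst Y Y') (W.corr c a) * W.map (snd Y Y') (W.corr d b) := by
  rw [corr_apply, corr_apply, corr_apply, ← push_r]
  congr 1
  have e1 : W.map (fst _ _) (W.map (fst X X') a) = W.map (r1 X X' Y Y') (W.map (fst X Y) a) := by
    have := r1_tmul (W := W) (X' := X') (Y' := Y') (Y := Y) a 1
    rw [map_one, map_one, map_one, mul_one, mul_one] at this
    exact this.symm
  have e2 : W.map (fst _ _) (W.map (snd X X') b) =
      W.map (r2 X X' Y Y') (W.map (fst X' Y') b) := by
    have := r2_tmul (W := W) (X := X) (Y := Y) (Y' := Y') b 1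
    rw [map_one, map_one, map_one, mul_one, mul_one] at this
    exact this.symm
  rw [map_mul (W.map (fst (X.prod X') (Y.prod Y'))), e1, e2, map_mul (W.map (r1 X X' Y Y')),
    map_mul (W.map (r2 X X' Y Y')), mul_assoc, ← mul_assoc (W.map (r2 X X' Y Y') d),
    W.even_comm (W.map_mem _ hd) (W.map (r1 X X' Y Y') _)]
  simp only [mul_assoc]

/-- External products of algebraic operators. -/
theorem aop_t2 {A : W.H X →ₗ[W.K] W.H Y} {B : W.H X' →ₗ[W.K] W.H Y'} (hA : AOp W X Y A)
    (hB : AOp W X' Y' B) : AOp W (X.prod X') (Y.prod Y') (t2 A B) := by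
  obtain ⟨c, hc, rfl⟩ := hA
  obtain ⟨d, hd, rfl⟩ := hB
  refine ⟨W.map (r1 X X' Y Y') c * W.map (r2 X X' Y Y') d, (hc.map _).mul (hd.map _), ?_⟩
  refine ext2 fun a b => ?_
  rw [t2_apply]
  refine AS.ind (p := fun d => W.corr (W.map (r1 X X' Y Y') c * W.map (r2 X X' Y Y') d)
    (W.map (fst X X') a * W.map (snd X X') b) =
      W.map (fst Y Y') (W.corr c a) * W.map (snd Y Y') (W.corr d b)) ?_ ?_ hd
  · intro j d hd
    exact corr_r c (alg_gr hd) a b
  · intro d d' hd hd'
    rw [map_add, mul_add, corr_add, LinearMap.add_apply, hd, hd', corr_add,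
      LinearMap.add_apply, map_add, mul_add]

theorem aop_id : AOp W X X LinearMap.id := AOp.one

/-- cup product with an algebraic class -/
theorem aop_mulLeft {x : W.H X} (hx : AS W X x) : AOp W X X (LinearMap.mulLeft W.K x) :=
  ⟨_, hx.push (diag X), by
    apply LinearMap.ext
    intro a
    rw [corr_diag]
    rfl⟩

/-- the operator `a ↦ tr a • 1` -/
noncomputable def trOne (X Y : 𝒱.Obj) : W.H X →ₗ[W.K] W.H Y :=
  (W.tr X).smulRight 1

theorem trOne_apply (a : W.H X) : trOne (W := W) X Y a = W.tr X a • (1 : W.H Y) := rfl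

theorem aop_trOne : AOp W X Y (trOne X Y) :=
  ⟨1, AS.one, by
    apply LinearMap.ext
    intro a
    rw [corr_apply, one_mul, push_snd', trOne_apply]⟩

/-- tensor powers of algebraic operators -/
theorem aop_tens : ∀ (n : ℕ) (A : Fin (n + 1) → W.H X →ₗ[W.K] W.H Y), (∀ p, AOp W X Y (A p)) →
    AOp W (power ops X n) (power ops Y n) (tens (ops := ops) A) := by
  intro n
  induction n with
  | zero =>
    intro A hA
    have h1 : tens (ops := ops) A = A 0 := by
      refine mono_ext fun a => ?_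
      rw [tens_mono, mono_zero]
      exact congrArg (A 0) (mono_zero X a).symm
    rw [h1]
    exact hA 0
  | succ n ih =>
    intro A hA
    rw [tens_succ]
    exact aop_t2 (hA 0) (ih _ fun p => hA p.succ)

end Pool.Agent.N174.Lef
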