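import Pool.Agent.N174.Lef.CoreZ
import Pool.Agent.N174.Lef.Ext2

/-!
# The contractions are algebraic operators
-/

open CategoryTheory AlgebraicGeometry Finset Function TensorProduct

set_option linter.unusedSectionVars false

universe u v w x

namespace Pool.Agent.N174.Lef

open Pool.Agent.H914 Pool.Agent.H914.VarClass Pool.Agent.H914.VarClass.Obj
  Pool.Agent.H914.WeilCohomology Pool.Agent.H281R3.HT Pool.Agent.W552 Pool.Agent.TH125.Gal

variable {k : Type u} [Field k] {𝒱 : VarClass k} {ops : CycleOps 𝒱}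
  {W : WeilCohomology.{u, v} ops} {X Y : 𝒱.Obj} {f : X ⟶ Y} {n D : ℕ}
  {s : W.H X →ₗ[W.K] W.H Y}

theorem mono_gr : ∀ (n : ℕ) (α : Fin (n + 1) → ℕ) (a : Fin (n + 1) → W.H X),
    (∀ p, a p ∈ W.gr X (α p)) → mono (powerPrj ops X n) a ∈ W.gr (power ops X n) (∑ p, α p) := by
  intro n
  induction n with
  | zero =>
    intro α a ha
    rw [Fin.sum_univ_one]
    exact (mono_zero X a).symm ▸ ha 0
  | succ n ih =>
    intro α a ha
    rw [mono_prod, Fin.sum_univ_succ]
    exact W.mul_mem (W.map_mem _ (ha 0)) (W.map_mem _ (ih _ _ fun p => ha p.succ))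

theorem mono_mul : ∀ (n : ℕ) (α β : Fin (n + 1) → ℕ), ∃ σ : ℕ, ∀ a b : Fin (n + 1) → W.H X,
    (∀ p, a p ∈ W.gr X (α p)) → (∀ p, b p ∈ W.gr X (β p)) →
    mono (powerPrj ops X n) b * mono (powerPrj ops X n) a =
      (-1 : W.K) ^ σ • mono (powerPrj ops X n) fun p => b p * a p := by
  intro n
  induction n with
  | zero =>
    intro α β
    refine ⟨0, fun a b _ _ => ?_⟩
    rw [pow_zero, one_smul]
    have h1 := mono_zero (ops := ops) X a
    have h2 := mono_zero (ops := ops) X b
    have h3 := mono_zero (ops := ops) X fun p => b p * a p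
    exact (congrArg₂ (fun x y : W.H X => x * y) h2 h1).trans h3.symm
  | succ n ih =>
    intro α β
    obtain ⟨σ, hσ⟩ := ih (fun p => α p.succ) fun p => β p.succ
    refine ⟨(∑ p : Fin (n + 1), β p.succ) * α 0 + σ, fun a b ha hb => ?_⟩
    have h1 := hσ (fun p => a p.succ) (fun p => b p.succ) (fun p => ha _) fun p => hb _
    rw [mono_prod, mono_prod, mono_prod]
    have h2 : W.map (snd X (power ops X n)) (mono (powerPrj ops X n) fun p => b p.succ) *
        W.map (fst X (power ops X n)) (a 0) =
        (-1 : W.K) ^ ((∑ p : Fin (n + 1), β p.succ) * α 0) •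
          (W.map (fst X (power ops X n)) (a 0) *
          W.map (snd X (power ops X n)) (mono (powerPrj ops X n) fun p => b p.succ)) :=
      W.comm (W.map_mem _ (mono_gr n _ _ fun p => hb _)) (W.map_mem _ (ha 0))
    have h3 : W.map (fst X (power ops X n)) (b 0) *
        W.map (snd X (power ops X n)) (mono (powerPrj ops X n) fun p => b p.succ) *
        (W.map (fst X (power ops X n)) (a 0) *
        W.map (snd X (power ops X n)) (mono (powerPrj ops X n) fun p => a p.succ)) =
        (-1 : W.K) ^ ((∑ p : Fin (n + 1), β p.succ) * α 0) •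
        (W.map (fst X (power ops X n)) (b 0 * a 0) * W.map (snd X (power ops X n))
          (mono (powerPrj ops X n) (fun p => b p.succ) *
            mono (powerPrj ops X n) fun p => a p.succ)) := by
      rw [map_mul (W.map (fst X (power ops X n))), map_mul (W.map (snd X (power ops X n))),
        mul_assoc, ← mul_assoc (W.map (snd X (power ops X n)) _) (W.map (fst X _) (a 0)), h2,
        smul_mul_assoc, mul_smul_comm, mul_assoc, mul_assoc]
    refine h3.trans ?_
    rw [h1, map_smul, mul_smul_comm, smul_smul, pow_add]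
    rfl

/-- multilinear maps are determined by the homogeneous elements -/
theorem ml_ext_hom {N : Type*} [AddCommGroup N] [Module W.K N] {S : Type} [Fintype S]
    [DecidableEq S] {F G : MultilinearMap W.K (fun _ : S => W.H X) N}
    (h : ∀ (α : S → ℕ) (a : S → W.H X), (∀ p, a p ∈ W.gr X (α p)) → F a = G a) : F = G := by
  apply MultilinearMap.ext
  intro a
  have h1 : a = fun p => ∑ i : Fin (2 * X.dim + 1), proj (W.isInternal X) (i : ℕ) (a p) := by
    funext p
    have h4 := sum_proj (W.isInternal X) (N := 2 * X.dim + 1)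
      fun i hi => W.gr_eq_bot X i (by omega)
    have h5 := LinearMap.congr_fun h4 (a p)
    rw [LinearMap.sum_apply, Finset.sum_range] at h5
    exact h5.symm
  rw [h1, MultilinearMap.map_sum, MultilinearMap.map_sum]
  refine Finset.sum_congr rfl fun r _ => ?_
  exact h (fun p => (r p : ℕ)) _ fun p => proj_mem _ _ _

/-- the factors of the matching class -/
noncomputable def bfac (v : VB W f) {q : Fin (n + 1) → Option (Fin D)} (r : Free q → Fin v.N)
    (p : Fin (n + 1)) : W.H X := if h : q p = none then (v.t (r ⟨p, h⟩) : W.H X) else 1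

theorem mtch_sum (v : VB W f) (hmid : vanishing W f ≤ W.gr X X.dim)
    {q : Fin (n + 1) → Option (Fin D)} {m : ℕ} (e : Fin m × Fin 2 ≃ Free q) :
    ∃ ε : ℤ, ε * ε = 1 ∧ mtch (ops := ops) v e = (ε : W.K) • ∑ r : Free q → Fin v.N,
      (∏ l, bil W X (v.u (r (e (l, 0)))) (v.u (r (e (l, 1))))) •
        mono (powerPrj ops X n) (bfac v r) := by
  obtain ⟨ε, h1, hε⟩ := sum_pattern_unif (K := W.K) (A := W.H (power ops X n)) (JC := Fin D)
    (JT := Fin v.N) (fun i => i.elim (fun _ => 0) fun _ => X.dim) (d := X.dim)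
    (fun _ => rfl) e
  refine ⟨ε, h1, ?_⟩
  have h2 := hε (fun p i => i.elim (fun _ => 1)
      fun j => W.map (powerPrj ops X n p) (v.t j : W.H X))
    (fun p p' _ i j => by
      rcases i with i | i <;> rcases j with j | j
      · simp
      · simp
      · simp
      · exact W.comm (W.map_mem _ (hmid (v.t i).2)) (W.map_mem _ (hmid (v.t j).2)))
    (fun i j => bil W X (v.u i) (v.u j))
  have h3 : ∀ r : Free q → Fin v.N, mono (powerPrj ops X n) (bfac v r) =
      (List.ofFn fun p => (fun p (i : Fin D ⊕ Fin v.N) => i.elim (fun _ => 1)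
        fun j => W.map (powerPrj ops X n p) (v.t j : W.H X)) p (comb q r p)).prod := by
    intro r
    rw [mono]
    congr 2
    funext p
    beta_reduce
    by_cases h : q p = none
    · rw [bfac, dif_pos h, comb_none r ⟨p, h⟩]
      rfl
    · obtain ⟨i, hi⟩ := Option.ne_none_iff_exists'.1 h
      rw [bfac, dif_neg h, comb_some r hi, map_one]
      rfl
  simp only [h3]
  rw [h2, smul_smul]
  have h4 : (ε : W.K) * (ε : W.K) = 1 := by rw [← Int.cast_mul, h1, Int.cast_one]
  rw [h4, one_smul]
  have h5 : ((fixList q).map fun p => (q p).elim (1 : W.H (power ops X n)) fun _ => 1).prod =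
      1 := by
    apply List.prod_eq_one
    intro x hx
    rw [List.mem_map] at hx
    obtain ⟨p, -, rfl⟩ := hx
    cases q p <;> rfl
  refine Eq.trans ?_ (congrArg (fun y => (List.ofFn fun l : Fin m =>
    ∑ a : Fin 2 → Fin v.N, bil W X (v.u (a 0)) (v.u (a 1)) •
      (W.map (powerPrj ops X n (e (l, 0)).1) (v.t (a 0) : W.H X) *
        W.map (powerPrj ops X n (e (l, 1)).1) (v.t (a 1) : W.H X))).prod * y) h5.symm)
  rw [mul_one, mtch]
  congr 2
  funext l
  rw [dQ, map_sum]
  refine Finset.sum_congr rfl fun a _ => ?_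
  rw [map_smul, map_mul, ← W.map_comp, ← W.map_comp, Obj.lift_fst, Obj.lift_snd]

/-- the operators of the contraction -/
noncomputable def opT (s : W.H X →ₗ[W.K] W.H Y) (q : Fin (n + 1) → Option (Fin D))
    (p : Fin (n + 1)) : W.H X →ₗ[W.K] W.H Y := (q p).elim (trOne X Y) fun i => sd s i

/-- the monomial with scalars at the free positions -/
noncomputable def sfac (s : W.H X →ₗ[W.K] W.H Y) (q : Fin (n + 1) → Option (Fin D))
    (a : Fin (n + 1) → W.H X) (p : Fin (n + 1)) : W.H Y :=
  (q p).elim 1 fun i => sd s i (a p)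

theorem mono_sfac (q : Fin (n + 1) → Option (Fin D)) (a : Fin (n + 1) → W.H X)
    (β : Free q → W.K) (y : Fin (n + 1) → W.H Y)
    (h1 : ∀ p (h : q p = none), y p = β ⟨p, h⟩ • 1)
    (h2 : ∀ p i, q p = some i → y p = sd s i (a p)) :
    mono (powerPrj ops Y n) y = (∏ p, β p) • mono (powerPrj ops Y n) (sfac s q a) := by
  have h3 : y = fun p => (if h : q p = none then β ⟨p, h⟩ else 1) • sfac s q a p := by
    funext p
    by_cases h : q p = none
    · rw [h1 p h, dif_pos h, sfac, h]
      rfl
    · obtain ⟨i, hi⟩ := Option.ne_none_iff_exists'.1 h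
      rw [h2 p i hi, dif_neg h, sfac, hi, one_smul]
      rfl
  rw [h3, ← monoML_apply, ← monoML_apply, MultilinearMap.map_smul_univ]
  congr 1
  rw [Fintype.prod_dite]
  simp only [Finset.prod_const_one, mul_one]

/-- the degrees at which the contraction is not zero -/
def qdeg (X : 𝒱.Obj) (q : Fin (n + 1) → Option (Fin D)) (p : Fin (n + 1)) : ℕ :=
  (q p).elim X.dim fun i => (i : ℕ)

theorem mono_zero_entry (a : Fin (n + 1) → W.H Y) {p : Fin (n + 1)} (h : a p = 0) :
    mono (powerPrj ops Y n) a = 0 := by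
  rw [← monoML_apply]
  exact MultilinearMap.map_coord_zero _ p h

theorem mform_expand (v : VB W f) {S : Type} [Fintype S] [DecidableEq S] {m : ℕ}
    (e : Fin m × Fin 2 ≃ S) {t : Fin v.N → vanishing W f} (c : S → Fin v.N → W.K)
    (x : S → vanishing W f) (h : ∀ p, x p = ∑ i, c p i • t i) :
    mform (rform W X (vanishing W f)) e x = ∑ r : S → Fin v.N, (∏ p, c p (r p)) *
      mform (rform W X (vanishing W f)) e fun p => t (r p) := by
  rw [show x = fun p => ∑ i, c p i • t i from funext h, MultilinearMap.map_sum]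
  refine Finset.sum_congr rfl fun r _ => ?_
  rw [MultilinearMap.map_smul_univ, smul_eq_mul]

/-- **The contractions are given by correspondences.** -/
theorem ctr_formula (v : VB W f) (hs : IsTransfer W f s)
    (hmid : vanishing W f ≤ W.gr X X.dim) (q : Fin (n + 1) → Option (Fin D)) {m : ℕ}
    (e : Fin m × Fin 2 ≃ Free q) : ∃ ε : ℤ, ctrOp (ops := ops) v s q e =
      (ε : W.K) • (tens (opT s q) ∘ₗ LinearMap.mulLeft W.K (mtch (ops := ops) v e)) := by
  obtain ⟨ε, hε1, hε⟩ := mtch_sum (ops := ops) v hmid e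
  obtain ⟨σ, hσ⟩ := mono_mul (ops := ops) (W := W) (X := X) n (qdeg X q)
    fun p => if q p = none then X.dim else 0
  refine ⟨ε * (-1) ^ σ, ?_⟩
  have hb : ∀ (r : Free q → Fin v.N) p, bfac v r p ∈
      W.gr X (if q p = none then X.dim else 0) := by
    intro r p
    by_cases h : q p = none
    · rw [bfac, dif_pos h, if_pos h]
      exact hmid (v.t _).2
    · rw [bfac, dif_neg h, if_neg h]
      exact W.one_mem _
  -- the two sides on monomials
  have hL : ∀ a : Fin (n + 1) → W.H X, ctrOp (ops := ops) v s q e (mono (powerPrj ops X n) a) =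
      mform (rform W X (vanishing W f)) e
        (fun p => ⟨piE f s (a p.1), piE_mem hs _⟩) • mono (powerPrj ops Y n) (sfac s q a) := by
    intro a
    rw [ctrOp, LinearMap.sum_apply, mform_expand v e (t := fun i => v.t i)
      (fun p i => bil W X (v.u i) (a p.1)) _ (fun p => Subtype.ext (by
        rw [Submodule.coe_sum]
        exact piE_eq v hs (a p.1))), Finset.sum_smul]
    refine Finset.sum_congr rfl fun r _ => ?_
    rw [LinearMap.smul_apply, tens_mono, mono_sfac q a
      (fun p => bil W X (v.u (r p)) (a p.1)) _ ?_ ?_, smul_smul, mul_comm]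
    · intro p h
      rw [opK_none _ h, ct_apply]
    · intro p i h
      rw [opK_some _ h]
  have hR : ∀ a : Fin (n + 1) → W.H X, (∀ p, a p ∈ W.gr X (qdeg X q p)) →
      tens (opT s q) (mtch (ops := ops) v e * mono (powerPrj ops X n) a) =
      ((ε * (-1) ^ σ : ℤ) : W.K) • mform (rform W X (vanishing W f)) e
        (fun p => ⟨piE f s (a p.1), piE_mem hs _⟩) • mono (powerPrj ops Y n) (sfac s q a) := by
    intro a ha
    have h1 : ∀ p : Free q, (⟨piE f s (a p.1), piE_mem hs _⟩ : vanishing W f) =
        ∑ i, ((-1 : W.K) ^ X.dim * bil W X (v.t i) (a p.1)) • v.u i := by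
      intro p
      apply Subtype.ext
      rw [Submodule.coe_sum]
      change piE f s (a p.1) = _
      conv_lhs => rw [expand_u v (piE_mem hs (a p.1))]
      refine Finset.sum_congr rfl fun i _ => ?_
      rw [van_symm hmid (piE_mem hs _) (v.t i).2, ← bil_piE hs hmid, piE_of_mem hs (v.t i).2]
      rfl
    have hcard : (-1 : W.K) ^ (X.dim * Fintype.card (Free q)) = 1 := by
      have h2 : Fintype.card (Free q) = 2 * m := by
        rw [← Fintype.card_congr e, Fintype.card_prod, Fintype.card_fin, Fintype.card_fin,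
          mul_comm]
      rw [h2, mul_left_comm, pow_mul]
      simp
    rw [hε, smul_mul_assoc, Finset.sum_mul, map_smul, map_sum, mform_expand v e
      (t := fun i => v.u i) _ _ h1]
    have h3 : ∀ r : Free q → Fin v.N, tens (ops := ops) (opT s q)
        ((∏ l, bil W X (v.u (r (e (l, 0)))) (v.u (r (e (l, 1))))) •
        mono (powerPrj ops X n) (bfac v r) * mono (powerPrj ops X n) a) =
        (-1 : W.K) ^ σ • ((∏ p : Free q, bil W X (v.t (r p)) (a p.1)) *
          (∏ l, bil W X (v.u (r (e (l, 0)))) (v.u (r (e (l, 1)))))) •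
            mono (powerPrj ops Y n) (sfac s q a) := by
      intro r
      have h4 := mono_sfac (ops := ops) (s := s) q a
        (fun p => bil W X (v.t (r p)) (a p.1)) (fun p => opT s q p (bfac v r p * a p))
        (fun p h => by
          rw [opT, h, bfac, dif_pos h]
          rfl) (fun p i h => by
          rw [opT, h, bfac, dif_neg (by rw [h]; exact Option.some_ne_none i), one_mul]
          rfl)
      rw [smul_mul_assoc, hσ a (bfac v r) ha (hb r), map_smul, map_smul, tens_mono, h4,
        smul_smul, smul_smul, smul_smul]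
      congr 1
      ring
    rw [Finset.sum_congr rfl fun r _ => h3 r, ← Finset.smul_sum, ← Finset.sum_smul, smul_smul,
      smul_smul, smul_smul]
    congr 1
    push_cast
    congr 1
    refine Finset.sum_congr rfl fun r _ => ?_
    rw [Finset.prod_mul_distrib, Finset.prod_const, Finset.card_univ, ← pow_mul, hcard, one_mul]
    rfl
  refine mono_ext fun a => ?_
  have h1 := ml_ext_hom (F := (ctrOp (ops := ops) v s q e).compMultilinearMap
      (monoML (powerPrj ops X n))) (G := (((ε * (-1) ^ σ : ℤ) : W.K) •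
      (tens (opT s q) ∘ₗ LinearMap.mulLeft W.K (mtch (ops := ops) v e))).compMultilinearMap
      (monoML (powerPrj ops X n))) (fun α a ha => ?_)
  · exact DFunLike.congr_fun h1 a
  · change ctrOp (ops := ops) v s q e (mono (powerPrj ops X n) a) =
      ((ε * (-1) ^ σ : ℤ) : W.K) • tens (opT s q)
        (mtch (ops := ops) v e * mono (powerPrj ops X n) a)
    by_cases hgood : ∀ p, α p = qdeg X q p
    · have h2 := hR a fun p => hgood p ▸ ha p
      have h4 : ((ε * (-1) ^ σ : ℤ) : W.K) * ((ε * (-1) ^ σ : ℤ) : W.K) = 1 := by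
        rw [← Int.cast_mul, show (ε * (-1) ^ σ) * (ε * (-1) ^ σ) =
          (ε * ε) * ((-1) ^ σ * (-1) ^ σ) by ring, ← mul_pow, hε1]
        norm_num
      rw [h2, hL, smul_smul, h4, one_smul]
    · push Not at hgood
      obtain ⟨p, hp⟩ := hgood
      have h5 : ∀ r : Free q → Fin v.N, tens (ops := ops) (opT s q)
          (mono (powerPrj ops X n) (bfac v r) * mono (powerPrj ops X n) a) = 0 := by
        intro r
        obtain ⟨σ', hσ'⟩ := mono_mul (ops := ops) (W := W) (X := X) n α
          fun p => if q p = none then X.dim else 0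
        rw [hσ' a (bfac v r) ha (hb r), map_smul, tens_mono, mono_zero_entry _ (p := p), smul_zero]
        by_cases h : q p = none
        · rw [opT, h]
          change W.tr X (bfac v r p * a p) • (1 : W.H Y) = 0
          have h6 := hb r p
          rw [if_pos h] at h6
          rw [qdeg, h] at hp
          have hp' : α p ≠ X.dim := hp
          rw [W.tr_eq_zero (W.mul_mem h6 (ha p)) (by omega), zero_smul]
        · obtain ⟨i, hi⟩ := Option.ne_none_iff_exists'.1 h
          rw [opT, hi, bfac, dif_neg h, one_mul]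
          change s (proj (W.isInternal X) i (a p)) = 0
          rw [qdeg, hi] at hp
          have hp' : α p ≠ (i : ℕ) := hp
          rw [proj_ne _ (ha p) hp', map_zero]
      rw [hL, hε, smul_mul_assoc, Finset.sum_mul, map_smul, map_sum,
        Finset.sum_congr rfl fun r _ => (by
          rw [smul_mul_assoc, map_smul, h5 r, smul_zero] : tens (ops := ops) (opT s q)
        ((∏ l, bil W X (v.u (r (e (l, 0)))) (v.u (r (e (l, 1))))) •
        mono (powerPrj ops X n) (bfac v r) * mono (powerPrj ops X n) a) = 0),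
        Finset.sum_const_zero, smul_zero, smul_zero]
      by_cases h : q p = none
      · have h6 : piE f s (a p) = 0 := by
          have h7 : piE f s (a p) ∈ W.gr X (α p) := piE_grd hs _ _ (ha p)
          have h8 := hmid (piE_mem hs (a p))
          rw [← proj_same (W.isInternal X) h7, proj_ne _ h8]
          rw [qdeg, h] at hp
          exact Ne.symm hp
        rw [MultilinearMap.map_coord_zero _ (⟨p, h⟩ : Free q) (Subtype.ext h6), zero_smul]
      · obtain ⟨i, hi⟩ := Option.ne_none_iff_exists'.1 h
        rw [mono_zero_entry _ (p := p), smul_zero]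
        rw [sfac, hi]
        change s (proj (W.isInternal X) i (a p)) = 0
        rw [qdeg, hi] at hp
        have hp' : α p ≠ (i : ℕ) := hp
        rw [proj_ne _ (ha p) hp', map_zero]

/-- the pull-back as a correspondence -/
theorem aop_map (f : X ⟶ Y) : AOp W Y X (W.map f).toLinearMap := by
  refine ⟨_, (AS.one (W := W) (X := X)).push (Obj.lift f (𝟙 X)), ?_⟩
  apply LinearMap.ext
  intro a
  rw [corr_apply, ← W.push_mul, ← W.map_comp, Obj.lift_fst, one_mul, ← W.push_comp,
    Obj.lift_snd, W.push_id]
  rfl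

theorem s_eq_sum (s : W.H X →ₗ[W.K] W.H Y) : s = ∑ i : Fin (2 * X.dim + 1), sd s (i : ℕ) := by
  have h4 := sum_proj (W.isInternal X) (N := 2 * X.dim + 1)
    fun i hi => W.gr_eq_bot X i (by omega)
  apply LinearMap.ext
  intro a
  have h5 := congrArg s (LinearMap.congr_fun h4 a)
  rw [LinearMap.sum_apply, Finset.sum_range, map_sum] at h5
  rw [LinearMap.sum_apply]
  exact h5.symm

theorem aop_s (h : ∀ i, AOp W X Y (sd s i)) : AOp W X Y s := by
  rw [s_eq_sum s]
  exact AOp.ratSub.sum _ fun i _ => h i

/-- The vanishing part of the diagonal is algebraic, if the retraction is. -/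
theorem dQ_as {Γ : Type w} [Group Γ] {χ : Γ →* W.Kˣ} {ρ : Γ →* (W.H X ≃ₐ[W.K] W.H X)}
    {ρY : Γ →* (W.H Y ≃ₐ[W.K] W.H Y)} (h : Data χ f ρ ρY s) (v : VB W f)
    (hs : ∀ i, AOp W X Y (sd s i)) : AS W (X.prod X) (dQ v) := by
  have hd : AS W (X.prod X) (W.push (diag X) 1) := AS.one.push _
  have h1 : AOp W X X (piC f s) := (aop_map f).comp (aop_s hs)
  have h2 : t2 (piE f s) (piE f s) (W.push (diag X) 1) =
      W.push (diag X) 1 - t2 (piC f s) (piC f s) (W.push (diag X) 1) := by
    rw [eq_sub_iff_add_eq, add_comm]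
    exact (diag_split h).symm
  rw [dQ_eq h v, h2]
  have h3 : (-1 : W.K) ^ X.dim = (((-1 : ℚ) ^ X.dim : ℚ) : W.K) := by push_cast; rfl
  rw [h3]
  exact (AS.ratSub.sub hd ((aop_t2 h1 h1).apply hd)).smul _

theorem mtch_as (v : VB W f) (hQ : AS W (X.prod X) (dQ v)) {m : ℕ}
    {q : Fin (n + 1) → Option (Fin D)} (e : Fin m × Fin 2 ≃ Free q) :
    AS W (power ops X n) (mtch (ops := ops) v e) := by
  rw [mtch, List.ofFn_eq_map]
  generalize List.finRange m = L
  induction L with
  | nil => exact AS.one
  | cons l L ih =>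
    rw [List.map_cons, List.prod_cons]
    exact (hQ.map _).mul ih

theorem aop_ctr (v : VB W f) (hs : IsTransfer W f s)
    (hmid : vanishing W f ≤ W.gr X X.dim) (hsd : ∀ i, AOp W X Y (sd s i))
    (hQ : AS W (X.prod X) (dQ v)) (q : Fin (n + 1) → Option (Fin D)) {m : ℕ}
    (e : Fin m × Fin 2 ≃ Free q) :
    AOp W (power ops X n) (power ops Y n) (ctrOp (ops := ops) v s q e) := by
  obtain ⟨ε, hε⟩ := ctr_formula (ops := ops) v hs hmid q e
  rw [hε, ← Rat.cast_intCast]
  refine AOp.smul _ (AOp.comp (aop_tens n _ fun p => ?_) (aop_mulLeft (mtch_as v hQ e)))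
  rw [opT]
  cases q p with
  | none => exact aop_trOne
  | some i => exact hsd i

end Pool.Agent.N174.Lef
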