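import Pool.Agent.N174.Lef.CtrF

/-!
# Numerical and homological equivalence
-/

open CategoryTheory AlgebraicGeometry Finset Function TensorProduct

set_option linter.unusedSectionVars false

universe u v w x

namespace Pool.Agent.N174.Lef

open Pool.Agent.H914 Pool.Agent.H914.VarClass Pool.Agent.H914.VarClass.Obj
  Pool.Agent.H914.WeilCohomology Pool.Agent.H281R3.HT Pool.Agent.W552 Pool.Agent.TH125.Gal

variable {k : Type u} [Field k] {𝒱 : VarClass k} {ops : CycleOps 𝒱}
  {W : WeilCohomology.{u, v} ops}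

/-- the sum of the homogeneous components of an algebraic class -/
theorem tr_alg_mul {V : 𝒱.Obj} {j : ℕ} {c : W.H V} (hc : c ∈ algClasses W V j) (a : W.H V) :
    W.tr V (c * a) = W.tr V (c * proj (W.isInternal V) (2 * (V.dim - j)) a) := by
  refine gr_induction (W.isInternal V) (p := fun a => W.tr V (c * a) =
    W.tr V (c * proj (W.isInternal V) (2 * (V.dim - j)) a)) ?_ ?_ a
  · intro i a ha
    by_cases hi : i = 2 * (V.dim - j)
    · subst hi
      rw [proj_same _ ha]
    · rw [proj_ne _ ha hi, mul_zero, map_zero]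
      by_cases hj : j ≤ V.dim
      · exact W.tr_eq_zero (W.mul_mem (alg_gr hc) ha) (by omega)
      · have h1 : c = 0 := by
          have h2 := alg_gr hc
          rw [W.gr_eq_bot V _ (by omega)] at h2
          exact (Submodule.mem_bot _).1 h2
        rw [h1, zero_mul, map_zero]
  · intro a b ha hb
    rw [mul_add, map_add, ha, hb, map_add, mul_add, map_add]

theorem tr_mul_alg {V : 𝒱.Obj} {j : ℕ} {c : W.H V} (hc : c ∈ algClasses W V j) (a : W.H V) :
    W.tr V (a * c) = W.tr V (proj (W.isInternal V) (2 * (V.dim - j)) a * c) := by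
  rw [← alg_even_comm hc, tr_alg_mul hc, alg_even_comm hc]

/-- Algebraic classes which are numerically zero are zero. -/
theorem as_zero_of_num {V : 𝒱.Obj} (hD : HomEqNum W V) {c : W.H V} (hc : AS W V c)
    (h : ∀ a, AS W V a → W.tr V (c * a) = 0) : c = 0 := by
  have h1 : ∀ i, proj (W.isInternal V) (2 * i) c = 0 := by
    intro i
    by_cases hi : i ≤ V.dim
    · obtain ⟨z, hz, hzc⟩ := hc.proj i
      rw [← hzc]
      refine hD i hi z hz fun w hw => ?_
      have h2 : W.tr V (W.cl V z * W.cl V w) = 0 := by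
        have h3 : W.cl V w ∈ algClasses W V (V.dim - i) := ⟨w, hw, rfl⟩
        have h4 := tr_mul_alg h3 c
        rw [show V.dim - (V.dim - i) = i by omega] at h4
        rw [hzc, ← h4]
        exact h _ (AS.of h3)
      rw [← W.cl_mul, W.tr_cl (by
        have := ops.mul_mem hz hw
        rwa [show i + (V.dim - i) = V.dim by omega] at this)] at h2
      exact_mod_cast h2
    · have h2 := proj_mem (W.isInternal V) (2 * i) c
      rw [W.gr_eq_bot V _ (by omega)] at h2
      exact (Submodule.mem_bot _).1 h2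
  have h2 : ∀ i, proj (W.isInternal V) (2 * i + 1) c = 0 := by
    intro i
    refine AS.ind (p := fun c => proj (W.isInternal V) (2 * i + 1) c = 0) ?_ ?_ hc
    · intro j x hx
      exact proj_ne _ (alg_gr hx) (by omega)
    · intro x y hx hy
      rw [map_add, hx, hy, add_zero]
  have h4 := sum_proj (W.isInternal V) (N := 2 * V.dim + 1)
    fun i hi => W.gr_eq_bot V i (by omega)
  have h5 := LinearMap.congr_fun h4 c
  rw [LinearMap.sum_apply] at h5
  have h6 : c = ∑ i ∈ range (2 * V.dim + 1), proj (W.isInternal V) i c := h5.symm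
  rw [h6]
  refine Finset.sum_eq_zero fun i _ => ?_
  rcases Nat.even_or_odd' i with ⟨l, rfl | rfl⟩
  · exact h1 l
  · exact h2 l

variable {X Y Z : 𝒱.Obj} {n : ℕ} {f : X ⟶ Y} {Γ : Type w} [Group Γ] {χ : Γ →* W.Kˣ}
  {ρ : Γ →* (W.H X ≃ₐ[W.K] W.H X)} {ρY : Γ →* (W.H Y ≃ₐ[W.K] W.H Y)}
  {τ : Γ →* (W.H Z ≃ₐ[W.K] W.H Z)} {s : W.H X →ₗ[W.K] W.H Y}

/-- the contractions on the product with `Z` -/
theorem kEquiv_ctr (v : VB W f) {D m : ℕ} {q : Fin (n + 1) → Option (Fin D)}
    (e : Fin m × Fin 2 ≃ Free q) (c : W.H ((power ops X n).prod Z)) :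
    kEquiv W (power ops Y n) Z ((ctrOp (ops := ops) v s q e).rTensor (W.H Z)
      ((kEquiv W (power ops X n) Z).symm c)) =
      t2 (X' := Z) (Y' := Z) (ctrOp (ops := ops) v s q e) LinearMap.id c := rfl

/-- **Semi-invariant classes with zero contractions are zero.** -/
theorem zero_of_ctr (h : Data χ f ρ ρY s) (v : VB W f) {g₀ : Γ} (hχ : χ g₀ = 1)
    (hY : ρY g₀ = 1) (hτ : τ g₀ = 1) (hPL : PLAct (W.tr X) (vanishing W f) ρ g₀)
    (hK : Even X.dim → FewRoots W.K ∧ n + 1 < Module.finrank W.K (vanishing W f)) {j : ℕ}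
    {c : W.H ((power ops X n).prod Z)} {Δ : Subgroup Γ} (hΔ : Δ.FiniteIndex)
    (hc : ∀ g ∈ Δ, t2 (pact ρ n g) (lact τ g) c = (χ g : W.K) ^ j • c)
    (hz : ∀ (q : Fin (n + 1) → Option (Fin (2 * X.dim + 1))) (m : ℕ)
      (e : Fin m × Fin 2 ≃ Free q),
      t2 (X' := Z) (Y' := Z) (ctrOp (ops := ops) v s q e) LinearMap.id c = 0) : c = 0 := by
  set c' := (kEquiv W (power ops X n) Z).symm c with hc'
  have hcc : kEquiv W (power ops X n) Z c' = c := LinearEquiv.apply_symm_apply _ _
  have hc1 : ∀ g ∈ Δ, TensorProduct.map (pact ρ n g) (lact τ g) c' =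
      (((χ ^ j) g : W.Kˣ) : W.K) • c' := by
    intro g hg
    apply (kEquiv W (power ops X n) Z).injective
    have h1 : t2 (pact ρ n g) (lact τ g) c = kEquiv W (power ops X n) Z
      (TensorProduct.map (pact ρ n g) (lact τ g) c') := rfl
    rw [← h1, hc g hg, map_smul, hcc]
    simp
  have hcore := fun q => core_z (D := 2 * X.dim + 1) h v (τ := lact τ) (μ := χ ^ j) hχ
    (by rw [MonoidHom.pow_apply, hχ, one_pow]) hY
    (by rw [lact_apply, hτ]; rfl) hPL hK hΔ hc1 q
  have hsum : c' = ∑ q : Fin (n + 1) → Option (Fin (2 * X.dim + 1)),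
      (tens (piq f s q)).rTensor (W.H Z) c' := by
    have h1 := congrArg (fun A => LinearMap.rTensorHom (W.H Z) A c')
      (sum_piq (ops := ops) (n := n) (f := f) s)
    beta_reduce at h1
    rw [map_sum, LinearMap.sum_apply] at h1
    simp only [LinearMap.coe_rTensorHom, LinearMap.rTensor_id, LinearMap.id_apply] at h1
    exact h1.symm
  rw [← hcc, hsum, map_sum]
  refine Finset.sum_eq_zero fun q _ => ?_
  obtain ⟨L, m, e, F, hF⟩ := hcore q
  rw [hF, map_sum]
  refine Finset.sum_eq_zero fun l _ => ?_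
  have h1 : ∀ l₁, (ctrOp (ops := ops) v s q (e l₁)).rTensor (W.H Z) c' = 0 := by
    intro l₁
    apply (kEquiv W (power ops Y n) Z).injective
    rw [map_zero, hc', kEquiv_ctr]
    exact hz q _ (e l₁)
  rw [Finset.sum_eq_zero fun l₁ _ => by rw [h1, smul_zero], map_zero, map_zero]

/-- **The Lefschetz theorem for the conjecture D.** -/
theorem D_step (h : Data χ f ρ ρY s) (hsd : ∀ i, AOp W X Y (sd s i))
    {g₀ : Γ} (hχ : χ g₀ = 1) (hY : ρY g₀ = 1) (hτ : τ g₀ = 1)
    (hPL : PLAct (W.tr X) (vanishing W f) ρ g₀)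
    (hK : Even X.dim → FewRoots W.K ∧ n + 1 < Module.finrank W.K (vanishing W f))
    (hfix : ∀ j, ∀ c ∈ algClasses W ((power ops X n).prod Z) j, ∃ Δ : Subgroup Γ,
      Δ.FiniteIndex ∧ ∀ g ∈ Δ, t2 (pact ρ n g) (lact τ g) c = (χ g : W.K) ^ j • c)
    (hD : HomEqNum W ((power ops Y n).prod Z)) : HomEqNum W ((power ops X n).prod Z) := by
  obtain ⟨v⟩ := exists_VB h.transfer
  intro j hj z hz hnum
  set c := W.cl ((power ops X n).prod Z) z with hcdef
  have hcA : c ∈ algClasses W ((power ops X n).prod Z) j := ⟨z, hz, rfl⟩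
  obtain ⟨Δ, hΔ, hc⟩ := hfix j c hcA
  refine zero_of_ctr h v hχ hY hτ hPL hK hΔ hc fun q m e => ?_
  have hop : AOp W ((power ops X n).prod Z) ((power ops Y n).prod Z)
      (t2 (X' := Z) (Y' := Z) (ctrOp (ops := ops) v s q e) LinearMap.id) :=
    aop_t2 (aop_ctr v h.transfer h.middle hsd (dQ_as h v hsd) q e) aop_id
  refine as_zero_of_num hD (hop.apply (AS.of hcA)) fun a ha => ?_
  obtain ⟨u', hu', hadj⟩ := hop.adj
  rw [hadj, tr_alg_mul hcA]
  obtain ⟨w, hw, hwa⟩ := (hu'.apply ha).proj (((power ops X n).prod Z).dim - j)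
  rw [← hwa, hcdef, ← W.cl_mul, W.tr_cl (by
    have := ops.mul_mem hz hw
    rwa [show j + (((power ops X n).prod Z).dim - j) = ((power ops X n).prod Z).dim by omega]
      at this), hnum w hw, Rat.cast_zero]

end Pool.Agent.N174.Lef
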