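import Pool.Agent.TH125.Gal.Pub2

/-!
# The vanishing cohomology of a morphism
-/

open CategoryTheory AlgebraicGeometry

universe u v w

namespace Pool.Agent.N174.Lef

open Pool.Agent.H914 Pool.Agent.H914.VarClass Pool.Agent.H914.VarClass.Obj
  Pool.Agent.H914.WeilCohomology Pool.Agent.H281R3.HT Pool.Agent.W552 Pool.Agent.TH125.Gal

variable {k : Type u} [Field k] {𝒱 : VarClass k} {ops : CycleOps 𝒱}

/-- The vanishing cohomology of the morphism `f`: the kernel of the push-forward in cohomology. It
is the orthogonal complement of the image of the pull-back. -/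
noncomputable def vanishing (W : WeilCohomology.{u, v} ops) {X Y : 𝒱.Obj} (f : X ⟶ Y) :
    Submodule W.K (W.H X) := LinearMap.ker (W.push f)

/-- The linear map `s` from the cohomology of `X` to the cohomology of `Y` preserves the degrees,
it is zero on the vanishing cohomology, and `a - f^* (s a)` is in the vanishing cohomology for all
`a`. So `f^* s` is the projector onto the image of `f^*` along the vanishing cohomology. -/
structure IsTransfer (W : WeilCohomology.{u, v} ops) {X Y : 𝒱.Obj} (f : X ⟶ Y)
    (s : W.H X →ₗ[W.K] W.H Y) : Prop where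
  gr_mem : ∀ i, ∀ a ∈ W.gr X i, s a ∈ W.gr Y i
  sub_mem : ∀ a, a - W.map f (s a) ∈ vanishing W f
  ker : ∀ a ∈ vanishing W f, s a = 0

end Pool.Agent.N174.Lef
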