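import Pool.Agent.N174.Lef.Act

/-!
# The vanishing part of the diagonal
-/

open CategoryTheory AlgebraicGeometry Finset Function TensorProduct

set_option linter.unusedSectionVars false

universe u v w x

namespace Pool.Agent.N174.Lef

open Pool.Agent.H914 Pool.Agent.H914.VarClass Pool.Agent.H914.VarClass.Obj
  Pool.Agent.H914.WeilCohomology Pool.Agent.H281R3.HT Pool.Agent.W552 Pool.Agent.TH125.Gal

variable {k : Type u} [Field k] {𝒱 : VarClass k} {ops : CycleOps 𝒱}
  {W : WeilCohomology.{u, v} ops}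

section two

variable {X X' Y Y' Z Z' : 𝒱.Obj}

/-- the tensor product of two linear maps -/
noncomputable def t2 (A : W.H X →ₗ[W.K] W.H Y) (B : W.H X' →ₗ[W.K] W.H Y') :
    W.H (X.prod X') →ₗ[W.K] W.H (Y.prod Y') :=
  (kEquiv W Y Y').toLinearMap ∘ₗ TensorProduct.map A B ∘ₗ (kEquiv W X X').symm.toLinearMap

theorem t2_apply (A : W.H X →ₗ[W.K] W.H Y) (B : W.H X' →ₗ[W.K] W.H Y') (a : W.H X) (b : W.H X') :
    t2 A B (W.map (fst X X') a * W.map (snd X X') b) =
      W.map (fst Y Y') (A a) * W.map (snd Y Y') (B b) := by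
  change kEquiv W Y Y' (TensorProduct.map A B ((kEquiv W X X').symm _)) = _
  rw [kEquiv_symm, TensorProduct.map_tmul, kEquiv_tmul]

theorem ext2 {N : Type*} [AddCommGroup N] [Module W.K N] {L L' : W.H (X.prod X') →ₗ[W.K] N}
    (h : ∀ a b, L (W.map (fst X X') a * W.map (snd X X') b) =
      L' (W.map (fst X X') a * W.map (snd X X') b)) : L = L' := by
  apply LinearMap.ext
  exact kun_ext (map_add L) (map_add L') h

theorem t2_t2 (A : W.H Y →ₗ[W.K] W.H Z) (B : W.H Y' →ₗ[W.K] W.H Z') (A' : W.H X →ₗ[W.K] W.H Y)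
    (B' : W.H X' →ₗ[W.K] W.H Y') (c : W.H (X.prod X')) :
    t2 A B (t2 A' B' c) = t2 (A ∘ₗ A') (B ∘ₗ B') c := by
  have h1 : t2 A B ∘ₗ t2 A' B' = t2 (A ∘ₗ A') (B ∘ₗ B') := by
    refine ext2 fun a b => ?_
    rw [LinearMap.comp_apply, t2_apply, t2_apply, t2_apply]
    rfl
  exact LinearMap.congr_fun h1 c

/-- graded maps -/
def Grd (A : W.H X →ₗ[W.K] W.H Y) : Prop := ∀ i, ∀ a ∈ W.gr X i, A a ∈ W.gr Y i

theorem t2_proj {A : W.H X →ₗ[W.K] W.H Y} {B : W.H X' →ₗ[W.K] W.H Y'} (hA : Grd A) (hB : Grd B)
    (i : ℕ) (c : W.H (X.prod X')) : proj (W.isInternal _) i (t2 A B c) =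
      t2 A B (proj (W.isInternal _) i c) := by
  refine W.kunneth_induction (p := fun c => proj (W.isInternal _) i (t2 A B c) =
      t2 A B (proj (W.isInternal _) i c)) ?_ ?_ c
  · intro a b ha hb
    rw [map_add, map_add, map_add, map_add, ha, hb]
  · intro j l a ha b hb
    rw [t2_apply]
    have h1 : W.map (fst X X') a * W.map (snd X X') b ∈ W.gr (X.prod X') (j + l) :=
      W.mul_mem (W.map_mem _ ha) (W.map_mem _ hb)
    have h2 : W.map (fst Y Y') (A a) * W.map (snd Y Y') (B b) ∈ W.gr (Y.prod Y') (j + l) :=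
      W.mul_mem (W.map_mem _ (hA _ _ ha)) (W.map_mem _ (hB _ _ hb))
    by_cases hi : j + l = i
    · subst hi
      rw [proj_same _ h1, proj_same _ h2, t2_apply]
    · rw [proj_ne _ h1 hi, proj_ne _ h2 hi, map_zero]

theorem t2_gr {A : W.H X →ₗ[W.K] W.H Y} {B : W.H X' →ₗ[W.K] W.H Y'} (hA : Grd A) (hB : Grd B) :
    Grd (t2 A B) := by
  intro i c hc
  rw [← proj_same (W.isInternal _) hc, ← t2_proj hA hB]
  exact proj_mem _ _ _

/-- the product of two morphisms -/
noncomputable def pmap (f : X ⟶ Y) (g : X' ⟶ Y') : X.prod X' ⟶ Y.prod Y' :=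
  Obj.lift (fst X X' ≫ f) (snd X X' ≫ g)

theorem map_pmap (f : X ⟶ Y) (g : X' ⟶ Y') (c : W.H (Y.prod Y')) :
    W.map (pmap f g) c = t2 (W.map f).toLinearMap (W.map g).toLinearMap c := by
  have h1 : (W.map (pmap f g)).toLinearMap = t2 (W.map f).toLinearMap (W.map g).toLinearMap := by
    refine ext2 fun a b => ?_
    rw [t2_apply]
    change W.map (pmap f g) _ = W.map (fst X X') (W.map f a) * W.map (snd X X') (W.map g b)
    rw [map_mul, ← W.map_comp, ← W.map_comp, ← W.map_comp, ← W.map_comp, pmap, Obj.lift_fst,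
      Obj.lift_snd]
  exact LinearMap.congr_fun h1 c

/-- the pairing of external products -/
theorem pair_hom {j l : ℕ} (a : W.H X) {b : W.H X'} (hb : b ∈ W.gr X' j) {x : W.H X}
    (hx : x ∈ W.gr X l) (y : W.H X') :
    bil W (X.prod X') (W.map (fst X X') a * W.map (snd X X') b)
      (W.map (fst X X') x * W.map (snd X X') y) =
        (-1 : W.K) ^ (j * l) * (bil W X a x * bil W X' b y) := by
  have h1 : W.map (snd X X') b * W.map (fst X X') x =
      (-1 : W.K) ^ (j * l) • (W.map (fst X X') x * W.map (snd X X') b) :=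
    W.comm (W.map_mem _ hb) (W.map_mem _ hx)
  rw [bil_apply, mul_assoc, ← mul_assoc (W.map (snd X X') b), h1, smul_mul_assoc, mul_smul_comm,
    mul_assoc, ← mul_assoc (W.map (fst X X') a), ← map_mul, ← map_mul, map_smul, W.tr_prod,
    smul_eq_mul]
  rfl

/-- the adjoint of a tensor product -/
theorem t2_adj {A : W.H X →ₗ[W.K] W.H X} {B : W.H X' →ₗ[W.K] W.H X'} {A' : W.H X →ₗ[W.K] W.H X}
    {B' : W.H X' →ₗ[W.K] W.H X'} (hA' : Grd A') (hB : Grd B) {α β : W.K}
    (h1 : ∀ a b, bil W X (A a) (A' b) = α * bil W X a b)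
    (h2 : ∀ a b, bil W X' (B a) (B' b) = β * bil W X' a b) (z : W.H (X.prod X')) (x : W.H X)
    (y : W.H X') :
    bil W (X.prod X') (t2 A B z) (W.map (fst X X') (A' x) * W.map (snd X X') (B' y)) =
      α * β * bil W (X.prod X') z (W.map (fst X X') x * W.map (snd X X') y) := by
  refine gr_induction (W.isInternal X) (p := fun x => bil W (X.prod X') (t2 A B z)
    (W.map (fst X X') (A' x) * W.map (snd X X') (B' y)) =
      α * β * bil W (X.prod X') z (W.map (fst X X') x * W.map (snd X X') y)) ?_ ?_ x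
  · intro l x hx
    refine W.kunneth_induction (p := fun z => bil W (X.prod X') (t2 A B z)
      (W.map (fst X X') (A' x) * W.map (snd X X') (B' y)) =
        α * β * bil W (X.prod X') z (W.map (fst X X') x * W.map (snd X X') y)) ?_ ?_ z
    · intro a b ha hb
      rw [map_add, map_add, map_add, LinearMap.add_apply, LinearMap.add_apply, ha, hb]
      ring
    · intro i j a _ b hb
      rw [t2_apply, pair_hom _ (hB _ _ hb) (hA' _ _ hx), pair_hom _ hb hx, h1, h2]
      ring
  · intro a b ha hb
    rw [map_add, map_add, add_mul, map_add, ha, hb, map_add, add_mul, map_add]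
    ring

theorem pair_ext {z z' : W.H (X.prod X')} (h : ∀ x y, bil W (X.prod X') z
    (W.map (fst X X') x * W.map (snd X X') y) = bil W (X.prod X') z'
    (W.map (fst X X') x * W.map (snd X X') y)) : z = z' := by
  apply W.tr_ext
  intro c
  refine W.kunneth_induction (p := fun c => W.tr _ (z * c) = W.tr _ (z' * c)) ?_ ?_ c
  · intro a b ha hb
    rw [mul_add, mul_add, map_add, map_add, ha, hb]
  · intro i j a _ b _
    exact h a b

end two

section diagonal

variable {X Y : 𝒱.Obj} {f : X ⟶ Y} {Γ : Type w} [Group Γ] {χ : Γ →* W.Kˣ}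
  {ρ : Γ →* (W.H X ≃ₐ[W.K] W.H X)} {ρY : Γ →* (W.H Y ≃ₐ[W.K] W.H Y)} {s : W.H X →ₗ[W.K] W.H Y}

theorem diag_bil (x y : W.H X) : bil W (X.prod X) (W.push (diag X) 1)
    (W.map (fst X X) x * W.map (snd X X) y) = bil W X x y := diag_pair x y

/-- the diagonal is semi-invariant -/
theorem diag_act (h : Data χ f ρ ρY s) (g : Γ) :
    t2 (ρ g).toLinearMap (ρ g).toLinearMap (W.push (diag X) 1) =
      (χ g : W.K) ^ X.dim • W.push (diag X) 1 := by
  refine pair_ext fun x y => ?_
  have hx : x = ρ g (ρ g⁻¹ x) := (act_inv ρ g x).symm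
  have hy : y = ρ g (ρ g⁻¹ y) := (act_inv ρ g y).symm
  have h1 := t2_adj (A := (ρ g).toLinearMap) (B := (ρ g).toLinearMap) (A' := (ρ g).toLinearMap)
    (B' := (ρ g).toLinearMap) (fun i a ha => h.gr_mem g i a ha) (fun i a ha => h.gr_mem g i a ha)
    (fun a b => h.bil_act g a b) (fun a b => h.bil_act g a b) (W.push (diag X) 1)
    (ρ g⁻¹ x) (ρ g⁻¹ y)
  rw [diag_bil] at h1
  change bil W (X.prod X) (t2 (ρ g).toLinearMap (ρ g).toLinearMap (W.push (diag X) 1))
    (W.map (fst X X) (ρ g (ρ g⁻¹ x)) * W.map (snd X X) (ρ g (ρ g⁻¹ y))) = _ at h1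
  rw [← hx, ← hy] at h1
  rw [h1, map_smul, LinearMap.smul_apply, diag_bil, smul_eq_mul]
  have h2 := h.bil_act g (ρ g⁻¹ x) (ρ g⁻¹ y)
  rw [← hx, ← hy] at h2
  rw [h2]
  ring

theorem piC_grd (h : IsTransfer W f s) : Grd (piC f s) := fun i a ha =>
  W.map_mem f (h.gr_mem i a ha)

theorem piE_grd (h : IsTransfer W f s) : Grd (piE f s) := fun i a ha =>
  Submodule.sub_mem _ ha (W.map_mem f (h.gr_mem i a ha))

theorem piE_piE (h : IsTransfer W f s) (a : W.H X) : piE f s (piE f s a) = piE f s a := by
  rw [piE_apply (a := piE f s a), h.ker _ (piE_mem h a), map_zero, sub_zero]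

theorem piE_of_mem (h : IsTransfer W f s) {a : W.H X} (ha : a ∈ vanishing W f) :
    piE f s a = a := by
  rw [piE_apply, h.ker _ ha, map_zero, sub_zero]

theorem piC_piC (h : IsTransfer W f s) (a : W.H X) : piC f s (piC f s a) = piC f s a := by
  have h1 := piE_piE h a
  have h2 : ∀ b, piE f s b = b - piC f s b := fun b => rfl
  rw [h2 (piE f s a)] at h1
  have h3 : piC f s (piE f s a) = 0 := by
    have h4 := sub_eq_self.1 h1
    exact h4
  rw [h2, map_sub, sub_eq_zero] at h3
  exact h3.symm

/-- **The decomposition of the diagonal.** -/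
theorem diag_split (h : Data χ f ρ ρY s) : W.push (diag X) 1 =
    t2 (piC f s) (piC f s) (W.push (diag X) 1) + t2 (piE f s) (piE f s) (W.push (diag X) 1) := by
  have hC : ∀ x y, bil W (X.prod X) (t2 (piC f s) (piC f s) (W.push (diag X) 1))
      (W.map (fst X X) x * W.map (snd X X) y) = bil W X (piC f s x) (piC f s y) := by
    intro x y
    rw [← diag_bil (piC f s x)]
    have key : ∀ z, bil W (X.prod X) (t2 (piC f s) (piC f s) z)
        (W.map (fst X X) x * W.map (snd X X) y) =
        bil W (X.prod X) z (W.map (fst X X) (piC f s x) * W.map (snd X X) (piC f s y)) := by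
      intro z
      refine gr_induction (W.isInternal X) (p := fun x => bil W (X.prod X)
        (t2 (piC f s) (piC f s) z) (W.map (fst X X) x * W.map (snd X X) y) =
        bil W (X.prod X) z (W.map (fst X X) (piC f s x) * W.map (snd X X) (piC f s y))) ?_ ?_ x
      · intro l x hx
        refine W.kunneth_induction (p := fun z => bil W (X.prod X) (t2 (piC f s) (piC f s) z)
          (W.map (fst X X) x * W.map (snd X X) y) =
          bil W (X.prod X) z (W.map (fst X X) (piC f s x) * W.map (snd X X) (piC f s y))) ?_ ?_ z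
        · intro a b ha hb
          rw [map_add, map_add, map_add, LinearMap.add_apply, LinearMap.add_apply, ha, hb]
        · intro i j a _ b hb
          rw [t2_apply, pair_hom _ (piC_grd h.transfer _ _ hb) hx,
            pair_hom _ hb (piC_grd h.transfer _ _ hx), bil_piC h.transfer h.middle,
            bil_piC h.transfer h.middle]
      · intro a b ha hb
        rw [map_add, add_mul, map_add, ha, hb, map_add, map_add, add_mul, map_add]
    exact key _
  have hE : ∀ x y, bil W (X.prod X) (t2 (piE f s) (piE f s) (W.push (diag X) 1))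
      (W.map (fst X X) x * W.map (snd X X) y) = bil W X (piE f s x) (piE f s y) := by
    intro x y
    rw [← diag_bil (piE f s x)]
    have key : ∀ z, bil W (X.prod X) (t2 (piE f s) (piE f s) z)
        (W.map (fst X X) x * W.map (snd X X) y) =
        bil W (X.prod X) z (W.map (fst X X) (piE f s x) * W.map (snd X X) (piE f s y)) := by
      intro z
      refine gr_induction (W.isInternal X) (p := fun x => bil W (X.prod X)
        (t2 (piE f s) (piE f s) z) (W.map (fst X X) x * W.map (snd X X) y) =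
        bil W (X.prod X) z (W.map (fst X X) (piE f s x) * W.map (snd X X) (piE f s y))) ?_ ?_ x
      · intro l x hx
        refine W.kunneth_induction (p := fun z => bil W (X.prod X) (t2 (piE f s) (piE f s) z)
          (W.map (fst X X) x * W.map (snd X X) y) =
          bil W (X.prod X) z (W.map (fst X X) (piE f s x) * W.map (snd X X) (piE f s y))) ?_ ?_ z
        · intro a b ha hb
          rw [map_add, map_add, map_add, LinearMap.add_apply, LinearMap.add_apply, ha, hb]
        · intro i j a _ b hb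
          rw [t2_apply, pair_hom _ (piE_grd h.transfer _ _ hb) hx,
            pair_hom _ hb (piE_grd h.transfer _ _ hx), bil_piE h.transfer h.middle,
            bil_piE h.transfer h.middle]
      · intro a b ha hb
        rw [map_add, add_mul, map_add, ha, hb, map_add, map_add, add_mul, map_add]
    exact key _
  refine pair_ext fun x y => ?_
  rw [map_add, LinearMap.add_apply, hC, hE, diag_bil]
  have hx : x = piC f s x + piE f s x := by rw [piE_apply, piC_apply]; abel
  have hy : y = piC f s y + piE f s y := by rw [piE_apply, piC_apply]; abel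
  conv_lhs => rw [hx, hy]
  have c1 : bil W X (piC f s x) (piE f s y) = 0 := map_van h.middle (piE_mem h.transfer y) _
  have c2 : bil W X (piE f s x) (piC f s y) = 0 := van_map (piE_mem h.transfer x) _
  rw [map_add, map_add, LinearMap.add_apply, LinearMap.add_apply, c1, c2]
  ring

/-- the class of the Gram matrix and the vanishing part of the diagonal -/
theorem dQ_eq (h : Data χ f ρ ρY s) (v : VB W f) :
    dQ v = (-1 : W.K) ^ X.dim • t2 (piE f s) (piE f s) (W.push (diag X) 1) := by
  have hsum : dQ v = ∑ i, ∑ j, bil W X (v.u i) (v.u j) •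
      (W.map (fst X X) (v.t i : W.H X) * W.map (snd X X) (v.t j : W.H X)) := by
    have h2 := Fintype.sum_equiv (finTwoArrowEquiv (Fin v.N))
      (fun a : Fin 2 → Fin v.N => bil W X (v.u (a 0)) (v.u (a 1)) •
        (W.map (fst X X) (v.t (a 0) : W.H X) * W.map (snd X X) (v.t (a 1) : W.H X)))
      (fun a => bil W X (v.u a.1) (v.u a.2) •
        (W.map (fst X X) (v.t a.1 : W.H X) * W.map (snd X X) (v.t a.2 : W.H X)))
      (fun a => rfl)
    rw [Fintype.sum_prod_type] at h2
    exact h2
  have hE : ∀ x y, bil W (X.prod X) (t2 (piE f s) (piE f s) (W.push (diag X) 1))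
      (W.map (fst X X) x * W.map (snd X X) y) = bil W X (piE f s x) (piE f s y) := by
    intro x y
    rw [← diag_bil (piE f s x)]
    generalize W.push (diag X) 1 = z
    refine gr_induction (W.isInternal X) (p := fun x => bil W (X.prod X)
      (t2 (piE f s) (piE f s) z) (W.map (fst X X) x * W.map (snd X X) y) =
      bil W (X.prod X) z (W.map (fst X X) (piE f s x) * W.map (snd X X) (piE f s y))) ?_ ?_ x
    · intro l x hx
      refine W.kunneth_induction (p := fun z => bil W (X.prod X) (t2 (piE f s) (piE f s) z)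
        (W.map (fst X X) x * W.map (snd X X) y) =
        bil W (X.prod X) z (W.map (fst X X) (piE f s x) * W.map (snd X X) (piE f s y))) ?_ ?_ z
      · intro a b ha hb
        rw [map_add, map_add, map_add, LinearMap.add_apply, LinearMap.add_apply, ha, hb]
      · intro i j a _ b hb
        rw [t2_apply, pair_hom _ (piE_grd h.transfer _ _ hb) hx,
          pair_hom _ hb (piE_grd h.transfer _ _ hx), bil_piE h.transfer h.middle,
          bil_piE h.transfer h.middle]
    · intro a b ha hb
      rw [map_add, add_mul, map_add, ha, hb, map_add, map_add, add_mul, map_add]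
  have hneg : (-1 : W.K) ^ X.dim * (-1 : W.K) ^ X.dim = 1 := by
    rw [← mul_pow]
    norm_num
  -- expansion of the projection
  have hexp : ∀ x, piE f s x = ∑ i, ((-1 : W.K) ^ X.dim * bil W X (v.t i) x) •
      (v.u i : W.H X) := by
    intro x
    conv_lhs => rw [expand_u v (piE_mem h.transfer x)]
    refine Finset.sum_congr rfl fun i _ => ?_
    rw [van_symm h.middle (piE_mem h.transfer x) (v.t i).2, ← bil_piE h.transfer h.middle,
      piE_of_mem h.transfer (v.t i).2]
  refine pair_ext fun x y => ?_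
  rw [map_smul, LinearMap.smul_apply, hE, smul_eq_mul]
  have h1 : bil W X (piE f s x) (piE f s y) = ∑ i, ∑ j, bil W X (v.u i) (v.u j) *
      (bil W X (v.t i) x * bil W X (v.t j) y) := by
    conv_lhs => rw [hexp x, hexp y]
    rw [LinearMap.map_sum₂]
    refine Finset.sum_congr rfl fun i _ => ?_
    rw [LinearMap.map_smul₂, map_sum, smul_eq_mul, Finset.mul_sum]
    refine Finset.sum_congr rfl fun j _ => ?_
    rw [map_smul, smul_eq_mul]
    linear_combination (bil W X (v.t i) x * bil W X (v.t j) y * bil W X (v.u i) (v.u j)) * hneg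
  rw [h1, hsum, map_sum, LinearMap.sum_apply, Finset.mul_sum]
  refine Finset.sum_congr rfl fun i _ => ?_
  rw [map_sum, LinearMap.sum_apply, Finset.mul_sum]
  refine Finset.sum_congr rfl fun j _ => ?_
  rw [map_smul, LinearMap.smul_apply, smul_eq_mul]
  have h2 : bil W (X.prod X) (W.map (fst X X) (v.t i : W.H X) * W.map (snd X X) (v.t j : W.H X))
      (W.map (fst X X) x * W.map (snd X X) y) =
      (-1 : W.K) ^ X.dim * (bil W X (v.t i) x * bil W X (v.t j) y) := by
    refine gr_induction (W.isInternal X) (p := fun x => bil W (X.prod X)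
      (W.map (fst X X) (v.t i : W.H X) * W.map (snd X X) (v.t j : W.H X))
      (W.map (fst X X) x * W.map (snd X X) y) =
      (-1 : W.K) ^ X.dim * (bil W X (v.t i) x * bil W X (v.t j) y)) ?_ ?_ x
    · intro l x hx
      rw [pair_hom _ (h.middle (v.t j).2) hx]
      by_cases hl : l = X.dim
      · subst hl
        congr 1
        rcases Nat.even_or_odd X.dim with h | h
        · rw [h.neg_one_pow, (h.mul_left _).neg_one_pow]
        · rw [h.neg_one_pow, (h.mul h).neg_one_pow]
      · rw [bil_eq_zero (h.middle (v.t i).2) hx (by omega)]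
        ring
    · intro a b ha hb
      rw [map_add, add_mul, map_add, ha, hb, map_add]
      ring
  rw [h2]
  ring

/-- **The vanishing part of the diagonal is algebraic.** -/
theorem dQ_alg (h : Data χ f ρ ρY s) (v : VB W f)
    (hT : ∀ c ∈ W.gr (Y.prod Y) (2 * X.dim), (∃ Δ : Subgroup Γ, Δ.FiniteIndex ∧ ∀ g ∈ Δ,
      t2 (ρY g).toLinearMap (ρY g).toLinearMap c = (χ g : W.K) ^ X.dim • c) →
        c ∈ algSpan W (Y.prod Y)) : dQ v ∈ algSpan W (X.prod X) := by
  have hd : W.push (diag X) 1 ∈ algClasses W (X.prod X) X.dim := by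
    refine alg_push (diag X) (i := X.dim) alg_one ?_
    rw [dim_prod]
    omega
  have h1 : t2 s s (W.push (diag X) 1) ∈ algSpan W (Y.prod Y) := by
    refine hT _ (t2_gr (fun i a ha => h.transfer.gr_mem i a ha)
      (fun i a ha => h.transfer.gr_mem i a ha) _ _ (alg_gr hd)) ?_
    obtain ⟨Δ, hΔ, hs⟩ := h.seq
    refine ⟨Δ, hΔ, fun g hg => ?_⟩
    have h2 : (ρY g).toLinearMap ∘ₗ s = s ∘ₗ (ρ g).toLinearMap := by
      apply LinearMap.ext
      intro a
      exact (hs g hg a).symm
    rw [t2_t2, h2, ← t2_t2, diag_act h, map_smul]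
  have h3 : t2 (piC f s) (piC f s) (W.push (diag X) 1) ∈ algSpan W (X.prod X) := by
    have h4 := algSpan_map (pmap f f) h1
    rw [map_pmap, t2_t2] at h4
    exact h4
  rw [dQ_eq h v]
  refine Submodule.smul_mem _ _ ?_
  have h5 : t2 (piE f s) (piE f s) (W.push (diag X) 1) =
      W.push (diag X) 1 - t2 (piC f s) (piC f s) (W.push (diag X) 1) := by
    rw [eq_sub_iff_add_eq, add_comm]
    exact (diag_split h).symm
  rw [h5]
  exact Submodule.sub_mem _ (alg_mem hd) h3

theorem dQ_mem_gr (hmid : vanishing W f ≤ W.gr X X.dim) (v : VB W f) :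
    dQ v ∈ W.gr (X.prod X) (2 * X.dim) := by
  rw [dQ]
  refine Submodule.sum_mem _ fun a _ => Submodule.smul_mem _ _ ?_
  rw [two_mul]
  exact W.mul_mem (W.map_mem _ (hmid (v.t _).2)) (W.map_mem _ (hmid (v.t _).2))

end diagonal

end Pool.Agent.N174.Lef
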