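import Pool.Agent.N174.Lef.Brg

/-!
# The Lefschetz theorem for Hodge classes
-/

open CategoryTheory AlgebraicGeometry TensorProduct

universe u v w

namespace Pool.Agent.N174.Lef.Hdg

open Pool.Agent.H914 Pool.Agent.H914.VarClass Pool.Agent.H914.VarClass.Obj
  Pool.Agent.H914.WeilCohomology Pool.Agent.Y121 Pool.Agent.Y121.AHS Pool.Agent.TH125.Gal
  Pool.Agent.R920.MT

open Pool.Agent.Y133.Half (ClassPred)

variable {k : Type u} [Field k] {𝒱 : VarClass k} {ops : CycleOps 𝒱}
  {Γ : Type w} [Group Γ]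

/-- a system of classes -/
def mkPred {W : WeilCohomology.{u, v} ops} {P : Property W}
    (gr : ∀ X j c, P X j c → c ∈ W.gr X (2 * j)) (lin : Linear P) (cl : HasCycles P)
    (mul : MulClosed P) (map : PullClosed P) (push : PushClosed P) : ClassPred W where
  P := P
  gr h := gr _ _ _ h
  zero := (lin _ _).zero
  add ha hb := (lin _ _).add ha hb
  smul r _ ha := (lin _ _).smul r ha
  cl hz := cl _ _ _ hz
  mul ha hb := mul _ _ _ _ _ ha hb
  map f _ _ h := map _ _ f _ _ h
  push f _ _ hl _ h := push _ _ f _ _ _ hl h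

variable {T : HodgeTheory ops}

/-- the Hodge classes -/
noncomputable def hPred (T : HodgeTheory ops) : ClassPred T.W := AH.hodgePred (toH T)

theorem few_hodge (T : HodgeTheory ops) : FewRoots T.W.K := fewRoots_of_rat T.rat

theorem IsLefschetz.toGen {W : WeilCohomology.{u, v} ops} {P : Property W} {X Y : AVar W Γ}
    {f : X.X ⟶ Y.X} (h : IsLefschetz P X Y f) :
    Gen.IsLefschetz (1 : Γ →* W.Kˣ) P (toG X) (toG Y) f := by
  obtain ⟨s, hs, hi⟩ := h.retract
  exact ⟨h.gr_mem, fun g a => by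
    have h1 := h.tr_act g a
    refine Eq.trans h1 ?_
    simp
    rfl, h.equivariant, ⟨s, ⟨hs.gr_mem, hs.sub_mem, hs.ker, hs.act⟩, hi⟩, h.middle,
    h.irreducible⟩

theorem HasNode.toGen {W : WeilCohomology.{u, v} ops} {X Y Z : AVar W Γ}
    {f : X.X ⟶ Y.X} (h : HasNode X Y Z f) :
    Gen.HasNode (1 : Γ →* W.Kˣ) (toG X) (toG Y) (toG Z) f := by
  obtain ⟨g, h1, h2, h3⟩ := h
  exact ⟨g, rfl, h1, h2, h3⟩

/-- **The Lefschetz theorem for Hodge classes and systems of Hodge classes.** -/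
theorem hodge_system {P : Property T.W} (hP : IsHodgeSystem T P) {X Y Z V V' : AVar T.W Γ}
    {n : ℕ} {f : X.X ⟶ Y.X} (h : IsLefschetz P X Y f) (hn : HasNode X Y Z f)
    (hE : LargeIfEven T.W f n) (hV : IsPowProd X Z n V) (hfix : HodgeFixed T V)
    (hV' : IsPowProd Y Z n V') (hY : HodgeIn T P V'.X) : HodgeIn T P V.X := by
  cases n with
  | zero =>
    cases hV
    cases hV'
    exact hY
  | succ n =>
    obtain ⟨φ, υ, h1, h2⟩ := exists_power X Z n V hV
    obtain ⟨φ', υ', h1', h2'⟩ := exists_power Y Z n V' hV'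
    have hinv : ∀ {A B : 𝒱.Obj} (θ : A ≅ B) (c : T.W.H A),
        T.W.map θ.hom (T.W.map θ.inv c) = c := by
      intro A B θ c
      rw [← T.W.map_comp, θ.hom_inv_id, T.W.map_id]
    have hinv' : ∀ {A B : 𝒱.Obj} (θ : A ≅ B) (c : T.W.H B),
        T.W.map θ.inv (T.W.map θ.hom c) = c := by
      intro A B θ c
      rw [← T.W.map_comp, θ.inv_hom_id, T.W.map_id]
    intro j c hc
    have hst := Gen.pred_step (Q := hPred T) (P := mkPred (fun X j c hc => (hP.hodge X j c hc).1)
        hP.lin hP.cl hP.mul hP.map hP.push) hP.hodge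
      (χ := (1 : Γ →* T.W.Kˣ)) (n := n) h.toGen hn.toGen (fun _ => few_hodge T) hE h2
      (fun j c hc => by
        have h3 : IsHodge T V.X j (T.W.map φ.hom c) := (hPred T).map φ.hom hc
        obtain ⟨Δ, hΔ, hg⟩ := hfix j _ h3
        refine ⟨Δ, hΔ, fun g hgΔ => ?_⟩
        have h4 := hg g hgΔ
        rw [h1] at h4
        have h5 := congrArg (T.W.map φ.inv) h4
        rw [hinv', hinv'] at h5
        change υ g c = _
        rw [h5]
        simp)
      (fun j c hc => by
        have h3 : IsHodge T V'.X j (T.W.map φ'.hom c) := (hPred T).map φ'.hom hc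
        have h4 := hP.map _ _ φ'.inv _ _ (hY j _ h3)
        rw [hinv'] at h4
        exact h4) j (T.W.map φ.inv c) ((hPred T).map φ.inv hc)
    have h6 := hP.map _ _ φ.hom _ _ hst
    rw [hinv] at h6
    exact h6

end Pool.Agent.N174.Lef.Hdg
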