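import Pool.Agent.TH125.Gal.Pub

/-!
# Morphisms of Lefschetz type for a system of classes: definitions
-/

open CategoryTheory AlgebraicGeometry

universe u v w

namespace Pool.Agent.N174.Lef.Gen

open Pool.Agent.TH125.Gal

section Alg

variable {K : Type v} [Field K] {A : Type v} [Ring A] [Algebra K A] {B : Type v} [Ring B]
  [Algebra K B] {C : Type v} [Ring C] [Algebra K C] {Γ : Type w} [Group Γ]

/-- The linear map `s : A → B` preserves the degrees, it is zero on the subspace `T` of `A`, and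
`a - f (s a)` is in `T` for all `a`, where `f : B → A`. So `f ∘ s` is a projector with kernel `T`.
It is equivariant for a subgroup of finite index of `Γ`. -/
structure IsRetract (grA : ℕ → Submodule K A) (grB : ℕ → Submodule K B) (f : B →ₐ[K] A)
    (T : Submodule K A) (ρ : Γ →* (A ≃ₐ[K] A)) (ρ' : Γ →* (B ≃ₐ[K] B)) (s : A →ₗ[K] B) :
    Prop where
  gr_mem : ∀ i, ∀ a ∈ grA i, s a ∈ grB i
  sub_mem : ∀ a, a - f (s a) ∈ T
  ker : ∀ a ∈ T, s a = 0
  act : ∃ Δ : Subgroup Γ, Δ.FiniteIndex ∧ ∀ g ∈ Δ, ∀ a, s (ρ g a) = ρ' g (s a)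

/-- The map `a ↦ q (c p(a))` is equal to `s` in degree `i`, and zero in all other degrees. -/
def InducesIn (gr : ℕ → Submodule K A) (p : A →ₐ[K] C) (q : C →ₗ[K] B) (s : A →ₗ[K] B) (i : ℕ)
    (c : C) : Prop :=
  ∀ j, ∀ a ∈ gr j, q (c * p a) = if j = i then s a else 0

/-- Formal properties of a morphism of Lefschetz type `X ⟶ Y`, where `A = H(X)`, `B = H(Y)`,
`C = H(X × Y)`, `n = dim X` and `T` is the vanishing cohomology: the action of `Γ` on `A` preserves
the degrees and multiplies the orientation by `χ ^ n`; `f : B → A` is equivariant and has a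
retraction along `T` which is in each degree given by an element of the set `S` of classes on
`X × Y`; the subspace `T` is in the middle degree and irreducible under all subgroups of finite
index of `Γ`. -/
structure LefschetzAct (χ : Γ →* Kˣ) (n : ℕ) (grA : ℕ → Submodule K A) (grB : ℕ → Submodule K B)
    (tr : A →ₗ[K] K) (f : B →ₐ[K] A) (T : Submodule K A) (p : A →ₐ[K] C) (q : C →ₗ[K] B)
    (S : Set C) (ρ : Γ →* (A ≃ₐ[K] A)) (ρ' : Γ →* (B ≃ₐ[K] B)) : Prop where
  gr_mem : ∀ g i, ∀ a ∈ grA i, ρ g a ∈ grA i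
  tr_act : ∀ g a, tr (ρ g a) = (χ g : K) ^ n * tr a
  equivariant : Intertwines f ρ' ρ
  retract : ∃ s : A →ₗ[K] B, IsRetract grA grB f T ρ ρ' s ∧
    ∀ i, ∃ c ∈ S, InducesIn grA p q s i c
  middle : T ≤ grA n
  irreducible : IrredAct ρ T

/-- Some `g` with `χ g = 1` acts trivially on `B` and `C`, and by a Picard-Lefschetz formula on the
subspace `T` of `A`. -/
def NodeAct (χ : Γ →* Kˣ) (tr : A →ₗ[K] K) (T : Submodule K A) (ρ : Γ →* (A ≃ₐ[K] A))
    (ρ' : Γ →* (B ≃ₐ[K] B)) (τ : Γ →* (C ≃ₐ[K] C)) : Prop :=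
  ∃ g : Γ, χ g = 1 ∧ TrivAct ρ' g ∧ TrivAct τ g ∧ PLAct tr T ρ g

end Alg

open Pool.Agent.H914 Pool.Agent.H914.VarClass Pool.Agent.H914.VarClass.Obj
  Pool.Agent.H914.WeilCohomology

variable {k : Type u} [Field k] {𝒱 : VarClass k} {ops : CycleOps 𝒱}
  {W : WeilCohomology.{u, v} ops} {Γ : Type w} [Group Γ]

/-- The morphism `f : X ⟶ Y` is of Lefschetz type, with vanishing cohomology `ker f_*` and a
retraction given in each degree by a class in `P (X × Y) (dim X)`. -/
def IsLefschetz (χ : Γ →* W.Kˣ) (P : ∀ V : 𝒱.Obj, ℕ → W.H V → Prop) (X Y : GVar W Γ)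
    (f : X.X ⟶ Y.X) : Prop :=
  LefschetzAct χ X.X.dim (W.gr X.X) (W.gr Y.X) (W.tr X.X) (W.map f) (LinearMap.ker (W.push f))
    (W.map (fst X.X Y.X)) (W.push (snd X.X Y.X)) {c | P (X.X.prod Y.X) X.X.dim c} X.act Y.act

/-- Some element `g` of `Γ` with `χ g = 1` acts trivially on the cohomology of `Y` and of `Z`, and
by a Picard-Lefschetz formula on the vanishing cohomology of `f`. -/
def HasNode (χ : Γ →* W.Kˣ) (X Y Z : GVar W Γ) (f : X.X ⟶ Y.X) : Prop :=
  NodeAct χ (W.tr X.X) (LinearMap.ker (W.push f)) X.act Y.act Z.act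

/-- If the dimension of `X` is even, the dimension of the vanishing cohomology of `f` is greater
than `N`. -/
def LargeIfEven {X Y : 𝒱.Obj} (W : WeilCohomology.{u, v} ops) (f : X ⟶ Y) (N : ℕ) : Prop :=
  Even X.dim → N < Module.finrank W.K (LinearMap.ker (W.push f))

end Pool.Agent.N174.Lef.Gen
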