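import Pool.Agent.N174.Lef.SysL
import Pool.Agent.N174.Lef.LDefs
import Pool.Agent.N174.Lef.Twr

/-!
# The Lefschetz theorem for properties of cohomology classes
-/

open CategoryTheory AlgebraicGeometry TensorProduct

universe u v w

namespace Pool.Agent.N174.Lef.Gen

open Pool.Agent.H914 Pool.Agent.H914.VarClass Pool.Agent.H914.VarClass.Obj
  Pool.Agent.H914.WeilCohomology Pool.Agent.H281R3.HT Pool.Agent.W552 Pool.Agent.TH125.Gal

open Pool.Agent.Y133.Half (Sys PH PH.ind ClassPred)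

variable {k : Type u} [Field k] {𝒱 : VarClass k} {ops : CycleOps 𝒱}
  {W : WeilCohomology.{u, v} ops} {Γ : Type w} [Group Γ] {χ : Γ →* W.Kˣ}

theorem corr_of_induces {X Y : 𝒱.Obj} {s : W.H X →ₗ[W.K] W.H Y} {i : ℕ} {c : W.H (X.prod Y)}
    (h : InducesIn (W.gr X) (W.map (fst X Y)) (W.push (snd X Y)) s i c) :
    W.corr c = sd s i := by
  apply LinearMap.ext
  intro a
  refine gr_induction (W.isInternal X) (p := fun a => W.corr c a = sd s i a) ?_ ?_ a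
  · intro l a ha
    rw [corr_apply, h l a ha]
    change _ = s (proj (W.isInternal X) i a)
    by_cases hl : l = i
    · subst hl
      rw [if_pos rfl, proj_same _ ha]
    · rw [if_neg hl, proj_ne _ ha hl, map_zero]
  · intro a b ha hb
    rw [map_add, map_add, ha, hb]

theorem IsLefschetz.data {P : ClassPred W} {X Y : GVar W Γ} {f : X.X ⟶ Y.X}
    (h : IsLefschetz χ P.P X Y f) :
    ∃ s, Data χ f X.act Y.act s ∧ ∀ i, sd s i ∈ P.sys.Op X.X Y.X := by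
  obtain ⟨s, hs, ha⟩ := h.retract
  refine ⟨s, ⟨h.gr_mem, h.tr_act, h.equivariant, ⟨hs.gr_mem, hs.sub_mem, hs.ker⟩,
    hs.act, h.middle, h.irreducible⟩, fun i => ?_⟩
  obtain ⟨c, hc, hci⟩ := ha i
  rw [← corr_of_induces hci]
  exact Sys.Op.corr (ClassPred.sp_of hc)

/-- **The Lefschetz theorem for two properties of classes.** -/
theorem pred_step {Q P : ClassPred W} (hPQ : ∀ (V : 𝒱.Obj) (j : ℕ) (c : W.H V),
      P.P V j c → Q.P V j c) {X Y Z V : GVar W Γ} {n : ℕ} {f : X.X ⟶ Y.X}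
    (h : IsLefschetz χ P.P X Y f) (hn : HasNode χ X Y Z f)
    (hF : Even X.X.dim → FewRoots W.K) (hK : LargeIfEven W f (n + 1)) (hV : IsPowProd X n Z V)
    (hfix : ∀ j c, Q.P V.X j c → ∃ Δ : Subgroup Γ, Δ.FiniteIndex ∧
      ∀ g ∈ Δ, V.act g c = (χ g : W.K) ^ j • c)
    (hY : ∀ j c, Q.P ((power ops Y.X n).prod Z.X) j c → P.P _ j c) :
    ∀ j c, Q.P V.X j c → P.P V.X j c := by
  intro j c hc
  obtain ⟨Δ, hΔ, hg⟩ := hfix j c hc
  obtain ⟨s, hs, ha⟩ := h.data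
  obtain ⟨g₀, h1, h2, h3, h4⟩ := hn
  obtain ⟨υ, hυ, hυ'⟩ := hV
  refine pred_of_sp ?_ (Q.gr hc)
  refine sys_step (S := P.sys) (T := Q.sys) (ρ := X.act) (ρY := Y.act) (τ := Z.act) ?_ hs ha h1
    (act_eq_one h2) (act_eq_one h3) h4 (fun he => ⟨hF he, hK he⟩) hΔ (j := j) ?_
    (ClassPred.sp_of hc) ?_
  · intro V
    exact Submodule.span_mono fun _ ⟨j, hj⟩ => ⟨j, hPQ V j _ hj⟩
  · intro g hgΔ
    rw [← act_t2 hυ hυ']
    exact hg g hgΔ
  · exact Submodule.span_mono fun _ ⟨j, hj⟩ => ⟨j, hY j _ hj⟩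

/-- **The Lefschetz theorem for Tate classes and a property of classes.** -/
theorem tate_step {P : ClassPred W} {X Y Z V V' : GVar W Γ} {n : ℕ} {f : X.X ⟶ Y.X}
    (h : IsLefschetz χ P.P X Y f) (hn : HasNode χ X Y Z f)
    (hF : Even X.X.dim → FewRoots W.K) (hK : LargeIfEven W f (n + 1)) (hV : IsPowProd X n Z V)
    (hV' : IsPowProd Y n Z V')
    (hY : ∀ j, ∀ c ∈ W.gr V'.X (2 * j), (∃ Δ : Subgroup Γ, Δ.FiniteIndex ∧
      ∀ g ∈ Δ, V'.act g c = (χ g : W.K) ^ j • c) → P.P V'.X j c) :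
    ∀ j, ∀ c ∈ W.gr V.X (2 * j), (∃ Δ : Subgroup Γ, Δ.FiniteIndex ∧
      ∀ g ∈ Δ, V.act g c = (χ g : W.K) ^ j • c) → P.P V.X j c := by
  intro j c hcj ⟨Δ, hΔ, hg⟩
  obtain ⟨s, hs, ha⟩ := h.data
  obtain ⟨g₀, h1, h2, h3, h4⟩ := hn
  obtain ⟨υ, hυ, hυ'⟩ := hV
  obtain ⟨θ, hθ, hθ'⟩ := hV'
  refine tate_sys_step (ρ := X.act) (ρY := Y.act) (τ := Z.act) P hs ha h1 (act_eq_one h2)
    (act_eq_one h3) h4 (fun he => ⟨hF he, hK he⟩) ?_ hcj ⟨Δ, hΔ, fun g hgΔ => ?_⟩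
  · intro j c hcj ⟨Δ, hΔ, hg⟩
    refine hY j c hcj ⟨Δ, hΔ, fun g hgΔ => ?_⟩
    have h5 := hg g hgΔ
    rw [← act_t2 hθ hθ'] at h5
    exact h5
  · rw [← act_t2 hυ hυ']
    exact hg g hgΔ

end Pool.Agent.N174.Lef.Gen
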