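import Pool.Agent.N174.Lef.Mix

/-!
# Equivariance of the extension operators
-/

open CategoryTheory AlgebraicGeometry TensorProduct

universe u v w w'

namespace Pool.Agent.N174.Lef

open Pool.Agent.H914 Pool.Agent.H914.VarClass Pool.Agent.H914.VarClass.Obj
  Pool.Agent.H914.WeilCohomology Pool.Agent.H281R3.HT Pool.Agent.W552 Pool.Agent.TH125.Gal

open Pool.Agent.Y133.Half (Sys PH PH.ind ClassPred)

variable {k : Type u} [Field k] {𝒱 : VarClass k} {ops : CycleOps 𝒱}
  {W : WeilCohomology.{u, v} ops} {X Y Z : 𝒱.Obj} {f : X ⟶ Y} {n D : ℕ}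
  {Γ : Type w} [Group Γ] {χ : Γ →* W.Kˣ} {ρ : Γ →* (W.H X ≃ₐ[W.K] W.H X)}
  {ρY : Γ →* (W.H Y ≃ₐ[W.K] W.H Y)} {τ : Γ →* (W.H Z ≃ₐ[W.K] W.H Z)} {s : W.H X →ₗ[W.K] W.H Y}

theorem piE_act (h : Data χ f ρ ρY s) {g : Γ} (hg : ∀ a, s (ρ g a) = ρY g (s a)) :
    (ρ g).toLinearMap ∘ₗ piE f s = piE f s ∘ₗ (ρ g).toLinearMap := by
  apply LinearMap.ext
  intro a
  change ρ g (piE f s a) = piE f s (ρ g a)
  rw [piE_apply, piE_apply, map_sub, h.equi, hg]

/-- the vanishing part of the diagonal is semi-invariant -/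
theorem dQ_act (h : Data χ f ρ ρY s) (v : VB W f) {g : Γ} (hg : ∀ a, s (ρ g a) = ρY g (s a)) :
    t2 (ρ g).toLinearMap (ρ g).toLinearMap (dQ v) = (χ g : W.K) ^ X.dim • dQ v := by
  rw [dQ_eq h v, map_smul, t2_t2, piE_act h hg, ← t2_t2, diag_act h, map_smul, smul_comm]

theorem pact_lift (h : ∀ g i, ∀ a ∈ W.gr X i, ρ g a ∈ W.gr X i) (g : Γ) (p p' : Fin (n + 1))
    (c : W.H (X.prod X)) :
    pact ρ n g (W.map (Obj.lift (powerPrj ops X n p) (powerPrj ops X n p')) c) =
      W.map (Obj.lift (powerPrj ops X n p) (powerPrj ops X n p'))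
        (t2 (ρ g).toLinearMap (ρ g).toLinearMap c) := by
  have h1 : pact ρ n g ∘ₗ
      (W.map (Obj.lift (powerPrj ops X n p) (powerPrj ops X n p'))).toLinearMap =
      (W.map (Obj.lift (powerPrj ops X n p) (powerPrj ops X n p'))).toLinearMap ∘ₗ
        t2 (ρ g).toLinearMap (ρ g).toLinearMap := by
    refine ext2 fun a b => ?_
    have e : ∀ a b : W.H X, W.map (Obj.lift (powerPrj ops X n p) (powerPrj ops X n p'))
        (W.map (fst X X) a * W.map (snd X X) b) =
        W.map (powerPrj ops X n p) a * W.map (powerPrj ops X n p') b := by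
      intro a b
      rw [map_mul, ← W.map_comp, ← W.map_comp, Obj.lift_fst, Obj.lift_snd]
    change pact ρ n g (W.map (Obj.lift (powerPrj ops X n p) (powerPrj ops X n p')) _) =
      W.map (Obj.lift (powerPrj ops X n p) (powerPrj ops X n p'))
        (t2 (ρ g).toLinearMap (ρ g).toLinearMap _)
    rw [e, t2_apply, e, (pact_mlt h g).2, pact, tens_prj n _ fun _ => map_one (ρ g),
      tens_prj n _ fun _ => map_one (ρ g)]
  exact LinearMap.congr_fun h1 c

theorem mtch_act (h : Data χ f ρ ρY s) (v : VB W f) {g : Γ}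
    (hg : ∀ a, s (ρ g a) = ρY g (s a)) {q : Fin (n + 1) → Option (Fin D)} {m : ℕ}
    (e : Fin m × Fin 2 ≃ Free q) :
    pact ρ n g (mtch (ops := ops) v e) = (χ g : W.K) ^ (X.dim * m) • mtch (ops := ops) v e := by
  rw [mtch, List.ofFn_eq_map]
  have key : ∀ L : List (Fin m), pact ρ n g (L.map fun l =>
      W.map (Obj.lift (powerPrj ops X n (e (l, 0)).1) (powerPrj ops X n (e (l, 1)).1))
        (dQ v)).prod = (χ g : W.K) ^ (X.dim * L.length) • (L.map fun l =>
      W.map (Obj.lift (powerPrj ops X n (e (l, 0)).1) (powerPrj ops X n (e (l, 1)).1))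
        (dQ v)).prod := by
    intro L
    induction L with
    | nil =>
      rw [List.map_nil, List.prod_nil, List.length_nil, mul_zero, pow_zero, one_smul]
      exact (pact_mlt h.gr_mem g).1
    | cons l L ih =>
      rw [List.map_cons, List.prod_cons, (pact_mlt h.gr_mem g).2, ih, pact_lift h.gr_mem,
        dQ_act h v hg, map_smul, List.length_cons, smul_mul_smul_comm]
      congr 1
      rw [mul_add, mul_one, pow_add, mul_comm]
  have := key (List.finRange m)
  rw [List.length_finRange] at this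
  exact this

theorem pact_map (h : Data χ f ρ ρY s) (g : Γ) (z : W.H (power ops Y n)) :
    pact ρ n g (W.map (powerMap ops f n) z) = W.map (powerMap ops f n) (pact ρY n g z) := by
  have h1 : pact ρ n g ∘ₗ (W.map (powerMap ops f n)).toLinearMap =
      (W.map (powerMap ops f n)).toLinearMap ∘ₗ pact ρY n g := by
    refine mono_ext fun a => ?_
    change pact ρ n g (W.map (powerMap ops f n) (mono (powerPrj ops Y n) a)) =
      W.map (powerMap ops f n) (pact ρY n g (mono (powerPrj ops Y n) a))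
    rw [pact, pact, tens_mono, map_powerMap, map_powerMap, tens_mono]
    congr 1
    funext p
    exact h.equi g (a p)
  exact LinearMap.congr_fun h1 z

/-- equivariance of the extension operators -/
theorem mextZ_act (h : Data χ f ρ ρY s) (v : VB W f) {g : Γ}
    (hg : ∀ a, s (ρ g a) = ρY g (s a)) {q : Fin (n + 1) → Option (Fin D)} {m : ℕ}
    (e : Fin m × Fin 2 ≃ Free q) (z : W.H ((power ops Y n).prod Z)) :
    t2 (pact ρ n g) (lact τ g) (mextZ (ops := ops) v Z e z) =
      (χ g : W.K) ^ (X.dim * m) • mextZ (ops := ops) v Z e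
        (t2 (pact ρY n g) (lact τ g) z) := by
  have h1 : pact ρ n g ∘ₗ mext (ops := ops) v e =
      ((χ g : W.K) ^ (X.dim * m)) • (mext (ops := ops) v e ∘ₗ pact ρY n g) := by
    apply LinearMap.ext
    intro y
    change pact ρ n g (mtch v e * W.map (powerMap ops f n) y) =
      (χ g : W.K) ^ (X.dim * m) • (mtch v e * W.map (powerMap ops f n) (pact ρY n g y))
    rw [(pact_mlt h.gr_mem g).2, mtch_act h v hg, pact_map h, smul_mul_assoc]
  have h2 : t2 (pact ρ n g) (lact τ g) (mextZ (ops := ops) v Z e z) =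
      t2 (pact ρ n g ∘ₗ mext (ops := ops) v e) (lact τ g ∘ₗ LinearMap.id) z := t2_t2 _ _ _ _ z
  have h3 : mextZ (ops := ops) v Z e (t2 (pact ρY n g) (lact τ g) z) =
      t2 (mext (ops := ops) v e ∘ₗ pact ρY n g) (LinearMap.id ∘ₗ lact τ g) z := t2_t2 _ _ _ _ z
  rw [h2, h3, h1, LinearMap.id_comp, LinearMap.comp_id]
  change kEquiv W (power ops X n) Z (TensorProduct.map _ _ _) =
    _ • kEquiv W (power ops X n) Z (TensorProduct.map _ _ _)
  rw [TensorProduct.map_smul_left, LinearMap.smul_apply, map_smul]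

end Pool.Agent.N174.Lef
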