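import Pool.Agent.N174.Lef.Brg
import Pool.Agent.N174.Lef.MDefs

/-!
# The Lefschetz theorem for Tate classes and motivated classes
-/

open CategoryTheory AlgebraicGeometry TensorProduct

universe u v w

namespace Pool.Agent.N174.Lef.Mot

open Pool.Agent.H914 Pool.Agent.H914.VarClass Pool.Agent.H914.VarClass.Obj
  Pool.Agent.H914.WeilCohomology Pool.Agent.R920.MT Pool.Agent.TH125.Gal

open Pool.Agent.Y133.Half (ClassPred)
open Pool.Agent.N174.Lef.Hdg (toG exists_power)

variable {k : Type u} [Field k] {𝒱 : VarClass k} {ops : CycleOps 𝒱}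
  {W : WeilCohomology.{u, v} ops} {Γ : Type w} [Group Γ] {χ : Γ →* W.Kˣ}

/-- the conversion -/
def toH (X : AVar W Γ) : Hdg.AVar W Γ := ⟨X.X, ⟨X.act.hom⟩⟩

theorem IsPowProd.toH {X Z : AVar W Γ} {n : ℕ} {V : AVar W Γ} (h : IsPowProd X Z n V) :
    Hdg.IsPowProd (Mot.toH X) (Mot.toH Z) n (Mot.toH V) := by
  induction h with
  | zero => exact .zero
  | @succ n V υ h1 h2 h3 ih =>
    exact Hdg.IsPowProd.succ (X := Mot.toH X) (Z := Mot.toH Z) (V := Mot.toH V) ⟨υ.hom⟩ ih
      (fun g b => h2 g b) (fun g b => h3 g b)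

theorem IsLefschetz.toGen {P : Property W} {X Y : AVar W Γ}
    {f : X.X ⟶ Y.X} (h : IsLefschetz χ P X Y f) :
    Gen.IsLefschetz χ P (toG (toH X)) (toG (toH Y)) f := by
  obtain ⟨s, hs, hi⟩ := h.retract
  exact ⟨h.gr_mem, h.tr_act, h.equivariant, ⟨s, ⟨hs.gr_mem, hs.sub_mem, hs.ker, hs.act⟩, hi⟩,
    h.middle, h.irreducible⟩

theorem HasNode.toGen {X Y Z : AVar W Γ} {f : X.X ⟶ Y.X} (h : HasNode χ X Y Z f) :
    Gen.HasNode χ (toG (toH X)) (toG (toH Y)) (toG (toH Z)) f := by
  obtain ⟨g, h0, h1, h2, h3⟩ := h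
  exact ⟨g, h0, h1, h2, h3⟩

/-- **The Lefschetz theorem for Tate classes and a system of classes.** -/
theorem tate_system (P : ClassPred W) {X Y Z V V' : AVar W Γ} {n : ℕ}
    {f : X.X ⟶ Y.X} (h : IsLefschetz χ P.P X Y f) (hn : HasNode χ X Y Z f)
    (hE : LargeIfEven W f n) (hV : IsPowProd X Z n V)
    (hV' : IsPowProd Y Z n V') (hY : TateIn χ P.P V') : TateIn χ P.P V := by
  cases n with
  | zero =>
    cases hV
    cases hV'
    exact hY
  | succ n =>
    obtain ⟨φ, υ, h1, h2⟩ := exists_power (toH X) (toH Z) n (toH V) hV.toH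
    obtain ⟨φ', υ', h1', h2'⟩ := exists_power (toH Y) (toH Z) n (toH V') hV'.toH
    have hinv : ∀ {A B : 𝒱.Obj} (θ : A ≅ B) (c : W.H A),
        W.map θ.hom (W.map θ.inv c) = c := by
      intro A B θ c
      rw [← W.map_comp, θ.hom_inv_id, W.map_id]
    have hinv' : ∀ {A B : 𝒱.Obj} (θ : A ≅ B) (c : W.H B),
        W.map θ.inv (W.map θ.hom c) = c := by
      intro A B θ c
      rw [← W.map_comp, θ.inv_hom_id, W.map_id]
    intro j c hcj hc
    have hst := Gen.tate_step (P := P) (n := n) h.toGen hn.toGen (fun he => (hE he).1)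
      (fun he => (hE he).2) h2 h2'
      (fun j c hcj hc => by
        obtain ⟨Δ, hΔ, hg⟩ := hc
        have h4 := P.map φ'.inv (hY j (W.map φ'.hom c) (W.map_mem φ'.hom hcj)
          ⟨Δ, hΔ, fun g hgΔ => by
            refine (h1' g c).trans ?_
            rw [hg g hgΔ]
            exact map_smul _ _ _⟩)
        rw [hinv'] at h4
        exact h4) j (W.map φ.inv c) (W.map_mem φ.inv hcj) (by
          obtain ⟨Δ, hΔ, hg⟩ := hc
          refine ⟨Δ, hΔ, fun g hgΔ => ?_⟩
          have h5 := congrArg (W.map φ.inv) ((h1 g (W.map φ.inv c)).symm.trans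
            ((congrArg (V.act.hom g) (hinv φ c)).trans (hg g hgΔ)))
          rw [hinv'] at h5
          exact h5.trans (map_smul _ _ _))
    have h6 := P.map φ.hom hst
    rw [hinv] at h6
    exact h6

/-- **The Lefschetz theorem for Tate classes and motivated classes.** -/
theorem tate_motivated {X Y Z V V' : AVar W Γ} {n : ℕ}
    {f : X.X ⟶ Y.X} (h : IsLefschetz χ (IsMotivated W) X Y f) (hn : HasNode χ X Y Z f)
    (hE : LargeIfEven W f n) (hV : IsPowProd X Z n V)
    (hV' : IsPowProd Y Z n V') (hY : TateIn χ (IsMotivated W) V') :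
    TateIn χ (IsMotivated W) V :=
  tate_system (motPred W) h hn hE hV hV' hY

end Pool.Agent.N174.Lef.Mot
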