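import Pool.Agent.N174.Lef.Core
import Pool.Agent.N174.Lef.Dg

/-!
# The Tate conjecture for products with powers of `X` from the one for `Y`
-/

open CategoryTheory AlgebraicGeometry Finset Function TensorProduct

set_option linter.unusedSectionVars false

universe u v w x

namespace Pool.Agent.N174.Lef

open Pool.Agent.H914 Pool.Agent.H914.VarClass Pool.Agent.H914.VarClass.Obj
  Pool.Agent.H914.WeilCohomology Pool.Agent.H281R3.HT Pool.Agent.W552 Pool.Agent.TH125.Gal

variable {k : Type u} [Field k] {𝒱 : VarClass k} {ops : CycleOps 𝒱}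
  {W : WeilCohomology.{u, v} ops}

section graded

variable {X Y : 𝒱.Obj} {n : ℕ}

theorem mono_prod (X : 𝒱.Obj) (n : ℕ) (a : Fin (n + 2) → W.H X) :
    mono (powerPrj ops X (n + 1)) a = W.map (fst X (power ops X n)) (a 0) *
      W.map (snd X (power ops X n)) (mono (powerPrj ops X n) fun p => a p.succ) := by
  rw [map_mono]
  exact mono_succ (powerPrj ops X (n + 1)) a

theorem tens_succ (A : Fin (n + 2) → W.H X →ₗ[W.K] W.H Y) :
    tens (ops := ops) A = t2 (X' := power ops X n) (Y' := power ops Y n) (A 0)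
      (tens fun p => A p.succ) := by
  refine mono_ext fun a => ?_
  rw [tens_mono, mono_prod]
  refine Eq.trans ?_ (congrArg (t2 (X' := power ops X n) (Y' := power ops Y n) (A 0)
      (tens fun p => A p.succ)) (mono_prod X n a).symm)
  rw [t2_apply, tens_mono]

theorem mono_zero (X : 𝒱.Obj) (a : Fin 1 → W.H X) :
    mono (powerPrj ops X 0) a = (a 0 : W.H X) := by
  rw [mono_one]
  exact W.map_id X (a 0)

theorem tens_gr : ∀ (n : ℕ) (A : Fin (n + 1) → W.H X →ₗ[W.K] W.H Y), (∀ p, Grd (A p)) →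
    Grd (tens (ops := ops) A) := by
  intro n
  induction n with
  | zero =>
    intro A hA
    have h1 : tens (ops := ops) A = A 0 := by
      refine mono_ext fun a => ?_
      rw [tens_mono, mono_zero]
      exact congrArg (A 0) (mono_zero X a).symm
    rw [h1]
    exact hA 0
  | succ n ih =>
    intro A hA
    rw [tens_succ]
    exact t2_gr (hA 0) (ih _ fun p => hA p.succ)

theorem mtch_mem {f : X ⟶ Y} (v : VB W f) (hmid : vanishing W f ≤ W.gr X X.dim) {D m : ℕ}
    {q : Fin (n + 1) → Option (Fin D)} (e : Fin m × Fin 2 ≃ Free q) :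
    mtch (ops := ops) v e ∈ W.gr (power ops X n) (2 * (X.dim * m)) := by
  have h1 : ∀ L : List (Fin m), (L.map fun l => W.map (Obj.lift (powerPrj ops X n (e (l, 0)).1)
      (powerPrj ops X n (e (l, 1)).1)) (dQ v)).prod ∈
        W.gr (power ops X n) (2 * (X.dim * L.length)) := by
    intro L
    induction L with
    | nil => exact W.one_mem _
    | cons l L ih =>
      rw [List.map_cons, List.prod_cons, List.length_cons]
      have h2 : 2 * (X.dim * (L.length + 1)) = 2 * X.dim + 2 * (X.dim * L.length) := by ring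
      rw [h2]
      exact W.mul_mem (W.map_mem _ (dQ_mem_gr hmid v)) ih
  have h2 := h1 (List.finRange m)
  rw [List.length_finRange] at h2
  rw [mtch, List.ofFn_eq_map]
  exact h2

theorem mtch_alg {f : X ⟶ Y} (v : VB W f) (hQ : dQ v ∈ algSpan W (X.prod X)) {D m : ℕ}
    {q : Fin (n + 1) → Option (Fin D)} (e : Fin m × Fin 2 ≃ Free q) :
    mtch (ops := ops) v e ∈ algSpan W (power ops X n) := by
  rw [mtch, List.ofFn_eq_map]
  generalize List.finRange m = L
  induction L with
  | nil => exact algSpan_one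
  | cons l L ih =>
    rw [List.map_cons, List.prod_cons]
    exact algSpan_mul (algSpan_map _ hQ) ih

/-- homogeneous components of a product with a homogeneous element -/
theorem proj_mul {i : ℕ} {a : W.H X} (ha : a ∈ W.gr X i) (l : ℕ) (b : W.H X) :
    proj (W.isInternal X) l (a * b) =
      if i ≤ l then a * proj (W.isInternal X) (l - i) b else 0 := by
  refine gr_induction (W.isInternal X) (p := fun b => proj (W.isInternal X) l (a * b) =
      if i ≤ l then a * proj (W.isInternal X) (l - i) b else 0) ?_ ?_ b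
  · intro j b hb
    have h1 : a * b ∈ W.gr X (i + j) := W.mul_mem ha hb
    by_cases hil : i ≤ l
    · rw [if_pos hil]
      by_cases hj : j = l - i
      · subst hj
        rw [proj_same _ hb]
        have h2 : i + (l - i) = l := by omega
        rw [h2] at h1
        rw [proj_same _ h1]
      · rw [proj_ne _ hb hj, mul_zero, proj_ne _ h1 (by omega)]
    · rw [if_neg hil, proj_ne _ h1 (by omega)]
  · intro w w' hw hw'
    rw [mul_add, map_add, hw, hw']
    by_cases hil : i ≤ l
    · rw [if_pos hil, if_pos hil, if_pos hil, map_add, mul_add]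
    · rw [if_neg hil, if_neg hil, if_neg hil, add_zero]

theorem map_proj (f : X ⟶ Y) (l : ℕ) (b : W.H Y) :
    proj (W.isInternal X) l (W.map f b) = W.map f (proj (W.isInternal Y) l b) := by
  refine gr_induction (W.isInternal Y) (p := fun b => proj (W.isInternal X) l (W.map f b) =
    W.map f (proj (W.isInternal Y) l b)) ?_ ?_ b
  · intro j b hb
    by_cases hj : j = l
    · subst hj
      rw [proj_same _ hb, proj_same _ (W.map_mem f hb)]
    · rw [proj_ne _ hb hj, proj_ne _ (W.map_mem f hb) hj, map_zero]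
  · intro a b ha hb
    rw [map_add, map_add, ha, hb, map_add, map_add]

end graded

section action

variable {X Z : 𝒱.Obj} {n : ℕ} {Γ : Type w} [Group Γ]

/-- the linear action -/
noncomputable def lact (τ : Γ →* (W.H Z ≃ₐ[W.K] W.H Z)) : Γ →* (W.H Z →ₗ[W.K] W.H Z) where
  toFun g := (τ g).toLinearMap
  map_one' := by rw [map_one]; rfl
  map_mul' g g' := by rw [map_mul]; rfl

theorem lact_apply (τ : Γ →* (W.H Z ≃ₐ[W.K] W.H Z)) (g : Γ) :
    lact τ g = (τ g).toLinearMap := rfl

/-- the action on the cohomology of the power in the product -/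
theorem act_power {ρ : Γ →* (W.H X ≃ₐ[W.K] W.H X)} {V : 𝒱.Obj} {π : V ⟶ power ops X n}
    {υ : Γ →* (W.H V ≃ₐ[W.K] W.H V)}
    (h : ∀ p, Intertwines (W.map (π ≫ powerPrj ops X n p)) ρ υ) (g : Γ)
    (a : W.H (power ops X n)) : υ g (W.map π a) = W.map π (pact ρ n g a) := by
  have h1 : (υ g).toLinearMap ∘ₗ (W.map π).toLinearMap =
      (W.map π).toLinearMap ∘ₗ pact ρ n g := by
    refine mono_ext fun a => ?_
    change υ g (W.map π (mono (powerPrj ops X n) a)) =
      W.map π (pact ρ n g (mono (powerPrj ops X n) a))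
    rw [pact, tens_mono, map_mono, map_mono, mono, mono, map_list_prod, List.map_ofFn]
    congr 2
    funext p
    exact h p g (a p)
  exact LinearMap.congr_fun h1 a

theorem act_prod {ρ : Γ →* (W.H X ≃ₐ[W.K] W.H X)} {τ : Γ →* (W.H Z ≃ₐ[W.K] W.H Z)}
    {υ : Γ →* (W.H ((power ops X n).prod Z) ≃ₐ[W.K] W.H ((power ops X n).prod Z))}
    (h : ∀ p, Intertwines (W.map (fst (power ops X n) Z ≫ powerPrj ops X n p)) ρ υ)
    (h' : Intertwines (W.map (snd (power ops X n) Z)) τ υ) (g : Γ)
    (c : W.H (power ops X n) ⊗[W.K] W.H Z) : υ g (kEquiv W _ Z c) =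
      kEquiv W _ Z (TensorProduct.map (pact ρ n g) (lact τ g) c) := by
  induction c using TensorProduct.induction_on with
  | zero => rw [map_zero, map_zero, map_zero, map_zero]
  | tmul a b =>
    rw [TensorProduct.map_tmul, kEquiv_tmul, kEquiv_tmul, map_mul, act_power h, h' g b]
    rfl
  | add a b ha hb => rw [map_add, map_add, map_add, map_add, ha, hb]

theorem act_t2 {ρ : Γ →* (W.H X ≃ₐ[W.K] W.H X)} {τ : Γ →* (W.H Z ≃ₐ[W.K] W.H Z)}
    {υ : Γ →* (W.H ((power ops X n).prod Z) ≃ₐ[W.K] W.H ((power ops X n).prod Z))}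
    (h : ∀ p, Intertwines (W.map (fst (power ops X n) Z ≫ powerPrj ops X n p)) ρ υ)
    (h' : Intertwines (W.map (snd (power ops X n) Z)) τ υ) (g : Γ) :
    (υ g).toLinearMap = t2 (pact ρ n g) (lact τ g) := by
  refine ext2 fun a b => ?_
  rw [t2_apply]
  change υ g (W.map (fst (power ops X n) Z) a * W.map (snd (power ops X n) Z) b) = _
  rw [map_mul, act_power h, h' g b]
  rfl

theorem pact_gr {ρ : Γ →* (W.H X ≃ₐ[W.K] W.H X)} (h : ∀ g i, ∀ a ∈ W.gr X i, ρ g a ∈ W.gr X i)
    (g : Γ) : Grd (pact (ops := ops) ρ n g) := tens_gr n _ fun _ i a ha => h g i a ha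

end action

section main

variable {X Y Z : 𝒱.Obj} {n : ℕ} {f : X ⟶ Y} {Γ : Type w} [Group Γ] {χ : Γ →* W.Kˣ}
  {ρ : Γ →* (W.H X ≃ₐ[W.K] W.H X)} {ρY : Γ →* (W.H Y ≃ₐ[W.K] W.H Y)}
  {τ : Γ →* (W.H Z ≃ₐ[W.K] W.H Z)}
  {υ : Γ →* (W.H ((power ops X n).prod Z) ≃ₐ[W.K] W.H ((power ops X n).prod Z))}
  {υ' : Γ →* (W.H ((power ops Y n).prod Z) ≃ₐ[W.K] W.H ((power ops Y n).prod Z))}
  {s : W.H X →ₗ[W.K] W.H Y}

/-- the classes in the formula as classes on the product -/
theorem kEquiv_mext (v : VB W f) {D m : ℕ} {q : Fin (n + 1) → Option (Fin D)}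
    (e : Fin m × Fin 2 ≃ Free q) (z : W.H (power ops Y n) ⊗[W.K] W.H Z) :
    kEquiv W _ Z ((mext (ops := ops) v e).rTensor (W.H Z) z) =
      W.map (fst (power ops X n) Z) (mtch v e) *
        W.map (pmap (powerMap ops f n) (𝟙 Z)) (kEquiv W _ Z z) := by
  induction z using TensorProduct.induction_on with
  | zero => rw [map_zero, map_zero, map_zero, map_zero, mul_zero]
  | tmul a b =>
    rw [LinearMap.rTensor_tmul, kEquiv_tmul, kEquiv_tmul, map_mul, ← W.map_comp, ← W.map_comp,
      pmap, Obj.lift_fst, Obj.lift_snd, Category.comp_id, W.map_comp, ← mul_assoc, ← map_mul]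
    rfl
  | add a b ha hb => rw [map_add, map_add, map_add, map_add, mul_add, ha, hb]

/-- **The Lefschetz theorem for the Tate conjecture.** -/
theorem tate_lefschetz (h : Data χ f ρ ρY s)
    (hgY : ∀ g i, ∀ a ∈ W.gr Y i, ρY g a ∈ W.gr Y i)
    (hgZ : ∀ g i, ∀ a ∈ W.gr Z i, τ g a ∈ W.gr Z i)
    {g₀ : Γ} (hχ : χ g₀ = 1) (hY : ρY g₀ = 1) (hτ : τ g₀ = 1)
    (hPL : PLAct (W.tr X) (vanishing W f) ρ g₀)
    (hK : Even X.dim → FewRoots W.K ∧ n + 1 < Module.finrank W.K (vanishing W f))
    (hυ : ∀ p, Intertwines (W.map (fst (power ops X n) Z ≫ powerPrj ops X n p)) ρ υ)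
    (hυZ : Intertwines (W.map (snd (power ops X n) Z)) τ υ)
    (hυ' : ∀ p, Intertwines (W.map (fst (power ops Y n) Z ≫ powerPrj ops Y n p)) ρY υ')
    (hυZ' : Intertwines (W.map (snd (power ops Y n) Z)) τ υ')
    (hT2 : ∀ c ∈ W.gr (Y.prod Y) (2 * X.dim), (∃ Δ : Subgroup Γ, Δ.FiniteIndex ∧ ∀ g ∈ Δ,
      t2 (ρY g).toLinearMap (ρY g).toLinearMap c = (χ g : W.K) ^ X.dim • c) →
        c ∈ algSpan W (Y.prod Y))
    (hT : TateAct χ (W.gr ((power ops Y n).prod Z)) (algClasses W ((power ops Y n).prod Z)) υ') :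
    TateAct χ (W.gr ((power ops X n).prod Z)) (algClasses W ((power ops X n).prod Z)) υ := by
  obtain ⟨v⟩ := exists_VB h.transfer
  have hQ := dQ_alg h v hT2
  intro j c hcj ⟨Δ, hΔ, hc⟩
  set c' := (kEquiv W (power ops X n) Z).symm c with hc'
  have hcc : kEquiv W (power ops X n) Z c' = c := LinearEquiv.apply_symm_apply _ _
  have hc1 : ∀ g ∈ Δ, TensorProduct.map (pact ρ n g) (lact τ g) c' =
      (((χ ^ j) g : W.Kˣ) : W.K) • c' := by
    intro g hg
    apply (kEquiv W (power ops X n) Z).injective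
    rw [← act_prod hυ hυZ, hcc, map_smul, hcc, hc g hg]
    simp
  have hcore := fun q => core_q (D := 2 * X.dim + 1) h v (τ := lact τ) (μ := χ ^ j) hχ
    (by rw [MonoidHom.pow_apply, hχ, one_pow]) hY
    (by rw [lact_apply, hτ]; rfl) hPL hK hΔ hc1 q
  have hsum : c' = ∑ q : Fin (n + 1) → Option (Fin (2 * X.dim + 1)),
      (tens (piq f s q)).rTensor (W.H Z) c' := by
    have h1 := congrArg (fun A => LinearMap.rTensorHom (W.H Z) A c')
      (sum_piq (ops := ops) (n := n) (f := f) s)
    beta_reduce at h1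
    rw [map_sum, LinearMap.sum_apply] at h1
    simp only [LinearMap.coe_rTensorHom, LinearMap.rTensor_id, LinearMap.id_apply] at h1
    exact h1.symm
  -- the terms
  have hterm : ∀ q : Fin (n + 1) → Option (Fin (2 * X.dim + 1)),
      proj (W.isInternal ((power ops X n).prod Z)) (2 * j)
        (kEquiv W (power ops X n) Z ((tens (piq f s q)).rTensor (W.H Z) c')) ∈
          algSpan W ((power ops X n).prod Z) := by
    intro q
    obtain ⟨L, m, e, ε, z, hz, hq⟩ := hcore q
    rw [hq, map_sum, map_sum]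
    refine Submodule.sum_mem _ fun l _ => ?_
    rw [map_smul, map_smul]
    refine Submodule.smul_mem _ _ ?_
    rw [kEquiv_mext, proj_mul (W.map_mem _ (mtch_mem v h.middle (e l))), map_proj]
    by_cases hl : 2 * (X.dim * m l) ≤ 2 * j
    · rw [if_pos hl]
      refine algSpan_mul (algSpan_map _ (mtch_alg v hQ (e l))) (algSpan_map _ ?_)
      have hle : X.dim * m l ≤ j := by omega
      have h2 : 2 * j - 2 * (X.dim * m l) = 2 * (j - X.dim * m l) := by omega
      rw [h2]
      refine Submodule.span_mono (Set.subset_iUnion _ (j - X.dim * m l))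
        (hT (j - X.dim * m l) _ (proj_mem _ _ _) ?_)
      obtain ⟨Δ', hΔ', hz'⟩ := hz l
      refine ⟨Δ', hΔ', fun g hg => ?_⟩
      have h3 : Grd (υ' g).toLinearMap := by
        rw [act_t2 hυ' hυZ']
        exact t2_gr (pact_gr hgY g) fun i a ha => hgZ g i a ha
      have h3' : ∀ (i : ℕ) (a : W.H ((power ops Y n).prod Z)), a ∈ W.gr _ i → υ' g a ∈ W.gr _ i :=
        fun i a ha => h3 i a ha
      have h4 : υ' g (kEquiv W (power ops Y n) Z (z l)) =
          (χ g : W.K) ^ (j - X.dim * m l) • kEquiv W (power ops Y n) Z (z l) := by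
        rw [act_prod hυ' hυZ', hz' g hg, map_smul]
        congr 1
        have hχ0 : (χ g : W.K) ≠ 0 := Units.ne_zero _
        rw [MonoidHom.pow_apply, Units.val_pow_eq_pow_val, ← pow_sub₀ _ hχ0 hle]
      have h5 : ∀ (i : ℕ) (a : W.H ((power ops Y n).prod Z)),
          proj (W.isInternal _) i (υ' g a) = υ' g (proj (W.isInternal _) i a) := by
        intro i a
        refine gr_induction (W.isInternal _) (p := fun a => proj (W.isInternal _) i (υ' g a) =
          υ' g (proj (W.isInternal _) i a)) ?_ ?_ a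
        · intro l a ha
          by_cases hil : l = i
          · subst hil
            rw [proj_same _ ha, proj_same _ (h3' _ _ ha)]
          · rw [proj_ne _ ha hil, proj_ne _ (h3' _ _ ha) hil, map_zero]
        · intro a b ha hb
          rw [map_add, map_add, ha, hb, map_add, map_add]
      rw [← h5, h4, map_smul]
    · rw [if_neg hl]
      exact Submodule.zero_mem _
  have hfin : c ∈ algSpan W ((power ops X n).prod Z) := by
    rw [← proj_same (W.isInternal _) hcj, ← hcc, hsum, map_sum, map_sum]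
    exact Submodule.sum_mem _ fun q _ => hterm q
  exact algSpan_gr hfin hcj

end main

end Pool.Agent.N174.Lef
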