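import Pool.Agent.N174.Lef.QMain

/-!
# The Lefschetz theorem for two systems of classes and Tate classes
-/

open CategoryTheory AlgebraicGeometry TensorProduct

universe u v w

namespace Pool.Agent.N174.Lef

open Pool.Agent.H914 Pool.Agent.H914.VarClass Pool.Agent.H914.VarClass.Obj
  Pool.Agent.H914.WeilCohomology Pool.Agent.H281R3.HT Pool.Agent.W552 Pool.Agent.TH125.Gal

open Pool.Agent.Y133.Half (Sys PH PH.ind ClassPred)

variable {k : Type u} [Field k] {𝒱 : VarClass k} {ops : CycleOps 𝒱}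
  {W : WeilCohomology.{u, v} ops} {X Y Z : 𝒱.Obj} {f : X ⟶ Y} {n : ℕ}
  {Γ : Type w} [Group Γ] {χ : Γ →* W.Kˣ} {ρ : Γ →* (W.H X ≃ₐ[W.K] W.H X)}
  {ρY : Γ →* (W.H Y ≃ₐ[W.K] W.H Y)} {τ : Γ →* (W.H Z ≃ₐ[W.K] W.H Z)} {s : W.H X →ₗ[W.K] W.H Y}

/-- **The Lefschetz theorem for Tate classes and two systems of classes.** -/
theorem mixed_sys_step {Q P : ClassPred W} (hPQ : ∀ X, P.sys.C X ≤ Q.sys.C X)
    (h : Data χ f ρ ρY s)
    (hsd : ∀ i, sd s i ∈ P.sys.Op X Y) {g₀ : Γ} (hχ : χ g₀ = 1) (hY : ρY g₀ = 1)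
    (hτ : τ g₀ = 1) (hPL : PLAct (W.tr X) (vanishing W f) ρ g₀)
    (hK : Even X.dim → FewRoots W.K ∧ n + 1 < Module.finrank W.K (vanishing W f))
    (hT : ∀ j c, Q.P ((power ops Y n).prod Z) j c → (∃ Δ : Subgroup Γ, Δ.FiniteIndex ∧
      ∀ g ∈ Δ, t2 (pact ρY n g) (lact τ g) c = (χ g : W.K) ^ j • c) → P.P _ j c) {j : ℕ}
    {c : W.H ((power ops X n).prod Z)} (hcQ : Q.P _ j c) (hc : ∃ Δ : Subgroup Γ,
      Δ.FiniteIndex ∧ ∀ g ∈ Δ, t2 (pact ρ n g) (lact τ g) c = (χ g : W.K) ^ j • c) :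
    P.P _ j c := by
  obtain ⟨Δ, hΔ, hc⟩ := hc
  obtain ⟨v⟩ := exists_VB h.transfer
  have hQ := dQ_sys (S := P.sys) h v hsd
  have hcj := Q.gr hcQ
  refine pred_of_sp ?_ hcj
  refine core_prod h v hχ hY hτ hPL hK hΔ hc (P.sys.C _) fun q m e e' => ?_
  refine Sys.Op.apply (T := P.sys) (fun _ => le_rfl) (op_mextZ v hQ Z e) ?_
  have hlow : Low (2 * (X.dim * m) + 0) (t2 (X' := Z) (Y' := Z)
      (ctrOp (ops := ops) v s q e') LinearMap.id) :=
    t2_low (low_ctr v h.transfer h.middle e') fun l a => rfl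
  rw [add_zero] at hlow
  by_cases hj : 2 * (X.dim * m) ≤ 2 * j
  · have hle : X.dim * m ≤ j := by omega
    have h8 := hlow.mem hcj
    rw [show 2 * j - 2 * (X.dim * m) = 2 * (j - X.dim * m) by omega] at h8
    obtain ⟨Δ', hΔ', hs'⟩ := h.seq
    have h9 : t2 (X' := Z) (Y' := Z) (ctrOp (ops := ops) v s q e') LinearMap.id c ∈ Q.sys.C _ :=
      Sys.Op.apply (S := P.sys) (T := Q.sys) hPQ
        (op_t2 (op_ctr v h.transfer h.middle hsd hQ q e') Sys.Op.id) (ClassPred.sp_of hcQ)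
    refine ClassPred.sp_of (hT (j - X.dim * m) _ (pred_of_sp h9 h8)
      ⟨Δ ⊓ Δ', inferInstance, fun g hg => ?_⟩)
    have h10 := ctr_act_prod (ops := ops) (τ := τ) h v (hs' g hg.2) e' c
    rw [hc g hg.1, map_smul] at h10
    have hx : (χ g : W.K) ≠ 0 := Units.ne_zero (χ g)
    have h11 : (χ g : W.K) ^ j = (χ g : W.K) ^ (X.dim * m) * (χ g : W.K) ^ (j - X.dim * m) := by
      rw [← pow_add, Nat.add_sub_cancel' hle]
    rw [h11, mul_smul] at h10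
    exact (smul_right_injective _ (pow_ne_zero (X.dim * m) hx) h10).symm
  · rw [hlow.zero hcj (by omega)]
    exact Submodule.zero_mem _

/-- **The Lefschetz theorem for Tate classes and two properties of classes.** -/
theorem Gen.mixed_step {Q P : ClassPred W} (hPQ : ∀ (V : 𝒱.Obj) (j : ℕ) (c : W.H V),
      P.P V j c → Q.P V j c) {X Y Z V V' : GVar W Γ} {n : ℕ} {f : X.X ⟶ Y.X}
    (h : Gen.IsLefschetz χ P.P X Y f) (hn : Gen.HasNode χ X Y Z f)
    (hF : Even X.X.dim → FewRoots W.K) (hK : Gen.LargeIfEven W f (n + 1))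
    (hV : IsPowProd X n Z V) (hV' : IsPowProd Y n Z V')
    (hY : ∀ j, ∀ c, Q.P V'.X j c → (∃ Δ : Subgroup Γ, Δ.FiniteIndex ∧
      ∀ g ∈ Δ, V'.act g c = (χ g : W.K) ^ j • c) → P.P V'.X j c) :
    ∀ j, ∀ c, Q.P V.X j c → (∃ Δ : Subgroup Γ, Δ.FiniteIndex ∧
      ∀ g ∈ Δ, V.act g c = (χ g : W.K) ^ j • c) → P.P V.X j c := by
  intro j c hcj ⟨Δ, hΔ, hg⟩
  obtain ⟨s, hs, ha⟩ := h.data
  obtain ⟨g₀, h1, h2, h3, h4⟩ := hn
  obtain ⟨υ, hυ, hυ'⟩ := hV
  obtain ⟨θ, hθ, hθ'⟩ := hV'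
  refine mixed_sys_step (ρ := X.act) (ρY := Y.act) (τ := Z.act) (Q := Q) (P := P) ?_ hs ha h1
    (act_eq_one h2) (act_eq_one h3) h4 (fun he => ⟨hF he, hK he⟩) ?_ hcj
    ⟨Δ, hΔ, fun g hgΔ => ?_⟩
  · intro V
    exact Submodule.span_mono fun _ ⟨j, hj⟩ => ⟨j, hPQ V j _ hj⟩
  · intro j c hcj ⟨Δ, hΔ, hg⟩
    refine hY j c hcj ⟨Δ, hΔ, fun g hgΔ => ?_⟩
    have h5 := hg g hgΔ
    rw [← act_t2 hθ hθ'] at h5
    exact h5
  · rw [← act_t2 hυ hυ']
    exact hg g hgΔ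

open Pool.Agent.N174.Lef.Hdg (toG exists_power)

/-- **The Lefschetz theorem for Tate classes and two systems of classes.** -/
theorem Mot.mixed_system {Q P : ClassPred W} (hPQ : ∀ (V : 𝒱.Obj) (j : ℕ) (c : W.H V),
      P.P V j c → Q.P V j c) {X Y Z V V' : Mot.AVar W Γ} {n : ℕ}
    {f : X.X ⟶ Y.X} (h : Mot.IsLefschetz χ P.P X Y f) (hn : Mot.HasNode χ X Y Z f)
    (hE : Mot.LargeIfEven W f n) (hV : Mot.IsPowProd X Z n V) (hV' : Mot.IsPowProd Y Z n V')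
    (hY : ∀ j c, Q.P V'.X j c → Mot.IsTate χ V'.act j c → P.P V'.X j c) :
    ∀ j c, Q.P V.X j c → Mot.IsTate χ V.act j c → P.P V.X j c := by
  cases n with
  | zero =>
    cases hV
    cases hV'
    exact hY
  | succ n =>
    obtain ⟨φ, υ, h1, h2⟩ := exists_power (Mot.toH X) (Mot.toH Z) n (Mot.toH V) hV.toH
    obtain ⟨φ', υ', h1', h2'⟩ := exists_power (Mot.toH Y) (Mot.toH Z) n (Mot.toH V') hV'.toH
    have hinv : ∀ {A B : 𝒱.Obj} (θ : A ≅ B) (c : W.H A),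
        W.map θ.hom (W.map θ.inv c) = c := by
      intro A B θ c
      rw [← W.map_comp, θ.hom_inv_id, W.map_id]
    have hinv' : ∀ {A B : 𝒱.Obj} (θ : A ≅ B) (c : W.H B),
        W.map θ.inv (W.map θ.hom c) = c := by
      intro A B θ c
      rw [← W.map_comp, θ.inv_hom_id, W.map_id]
    intro j c hcj hc
    have hst := Gen.mixed_step hPQ (n := n) h.toGen hn.toGen (fun he => (hE he).1)
      (fun he => (hE he).2) h2 h2'
      (fun j c hcj hc => by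
        obtain ⟨Δ, hΔ, hg⟩ := hc
        have h4 := P.map φ'.inv (hY j (W.map φ'.hom c) (Q.map φ'.hom hcj)
          ⟨Δ, hΔ, fun g hgΔ => by
            refine (h1' g c).trans ?_
            rw [hg g hgΔ]
            exact map_smul _ _ _⟩)
        rw [hinv'] at h4
        exact h4) j (W.map φ.inv c) (Q.map φ.inv hcj) (by
          obtain ⟨Δ, hΔ, hg⟩ := hc
          refine ⟨Δ, hΔ, fun g hgΔ => ?_⟩
          have h5 := congrArg (W.map φ.inv) ((h1 g (W.map φ.inv c)).symm.trans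
            ((congrArg (V.act.hom g) (hinv φ c)).trans (hg g hgΔ)))
          rw [hinv'] at h5
          exact h5.trans (map_smul _ _ _))
    have h6 := P.map φ.hom hst
    rw [hinv] at h6
    exact h6

end Pool.Agent.N174.Lef
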