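import Pool.Agent.TH125.Gal.Rec

/-!
# Sums of monomials over the free positions of a pattern, with a uniform sign
-/

open Finset Function

set_option linter.unusedSectionVars false

namespace Pool.Agent.N174.Lef

open Pool.Agent.TH125.Gal

universe u v

variable {K : Type u} [Field K] {A : Type v} [Ring A] [Algebra K A] {JC JT : Type} {N : ℕ}

/-- **Sums of monomials over the free positions of a pattern.** The sign depends only on the
degrees. -/
theorem sum_pattern_unif [Fintype JT] [DecidableEq JT] (dg : JC ⊕ JT → ℕ)
    {d : ℕ} (hd : ∀ j, dg (Sum.inr j) = d) {c : Fin N → Option JC} {m : ℕ}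
    (e : Fin m × Fin 2 ≃ Free c) :
    ∃ ε : ℤ, ε * ε = 1 ∧ ∀ E : Fin N → JC ⊕ JT → A,
      (∀ p q, p ≠ q → ∀ i j, E p i * E q j = (-1 : K) ^ (dg i * dg j) • (E q j * E p i)) →
      ∀ Q : JT → JT → K, ∑ r : Free c → JT, (∏ l, Q (r (e (l, 0))) (r (e (l, 1)))) •
        (List.ofFn fun p => E p (comb c r p)).prod =
      (ε : K) • ((List.ofFn fun l : Fin m => ∑ a : Fin 2 → JT, Q (a 0) (a 1) •
        (E (e (l, 0)).1 (Sum.inr (a 0)) * E (e (l, 1)).1 (Sum.inr (a 1)))).prod *
        ((fixList c).map fun p => (c p).elim 1 fun i => E p (Sum.inl i)).prod) := by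
  obtain ⟨ε, h1, h2⟩ := perm_sign (K := K) (A := A)
    (fun p => (c p).elim d fun i => dg (Sum.inl i)) (perm_lists e) (List.nodup_finRange N)
  refine ⟨ε, h1, fun E hE Q => ?_⟩
  have hdeg : ∀ (r : Free c → JT) p, dg (comb c r p) = (c p).elim d fun i => dg (Sum.inl i) := by
    intro r p
    cases h : c p with
    | none => rw [comb_none r ⟨p, h⟩, hd]; rfl
    | some i => rw [comb_some r h]; rfl
  have h3 : ∀ r : Free c → JT, (List.ofFn fun p => E p (comb c r p)).prod =
      (ε : K) • ((List.ofFn fun l : Fin m =>
        E (e (l, 0)).1 (Sum.inr (r (e (l, 0)))) * E (e (l, 1)).1 (Sum.inr (r (e (l, 1))))).prod *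
        ((fixList c).map fun p => (c p).elim 1 fun i => E p (Sum.inl i)).prod) := by
    intro r
    have h4 := h2 (fun p => E p (comb c r p)) fun p q hpq => by
      rw [hE p q hpq, hdeg, hdeg]
    have h5 : ((pairList e).map fun p => E p (comb c r p)).prod = (List.ofFn fun l : Fin m =>
        E (e (l, 0)).1 (Sum.inr (r (e (l, 0)))) *
          E (e (l, 1)).1 (Sum.inr (r (e (l, 1))))).prod := by
      rw [pairList, List.map_flatMap, List.ofFn_eq_map]
      generalize List.finRange m = L
      induction L with
      | nil => rfl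
      | cons l L ih =>
        rw [List.flatMap_cons, List.prod_append, ih, List.map_cons, List.prod_cons]
        congr 1
        simp only [List.map_cons, List.map_nil, List.prod_cons, List.prod_nil, mul_one]
        rw [comb_none, comb_none]
    have h6 : ((fixList c).map fun p => E p (comb c r p)) =
        ((fixList c).map fun p => (c p).elim 1 fun i => E p (Sum.inl i)) := by
      refine List.map_congr_left fun p hp => ?_
      rw [mem_fixList] at hp
      cases h : c p with
      | none => exact absurd h hp
      | some i => rw [comb_some r h]; rfl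
    rw [List.map_append, List.prod_append, h5, h6] at h4
    rw [List.ofFn_eq_map, h4, smul_smul]
    have h7 : (ε : K) * (ε : K) = 1 := by
      rw [← Int.cast_mul, h1, Int.cast_one]
    rw [h7, one_smul]
  have h8 : ∑ r : Free c → JT, (∏ l, Q (r (e (l, 0))) (r (e (l, 1)))) •
      (List.ofFn fun l : Fin m =>
        E (e (l, 0)).1 (Sum.inr (r (e (l, 0)))) * E (e (l, 1)).1 (Sum.inr (r (e (l, 1))))).prod =
      (List.ofFn fun l : Fin m => ∑ a : Fin 2 → JT, Q (a 0) (a 1) •
        (E (e (l, 0)).1 (Sum.inr (a 0)) * E (e (l, 1)).1 (Sum.inr (a 1)))).prod := by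
    rw [← sum_prod]
    refine Fintype.sum_equiv ((Equiv.arrowCongr e.symm (Equiv.refl JT)).trans
      (Equiv.curry _ _ _)) _ _ fun r => ?_
    rfl
  rw [← h8, Finset.sum_mul, Finset.smul_sum]
  refine Finset.sum_congr rfl fun r _ => ?_
  rw [h3, smul_comm, smul_mul_assoc]

/-- Factors one at the free positions can be left out. -/
theorem prod_fixList (c : Fin N → Option JC) (x : Fin N → A) (hx : ∀ p, c p = none → x p = 1) :
    (List.ofFn x).prod = ((fixList c).map x).prod := by
  rw [List.ofFn_eq_map, fixList]
  generalize List.finRange N = L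
  induction L with
  | nil => rfl
  | cons p L ih =>
    rw [List.map_cons, List.prod_cons, ih]
    cases h : c p with
    | none =>
      rw [List.filter_cons_of_neg (by simp [h]), hx p h, one_mul]
    | some i =>
      rw [List.filter_cons_of_pos (by simp [h]), List.map_cons, List.prod_cons]

end Pool.Agent.N174.Lef
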