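import Pool.Agent.N174.Lef.Van
import Pool.Agent.N174.Lef.Pat

/-!
# Contractions with vanishing classes
-/

open CategoryTheory AlgebraicGeometry Finset Function TensorProduct

set_option linter.unusedSectionVars false

universe u v w x

namespace Pool.Agent.N174.Lef

open Pool.Agent.H914 Pool.Agent.H914.VarClass Pool.Agent.H914.VarClass.Obj
  Pool.Agent.H914.WeilCohomology Pool.Agent.H281R3.HT Pool.Agent.W552 Pool.Agent.TH125.Gal

variable {k : Type u} [Field k] {𝒱 : VarClass k} {ops : CycleOps 𝒱}
  {W : WeilCohomology.{u, v} ops} {X Y : 𝒱.Obj} {f : X ⟶ Y} {n D : ℕ}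

/-- contraction, the value being a multiple of one -/
noncomputable def ct (Y : 𝒱.Obj) : W.H X →ₗ[W.K] W.H X →ₗ[W.K] W.H Y :=
  (bil W X).compr₂ (LinearMap.toSpanSingleton W.K (W.H Y) 1)

theorem ct_apply (a b : W.H X) : ct Y a b = bil W X a b • (1 : W.H Y) := rfl

/-- the transfer in one degree -/
noncomputable def sd (s : W.H X →ₗ[W.K] W.H Y) (i : ℕ) : W.H X →ₗ[W.K] W.H Y :=
  s ∘ₗ proj (W.isInternal X) i

/-- the operators at the fixed positions -/
noncomputable def fixK (s : W.H X →ₗ[W.K] W.H Y) (q : Fin (n + 1) → Option (Fin D))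
    (a : {a // ¬ q a = none}) : W.H X →ₗ[W.K] W.H Y := (q a.1).elim 0 fun i => sd s i

/-- the operators -/
noncomputable def opK (s : W.H X →ₗ[W.K] W.H Y) (q : Fin (n + 1) → Option (Fin D))
    (x : Free q → W.H X) (p : Fin (n + 1)) : W.H X →ₗ[W.K] W.H Y :=
  if h : q p = none then ct Y (x ⟨p, h⟩) else fixK s q ⟨p, h⟩

theorem opK_none {s : W.H X →ₗ[W.K] W.H Y} {q : Fin (n + 1) → Option (Fin D)}
    (x : Free q → W.H X) {p : Fin (n + 1)} (h : q p = none) :
    opK s q x p = ct Y (x ⟨p, h⟩) := by rw [opK, dif_pos h]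

theorem opK_some {s : W.H X →ₗ[W.K] W.H Y} {q : Fin (n + 1) → Option (Fin D)}
    (x : Free q → W.H X) {p : Fin (n + 1)} {i : Fin D} (h : q p = some i) :
    opK s q x p = sd s i := by
  rw [opK, dif_neg (by rw [h]; exact Option.some_ne_none i), fixK]
  change (q p).elim 0 (fun i : Fin D => sd s (i : ℕ)) = sd s i
  rw [h]
  rfl

section tensor

variable {M : Type x} [AddCommGroup M] [Module W.K M]

/-- The multilinear map of a class. -/
noncomputable def hK (f : X ⟶ Y) (s : W.H X →ₗ[W.K] W.H Y) (q : Fin (n + 1) → Option (Fin D))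
    (c : W.H (power ops X n) ⊗[W.K] M) :
    MultilinearMap W.K (fun _ : Free q => vanishing W f) (W.H (power ops Y n) ⊗[W.K] M) :=
  ((((LinearMap.applyₗ c) ∘ₗ (LinearMap.rTensorHom M)).compMultilinearMap
    tensML).domDomRestrict (fun p => q p = none) (fixK s q)).compLinearMap
      fun _ => ct Y ∘ₗ (vanishing W f).subtype

theorem hK_apply (s : W.H X →ₗ[W.K] W.H Y) (q : Fin (n + 1) → Option (Fin D))
    (c : W.H (power ops X n) ⊗[W.K] M) (x : Free q → vanishing W f) :
    hK f s q c x = (tens (opK s q fun p => (x p : W.H X))).rTensor M c := rfl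

end tensor

section star

variable (v : VB W f)

/-- the inverse operators -/
noncomputable def opR (q : Fin (n + 1) → Option (Fin D)) (r : Free q → Fin v.N)
    (p : Fin (n + 1)) : W.H Y →ₗ[W.K] W.H X :=
  if h : q p = none then LinearMap.mulRight W.K (v.t (r ⟨p, h⟩) : W.H X) ∘ₗ (W.map f).toLinearMap
  else (W.map f).toLinearMap

theorem opR_none {q : Fin (n + 1) → Option (Fin D)} (r : Free q → Fin v.N)
    {p : Fin (n + 1)} (h : q p = none) (y : W.H Y) :
    opR v q r p y = W.map f y * (v.t (r ⟨p, h⟩) : W.H X) := by rw [opR, dif_pos h]; rfl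

theorem opR_some {q : Fin (n + 1) → Option (Fin D)} (r : Free q → Fin v.N)
    {p : Fin (n + 1)} (h : ¬ q p = none) (y : W.H Y) :
    opR v q r p y = W.map f y := by rw [opR, dif_neg h]; rfl

/-- the projectors -/
noncomputable def piq (f : X ⟶ Y) (s : W.H X →ₗ[W.K] W.H Y) (q : Fin (n + 1) → Option (Fin D))
    (p : Fin (n + 1)) : W.H X →ₗ[W.K] W.H X :=
  (q p).elim (piE f s) fun i => (W.map f).toLinearMap ∘ₗ sd s i

/-- **Expansion of the component of a class.** -/
theorem star {s : W.H X →ₗ[W.K] W.H Y} (hs : IsTransfer W f s)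
    (q : Fin (n + 1) → Option (Fin D)) :
    tens (ops := ops) (piq f s q) = ∑ r : Free q → Fin v.N,
      tens (opR v q r) ∘ₗ tens (opK s q fun p => (v.u (r p) : W.H X)) := by
  refine mono_ext fun a => ?_
  rw [LinearMap.sum_apply, tens_mono]
  let z : {p // ¬ q p = none} → W.H X := fun p => piq f s q p.1 (a p.1)
  let G := (monoML (W := W) (powerPrj ops X n)).domDomRestrict (fun p => q p = none) z
  have h1 : mono (powerPrj ops X n) (fun p => piq f s q p (a p)) =
      G fun p : Free q => ∑ i, bil W X (v.u i) (a p.1) • (v.t i : W.H X) := by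
    change mono (powerPrj ops X n) _ = mono (powerPrj ops X n) _
    congr 1
    funext p
    by_cases h : q p = none
    · rw [dif_pos h, piq, h]
      exact piE_eq v hs (a p)
    · rw [dif_neg h]
  rw [h1, MultilinearMap.map_sum]
  refine Finset.sum_congr rfl fun r _ => ?_
  rw [LinearMap.comp_apply, tens_mono, tens_mono]
  change mono (powerPrj ops X n) _ = mono (powerPrj ops X n) _
  congr 1
  funext p
  by_cases h : q p = none
  · rw [dif_pos h, opR_none v r h, opK_none _ h, ct_apply, map_smul, map_one, smul_mul_assoc,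
      one_mul]
  · obtain ⟨i, hi⟩ := Option.ne_none_iff_exists'.1 h
    rw [dif_neg h, opR_some v r h, opK_some _ hi]
    change piq f s q p (a p) = _
    rw [piq, hi]
    rfl

/-- the class given by the Gram matrix of the dual classes -/
noncomputable def dQ : W.H (X.prod X) :=
  ∑ a : Fin 2 → Fin v.N, bil W X (v.u (a 0)) (v.u (a 1)) •
    (W.map (fst X X) (v.t (a 0)) * W.map (snd X X) (v.t (a 1)))

/-- the product of the diagonal classes of a matching -/
noncomputable def mtch {q : Fin (n + 1) → Option (Fin D)} {m : ℕ} (e : Fin m × Fin 2 ≃ Free q) :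
    W.H (power ops X n) :=
  (List.ofFn fun l => W.map (Obj.lift (powerPrj ops X n (e (l, 0)).1)
    (powerPrj ops X n (e (l, 1)).1)) (dQ v)).prod

/-- **Sums over the free positions.** -/
theorem dstar0 (hmid : vanishing W f ≤ W.gr X X.dim) {q : Fin (n + 1) → Option (Fin D)} {m : ℕ}
    (e : Fin m × Fin 2 ≃ Free q) : ∃ ε : ℤ, ∀ y : Fin (n + 1) → W.H Y,
      (∀ p, q p = none → y p = 1) → (∀ p i, q p = some i → y p ∈ W.gr Y i) →
      ∑ r : Free q → Fin v.N,
        (∏ l, bil W X (v.u (r (e (l, 0)))) (v.u (r (e (l, 1))))) •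
          tens (opR v q r) (mono (powerPrj ops Y n) y) =
        (ε : W.K) • (mtch v e * W.map (powerMap ops f n) (mono (powerPrj ops Y n) y)) := by
  obtain ⟨ε, -, hε⟩ := sum_pattern_unif (K := W.K) (A := W.H (power ops X n)) (JC := Fin D)
    (JT := Fin v.N) (fun i => i.elim (fun i : Fin D => (i : ℕ)) fun _ => X.dim) (d := X.dim)
    (fun _ => rfl) e
  refine ⟨ε, fun y hy1 hy2 => ?_⟩
  have h1 := hε (fun p i => i.elim
      (fun i : Fin D => W.map (powerPrj ops X n p) (proj (W.isInternal X) i (W.map f (y p))))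
      fun j => W.map (powerPrj ops X n p) (v.t j : W.H X))
    (fun p p' _ i j => by
      refine W.comm ?_ ?_
      · rcases i with i | i
        · exact W.map_mem _ (proj_mem _ _ _)
        · exact W.map_mem _ (hmid (v.t i).2)
      · rcases j with i | i
        · exact W.map_mem _ (proj_mem _ _ _)
        · exact W.map_mem _ (hmid (v.t i).2))
    (fun i j => bil W X (v.u i) (v.u j))
  have h2 : ∀ r : Free q → Fin v.N, tens (opR v q r) (mono (powerPrj ops Y n) y) =
      (List.ofFn fun p => (fun p (i : Fin D ⊕ Fin v.N) => i.elim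
        (fun i : Fin D => W.map (powerPrj ops X n p) (proj (W.isInternal X) i (W.map f (y p))))
        fun j => W.map (powerPrj ops X n p) (v.t j : W.H X)) p (comb q r p)).prod := by
    intro r
    rw [tens_mono, mono]
    congr 2
    funext p
    beta_reduce
    by_cases h : q p = none
    · rw [opR_none v r h, hy1 p h, map_one, one_mul, comb_none r ⟨p, h⟩]
      rfl
    · obtain ⟨i, hi⟩ := Option.ne_none_iff_exists'.1 h
      rw [opR_some v r h, comb_some r hi]
      change _ = W.map (powerPrj ops X n p) (proj (W.isInternal X) i (W.map f (y p)))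
      rw [proj_same _ (W.map_mem f (hy2 p i hi))]
  simp only [h2]
  refine h1.trans ?_
  congr 2
  · rw [mtch]
    congr 2
    funext l
    rw [dQ, map_sum]
    refine Finset.sum_congr rfl fun a _ => ?_
    rw [map_smul, map_mul, ← W.map_comp, ← W.map_comp, Obj.lift_fst, Obj.lift_snd]
    rfl
  · rw [map_powerMap, mono, prod_fixList q]
    · congr 1
      refine List.map_congr_left fun p hp => ?_
      rw [mem_fixList] at hp
      obtain ⟨i, hi⟩ := Option.ne_none_iff_exists'.1 hp
      rw [hi]
      change W.map (powerPrj ops X n p) (proj (W.isInternal X) i (W.map f (y p))) = _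
      rw [proj_same _ (W.map_mem f (hy2 p i hi))]
    · intro p hp
      rw [hy1 p hp, map_one, map_one]

/-- **Sums over the free positions**, second form. -/
theorem dstar {s : W.H X →ₗ[W.K] W.H Y} (hs : IsTransfer W f s)
    (hmid : vanishing W f ≤ W.gr X X.dim) {q : Fin (n + 1) → Option (Fin D)} {m : ℕ}
    (e : Fin m × Fin 2 ≃ Free q) : ∃ ε : ℤ, ∀ x : Free q → vanishing W f,
      ∑ r : Free q → Fin v.N,
        (∏ l, bil W X (v.u (r (e (l, 0)))) (v.u (r (e (l, 1))))) •
          (tens (opR v q r) ∘ₗ tens (opK s q fun p => (x p : W.H X))) =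
        (ε : W.K) • (LinearMap.mulLeft W.K (mtch (ops := ops) v e) ∘ₗ
          (W.map (powerMap ops f n)).toLinearMap ∘ₗ tens (opK s q fun p => (x p : W.H X))) := by
  obtain ⟨ε, hε⟩ := dstar0 (ops := ops) v hmid e
  refine ⟨ε, fun x => mono_ext fun a => ?_⟩
  -- the scalars
  let β : Fin (n + 1) → W.K := fun p => if h : q p = none then bil W X (x ⟨p, h⟩) (a p) else 1
  let y : Fin (n + 1) → W.H Y := fun p => if q p = none then 1 else
    opK s q (fun p => (x p : W.H X)) p (a p)
  have h1 : tens (opK s q fun p => (x p : W.H X)) (mono (powerPrj ops X n) a) =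
      (∏ p, β p) • mono (powerPrj ops Y n) y := by
    rw [tens_mono, ← monoML_apply, ← monoML_apply, ← MultilinearMap.map_smul_univ]
    congr 1
    funext p
    by_cases h : q p = none
    · simp only [β, y]
      rw [dif_pos h, if_pos h, opK_none _ h, ct_apply]
    · simp only [β, y]
      rw [dif_neg h, if_neg h, one_smul]
  have h2 := hε y (fun p hp => if_pos hp) (fun p i hi => by
    simp only [y]
    rw [if_neg (by rw [hi]; exact Option.some_ne_none i), opK_some _ hi]
    exact hs.gr_mem _ _ (proj_mem _ _ _))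
  rw [LinearMap.sum_apply]
  simp only [LinearMap.smul_apply, LinearMap.comp_apply, h1, map_smul]
  simp only [smul_comm _ (∏ p, β p)]
  rw [← Finset.smul_sum, h2]
  rfl

end star

end Pool.Agent.N174.Lef
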