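import Pool.Agent.N174.Lef.Psp
import Pool.Agent.N174.Lef.CtrF

/-!
# The pull-back of the basic form
-/

open CategoryTheory AlgebraicGeometry Finset Polynomial

set_option linter.unusedSectionVars false

universe u v

namespace Pool.Agent.N174.Lef

open Pool.Agent.H914 Pool.Agent.H914.VarClass Pool.Agent.H914.VarClass.Obj
  Pool.Agent.H914.WeilCohomology Pool.Agent.H281R3.HT Pool.Agent.W552

variable {k : Type u} [Field k] {𝒱 : VarClass k} {ops : CycleOps 𝒱}
  {W : WeilCohomology.{u, v} ops} {X Y Z : 𝒱.Obj}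

/-- A polarized variety with all operators. -/
structure Pl (W : WeilCohomology.{u, v} ops) (X : 𝒱.Obj) (D : X.Cycles)
    (g : Module.End W.K (W.H X)) : Prop where
  fr : Fr W X D g
  ls : LefStr (W.isInternal X) X.dim (LinearMap.mulLeft W.K (W.cl X D)) g
  pr : ∀ i, AOp W X X (proj (W.isInternal X) i)

theorem exists_pl {D : X.Cycles} (hD : X.IsCyc 1 D) (hHL : HardLefschetz W X D)
    (hB : LefschetzB W X D) : ∃ g, Pl W X D g := by
  obtain ⟨g, h1, h2⟩ := exists_fr hD hHL hB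
  exact ⟨g, h1, h2, proj_aop hD hHL hB⟩

namespace Pl

variable {D : X.Cycles} {g : Module.End W.K (W.H X)} (P : Pl W X D g)

include P

theorem st_aop : AOp W X X (st W X D g) := Pool.Agent.W552.st_aop P.fr P.pr

theorem st_st (a : W.H X) : st W X D g (st W X D g a) = a :=
  LinearMap.congr_fun P.ls.star_star a

theorem symm {i j : ℕ} {a b : W.H X} (ha : a ∈ W.gr X i) (hb : b ∈ W.gr X j) :
    bf W X D g b a = (-1 : W.K) ^ i * bf W X D g a b :=
  P.ls.form_symm (B := bil W X) (fun p q => RSys.bil_self P.fr.hD p q)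
    (fun i j a ha b hb hij => W.tr_eq_zero (W.mul_mem ha hb) hij)
    (fun i j a ha b hb => by
      rw [bil_apply, bil_apply, W.comm ha hb, map_smul, smul_eq_mul]) ha hb

theorem nd {z : W.H X} (h : ∀ y, bf W X D g y z = 0) : z = 0 := by
  have h1 : st W X D g z = 0 := nondeg_right (fun b => h b)
  rw [← P.st_st z, h1, map_zero]

end Pl

theorem gr_disj {i j : ℕ} (hij : i ≠ j) {a : W.H X} (hi : a ∈ W.gr X i) (hj : a ∈ W.gr X j) :
    a = 0 := by
  rw [← proj_same (W.isInternal X) hi, proj_ne (W.isInternal X) hj (Ne.symm hij)]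

section pull

variable {f : X ⟶ Y} {D : Y.Cycles} {gX : Module.End W.K (W.H X)}
  {gY : Module.End W.K (W.H Y)} {c : ℚ} {m : ℕ}

theorem map_L (j : ℕ) (a : W.H Y) : W.map f ((LinearMap.mulLeft W.K (W.cl Y D) ^ j) a) =
    (LinearMap.mulLeft W.K (W.cl X (ops.pull f D)) ^ j) (W.map f a) := by
  rw [LinearMap.pow_mulLeft, LinearMap.pow_mulLeft, LinearMap.mulLeft_apply,
    LinearMap.mulLeft_apply, map_mul, map_pow, W.cl_pull]

variable (PY : Pl W Y D gY) (PX : Pl W X (ops.pull f D) gX)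
  (hpush : W.push f 1 = (c : W.K) • W.cl Y D ^ m) (hm : X.dim + m = Y.dim)
  (hmid : vanishing W f ≤ W.gr X X.dim)

include hpush in
theorem push_map (a : W.H Y) : W.push f (W.map f a) =
    (c : W.K) • (LinearMap.mulLeft W.K (W.cl Y D) ^ m) a := by
  have h1 := W.push_mul f 1 a
  rw [one_mul] at h1
  rw [h1, hpush, smul_mul_assoc, LinearMap.pow_mulLeft, LinearMap.mulLeft_apply]

include hpush hm hmid in
theorem map_prim_zero {i : ℕ} (hi : X.dim < i) (hi' : i ≤ Y.dim) {u : W.H Y} (hu : u ∈ W.gr Y i)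
    (hp : (LinearMap.mulLeft W.K (W.cl Y D) ^ (Y.dim - i + 1)) u = 0) : W.map f u = 0 := by
  have h1 : W.map f u ∈ vanishing W f := by
    change W.push f (W.map f u) = 0
    rw [push_map hpush, L_pow_gt (n := Y.dim) (i := i) hp (by omega), smul_zero]
  exact gr_disj (by omega) (W.map_mem f hu) (hmid h1)

include PX PY hpush hm hmid in
theorem map_prim {i : ℕ} (hi : i ≤ X.dim) {u : W.H Y} (hu : u ∈ W.gr Y i)
    (hp : (LinearMap.mulLeft W.K (W.cl Y D) ^ (Y.dim - i + 1)) u = 0) :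
    (LinearMap.mulLeft W.K (W.cl X (ops.pull f D)) ^ (X.dim - i + 1)) (W.map f u) = 0 := by
  rw [← map_L]
  have h1 : W.map f ((LinearMap.mulLeft W.K (W.cl Y D) ^ (X.dim - i + 1)) u) ∈
      vanishing W f := by
    change W.push f _ = 0
    rw [push_map hpush, ← Module.End.mul_apply, ← pow_add,
      show m + (X.dim - i + 1) = Y.dim - i + 1 by omega, hp, smul_zero]
  have h2 := W.map_mem f (pow_L_mem PY.ls.hL hu (X.dim - i + 1))
  exact gr_disj (by omega) h2 (hmid h1)

/-- the eigenvalues -/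
def qv (X Y : 𝒱.Obj) (c : ℚ) (i j : ℕ) : ℚ :=
  if i + j ≤ X.dim then c * ((Y.dim - i - j).factorial * ((X.dim - i - j).factorial : ℚ)⁻¹) else 0

theorem qv_nonneg (hc : 0 ≤ c) (i j : ℕ) : 0 ≤ qv X Y c i j := by
  rw [qv]
  split_ifs
  · positivity
  · exact le_rfl

include PX PY hpush hm hmid in
theorem bf_map {i : ℕ} (hi : i ≤ Y.dim) {u : W.H Y} (hu : u ∈ W.gr Y i)
    (hp : (LinearMap.mulLeft W.K (W.cl Y D) ^ (Y.dim - i + 1)) u = 0) {j : ℕ}
    (hj : j ≤ Y.dim - i) (a : W.H Y) :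
    bf W X (ops.pull f D) gX (W.map f a)
      (W.map f ((LinearMap.mulLeft W.K (W.cl Y D) ^ j) u)) =
      (qv X Y c i j : W.K) * bf W Y D gY a ((LinearMap.mulLeft W.K (W.cl Y D) ^ j) u) := by
  by_cases hix : X.dim < i
  · rw [map_L, map_prim_zero hpush hm hmid hix hi hu hp, map_zero, map_zero, qv,
      if_neg (by omega), Rat.cast_zero, zero_mul]
  push Not at hix
  have hpX := map_prim PY PX hpush hm hmid hix hu hp
  by_cases hij : i + j ≤ X.dim
  swap
  · rw [map_L, L_pow_gt (n := X.dim) (i := i) hpX (by omega), map_zero, qv, if_neg hij,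
      Rat.cast_zero, zero_mul]
  have hmem := pow_L_mem PY.ls.hL hu j
  have hmX : W.map f ((LinearMap.mulLeft W.K (W.cl Y D) ^ j) u) ∈ W.gr X (i + 2 * j) :=
    W.map_mem f hmem
  rw [bf_apply, st_apply hmX, bf_apply, st_apply hmem, map_L, wop,
    PX.ls.w_L_pow hix (W.map_mem f hu) hpX (j := j) (by omega), wop,
    PY.ls.w_L_pow hi hu hp hj, ← map_L, mul_smul_comm, mul_smul_comm, mul_smul_comm,
    mul_smul_comm, map_smul, map_smul, map_smul, map_smul, smul_eq_mul, smul_eq_mul,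
    smul_eq_mul, smul_eq_mul, ← map_mul]
  have h1 : W.tr X (W.map f (a * (LinearMap.mulLeft W.K (W.cl Y D) ^ (X.dim - i - j)) u)) =
      (c : W.K) * W.tr Y (a * (LinearMap.mulLeft W.K (W.cl Y D) ^ (Y.dim - i - j)) u) := by
    have h2 := W.tr_push f 1 (a * (LinearMap.mulLeft W.K (W.cl Y D) ^ (X.dim - i - j)) u)
    rw [one_mul] at h2
    rw [← h2, hpush, smul_mul_assoc, map_smul, smul_eq_mul]
    congr 2
    have h3 : W.cl Y D ^ m * a = a * W.cl Y D ^ m := by
      have h4 : Commute (W.cl Y D) a := W.even_comm (p := 1) (W.cl_mem PY.fr.hD) a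
      exact (h4.pow_left m).eq
    rw [← mul_assoc, h3, mul_assoc]
    congr 1
    rw [LinearMap.pow_mulLeft, LinearMap.pow_mulLeft, LinearMap.mulLeft_apply,
      LinearMap.mulLeft_apply, ← mul_assoc, ← pow_add,
      show m + (X.dim - i - j) = Y.dim - i - j by omega]
  rw [h1, qv, if_pos hij]
  have e1 : ((X.dim - i - j).factorial : W.K) ≠ 0 := by exact_mod_cast Nat.factorial_ne_zero _
  have e2 : ((Y.dim - i - j).factorial : W.K) ≠ 0 := by exact_mod_cast Nat.factorial_ne_zero _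
  push_cast
  field_simp

include PX PY in
/-- the operator which represents the pull-back of the form -/
theorem exists_theta : ∃ Θ : Module.End W.K (W.H Y), AOp W Y Y Θ ∧ ∀ a b,
    bf W Y D gY a (Θ b) = bf W X (ops.pull f D) gX (W.map f a) (W.map f b) := by
  obtain ⟨J', hJ', hadj⟩ := (aop_map (W := W) f).adj
  refine ⟨st W Y D gY ∘ₗ J' ∘ₗ st W X (ops.pull f D) gX ∘ₗ (W.map f).toLinearMap,
    PY.st_aop.comp (hJ'.comp (PX.st_aop.comp (aop_map f))), fun a b => ?_⟩
  rw [bf_apply, LinearMap.comp_apply, PY.st_st, LinearMap.comp_apply, ← hadj]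
  rfl

/-- the finite set of the eigenvalues -/
def qS (X Y : 𝒱.Obj) (c : ℚ) : Finset ℚ :=
  (range (Y.dim + 1) ×ˢ range (Y.dim + 1)).image fun p => qv X Y c p.1 p.2

theorem mem_qS {i j : ℕ} (hi : i ≤ Y.dim) (hj : j ≤ Y.dim - i) :
    qv X Y c i j ∈ qS X Y c := by
  rw [qS, Finset.mem_image]
  exact ⟨(i, j), by simp; omega, rfl⟩


include PX PY hpush hm hmid in
/-- **The pull-back of the basic form is a combination of the basic form with nonnegative
coefficients.** -/
theorem pos_map (hc : 0 ≤ c) : Pos W Y D gY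
    ((bf W X (ops.pull f D) gX).compl₁₂ (W.map f).toLinearMap (W.map f).toLinearMap) := by
  classical
  obtain ⟨Θ, hΘ, hadj⟩ := exists_theta PY PX
  have heig : ∀ {i : ℕ} (_ : i ≤ Y.dim) {u : W.H Y} (_ : u ∈ W.gr Y i)
      (_ : (LinearMap.mulLeft W.K (W.cl Y D) ^ (Y.dim - i + 1)) u = 0) {j : ℕ} (_ : j ≤ Y.dim - i),
      Θ ((LinearMap.mulLeft W.K (W.cl Y D) ^ j) u) = (qv X Y c i j : W.K) • (LinearMap.mulLeft W.K (W.cl Y D) ^ j) u := by
    intro i hi u hu hp j hj
    rw [← sub_eq_zero]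
    refine PY.nd fun y => ?_
    rw [map_sub, hadj, bf_map PY PX hpush hm hmid hi hu hp hj, map_smul, smul_eq_mul, sub_self]
  have hpol : ∀ {i : ℕ} (_ : i ≤ Y.dim) {u : W.H Y} (_ : u ∈ W.gr Y i)
      (_ : (LinearMap.mulLeft W.K (W.cl Y D) ^ (Y.dim - i + 1)) u = 0) {j : ℕ} (_ : j ≤ Y.dim - i) (l : qS X Y c),
      pol Θ (Lagrange.basis (qS X Y c) id (l : ℚ)) ((LinearMap.mulLeft W.K (W.cl Y D) ^ j) u) =
        (if (l : ℚ) = qv X Y c i j then (1 : W.K) else 0) • (LinearMap.mulLeft W.K (W.cl Y D) ^ j) u := by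
    intro i hi u hu hp j hj l
    rw [pol_eig (heig hi hu hp hj)]
    congr 1
    by_cases hl : (l : ℚ) = qv X Y c i j
    · rw [if_pos hl, ← hl]
      have := Lagrange.eval_basis_self (s := qS X Y c) (v := id) (i := (l : ℚ))
        (Set.injOn_id _) l.2
      rw [id] at this
      rw [this, Rat.cast_one]
    · rw [if_neg hl]
      have := Lagrange.eval_basis_of_ne (s := qS X Y c) (v := id) (i := (l : ℚ))
        (j := qv X Y c i j) hl (mem_qS hi hj)
      rw [id] at this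
      rw [this, Rat.cast_zero]
  refine ⟨qS X Y c, inferInstance, fun l => (l : ℚ),
    fun l => pol Θ (Lagrange.basis (qS X Y c) id (l : ℚ)), ?_, fun l => aop_pol hΘ _, ?_⟩
  · rintro ⟨l, hl⟩
    rw [qS, Finset.mem_image] at hl
    obtain ⟨p, -, rfl⟩ := hl
    exact qv_nonneg hc _ _
  intro a b
  change bf W X (ops.pull f D) gX (W.map f a) (W.map f b) = _
  refine lef_induction' (W.isInternal Y) (n := Y.dim) PY.ls.hL PY.ls.hbd PY.ls.hHL
    (p := fun a => bf W X (ops.pull f D) gX (W.map f a) (W.map f b) =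
      ∑ l : qS X Y c, ((l : ℚ) : W.K) * bf W Y D gY
        (pol Θ (Lagrange.basis (qS X Y c) id (l : ℚ)) a)
        (pol Θ (Lagrange.basis (qS X Y c) id (l : ℚ)) b)) ?_ ?_ a
  · intro a a' ha ha'
    simp only [map_add, LinearMap.add_apply, mul_add, Finset.sum_add_distrib]
    rw [ha, ha']
  intro i hi u hu hp j
  refine lef_induction' (W.isInternal Y) (n := Y.dim) PY.ls.hL PY.ls.hbd PY.ls.hHL
    (p := fun b => bf W X (ops.pull f D) gX (W.map f ((LinearMap.mulLeft W.K (W.cl Y D) ^ j) u)) (W.map f b) =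
      ∑ l : qS X Y c, ((l : ℚ) : W.K) * bf W Y D gY
        (pol Θ (Lagrange.basis (qS X Y c) id (l : ℚ)) ((LinearMap.mulLeft W.K (W.cl Y D) ^ j) u))
        (pol Θ (Lagrange.basis (qS X Y c) id (l : ℚ)) b)) ?_ ?_ b
  · intro a a' ha ha'
    simp only [map_add, mul_add, Finset.sum_add_distrib]
    rw [ha, ha']
  intro i' hi' u' hu' hp' j'
  by_cases hj : Y.dim - i < j
  · rw [L_pow_gt hp hj]
    simp
  by_cases hj' : Y.dim - i' < j'
  · rw [L_pow_gt hp' hj']
    simp
  push Not at hj hj'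
  simp only [hpol hi hu hp hj, hpol hi' hu' hp' hj', map_smul, LinearMap.smul_apply, smul_eq_mul]
  have h1 := bf_map PY PX hpush hm hmid hi' hu' hp' hj' ((LinearMap.mulLeft W.K (W.cl Y D) ^ j) u)
  have h2 := bf_map PY PX hpush hm hmid hi hu hp hj ((LinearMap.mulLeft W.K (W.cl Y D) ^ j') u')
  have ha := pow_L_mem PY.ls.hL hu j
  have hb := pow_L_mem PY.ls.hL hu' j'
  rw [PX.symm (W.map_mem f ha) (W.map_mem f hb), PY.symm ha hb] at h2
  have h3 : (-1 : W.K) ^ (i + 2 * j) * (-1) ^ (i + 2 * j) = 1 := by rw [← mul_pow]; simp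
  have h4 : bf W X (ops.pull f D) gX (W.map f ((LinearMap.mulLeft W.K (W.cl Y D) ^ j) u)) (W.map f ((LinearMap.mulLeft W.K (W.cl Y D) ^ j') u')) =
      (qv X Y c i j : W.K) * bf W Y D gY ((LinearMap.mulLeft W.K (W.cl Y D) ^ j) u) ((LinearMap.mulLeft W.K (W.cl Y D) ^ j') u') := by
    have h5 := congrArg (fun y => (-1 : W.K) ^ (i + 2 * j) * y) h2
    beta_reduce at h5
    rw [← mul_assoc, h3, one_mul] at h5
    rw [h5]
    linear_combination ((qv X Y c i j : W.K) * bf W Y D gY ((LinearMap.mulLeft W.K (W.cl Y D) ^ j) u) ((LinearMap.mulLeft W.K (W.cl Y D) ^ j') u')) * h3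
  by_cases hq : qv X Y c i j = qv X Y c i' j'
  · rw [h4, Finset.sum_eq_single ⟨qv X Y c i j, mem_qS hi hj⟩]
    · rw [if_pos rfl, if_pos hq, one_mul, one_mul]
    · intro l _ hl
      rw [if_neg (fun h => hl (Subtype.ext h))]
      ring
    · intro h
      exact absurd (Finset.mem_univ _) h
  · have h5 : bf W Y D gY ((LinearMap.mulLeft W.K (W.cl Y D) ^ j) u) ((LinearMap.mulLeft W.K (W.cl Y D) ^ j') u') = 0 := by
      have h6 : ((qv X Y c i j : W.K) - qv X Y c i' j') *
          bf W Y D gY ((LinearMap.mulLeft W.K (W.cl Y D) ^ j) u) ((LinearMap.mulLeft W.K (W.cl Y D) ^ j') u') = 0 := by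
        rw [sub_mul, ← h4, ← h1, sub_self]
      refine (mul_eq_zero.1 h6).resolve_left fun h => hq ?_
      have h7 := sub_eq_zero.1 h
      exact_mod_cast h7
    rw [h4, h5, mul_zero]
    symm
    refine Finset.sum_eq_zero fun l _ => ?_
    ring

end pull

end Pool.Agent.N174.Lef
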