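import Pool.Agent.W552.Main
import Pool.Agent.N174.Lef.Ext2
import Mathlib.LinearAlgebra.Lagrange

/-!
# Positive forms
-/

open CategoryTheory AlgebraicGeometry Finset Polynomial

universe u v

namespace Pool.Agent.N174.Lef

open Pool.Agent.H914 Pool.Agent.H914.VarClass Pool.Agent.H914.VarClass.Obj
  Pool.Agent.H914.WeilCohomology Pool.Agent.H281R3.HT Pool.Agent.W552

section Abs

variable {K : Type*} [Field K] [CharZero K] {V : Type*} [AddCommGroup V] [Module K V]

/-- the polynomial of the operator -/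
noncomputable def pol (T : Module.End K V) (p : ℚ[X]) : Module.End K V :=
  aeval T (p.map (algebraMap ℚ K))

theorem pol_eig {T : Module.End K V} {μ : ℚ} {x : V} (h : T x = (μ : K) • x) (p : ℚ[X]) :
    pol T p x = ((p.eval μ : ℚ) : K) • x := by
  have h1 : ∀ m : ℕ, (T ^ m) x = ((μ ^ m : ℚ) : K) • x := by
    intro m
    induction m with
    | zero => simp
    | succ m ih =>
      rw [pow_succ', Module.End.mul_apply, ih, map_smul, h, smul_smul, ← Rat.cast_mul, pow_succ]
  induction p using Polynomial.induction_on' with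
  | add p q hp hq =>
    rw [pol] at hp hq ⊢
    rw [Polynomial.map_add, map_add, LinearMap.add_apply, hp, hq, eval_add, Rat.cast_add, add_smul]
  | monomial m a =>
    rw [pol, Polynomial.map_monomial, aeval_monomial, Module.End.mul_apply, h1, eval_monomial,
      Module.algebraMap_end_apply, smul_smul]
    simp

theorem pol_self {B : V →ₗ[K] V →ₗ[K] K} {T : Module.End K V} (h : ∀ a b, B (T a) b = B a (T b))
    (p : ℚ[X]) (a b : V) : B (pol T p a) b = B a (pol T p b) := by
  have h1 : ∀ (m : ℕ) (a b : V), B ((T ^ m) a) b = B a ((T ^ m) b) := by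
    intro m
    induction m with
    | zero => intro a b; simp
    | succ m ih =>
      intro a b
      rw [pow_succ, Module.End.mul_apply, ih, h, ← Module.End.mul_apply T, ← pow_succ', ← pow_succ]
  induction p using Polynomial.induction_on' with
  | add p q hp hq =>
    rw [pol] at hp hq ⊢
    rw [Polynomial.map_add, map_add, LinearMap.add_apply, map_add, LinearMap.add_apply, hp, hq,
      LinearMap.add_apply, map_add]
  | monomial m r =>
    rw [pol, Polynomial.map_monomial, aeval_monomial, Module.End.mul_apply, Module.End.mul_apply,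
      Module.algebraMap_end_apply, Module.algebraMap_end_apply, map_smul, LinearMap.smul_apply,
      map_smul, h1]

end Abs

variable {k : Type u} [Field k] {𝒱 : VarClass k} {ops : CycleOps 𝒱}
  {W : WeilCohomology.{u, v} ops} {X Y Z : 𝒱.Obj}

theorem aop_pol {T : Module.End W.K (W.H X)} (h : AOp W X X T) (p : ℚ[X]) :
    AOp W X X (pol T p) := by
  induction p using Polynomial.induction_on' with
  | add p q hp hq =>
    rw [pol] at hp hq ⊢
    rw [Polynomial.map_add, map_add]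
    exact hp.add hq
  | monomial m r =>
    rw [pol, Polynomial.map_monomial, aeval_monomial]
    have h1 : (algebraMap W.K (Module.End W.K (W.H X))) ((algebraMap ℚ W.K) r) * T ^ m =
        (r : W.K) • T ^ m := by
      apply LinearMap.ext
      intro a
      rw [Module.End.mul_apply, Module.algebraMap_end_apply]
      simp
    rw [h1]
    exact (h.pow m).smul r

/-- The form is a combination of the basic form with nonnegative coefficients. -/
def Pos (W : WeilCohomology.{u, v} ops) (Y : 𝒱.Obj) (D : Y.Cycles) (f : Module.End W.K (W.H Y))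
    (β : W.H Y →ₗ[W.K] W.H Y →ₗ[W.K] W.K) : Prop :=
  ∃ (ι : Type) (_ : Fintype ι) (c : ι → ℚ) (θ : ι → Module.End W.K (W.H Y)), (∀ i, 0 ≤ c i) ∧
    (∀ i, AOp W Y Y (θ i)) ∧ ∀ a b, β a b = ∑ i, (c i : W.K) * bf W Y D f (θ i a) (θ i b)

variable {D : Y.Cycles} {fY : Module.End W.K (W.H Y)}

theorem Pos.self : Pos W Y D fY (bf W Y D fY) :=
  ⟨Unit, inferInstance, fun _ => 1, fun _ => 1, fun _ => zero_le_one, fun _ => AOp.one,
    fun a b => by simp⟩

theorem Pos.smul {β : W.H Y →ₗ[W.K] W.H Y →ₗ[W.K] W.K} (h : Pos W Y D fY β) {r : ℚ}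
    (hr : 0 ≤ r) : Pos W Y D fY ((r : W.K) • β) := by
  obtain ⟨ι, _, c, θ, hc, hθ, hβ⟩ := h
  refine ⟨ι, inferInstance, fun i => r * c i, θ, fun i => mul_nonneg hr (hc i), hθ,
    fun a b => ?_⟩
  rw [LinearMap.smul_apply, LinearMap.smul_apply, hβ, Finset.smul_sum]
  refine Finset.sum_congr rfl fun i _ => ?_
  push_cast
  rw [smul_eq_mul, mul_assoc]

theorem Pos.comp {β : W.H Y →ₗ[W.K] W.H Y →ₗ[W.K] W.K} (h : Pos W Y D fY β)
    {A : Module.End W.K (W.H Y)} (hA : AOp W Y Y A) : Pos W Y D fY (β.compl₁₂ A A) := by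
  obtain ⟨ι, _, c, θ, hc, hθ, hβ⟩ := h
  exact ⟨ι, inferInstance, c, fun i => θ i * A, hc, fun i => (hθ i).mul hA, fun a b => hβ _ _⟩

/-- **The value of a positive form on an algebraic class.** -/
theorem Pos.value {β : W.H Y →ₗ[W.K] W.H Y →ₗ[W.K] W.K} (h : Pos W Y D fY β) (F : Fr W Y D fY)
    (hH : HodgeType W Y D) {x : W.H Y} (hx : AS W Y x) :
    ∃ q : ℚ, 0 ≤ q ∧ β x x = q ∧ (q = 0 → ∀ y, β y x = 0) := by
  obtain ⟨ι, _, c, θ, hc, hθ, hβ⟩ := h
  have h1 : ∀ i, ∃ q : ℚ, 0 ≤ q ∧ bf W Y D fY (θ i x) (θ i x) = q ∧ (q = 0 → θ i x = 0) := by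
    intro i
    by_cases h0 : θ i x = 0
    · exact ⟨0, le_rfl, by rw [h0]; simp, fun _ => h0⟩
    · obtain ⟨q, hq, hq'⟩ := F.bf_pos hH ((hθ i).apply hx) h0
      exact ⟨q, hq.le, hq', fun h => absurd h hq.ne'⟩
  choose q hq0 hq1 hq2 using h1
  refine ⟨∑ i, c i * q i, Finset.sum_nonneg fun i _ => mul_nonneg (hc i) (hq0 i), ?_, ?_⟩
  · rw [hβ]
    push_cast
    exact Finset.sum_congr rfl fun i _ => by rw [hq1]
  · intro h0 y
    rw [hβ]
    refine Finset.sum_eq_zero fun i _ => ?_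
    have h2 := (Finset.sum_eq_zero_iff_of_nonneg
      (fun i _ => mul_nonneg (hc i) (hq0 i))).1 h0 i (Finset.mem_univ i)
    rcases mul_eq_zero.1 h2 with h3 | h3
    · rw [h3, Rat.cast_zero, zero_mul]
    · rw [hq2 i h3, map_zero, mul_zero]

/-- the external product of operators, two descriptions -/
theorem ext_eq (a : W.H X) (b : W.H Y) :
    ext W a b = W.map (fst X Y) a * W.map (snd X Y) b := rfl

/-- **The product of positive forms.** -/
theorem Pos.prod {β : W.H Y →ₗ[W.K] W.H Y →ₗ[W.K] W.K} (h : Pos W Y D fY β) (F : Fr W Y D fY)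
    {B : Z.Cycles} {fZ : Module.End W.K (W.H Z)} {β' : W.H Z →ₗ[W.K] W.H Z →ₗ[W.K] W.K}
    (h' : Pos W Z B fZ β') (G : Fr W Z B fZ) :
    ∃ β'' : W.H (Y.prod Z) →ₗ[W.K] W.H (Y.prod Z) →ₗ[W.K] W.K,
      Pos W (Y.prod Z) (ops.pull (fst Y Z) D + ops.pull (snd Y Z) B) (extSum W fY fZ) β'' ∧
      ∀ a a' b b', β'' (ext W a b) (ext W a' b') = β a a' * β' b b' := by
  obtain ⟨ι, _, c, θ, hc, hθ, hβ⟩ := h
  obtain ⟨ι', _, c', θ', hc', hθ', hβ'⟩ := h'
  refine ⟨∑ i : ι × ι', ((c i.1 * c' i.2 : ℚ) : W.K) •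
      (bf W (Y.prod Z) (ops.pull (fst Y Z) D + ops.pull (snd Y Z) B)
        (extSum W fY fZ)).compl₁₂ (t2 (θ i.1) (θ' i.2)) (t2 (θ i.1) (θ' i.2)),
    ⟨ι × ι', inferInstance, fun i => c i.1 * c' i.2, fun i => t2 (θ i.1) (θ' i.2),
      fun i => mul_nonneg (hc _) (hc' _), fun i => aop_t2 (hθ _) (hθ' _), fun a b => ?_⟩, ?_⟩
  · simp only [LinearMap.sum_apply, LinearMap.smul_apply, smul_eq_mul]
    rfl
  · intro a a' b b'
    simp only [LinearMap.sum_apply, LinearMap.smul_apply, smul_eq_mul, LinearMap.compl₁₂_apply]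
    rw [hβ, hβ', Finset.sum_mul_sum, Fintype.sum_prod_type]
    refine Finset.sum_congr rfl fun i _ => Finset.sum_congr rfl fun j _ => ?_
    rw [ext_eq a b, ext_eq a' b', t2_apply, t2_apply, ← ext_eq, ← ext_eq, F.bf_ext G]
    push_cast
    ring

end Pool.Agent.N174.Lef
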