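import Pool.Agent.N174.Lef.MDefs

/-!
# Algebraic classes and systems of classes: definitions
-/

open CategoryTheory AlgebraicGeometry

universe u v w

namespace Pool.Agent.N174.Lef.Mot

open Pool.Agent.H914 Pool.Agent.H914.VarClass Pool.Agent.H914.VarClass.Obj Pool.Agent.R920.MT

variable {k : Type u} [Field k] {𝒱 : VarClass k} {ops : CycleOps 𝒱}
  {W : WeilCohomology.{u, v} ops} {Γ : Type w} [Group Γ]

/-- The classes with the property `Q` form a system of classes: they are in `H^(2 j)`, contain the
classes of the algebraic cycles and are stable under linear combinations, products, pull-backs and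
push-forwards. (For instance, the linear combinations of absolutely Hodge classes.) -/
structure IsClassSystem (Q : Property W) : Prop where
  gr : ∀ X j c, Q X j c → c ∈ W.gr X (2 * j)
  lin : Linear Q
  cl : HasCycles Q
  mul : MulClosed Q
  map : PullClosed Q
  push : PushClosed Q

/-- The linear combinations of the classes of the algebraic cycles. -/
def IsAlgClass (W : WeilCohomology.{u, v} ops) (X : 𝒱.Obj) (j : ℕ) (c : W.H X) : Prop :=
  c ∈ Submodule.span W.K {c | ∃ z, X.IsCyc j z ∧ W.cl X z = c}

/-- The classes on `V` with the property `Q` are multiplied by `χ ^ j` by subgroups of finite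
index. (For absolutely Hodge classes in `ℓ`-adic cohomology and the Galois group this is always
the case.) -/
def AreTate (χ : Γ →* W.Kˣ) (Q : Property W) (V : AVar W Γ) : Prop :=
  ∀ j c, Q V.X j c → IsTate χ V.act j c

/-- All classes on `V` with the property `Q` are algebraic. -/
def AreAlgebraic (Q : Property W) (V : 𝒱.Obj) : Prop := ∀ j c, Q V j c → IsAlgClass W V j c

end Pool.Agent.N174.Lef.Mot
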