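import Pool.Agent.N174.Lef.MMain
import Pool.Agent.N174.Lef.QDefs

/-!
# The Lefschetz theorem for systems of classes
-/

open CategoryTheory AlgebraicGeometry TensorProduct

universe u v w

namespace Pool.Agent.N174.Lef.Mot

open Pool.Agent.H914 Pool.Agent.H914.VarClass Pool.Agent.H914.VarClass.Obj
  Pool.Agent.H914.WeilCohomology Pool.Agent.R920.MT Pool.Agent.TH125.Gal

open Pool.Agent.Y133.Half (ClassPred)
open Pool.Agent.N174.Lef.Hdg (toG exists_power)

variable {k : Type u} [Field k] {𝒱 : VarClass k} {ops : CycleOps 𝒱}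
  {W : WeilCohomology.{u, v} ops} {Γ : Type w} [Group Γ] {χ : Γ →* W.Kˣ}

/-- the system of classes -/
def sysPred {P : Property W} (hP : IsClassSystem P) : ClassPred W where
  P := P
  gr h := hP.gr _ _ _ h
  zero := (hP.lin _ _).zero
  add ha hb := (hP.lin _ _).add ha hb
  smul r _ ha := (hP.lin _ _).smul r ha
  cl hz := hP.cl _ _ _ hz
  mul ha hb := hP.mul _ _ _ _ _ ha hb
  map f _ _ h := hP.map _ _ f _ _ h
  push f _ _ hl _ h := hP.push _ _ f _ _ _ hl h

theorem isAlg_ind {X : 𝒱.Obj} {j : ℕ} {q : W.H X → Prop} (h : ∀ z, X.IsCyc j z → q (W.cl X z))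
    (h0 : q 0) (hadd : ∀ x y, q x → q y → q (x + y)) (hsmul : ∀ (r : W.K) x, q x → q (r • x))
    {c : W.H X} (hc : IsAlgClass W X j c) : q c := by
  refine Submodule.span_induction (p := fun x _ => q x) ?_ h0 (fun x y _ _ => hadd x y)
    (fun r x _ => hsmul r x) hc
  rintro x ⟨z, hz, rfl⟩
  exact h z hz

/-- the algebraic classes -/
def algPred (W : WeilCohomology.{u, v} ops) : ClassPred W where
  P := IsAlgClass W
  gr {X j c} h := by
    refine isAlg_ind (q := fun c => c ∈ W.gr X (2 * j)) (fun z hz => W.cl_mem hz)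
      (Submodule.zero_mem _) (fun _ _ => Submodule.add_mem _) (fun _ _ => Submodule.smul_mem _ _) h
  zero := Submodule.zero_mem _
  add ha hb := Submodule.add_mem _ ha hb
  smul r _ ha := Submodule.smul_mem _ r ha
  cl hz := Submodule.subset_span ⟨_, hz, rfl⟩
  mul {X i j a b} ha hb := by
    refine isAlg_ind (q := fun a => IsAlgClass W X (i + j) (a * b)) (fun z hz => ?_) ?_ ?_ ?_ ha
    · refine isAlg_ind (q := fun b => IsAlgClass W X (i + j) (W.cl X z * b)) (fun w hw => ?_)
        ?_ ?_ ?_ hb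
      · exact Submodule.subset_span ⟨_, ops.mul_mem hz hw, W.cl_mul z w⟩
      · rw [mul_zero]; exact Submodule.zero_mem _
      · intro x y hx hy; rw [mul_add]; exact Submodule.add_mem _ hx hy
      · intro r x hx; rw [mul_smul_comm]; exact Submodule.smul_mem _ r hx
    · rw [zero_mul]; exact Submodule.zero_mem _
    · intro x y hx hy; rw [add_mul]; exact Submodule.add_mem _ hx hy
    · intro r x hx; rw [smul_mul_assoc]; exact Submodule.smul_mem _ r hx
  map {X Y} f {j a} ha := by
    refine isAlg_ind (q := fun a => IsAlgClass W X j (W.map f a)) (fun z hz => ?_) ?_ ?_ ?_ ha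
    · exact Submodule.subset_span ⟨_, ops.pull_mem f hz, W.cl_pull f z⟩
    · rw [map_zero]; exact Submodule.zero_mem _
    · intro x y hx hy; rw [map_add]; exact Submodule.add_mem _ hx hy
    · intro r x hx; rw [map_smul]; exact Submodule.smul_mem _ r hx
  push {X Y} f {j l} hl {a} ha := by
    refine isAlg_ind (q := fun a => IsAlgClass W Y l (W.push f a)) (fun z hz => ?_) ?_ ?_ ?_ ha
    · exact Submodule.subset_span ⟨_, ops.push_mem f hz (by omega), W.cl_push f z⟩
    · rw [map_zero]; exact Submodule.zero_mem _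
    · intro x y hx hy; rw [map_add]; exact Submodule.add_mem _ hx hy
    · intro r x hx; rw [map_smul]; exact Submodule.smul_mem _ r hx

theorem isAlg_le {Q : Property W} (hQ : IsClassSystem Q) {X : 𝒱.Obj} {j : ℕ} {c : W.H X}
    (hc : IsAlgClass W X j c) : Q X j c :=
  isAlg_ind (q := Q X j) (fun _ hz => hQ.cl _ _ _ hz) (hQ.lin _ _).zero
    (fun _ _ => (hQ.lin _ _).add) (fun r _ => (hQ.lin _ _).smul r) hc

/-- **The Lefschetz theorem for systems of classes.** -/
theorem pred_system {Q P : ClassPred W} (hPQ : ∀ (V : 𝒱.Obj) (j : ℕ) (c : W.H V),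
      P.P V j c → Q.P V j c) {X Y Z V V' : AVar W Γ} {n : ℕ}
    {f : X.X ⟶ Y.X} (h : IsLefschetz χ P.P X Y f) (hn : HasNode χ X Y Z f)
    (hE : LargeIfEven W f n) (hV : IsPowProd X Z n V) (hfix : AreTate χ Q.P V)
    (hV' : IsPowProd Y Z n V') (hY : ∀ j c, Q.P V'.X j c → P.P V'.X j c) :
    ∀ j c, Q.P V.X j c → P.P V.X j c := by
  cases n with
  | zero =>
    cases hV
    cases hV'
    exact hY
  | succ n =>
    obtain ⟨φ, υ, h1, h2⟩ := exists_power (toH X) (toH Z) n (toH V) hV.toH
    obtain ⟨φ', υ', h1', h2'⟩ := exists_power (toH Y) (toH Z) n (toH V') hV'.toH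
    have hinv : ∀ {A B : 𝒱.Obj} (θ : A ≅ B) (c : W.H A),
        W.map θ.hom (W.map θ.inv c) = c := by
      intro A B θ c
      rw [← W.map_comp, θ.hom_inv_id, W.map_id]
    have hinv' : ∀ {A B : 𝒱.Obj} (θ : A ≅ B) (c : W.H B),
        W.map θ.inv (W.map θ.hom c) = c := by
      intro A B θ c
      rw [← W.map_comp, θ.inv_hom_id, W.map_id]
    intro j c hc
    have hst := Gen.pred_step hPQ (n := n) h.toGen hn.toGen (fun he => (hE he).1)
      (fun he => (hE he).2) h2
      (fun j c hc => by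
        obtain ⟨Δ, hΔ, hg⟩ := hfix j (W.map φ.hom c) (Q.map φ.hom hc)
        refine ⟨Δ, hΔ, fun g hgΔ => ?_⟩
        have h5 := congrArg (W.map φ.inv) ((h1 g c).symm.trans (hg g hgΔ))
        rw [hinv'] at h5
        refine h5.trans ((map_smul (W.map φ.inv) _ _).trans ?_)
        exact congrArg _ (hinv' φ c))
      (fun j c hc => by
        have h4 := P.map φ'.inv (hY j _ (Q.map φ'.hom hc))
        rw [hinv'] at h4
        exact h4) j (W.map φ.inv c) (Q.map φ.inv hc)
    have h6 := P.map φ.hom hst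
    rw [hinv] at h6
    exact h6

/-- **The Lefschetz theorem for the algebraicity of the classes of a system.** -/
theorem algebraic_step {Q : Property W} (hQ : IsClassSystem Q) {X Y Z V V' : AVar W Γ} {n : ℕ}
    {f : X.X ⟶ Y.X} (h : IsLefschetz χ (IsAlgClass W) X Y f) (hn : HasNode χ X Y Z f)
    (hE : LargeIfEven W f n) (hV : IsPowProd X Z n V) (hfix : AreTate χ Q V)
    (hV' : IsPowProd Y Z n V') (hY : AreAlgebraic Q V'.X) : AreAlgebraic Q V.X :=
  pred_system (Q := sysPred hQ) (P := algPred W) (fun _ _ _ h => isAlg_le hQ h) h hn hE hV hfix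
    hV' hY

end Pool.Agent.N174.Lef.Mot
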