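import Mathlib

/-!
# Monomial bases for alternating and symmetric forms
-/

open Finset Function

set_option linter.unusedSectionVars false

namespace Pool.Agent.N174.Lef

universe u v

variable {K : Type u} [Field K] {V : Type v} [AddCommGroup V] [Module K V]

/-- A spanning family `b` with a monomial Gram matrix. -/
structure MonoFam (B : V →ₗ[K] V →ₗ[K] K) {ι : Type} [DecidableEq ι] (b : ι → V)
    (σ : ι → ι) (c : ι → K) (s : ι → ℤ) : Prop where
  inv : ∀ i, σ (σ i) = i
  c_ne : ∀ i, c i ≠ 0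
  s_sq : ∀ i, s i * s i = 1
  gram : ∀ i j, B (b i) (b j) = if j = σ i then c i * s i else 0
  span : ∀ x, x ∈ Submodule.span K (Set.range b)

theorem alt_skew {B : V →ₗ[K] V →ₗ[K] K} (hB : ∀ x, B x x = 0) (x y : V) : B x y = -B y x := by
  have h := hB (x + y)
  simp only [map_add, LinearMap.add_apply, hB x, hB y, zero_add, add_zero] at h
  rw [eq_neg_iff_add_eq_zero]
  linear_combination h

theorem symp_aux [Module.Finite K V] {B : V →ₗ[K] V →ₗ[K] K} (hB : ∀ x, B x x = 0) :
    ∀ (n : ℕ) (U : Submodule K V), Module.finrank K U = n →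
      (∀ x ∈ U, (∀ y ∈ U, B x y = 0) → x = 0) →
      ∃ (ι : Type) (_ : Fintype ι) (_ : DecidableEq ι) (b : ι → V) (σ : ι → ι) (s : ι → ℤ),
        (∀ i, b i ∈ U) ∧ (∀ i, σ (σ i) = i) ∧ (∀ i, s i * s i = 1) ∧
        (∀ i j, B (b i) (b j) = if j = σ i then (s i : K) else 0) ∧
        U ≤ Submodule.span K (Set.range b) := by
  intro n
  induction n using Nat.strong_induction_on with
  | _ n ih =>
  intro U hU hn
  by_cases h0 : U = ⊥
  · refine ⟨Empty, inferInstance, inferInstance, fun i => i.elim, fun i => i, fun i => i.elim,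
      fun i => i.elim, fun i => i.elim, fun i => i.elim, fun i => i.elim, ?_⟩
    rw [h0]
    exact bot_le
  obtain ⟨x, hxU, hx0⟩ := Submodule.exists_mem_ne_zero_of_ne_bot h0
  obtain ⟨y₀, hy₀U, hy₀⟩ : ∃ y ∈ U, B x y ≠ 0 := by
    by_contra hcon
    push Not at hcon
    exact hx0 (hn x hxU hcon)
  obtain ⟨y, hyU, hxy⟩ : ∃ y ∈ U, B x y = 1 :=
    ⟨(B x y₀)⁻¹ • y₀, U.smul_mem _ hy₀U, by rw [map_smul, smul_eq_mul, inv_mul_cancel₀ hy₀]⟩
  have hyx : B y x = -1 := by rw [alt_skew hB, hxy]
  let U' : Submodule K V := U ⊓ (LinearMap.ker (B x) ⊓ LinearMap.ker (B y))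
  have hU'm : ∀ v, v ∈ U' ↔ v ∈ U ∧ B x v = 0 ∧ B y v = 0 := fun v => by
    simp [U', Submodule.mem_inf, LinearMap.mem_ker]
  have hlt : U' < U := by
    refine lt_of_le_of_ne inf_le_left fun h => ?_
    have h1 : x ∈ U' := by rw [h]; exact hxU
    have h2 := ((hU'm x).1 h1).2.2
    rw [hyx] at h2
    exact neg_ne_zero.2 one_ne_zero h2
  have hfr : Module.finrank K U' < n := by
    rw [← hU]
    exact Submodule.finrank_lt_finrank_of_lt hlt
  have hproj : ∀ v ∈ U, v - B x v • y + B y v • x ∈ U' := by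
    intro v hv
    refine (hU'm _).2 ⟨U.add_mem (U.sub_mem hv (U.smul_mem _ hyU)) (U.smul_mem _ hxU), ?_, ?_⟩
    · rw [map_add, map_sub, map_smul, map_smul, hxy, hB x, smul_zero, add_zero, smul_eq_mul,
        mul_one, sub_self]
    · rw [map_add, map_sub, map_smul, map_smul, hB y, hyx, smul_zero, sub_zero, smul_eq_mul]
      ring
  obtain ⟨ι, hι, hd, b, σ, s, h1, h2, h3, h4, h5⟩ := ih _ hfr U' rfl (by
    intro w hw hww
    have hw' := (hU'm w).1 hw
    refine hn w hw'.1 fun v hv => ?_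
    have e1 := hww _ (hproj v hv)
    rw [map_add, map_sub, map_smul, map_smul, alt_skew hB w y, alt_skew hB w x, hw'.2.1,
      hw'.2.2, neg_zero, smul_zero, smul_zero, sub_zero, add_zero] at e1
    exact e1)
  refine ⟨ι ⊕ Bool, inferInstance, inferInstance, Sum.elim b fun t => if t then x else y,
    Sum.map σ not, Sum.elim s fun t => if t then 1 else -1, ?_, ?_, ?_, ?_, ?_⟩
  · rintro (i | t)
    · exact ((hU'm _).1 (h1 i)).1
    · cases t
      · exact hyU
      · exact hxU
  · rintro (i | t)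
    · simp [h2]
    · simp
  · rintro (i | t)
    · simp [h3]
    · cases t <;> simp
  · rintro (i | t) (j | t')
    · simp [h4]
    · have e := (hU'm _).1 (h1 i)
      cases t'
      · simp [alt_skew hB (b i) y, e.2.2]
      · simp [alt_skew hB (b i) x, e.2.1]
    · have e := (hU'm _).1 (h1 j)
      cases t
      · simp [e.2.2]
      · simp [e.2.1]
    · cases t <;> cases t'
      · simp [hB]
      · simp [hyx]
      · simp [hxy]
      · simp [hB]
  · intro v hv
    have e1 : v = (v - B x v • y + B y v • x) + B x v • y - B y v • x := by abel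
    rw [e1]
    refine Submodule.sub_mem _ (Submodule.add_mem _ ?_ ?_) ?_
    · refine Submodule.span_mono ?_ (h5 (hproj v hv))
      rintro _ ⟨i, rfl⟩
      exact ⟨Sum.inl i, rfl⟩
    · exact Submodule.smul_mem _ _ (Submodule.subset_span ⟨Sum.inr false, rfl⟩)
    · exact Submodule.smul_mem _ _ (Submodule.subset_span ⟨Sum.inr true, rfl⟩)

theorem exists_symp [Module.Finite K V] {B : V →ₗ[K] V →ₗ[K] K} (hB : ∀ x, B x x = 0)
    (hn : ∀ x, (∀ y, B x y = 0) → x = 0) :
    ∃ (ι : Type) (_ : Fintype ι) (_ : DecidableEq ι) (b : ι → V) (σ : ι → ι) (s : ι → ℤ),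
      MonoFam B b σ (fun _ => 1) s := by
  obtain ⟨ι, hι, hd, b, σ, s, -, h2, h3, h4, h5⟩ := symp_aux hB _ ⊤ rfl
    (fun x _ h => hn x fun y => h y trivial)
  exact ⟨ι, hι, hd, b, σ, s, h2, fun _ => one_ne_zero, h3, fun i j => by rw [h4, one_mul],
    fun x => h5 trivial⟩

theorem exists_ortho [CharZero K] [Module.Finite K V] {B : V →ₗ[K] V →ₗ[K] K}
    (hB : ∀ x y, B x y = B y x) (hn : ∀ x, (∀ y, B x y = 0) → x = 0) :
    ∃ (ι : Type) (_ : Fintype ι) (_ : DecidableEq ι) (b : ι → V) (c : ι → K),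
      MonoFam B b id c fun _ => 1 := by
  have : Invertible (2 : K) := invertibleOfNonzero two_ne_zero
  obtain ⟨b, hb⟩ := LinearMap.BilinForm.exists_orthogonal_basis (B := B) ⟨fun x y => by
    simpa using hB x y⟩
  have h1 : ∀ i j, i ≠ j → B (b i) (b j) = 0 := fun i j hij => hb hij
  refine ⟨Fin (Module.finrank K V), inferInstance, inferInstance, b, fun i => B (b i) (b i),
    fun i => rfl, fun i h => ?_, fun _ => by norm_num, fun i j => ?_, fun x => ?_⟩
  · have h2 : b i = 0 := by
      refine hn _ fun y => ?_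
      rw [← b.sum_repr y, map_sum]
      refine Finset.sum_eq_zero fun j _ => ?_
      rw [map_smul]
      by_cases hij : i = j
      · subst hij
        rw [h, smul_zero]
      · rw [h1 i j hij, smul_zero]
    exact b.ne_zero i h2
  · by_cases hij : j = i
    · subst hij
      simp
    · rw [id_eq, if_neg hij, h1 i j (Ne.symm hij)]
  · rw [b.span_eq]
    trivial

end Pool.Agent.N174.Lef
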