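import Pool.Agent.N174.Lef.CtrAct
import Pool.Agent.N174.Lef.CtrF
import Pool.Agent.Y133.Half.PredSys

/-!
# Systems of classes and the contractions
-/

open CategoryTheory AlgebraicGeometry Finset Function TensorProduct

set_option linter.unusedSectionVars false

universe u v w x

namespace Pool.Agent.N174.Lef

open Pool.Agent.H914 Pool.Agent.H914.VarClass Pool.Agent.H914.VarClass.Obj
  Pool.Agent.H914.WeilCohomology Pool.Agent.H281R3.HT Pool.Agent.W552 Pool.Agent.TH125.Gal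

open Pool.Agent.Y133.Half (Sys PH PH.ind ClassPred)

variable {k : Type u} [Field k] {𝒱 : VarClass k} {ops : CycleOps 𝒱}
  {W : WeilCohomology.{u, v} ops} {X X' Y Y' Z : 𝒱.Obj} {S : Sys W}

/-- External products of operators. -/
theorem op_t2 {A : W.H X →ₗ[W.K] W.H Y} {B : W.H X' →ₗ[W.K] W.H Y'} (hA : A ∈ S.Op X Y)
    (hB : B ∈ S.Op X' Y') : t2 A B ∈ S.Op (X.prod X') (Y.prod Y') := by
  obtain ⟨c, hc, rfl⟩ := Sys.mem_Op.1 hA
  obtain ⟨d, hd, rfl⟩ := Sys.mem_Op.1 hB
  refine Sys.mem_Op.2 ⟨W.map (r1 X X' Y Y') c * W.map (r2 X X' Y Y') d,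
    S.mul (S.map _ hc) (S.map _ hd), ?_⟩
  refine ext2 fun a b => ?_
  rw [t2_apply]
  refine PH.ind (p := fun d => W.corr (W.map (r1 X X' Y Y') c * W.map (r2 X X' Y Y') d)
    (W.map (fst X X') a * W.map (snd X X') b) =
      W.map (fst Y Y') (W.corr c a) * W.map (snd Y Y') (W.corr d b)) ?_ ?_ ?_ (S.even hd)
  · intro i hi d hd
    obtain ⟨j, rfl⟩ : ∃ j, i = 2 * j := ⟨i / 2, by omega⟩
    exact corr_r c hd a b
  · rw [map_zero, mul_zero, corr_zero, corr_zero]
    simp
  · intro d d' hd hd'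
    rw [map_add, mul_add, corr_add, LinearMap.add_apply, hd, hd', corr_add,
      LinearMap.add_apply, map_add, mul_add]

/-- cup product with a class of the system -/
theorem op_mulLeft {x : W.H X} (hx : x ∈ S.C X) : LinearMap.mulLeft W.K x ∈ S.Op X X :=
  Sys.mem_Op.2 ⟨_, S.push (diag X) hx, by
    apply LinearMap.ext
    intro a
    rw [corr_diag]
    rfl⟩

theorem op_trOne : trOne X Y ∈ S.Op X Y :=
  Sys.mem_Op.2 ⟨1, S.one _, by
    apply LinearMap.ext
    intro a
    rw [corr_apply, one_mul, push_snd', trOne_apply]⟩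

/-- tensor powers of operators -/
theorem op_tens : ∀ (n : ℕ) (A : Fin (n + 1) → W.H X →ₗ[W.K] W.H Y), (∀ p, A p ∈ S.Op X Y) →
    tens (ops := ops) A ∈ S.Op (power ops X n) (power ops Y n) := by
  intro n
  induction n with
  | zero =>
    intro A hA
    have h1 : tens (ops := ops) A = A 0 := by
      refine mono_ext fun a => ?_
      rw [tens_mono, mono_zero]
      exact congrArg (A 0) (mono_zero X a).symm
    rw [h1]
    exact hA 0
  | succ n ih =>
    intro A hA
    rw [tens_succ]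
    exact op_t2 (hA 0) (ih _ fun p => hA p.succ)

/-- the pull-back as a correspondence -/
theorem op_map (f : X ⟶ Y) : (W.map f).toLinearMap ∈ S.Op Y X := by
  refine Sys.mem_Op.2 ⟨_, S.push (Obj.lift f (𝟙 X)) (S.one X), ?_⟩
  apply LinearMap.ext
  intro a
  rw [corr_apply, ← W.push_mul, ← W.map_comp, Obj.lift_fst, one_mul, ← W.push_comp,
    Obj.lift_snd, W.push_id]
  rfl

theorem op_s {s : W.H X →ₗ[W.K] W.H Y} (h : ∀ i, sd s i ∈ S.Op X Y) : s ∈ S.Op X Y := by
  rw [s_eq_sum s]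
  exact Submodule.sum_mem _ fun i _ => h i

variable {f : X ⟶ Y} {n D : ℕ} {s : W.H X →ₗ[W.K] W.H Y} {Γ : Type w} [Group Γ]
  {χ : Γ →* W.Kˣ} {ρ : Γ →* (W.H X ≃ₐ[W.K] W.H X)} {ρY : Γ →* (W.H Y ≃ₐ[W.K] W.H Y)}
  {τ : Γ →* (W.H Z ≃ₐ[W.K] W.H Z)}

/-- The vanishing part of the diagonal is in the system, if the retraction is. -/
theorem dQ_sys (h : Data χ f ρ ρY s) (v : VB W f) (hs : ∀ i, sd s i ∈ S.Op X Y) :
    dQ v ∈ S.C (X.prod X) := by
  have hd : W.push (diag X) 1 ∈ S.C (X.prod X) := S.push _ (S.one X)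
  have h1 : piC f s ∈ S.Op X X := Sys.Op.comp (op_map f) (op_s hs)
  have h2 : t2 (piE f s) (piE f s) (W.push (diag X) 1) =
      W.push (diag X) 1 - t2 (piC f s) (piC f s) (W.push (diag X) 1) := by
    rw [eq_sub_iff_add_eq, add_comm]
    exact (diag_split h).symm
  rw [dQ_eq h v, h2]
  exact Submodule.smul_mem _ _ (Submodule.sub_mem _ hd
    (Sys.Op.apply (T := S) (fun _ => le_rfl) (op_t2 h1 h1) hd))

theorem mtch_sys (v : VB W f) (hQ : dQ v ∈ S.C (X.prod X)) {m : ℕ}
    {q : Fin (n + 1) → Option (Fin D)} (e : Fin m × Fin 2 ≃ Free q) :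
    mtch (ops := ops) v e ∈ S.C (power ops X n) := by
  rw [mtch, List.ofFn_eq_map]
  generalize List.finRange m = L
  induction L with
  | nil => exact S.one _
  | cons l L ih =>
    rw [List.map_cons, List.prod_cons]
    exact S.mul (S.map _ hQ) ih

theorem op_ctr (v : VB W f) (hs : IsTransfer W f s)
    (hmid : vanishing W f ≤ W.gr X X.dim) (hsd : ∀ i, sd s i ∈ S.Op X Y)
    (hQ : dQ v ∈ S.C (X.prod X)) (q : Fin (n + 1) → Option (Fin D)) {m : ℕ}
    (e : Fin m × Fin 2 ≃ Free q) :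
    ctrOp (ops := ops) v s q e ∈ S.Op (power ops X n) (power ops Y n) := by
  obtain ⟨ε, hε⟩ := ctr_formula (ops := ops) v hs hmid q e
  rw [hε]
  refine Submodule.smul_mem _ _ (Sys.Op.comp (op_tens n _ fun p => ?_)
    (op_mulLeft (mtch_sys v hQ e)))
  rw [opT]
  cases q p with
  | none => exact op_trOne
  | some i => exact hsd i

/-- the product of the matching class and of a pull-back -/
noncomputable def mextZ (v : VB W f) (Z : 𝒱.Obj) {m : ℕ} {q : Fin (n + 1) → Option (Fin D)}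
    (e : Fin m × Fin 2 ≃ Free q) :
    W.H ((power ops Y n).prod Z) →ₗ[W.K] W.H ((power ops X n).prod Z) :=
  t2 (X' := Z) (Y' := Z) (mext (ops := ops) v e) LinearMap.id

theorem op_mextZ (v : VB W f) (hQ : dQ v ∈ S.C (X.prod X)) (Z : 𝒱.Obj) {m : ℕ}
    {q : Fin (n + 1) → Option (Fin D)} (e : Fin m × Fin 2 ≃ Free q) :
    mextZ (ops := ops) v Z e ∈ S.Op ((power ops Y n).prod Z) ((power ops X n).prod Z) :=
  op_t2 (Sys.Op.comp (op_mulLeft (mtch_sys v hQ e)) (op_map _)) Sys.Op.id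

/-- **The structure of the semi-invariant classes on the products.** -/
theorem core_prod (h : Data χ f ρ ρY s) (v : VB W f) {g₀ : Γ} (hχ : χ g₀ = 1)
    (hY : ρY g₀ = 1) (hτ : τ g₀ = 1) (hPL : PLAct (W.tr X) (vanishing W f) ρ g₀)
    (hK : Even X.dim → FewRoots W.K ∧ n + 1 < Module.finrank W.K (vanishing W f)) {j : ℕ}
    {c : W.H ((power ops X n).prod Z)} {Δ : Subgroup Γ} (hΔ : Δ.FiniteIndex)
    (hc : ∀ g ∈ Δ, t2 (pact ρ n g) (lact τ g) c = (χ g : W.K) ^ j • c)
    (C : Submodule W.K (W.H ((power ops X n).prod Z)))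
    (hC : ∀ (q : Fin (n + 1) → Option (Fin (2 * X.dim + 1))) (m : ℕ)
      (e e' : Fin m × Fin 2 ≃ Free q),
      mextZ (ops := ops) v Z e (t2 (X' := Z) (Y' := Z) (ctrOp (ops := ops) v s q e')
        LinearMap.id c) ∈ C) : c ∈ C := by
  set c' := (kEquiv W (power ops X n) Z).symm c with hc'
  have hcc : kEquiv W (power ops X n) Z c' = c := LinearEquiv.apply_symm_apply _ _
  have hc1 : ∀ g ∈ Δ, TensorProduct.map (pact ρ n g) (lact τ g) c' =
      (((χ ^ j) g : W.Kˣ) : W.K) • c' := by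
    intro g hg
    apply (kEquiv W (power ops X n) Z).injective
    have h1 : t2 (pact ρ n g) (lact τ g) c = kEquiv W (power ops X n) Z
      (TensorProduct.map (pact ρ n g) (lact τ g) c') := rfl
    rw [← h1, hc g hg, map_smul, hcc]
    simp
  have hcore := fun q => core_z (D := 2 * X.dim + 1) h v (τ := lact τ) (μ := χ ^ j) hχ
    (by rw [MonoidHom.pow_apply, hχ, one_pow]) hY
    (by rw [lact_apply, hτ]; rfl) hPL hK hΔ hc1 q
  have hsum : c' = ∑ q : Fin (n + 1) → Option (Fin (2 * X.dim + 1)),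
      (tens (piq f s q)).rTensor (W.H Z) c' := by
    have h1 := congrArg (fun A => LinearMap.rTensorHom (W.H Z) A c')
      (sum_piq (ops := ops) (n := n) (f := f) s)
    beta_reduce at h1
    rw [map_sum, LinearMap.sum_apply] at h1
    simp only [LinearMap.coe_rTensorHom, LinearMap.rTensor_id, LinearMap.id_apply] at h1
    exact h1.symm
  rw [← hcc, hsum, map_sum]
  refine Submodule.sum_mem _ fun q _ => ?_
  obtain ⟨L, m, e, F, hF⟩ := hcore q
  rw [hF, map_sum]
  refine Submodule.sum_mem _ fun l _ => ?_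
  rw [map_sum, map_sum]
  refine Submodule.sum_mem _ fun l₁ _ => ?_
  rw [map_smul, map_smul]
  refine Submodule.smul_mem _ _ ?_
  have hm : m l = m l₁ := by
    have h4 := card_free (e l)
    have h5 := card_free (e l₁)
    omega
  have key : ∀ (m₁ : ℕ) (e₁ : Fin m₁ × Fin 2 ≃ Free q) (e₂ : Fin (m l) × Fin 2 ≃ Free q),
      m l = m₁ → kEquiv W (power ops X n) Z ((mext (ops := ops) v e₂).rTensor (W.H Z)
        ((ctrOp (ops := ops) v s q e₁).rTensor (W.H Z) c')) ∈ C := by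
    rintro m₁ e₁ e₂ rfl
    have h2 := hC q _ e₂ e₁
    have h3 : t2 (X' := Z) (Y' := Z) (ctrOp (ops := ops) v s q e₁) LinearMap.id c =
        kEquiv W (power ops Y n) Z ((ctrOp (ops := ops) v s q e₁).rTensor (W.H Z) c') := rfl
    rw [h3] at h2
    have h4 : ∀ y, mextZ (ops := ops) v Z e₂ (kEquiv W (power ops Y n) Z y) =
        kEquiv W (power ops X n) Z ((mext (ops := ops) v e₂).rTensor (W.H Z) y) := by
      intro y
      change kEquiv W (power ops X n) Z (TensorProduct.map _ _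
        ((kEquiv W (power ops Y n) Z).symm (kEquiv W (power ops Y n) Z y))) = _
      rw [LinearEquiv.symm_apply_apply]
      rfl
    rwa [h4] at h2
  exact key _ _ _ hm

/-- **The Lefschetz theorem for two systems of classes.** -/
theorem sys_step {T : Sys W} (hST : ∀ X, S.C X ≤ T.C X) (h : Data χ f ρ ρY s)
    (hsd : ∀ i, sd s i ∈ S.Op X Y) {g₀ : Γ} (hχ : χ g₀ = 1) (hY : ρY g₀ = 1) (hτ : τ g₀ = 1)
    (hPL : PLAct (W.tr X) (vanishing W f) ρ g₀)
    (hK : Even X.dim → FewRoots W.K ∧ n + 1 < Module.finrank W.K (vanishing W f)) {j : ℕ}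
    {c : W.H ((power ops X n).prod Z)} {Δ : Subgroup Γ} (hΔ : Δ.FiniteIndex)
    (hc : ∀ g ∈ Δ, t2 (pact ρ n g) (lact τ g) c = (χ g : W.K) ^ j • c)
    (hcT : c ∈ T.C ((power ops X n).prod Z))
    (hT : T.C ((power ops Y n).prod Z) ≤ S.C ((power ops Y n).prod Z)) :
    c ∈ S.C ((power ops X n).prod Z) := by
  obtain ⟨v⟩ := exists_VB h.transfer
  have hQ := dQ_sys h v hsd
  refine core_prod h v hχ hY hτ hPL hK hΔ hc _ fun q m e e' => ?_
  refine Sys.Op.apply (T := S) (fun _ => le_rfl) (op_mextZ v hQ Z e) (hT ?_)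
  exact Sys.Op.apply hST (op_t2 (op_ctr v h.transfer h.middle hsd hQ q e') Sys.Op.id) hcT

theorem pred_of_sp {P : ClassPred W} {j : ℕ} {c : W.H Z} (hc : c ∈ P.sp Z)
    (hj : c ∈ W.gr Z (2 * j)) : P.P Z j c := by
  have h := ClassPred.sp_proj hc j
  rwa [proj_same _ hj] at h

/-- equivariance of the contractions -/
theorem ctr_act_prod (h : Data χ f ρ ρY s) (v : VB W f) {g : Γ}
    (hg : ∀ a, s (ρ g a) = ρY g (s a)) {q : Fin (n + 1) → Option (Fin D)} {m : ℕ}
    (e : Fin m × Fin 2 ≃ Free q) (c : W.H ((power ops X n).prod Z)) :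
    t2 (X' := Z) (Y' := Z) (ctrOp (ops := ops) v s q e) LinearMap.id
        (t2 (pact ρ n g) (lact τ g) c) =
      ((χ g : W.K) ^ (X.dim * m)) • t2 (pact ρY n g) (lact τ g)
        (t2 (X' := Z) (Y' := Z) (ctrOp (ops := ops) v s q e) LinearMap.id c) := by
  have h1 := ctr_act h v hg e (lact τ g) ((kEquiv W (power ops X n) Z).symm c)
  have h2 := congrArg (kEquiv W (power ops Y n) Z) h1
  rw [map_smul] at h2
  have h3 : ∀ z, kEquiv W (power ops Y n) Z ((ctrOp (ops := ops) v s q e).rTensor (W.H Z) z) =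
      t2 (X' := Z) (Y' := Z) (ctrOp (ops := ops) v s q e) LinearMap.id
        (kEquiv W (power ops X n) Z z) := by
    intro z
    change _ = kEquiv W (power ops Y n) Z (TensorProduct.map _ _
      ((kEquiv W (power ops X n) Z).symm (kEquiv W (power ops X n) Z z)))
    rw [LinearEquiv.symm_apply_apply]
    rfl
  have h4 : ∀ z, kEquiv W (power ops Y n) Z (TensorProduct.map (pact ρY n g) (lact τ g) z) =
      t2 (pact ρY n g) (lact τ g) (kEquiv W (power ops Y n) Z z) := by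
    intro z
    change _ = kEquiv W (power ops Y n) Z (TensorProduct.map _ _
      ((kEquiv W (power ops Y n) Z).symm (kEquiv W (power ops Y n) Z z)))
    rw [LinearEquiv.symm_apply_apply]
  have h5 : ∀ z, kEquiv W (power ops X n) Z (TensorProduct.map (pact ρ n g) (lact τ g) z) =
      t2 (pact ρ n g) (lact τ g) (kEquiv W (power ops X n) Z z) := by
    intro z
    change _ = kEquiv W (power ops X n) Z (TensorProduct.map _ _
      ((kEquiv W (power ops X n) Z).symm (kEquiv W (power ops X n) Z z)))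
    rw [LinearEquiv.symm_apply_apply]
  rw [h3, h4, h5, h3, LinearEquiv.apply_symm_apply] at h2
  exact h2

/-- **The Lefschetz theorem for Tate classes and a system of classes.** -/
theorem tate_sys_step (P : ClassPred W) (h : Data χ f ρ ρY s)
    (hsd : ∀ i, sd s i ∈ P.sys.Op X Y) {g₀ : Γ} (hχ : χ g₀ = 1) (hY : ρY g₀ = 1)
    (hτ : τ g₀ = 1) (hPL : PLAct (W.tr X) (vanishing W f) ρ g₀)
    (hK : Even X.dim → FewRoots W.K ∧ n + 1 < Module.finrank W.K (vanishing W f))
    (hT : ∀ j, ∀ c ∈ W.gr ((power ops Y n).prod Z) (2 * j), (∃ Δ : Subgroup Γ, Δ.FiniteIndex ∧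
      ∀ g ∈ Δ, t2 (pact ρY n g) (lact τ g) c = (χ g : W.K) ^ j • c) → P.P _ j c) {j : ℕ}
    {c : W.H ((power ops X n).prod Z)} (hcj : c ∈ W.gr _ (2 * j)) (hc : ∃ Δ : Subgroup Γ,
      Δ.FiniteIndex ∧ ∀ g ∈ Δ, t2 (pact ρ n g) (lact τ g) c = (χ g : W.K) ^ j • c) :
    P.P _ j c := by
  obtain ⟨Δ, hΔ, hc⟩ := hc
  obtain ⟨v⟩ := exists_VB h.transfer
  have hQ := dQ_sys (S := P.sys) h v hsd
  refine pred_of_sp ?_ hcj
  refine core_prod h v hχ hY hτ hPL hK hΔ hc (P.sys.C _) fun q m e e' => ?_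
  refine Sys.Op.apply (T := P.sys) (fun _ => le_rfl) (op_mextZ v hQ Z e) ?_
  have hlow : Low (2 * (X.dim * m) + 0) (t2 (X' := Z) (Y' := Z)
      (ctrOp (ops := ops) v s q e') LinearMap.id) :=
    t2_low (low_ctr v h.transfer h.middle e') fun l a => rfl
  rw [add_zero] at hlow
  by_cases hj : 2 * (X.dim * m) ≤ 2 * j
  · have hle : X.dim * m ≤ j := by omega
    have h8 := hlow.mem hcj
    rw [show 2 * j - 2 * (X.dim * m) = 2 * (j - X.dim * m) by omega] at h8
    obtain ⟨Δ', hΔ', hs'⟩ := h.seq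
    refine ClassPred.sp_of (hT (j - X.dim * m) _ h8 ⟨Δ ⊓ Δ', inferInstance, fun g hg => ?_⟩)
    have h10 := ctr_act_prod (ops := ops) (τ := τ) h v (hs' g hg.2) e' c
    rw [hc g hg.1, map_smul] at h10
    have hx : (χ g : W.K) ≠ 0 := Units.ne_zero (χ g)
    have h11 : (χ g : W.K) ^ j = (χ g : W.K) ^ (X.dim * m) * (χ g : W.K) ^ (j - X.dim * m) := by
      rw [← pow_add, Nat.add_sub_cancel' hle]
    rw [h11, mul_smul] at h10
    exact (smul_right_injective _ (pow_ne_zero (X.dim * m) hx) h10).symm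
  · rw [hlow.zero hcj (by omega)]
    exact Submodule.zero_mem _

end Pool.Agent.N174.Lef
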