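import Pool.Agent.TH125.Gal.Pub
import Pool.Agent.TH125.Gal.Tate

/-!
# Tensor products of linear maps on the cohomology of powers
-/

open CategoryTheory AlgebraicGeometry Finset Function

set_option linter.unusedSectionVars false

universe u v w

namespace Pool.Agent.N174.Lef

open Pool.Agent.H914 Pool.Agent.H914.VarClass Pool.Agent.H914.VarClass.Obj
  Pool.Agent.H914.WeilCohomology Pool.Agent.H281R3.HT Pool.Agent.W552 Pool.Agent.TH125.Gal

variable {k : Type u} [Field k] {𝒱 : VarClass k} {ops : CycleOps 𝒱}

section

variable (W : WeilCohomology.{u, v} ops)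

/-- a basis of the cohomology -/
noncomputable def bas (X : 𝒱.Obj) : Module.Basis (Fin (Module.finrank W.K (W.H X))) W.K (W.H X) :=
  Module.finBasis W.K (W.H X)

theorem exists_pb (X : 𝒱.Obj) (n : ℕ) :
    ∃ b : Module.Basis (Fin (n + 1) → Fin (Module.finrank W.K (W.H X))) W.K
      (W.H (power ops X n)), ∀ r, b r = mono (powerPrj ops X n) fun p => bas W X (r p) :=
  exists_monoBasis (W := W) ⟨X, 0⟩ (bas W X) n

/-- the basis of monomials -/
noncomputable def pb (X : 𝒱.Obj) (n : ℕ) :
    Module.Basis (Fin (n + 1) → Fin (Module.finrank W.K (W.H X))) W.K (W.H (power ops X n)) :=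
  Classical.choose (exists_pb W X n)

theorem pb_apply (X : 𝒱.Obj) (n : ℕ) (r : Fin (n + 1) → Fin (Module.finrank W.K (W.H X))) :
    pb W X n r = mono (powerPrj ops X n) fun p => bas W X (r p) :=
  Classical.choose_spec (exists_pb W X n) r

end

variable {W : WeilCohomology.{u, v} ops} {X Y Y' : 𝒱.Obj} {n : ℕ}

/-- Linear maps on the cohomology of a power are determined by the monomials. -/
theorem mono_ext {M : Type*} [AddCommGroup M] [Module W.K M]
    {L L' : W.H (power ops X n) →ₗ[W.K] M}
    (h : ∀ a, L (mono (powerPrj ops X n) a) = L' (mono (powerPrj ops X n) a)) : L = L' :=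
  (pb W X n).ext fun r => by rw [pb_apply]; exact h _

/-- the tensor product of linear maps -/
noncomputable def tens (A : Fin (n + 1) → W.H X →ₗ[W.K] W.H Y) :
    W.H (power ops X n) →ₗ[W.K] W.H (power ops Y n) :=
  (pb W X n).constr W.K fun r => mono (powerPrj ops Y n) fun p => A p (bas W X (r p))

theorem tens_mono (A : Fin (n + 1) → W.H X →ₗ[W.K] W.H Y) (a : Fin (n + 1) → W.H X) :
    tens A (mono (powerPrj ops X n) a) = mono (powerPrj ops Y n) fun p => A p (a p) := by
  have h1 : (tens A).compMultilinearMap (monoML (powerPrj ops X n)) =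
      (monoML (powerPrj ops Y n)).compLinearMap A := by
    refine Module.Basis.ext_multilinear (fun _ => bas W X) fun r => ?_
    change tens A (mono (powerPrj ops X n) fun p => bas W X (r p)) =
      mono (powerPrj ops Y n) fun p => A p (bas W X (r p))
    rw [← pb_apply, tens, Module.Basis.constr_basis]
  exact DFunLike.congr_fun h1 a

theorem tens_comp (A : Fin (n + 1) → W.H Y →ₗ[W.K] W.H Y') (B : Fin (n + 1) → W.H X →ₗ[W.K] W.H Y)
    : tens A ∘ₗ tens B = tens fun p => A p ∘ₗ B p := by
  refine mono_ext fun a => ?_
  rw [LinearMap.comp_apply, tens_mono, tens_mono, tens_mono]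
  rfl

theorem tens_tens (A : Fin (n + 1) → W.H Y →ₗ[W.K] W.H Y') (B : Fin (n + 1) → W.H X →ₗ[W.K] W.H Y)
    (c : W.H (power ops X n)) : tens A (tens B c) = tens (fun p => A p ∘ₗ B p) c :=
  LinearMap.congr_fun (tens_comp A B) c

theorem tens_id : tens (fun _ : Fin (n + 1) => (LinearMap.id : W.H X →ₗ[W.K] W.H X)) =
    LinearMap.id := by
  refine mono_ext fun a => ?_
  rw [tens_mono]
  rfl

theorem update_app (A : Fin (n + 1) → W.H X →ₗ[W.K] W.H Y) (i : Fin (n + 1))
    (x : W.H X →ₗ[W.K] W.H Y) (a : Fin (n + 1) → W.H X) :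
    (fun p => (update A i x) p (a p)) = update (fun p => A p (a p)) i (x (a i)) := by
  funext p
  by_cases h : p = i
  · subst h
    rw [update_self, update_self]
  · rw [update_of_ne h, update_of_ne h]

/-- tensor products as a multilinear map -/
noncomputable def tensML : MultilinearMap W.K (fun _ : Fin (n + 1) => W.H X →ₗ[W.K] W.H Y)
    (W.H (power ops X n) →ₗ[W.K] W.H (power ops Y n)) := by
  classical
  exact
  { toFun := tens
    map_update_add' := by
      intro inst A i x y
      have hinst : inst = instDecidableEqFin (n + 1) := Subsingleton.elim _ _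
      subst hinst
      refine mono_ext fun a => ?_
      rw [LinearMap.add_apply, tens_mono, tens_mono, tens_mono, update_app, update_app, update_app]
      exact (monoML (powerPrj ops Y n)).map_update_add _ _ _ _
    map_update_smul' := by
      intro inst A i q x
      have hinst : inst = instDecidableEqFin (n + 1) := Subsingleton.elim _ _
      subst hinst
      refine mono_ext fun a => ?_
      rw [LinearMap.smul_apply, tens_mono, tens_mono, update_app, update_app]
      exact (monoML (powerPrj ops Y n)).map_update_smul _ _ _ _ }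

theorem tensML_apply (A : Fin (n + 1) → W.H X →ₗ[W.K] W.H Y) :
    (tensML (ops := ops) A : W.H (power ops X n) →ₗ[W.K] W.H (power ops Y n)) = tens A := rfl

/-- the morphism of powers induced by a morphism -/
noncomputable def powerMap (ops : CycleOps 𝒱) (f : X ⟶ Y) :
    (n : ℕ) → (power ops X n ⟶ power ops Y n)
  | 0 => f
  | n + 1 => Obj.lift (Y := power ops Y n) (fst X (power ops X n) ≫ f)
      (snd X (power ops X n) ≫ powerMap ops f n)

theorem powerMap_prj (f : X ⟶ Y) : ∀ (n : ℕ) (p : Fin (n + 1)),
    powerMap ops f n ≫ powerPrj ops Y n p = powerPrj ops X n p ≫ f := by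
  intro n
  induction n with
  | zero =>
    intro p
    obtain rfl : p = 0 := Fin.fin_one_eq_zero p
    change f ≫ 𝟙 Y = 𝟙 X ≫ f
    rw [Category.comp_id, Category.id_comp]
  | succ n ih =>
    intro p
    refine Fin.cases ?_ (fun p => ?_) p
    · change Obj.lift (Y := power ops Y n) (fst X (power ops X n) ≫ f)
        (snd X (power ops X n) ≫ powerMap ops f n) ≫ fst Y (power ops Y n) =
        fst X (power ops X n) ≫ f
      rw [Obj.lift_fst]
    · change Obj.lift (Y := power ops Y n) (fst X (power ops X n) ≫ f)
        (snd X (power ops X n) ≫ powerMap ops f n) ≫ (snd Y (power ops Y n) ≫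
          powerPrj ops Y n p) = (snd X (power ops X n) ≫ powerPrj ops X n p) ≫ f
      rw [← Category.assoc, Obj.lift_snd, Category.assoc, ih, Category.assoc]

theorem map_powerMap (f : X ⟶ Y) (a : Fin (n + 1) → W.H Y) :
    W.map (powerMap ops f n) (mono (powerPrj ops Y n) a) =
      mono (powerPrj ops X n) fun p => W.map f (a p) := by
  rw [map_mono, mono, mono]
  congr 2
  funext p
  rw [powerMap_prj, W.map_comp]

theorem map_powerMap_eq (f : X ⟶ Y) (c : W.H (power ops Y n)) :
    W.map (powerMap ops f n) c = tens (fun _ => (W.map f).toLinearMap) c := by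
  have h1 : (W.map (powerMap ops f n)).toLinearMap = tens fun _ => (W.map f).toLinearMap := by
    refine mono_ext fun a => ?_
    rw [tens_mono]
    exact map_powerMap f a
  exact LinearMap.congr_fun h1 c

end Pool.Agent.N174.Lef
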