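import Pool.Agent.N174.Lef.QDefs

/-!
# The Mumford-Tate conjecture: definitions

In the intended use `Γ` is a Galois group, which acts on the `ℓ`-adic cohomology, `Γ'` is the
fundamental group of the base of a family of complex varieties, and `P` is the property to be a
linear combination of Hodge classes, with coefficients in the field of `ℓ`-adic numbers.
-/

open CategoryTheory AlgebraicGeometry

universe u v w w'

namespace Pool.Agent.N174.Lef.Mot

section Alg

variable {K : Type v} [Field K] {A : Type v} [Ring A] [Algebra K A] {Γ : Type w} [Group Γ]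
  {Γ' : Type w'} [Group Γ']

/-- The action of `Γ'` through a homomorphism to `Γ`. -/
def Act.res (ρ : Act Γ K A) (ι : Γ' →* Γ) : Act Γ' K A := ⟨ρ.hom.comp ι⟩

end Alg

open Pool.Agent.H914 Pool.Agent.H914.VarClass Pool.Agent.H914.VarClass.Obj Pool.Agent.R920.MT

variable {k : Type u} [Field k] {𝒱 : VarClass k} {ops : CycleOps 𝒱}
  {W : WeilCohomology.{u, v} ops} {Γ : Type w} [Group Γ] {Γ' : Type w'} [Group Γ']

/-- The variety `X` with the action of `Γ'` through a homomorphism to `Γ`. -/
def AVar.res (X : AVar W Γ) (ι : Γ' →* Γ) : AVar W Γ' := ⟨X.X, X.act.res ι⟩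

/-- The vanishing cohomology of `f` is irreducible under the subgroups of finite index of `Γ'`, and
some element of `Γ'` acts trivially on the cohomology of `Y` and of `Z` and by a Picard-Lefschetz
formula on the vanishing cohomology. -/
def BigMonodromy (χ : Γ →* W.Kˣ) (ι : Γ' →* Γ) (X Y Z : AVar W Γ) (f : X.X ⟶ Y.X) : Prop :=
  Irred (X.act.res ι) (LinearMap.ker (W.push f)) ∧
    HasNode (χ.comp ι) (X.res ι) (Y.res ι) (Z.res ι) f

/-- The Mumford-Tate conjecture for the classes on `V` and the property `P`: the classes in
`H^(2 j)(V)` with the property `P` are exactly the Tate classes, that is, the classes which are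
multiplied by `χ ^ j` by a subgroup of finite index. -/
def MumfordTate (χ : Γ →* W.Kˣ) (P : Property W) (V : AVar W Γ) : Prop :=
  ∀ j, ∀ c ∈ W.gr V.X (2 * j), P V.X j c ↔ IsTate χ V.act j c

end Pool.Agent.N174.Lef.Mot
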