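import Pool.Agent.N174.Lef.MExt
import Pool.Agent.N174.Lef.UDefs

/-!
# The Lefschetz theorem for the Mumford-Tate conjecture
-/

open CategoryTheory AlgebraicGeometry TensorProduct

universe u v w w'

namespace Pool.Agent.N174.Lef

open Pool.Agent.H914 Pool.Agent.H914.VarClass Pool.Agent.H914.VarClass.Obj
  Pool.Agent.H914.WeilCohomology Pool.Agent.H281R3.HT Pool.Agent.W552 Pool.Agent.TH125.Gal

open Pool.Agent.Y133.Half (Sys PH PH.ind ClassPred)

variable {k : Type u} [Field k] {𝒱 : VarClass k} {ops : CycleOps 𝒱}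
  {W : WeilCohomology.{u, v} ops} {X Y Z : 𝒱.Obj} {f : X ⟶ Y} {n D : ℕ}
  {Γ : Type w} [Group Γ] {χ : Γ →* W.Kˣ} {ρ : Γ →* (W.H X ≃ₐ[W.K] W.H X)}
  {ρY : Γ →* (W.H Y ≃ₐ[W.K] W.H Y)} {τ : Γ →* (W.H Z ≃ₐ[W.K] W.H Z)} {s : W.H X →ₗ[W.K] W.H Y}
  {Γ' : Type w'} [Group Γ']

/-- restriction of the action -/
theorem Data.res (h : Data χ f ρ ρY s) (ι : Γ' →* Γ)
    (hirr : IrredAct (ρ.comp ι) (vanishing W f)) :
    Data (χ.comp ι) f (ρ.comp ι) (ρY.comp ι) s where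
  gr_mem g := h.gr_mem (ι g)
  tr_act g := h.tr_act (ι g)
  equi g := h.equi (ι g)
  transfer := h.transfer
  seq := by
    obtain ⟨Δ, hΔ, hs⟩ := h.seq
    have hf : (Δ.comap ι).FiniteIndex := ⟨by
      rw [Subgroup.index_comap]
      exact (inferInstance : (Δ.subgroupOf ι.range).FiniteIndex).index_ne_zero⟩
    exact ⟨Δ.comap ι, hf, fun g hg => hs (ι g) hg⟩
  middle := h.middle
  irr := hirr

/-- the classes which are multiplied by the power of the character -/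
def tateSub (χ : Γ →* W.Kˣ) {V : 𝒱.Obj} (υ : Γ → (W.H V →ₗ[W.K] W.H V)) (j : ℕ) :
    Submodule W.K (W.H V) where
  carrier := {c | ∃ Δ : Subgroup Γ, Δ.FiniteIndex ∧ ∀ g ∈ Δ, υ g c = (χ g : W.K) ^ j • c}
  zero_mem' := ⟨⊤, inferInstance, fun g _ => by rw [map_zero, smul_zero]⟩
  add_mem' := by
    rintro a b ⟨Δ, hΔ, ha⟩ ⟨Δ', hΔ', hb⟩
    exact ⟨Δ ⊓ Δ', inferInstance, fun g hg => by
      rw [map_add, ha g hg.1, hb g hg.2, smul_add]⟩
  smul_mem' := by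
    rintro r a ⟨Δ, hΔ, ha⟩
    exact ⟨Δ, hΔ, fun g hg => by rw [map_smul, ha g hg, smul_comm]⟩

/-- **The classes in a system are Tate classes.** -/
theorem sys_tate_step (P : ClassPred W) (h : Data χ f ρ ρY s)
    (hsd : ∀ i, sd s i ∈ P.sys.Op X Y) (ι : Γ' →* Γ)
    (hirr : IrredAct (ρ.comp ι) (vanishing W f)) {g₀ : Γ'} (hχ : χ.comp ι g₀ = 1)
    (hY : ρY.comp ι g₀ = 1) (hτ : τ.comp ι g₀ = 1)
    (hPL : PLAct (W.tr X) (vanishing W f) (ρ.comp ι) g₀)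
    (hK : Even X.dim → FewRoots W.K ∧ n + 1 < Module.finrank W.K (vanishing W f))
    (hT : ∀ j c, P.P ((power ops Y n).prod Z) j c → ∃ Δ : Subgroup Γ, Δ.FiniteIndex ∧
      ∀ g ∈ Δ, t2 (pact ρY n g) (lact τ g) c = (χ g : W.K) ^ j • c) {j : ℕ}
    {c : W.H ((power ops X n).prod Z)} (hcP : P.P _ j c) (hc : ∃ Δ : Subgroup Γ',
      Δ.FiniteIndex ∧ ∀ g ∈ Δ, t2 (pact (ρ.comp ι) n g) (lact (τ.comp ι) g) c =
        (χ.comp ι g : W.K) ^ j • c) :
    ∃ Δ : Subgroup Γ, Δ.FiniteIndex ∧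
      ∀ g ∈ Δ, t2 (pact ρ n g) (lact τ g) c = (χ g : W.K) ^ j • c := by
  obtain ⟨Δ, hΔ, hc⟩ := hc
  obtain ⟨v⟩ := exists_VB h.transfer
  have hQ := dQ_sys (S := P.sys) h v hsd
  have hcj := P.gr hcP
  have h' := h.res ι hirr
  refine core_prod h' v hχ hY hτ hPL hK hΔ hc (tateSub χ
    (fun g => t2 (pact ρ n g) (lact τ g)) j) fun q m e e' => ?_
  have hlow : Low (2 * (X.dim * m) + 0) (t2 (X' := Z) (Y' := Z)
      (ctrOp (ops := ops) v s q e') LinearMap.id) :=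
    t2_low (low_ctr v h.transfer h.middle e') fun l a => rfl
  rw [add_zero] at hlow
  by_cases hj : 2 * (X.dim * m) ≤ 2 * j
  · have hle : X.dim * m ≤ j := by omega
    have h8 := hlow.mem hcj
    rw [show 2 * j - 2 * (X.dim * m) = 2 * (j - X.dim * m) by omega] at h8
    obtain ⟨Δ₁, hΔ₁, hs₁⟩ := h.seq
    have h9 : t2 (X' := Z) (Y' := Z) (ctrOp (ops := ops) v s q e') LinearMap.id c ∈ P.sys.C _ :=
      Sys.Op.apply (S := P.sys) (T := P.sys) (fun _ => le_rfl)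
        (op_t2 (op_ctr v h.transfer h.middle hsd hQ q e') Sys.Op.id) (ClassPred.sp_of hcP)
    obtain ⟨Δ₂, hΔ₂, hs₂⟩ := hT (j - X.dim * m) _ (pred_of_sp h9 h8)
    refine ⟨Δ₁ ⊓ Δ₂, inferInstance, fun g hg => ?_⟩
    rw [mextZ_act h v (hs₁ g hg.1), hs₂ g hg.2, map_smul, smul_smul, ← pow_add,
      Nat.add_sub_cancel' hle]
  · rw [hlow.zero hcj (by omega), map_zero]
    exact Submodule.zero_mem _

open Pool.Agent.N174.Lef.Hdg (toG exists_power)

theorem Mot.toH_res (X : Mot.AVar W Γ) (ι : Γ' →* Γ) :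
    toG (Mot.toH (X.res ι)) = ⟨X.X, X.act.hom.comp ι⟩ := rfl

/-- **The Lefschetz theorem for the Mumford-Tate conjecture.** -/
theorem Mot.mumfordTate {P : R920.MT.Property W} (hP : Mot.IsClassSystem P)
    {ι : Γ' →* Γ} {X Y Z V V' : Mot.AVar W Γ} {n : ℕ} {f : X.X ⟶ Y.X}
    (h : Mot.IsLefschetz χ P X Y f) (hn : Mot.BigMonodromy χ ι X Y Z f)
    (hE : Mot.LargeIfEven W f n) (hV : Mot.IsPowProd X Z n V)
    (hfix : Mot.AreTate (χ.comp ι) P (V.res ι)) (hV' : Mot.IsPowProd Y Z n V')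
    (hMT : Mot.MumfordTate χ P V') : Mot.MumfordTate χ P V := by
  obtain ⟨hirr, g₀, h0, h1, h2, h3⟩ := hn
  have hnode : Mot.HasNode χ X Y Z f := ⟨ι g₀, h0, h1, h2, h3⟩
  intro j c hcj
  refine ⟨fun hc => ?_, fun hc => Mot.tate_system (Mot.sysPred hP) h hnode hE hV hV'
    (fun j c hcj hc => (hMT j c hcj).2 hc) j c hcj hc⟩
  cases n with
  | zero =>
    cases hV
    cases hV'
    exact (hMT j c hcj).1 hc
  | succ n =>
    obtain ⟨φ, υ, k1, k2⟩ := exists_power (Mot.toH X) (Mot.toH Z) n (Mot.toH V) hV.toH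
    obtain ⟨φ', υ', k1', k2'⟩ := exists_power (Mot.toH Y) (Mot.toH Z) n (Mot.toH V') hV'.toH
    have hinv : ∀ {A B : 𝒱.Obj} (θ : A ≅ B) (c : W.H A),
        W.map θ.hom (W.map θ.inv c) = c := by
      intro A B θ c
      rw [← W.map_comp, θ.hom_inv_id, W.map_id]
    have hinv' : ∀ {A B : 𝒱.Obj} (θ : A ≅ B) (c : W.H B),
        W.map θ.inv (W.map θ.hom c) = c := by
      intro A B θ c
      rw [← W.map_comp, θ.inv_hom_id, W.map_id]
    obtain ⟨s, hs', ha⟩ := Gen.IsLefschetz.data (P := Mot.sysPred hP) h.toGen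
    have hs : Data χ f X.act.hom Y.act.hom s := hs'
    have hY1 : Y.act.hom.comp ι g₀ = 1 := AlgEquiv.ext h1
    have hZ1 : Z.act.hom.comp ι g₀ = 1 := AlgEquiv.ext h2
    obtain ⟨hυ, hυ'⟩ : (∀ p, Intertwines (W.map (fst (power ops X.X n) Z.X ≫
        powerPrj ops X.X n p)) X.act.hom υ) ∧
        Intertwines (W.map (snd (power ops X.X n) Z.X)) Z.act.hom υ := by
      cases k2 with
      | mk _ h6 h7 => exact ⟨h6, h7⟩
    obtain ⟨hθ, hθ'⟩ : (∀ p, Intertwines (W.map (fst (power ops Y.X n) Z.X ≫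
        powerPrj ops Y.X n p)) Y.act.hom υ') ∧
        Intertwines (W.map (snd (power ops Y.X n) Z.X)) Z.act.hom υ' := by
      cases k2' with
      | mk _ h6 h7 => exact ⟨h6, h7⟩
    have hθ1 : ∀ g, (υ' g).toLinearMap = t2 (pact Y.act.hom n g) (lact Z.act.hom g) :=
      fun g => act_t2 hθ hθ' g
    have hυ1 : ∀ g, (υ g).toLinearMap = t2 (pact X.act.hom n g) (lact Z.act.hom g) :=
      fun g => act_t2 hυ hυ' g
    have hυι : ∀ g, (υ (ι g)).toLinearMap = t2 (pact (X.act.hom.comp ι) n g)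
        (lact (Z.act.hom.comp ι) g) := fun g => act_t2 hυ hυ' (ι g)
    obtain ⟨Δ, hΔ, hg⟩ := sys_tate_step (n := n) (τ := Z.act.hom) (Mot.sysPred hP) hs ha ι
      hirr (g₀ := g₀) h0 hY1 hZ1 h3
      (fun he => ⟨(hE he).1, (hE he).2⟩)
      (fun j c hc => by
        have hc' := (Mot.sysPred hP).map φ'.hom hc
        obtain ⟨Δ, hΔ, hg⟩ := (hMT j (W.map φ'.hom c) ((Mot.sysPred hP).gr hc')).1 hc'
        refine ⟨Δ, hΔ, fun g hgΔ => ?_⟩
        have h5 := congrArg (W.map φ'.inv) ((k1' g c).symm.trans (hg g hgΔ))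
        rw [hinv'] at h5
        rw [← hθ1]
        refine h5.trans ((map_smul (W.map φ'.inv) _ _).trans ?_)
        exact congrArg _ (hinv' φ' c))
      (j := j) (c := W.map φ.inv c) ((Mot.sysPred hP).map φ.inv hc) (by
        obtain ⟨Δ, hΔ, hg⟩ := hfix j c hc
        refine ⟨Δ, hΔ, fun g hgΔ => ?_⟩
        have h5 := congrArg (W.map φ.inv) ((k1 (ι g) (W.map φ.inv c)).symm.trans
          ((congrArg (V.act.hom (ι g)) (hinv φ c)).trans (hg g hgΔ)))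
        rw [hinv'] at h5
        rw [← hυι]
        exact h5.trans (map_smul _ _ _))
    refine ⟨Δ, hΔ, fun g hgΔ => ?_⟩
    have h6 := hg g hgΔ
    rw [← hυ1] at h6
    have h7 := congrArg (W.map φ.hom) h6
    have h8 := (k1 g (W.map φ.inv c)).trans h7
    have h9 := (congrArg (V.act.hom g) (hinv φ c)).symm.trans h8
    refine h9.trans ((map_smul (W.map φ.hom) _ _).trans ?_)
    exact congrArg _ (hinv φ c)

end Pool.Agent.N174.Lef
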