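import Pool.Agent.N174.Lef.HDefs

/-!
# Algebraic fibres of flat classes: definitions

In the intended use `S` is a smooth connected complex variety, `k` is its function field, the
varieties of the class `𝒱` are the generic fibres of smooth projective families `X` over `S`, and
`W.H X` is the rational cohomology of the fibre of the family over a base point of `S` with its
cycle classes of the relative cycles. The group `Γ` is the fundamental group of `S`. A class `c` in
`W.H X` fixed by a subgroup of finite index of `Γ` defines a flat section over a finite covering of
`S`. For a point `s` of the covering the property `A s` says that the value of the section in `s` is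
algebraic, that is, the class of an algebraic cycle on the fibre over `s`.
-/

open CategoryTheory AlgebraicGeometry

universe u v w x

namespace Pool.Agent.N174.Lef.Var

open Pool.Agent.H914 Pool.Agent.H914.VarClass Pool.Agent.H914.VarClass.Obj
  Pool.Agent.H914.WeilCohomology Pool.Agent.R920.MT Pool.Agent.N174.Lef.Hdg

variable {k : Type u} [Field k] {𝒱 : VarClass k} {ops : CycleOps 𝒱}

/-- The coefficients are the rational numbers. -/
def RatCoeff (W : WeilCohomology.{u, v} ops) : Prop := ∀ r : W.K, ∃ q : ℚ, (q : W.K) = r

variable {W : WeilCohomology.{u, v} ops} {Γ : Type w} [Group Γ]

/-- The classes with the property `P` form a system of classes: they are in `H^(2 j)`, they contain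
the classes of the algebraic cycles, and they are stable under linear combinations, products,
pull-backs and push-forwards. -/
structure IsClassSystem (P : Property W) : Prop where
  gr : ∀ X j c, P X j c → c ∈ W.gr X (2 * j)
  lin : Linear P
  cl : HasCycles P
  mul : MulClosed P
  map : PullClosed P
  push : PushClosed P

/-- The class `c` is the class of an algebraic cycle with rational coefficients on `X`. -/
def IsCycleClass (W : WeilCohomology.{u, v} ops) (X : 𝒱.Obj) (j : ℕ) (c : W.H X) : Prop :=
  ∃ z, X.IsCyc j z ∧ W.cl X z = c

/-- The variational Hodge conjecture for `V`: let `c` be a class on `V` which is fixed by a subgroup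
of finite index. If `c` is algebraic in the point `s`, then `c` is algebraic in all points `t`. -/
def VariationalHodge {S : Type x} (A : S → Property W) (V : AVar W Γ) : Prop :=
  ∀ j c, FixedFin V.act c → ∀ s t, A s V.X j c → A t V.X j c

end Pool.Agent.N174.Lef.Var
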