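import Pool.Agent.N174.Lef.Mix
import Pool.Agent.N174.Lef.HMain
import Pool.Agent.N174.Lef.VDefs

/-!
# The Lefschetz theorem for the variational Hodge conjecture
-/

open CategoryTheory AlgebraicGeometry TensorProduct

universe u v w x

namespace Pool.Agent.N174.Lef.Var

open Pool.Agent.H914 Pool.Agent.H914.VarClass Pool.Agent.H914.VarClass.Obj
  Pool.Agent.H914.WeilCohomology Pool.Agent.R920.MT Pool.Agent.N174.Lef.Hdg

open Pool.Agent.Y133.Half (ClassPred)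

variable {k : Type u} [Field k] {𝒱 : VarClass k} {ops : CycleOps 𝒱}
  {W : WeilCohomology.{u, v} ops} {Γ : Type w} [Group Γ]

/-- the conversion of actions -/
def toM (X : AVar W Γ) : Mot.AVar W Γ := ⟨X.X, ⟨X.act.hom⟩⟩

theorem powProd_toM {X Z : AVar W Γ} {n : ℕ} {V : AVar W Γ} (h : IsPowProd X Z n V) :
    Mot.IsPowProd (toM X) (toM Z) n (toM V) := by
  induction h with
  | zero => exact .zero
  | @succ n V υ h1 h2 h3 ih =>
    exact Mot.IsPowProd.succ (X := toM X) (Z := toM Z) (V := toM V) ⟨υ.hom⟩ ih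
      (fun g b => h2 g b) (fun g b => h3 g b)

/-- the system of classes -/
def sysPred {P : Property W} (hP : IsClassSystem P) : ClassPred W where
  P := P
  gr h := hP.gr _ _ _ h
  zero := (hP.lin _ _).zero
  add ha hb := (hP.lin _ _).add ha hb
  smul r _ ha := (hP.lin _ _).smul r ha
  cl hz := hP.cl _ _ _ hz
  mul ha hb := hP.mul _ _ _ _ _ ha hb
  map f _ _ h := hP.map _ _ f _ _ h
  push f _ _ hl _ h := hP.push _ _ f _ _ _ hl h

/-- the intersection of two systems -/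
def interPred (Q P : ClassPred W) : ClassPred W where
  P X j c := Q.P X j c ∧ P.P X j c
  gr h := Q.gr h.1
  zero := ⟨Q.zero, P.zero⟩
  add ha hb := ⟨Q.add ha.1 hb.1, P.add ha.2 hb.2⟩
  smul r _ ha := ⟨Q.smul r ha.1, P.smul r ha.2⟩
  cl hz := ⟨Q.cl hz, P.cl hz⟩
  mul ha hb := ⟨Q.mul ha.1 hb.1, P.mul ha.2 hb.2⟩
  map f _ _ h := ⟨Q.map f h.1, P.map f h.2⟩
  push f _ _ hl _ h := ⟨Q.push f hl h.1, P.push f hl h.2⟩

theorem isLefschetz_toM {P P' : Property W} (hP : ∀ X j c, P X j c → P' X j c) {X Y : AVar W Γ}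
    {f : X.X ⟶ Y.X} (h : IsLefschetz P X Y f) :
    Mot.IsLefschetz (1 : Γ →* W.Kˣ) P' (toM X) (toM Y) f := by
  obtain ⟨s, hs, hi⟩ := h.retract
  refine ⟨h.gr_mem, fun g a => ?_, h.equivariant,
    ⟨s, ⟨hs.gr_mem, hs.sub_mem, hs.ker, hs.act⟩, fun i => ?_⟩, h.middle, h.irreducible⟩
  · refine Eq.trans (h.tr_act g a) ?_
    simp
    rfl
  · obtain ⟨c, hc, hci⟩ := hi i
    exact ⟨c, hP _ _ _ hc, hci⟩

theorem hasNode_toM {X Y Z : AVar W Γ} {f : X.X ⟶ Y.X} (h : Hdg.HasNode X Y Z f) :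
    Mot.HasNode (1 : Γ →* W.Kˣ) (toM X) (toM Y) (toM Z) f := by
  obtain ⟨g, h1, h2, h3⟩ := h
  exact ⟨g, rfl, h1, h2, h3⟩

theorem fixed_iff {X : AVar W Γ} {j : ℕ} {c : W.H X.X} :
    FixedFin X.act c ↔ Mot.IsTate (1 : Γ →* W.Kˣ) (toM X).act j c := by
  constructor
  · rintro ⟨Δ, hΔ, h⟩
    refine ⟨Δ, hΔ, fun g hg => (h g hg).trans ?_⟩
    simp
  · rintro ⟨Δ, hΔ, h⟩
    refine ⟨Δ, hΔ, fun g hg => (h g hg).trans ?_⟩
    simp

/-- **The Lefschetz theorem for the variational Hodge conjecture.** -/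
theorem variational (hW : RatCoeff W) {S : Type x} {A : S → Property W}
    (hA : ∀ s, IsClassSystem (A s)) {X Y Z V V' : AVar W Γ} {n : ℕ} {f : X.X ⟶ Y.X}
    (h : IsLefschetz (IsCycleClass W) X Y f) (hn : Hdg.HasNode X Y Z f) (hE : Hdg.LargeIfEven W f n)
    (hV : IsPowProd X Z n V) (hV' : IsPowProd Y Z n V') (hY : VariationalHodge A V') :
    VariationalHodge A V := by
  intro j c hc s t hs
  have h1 := Mot.mixed_system (Q := sysPred (hA s))
    (P := interPred (sysPred (hA s)) (sysPred (hA t))) (fun _ _ _ h => h.1)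
    (χ := (1 : Γ →* W.Kˣ)) (X := toM X) (Y := toM Y) (Z := toM Z) (V := toM V) (V' := toM V')
    (isLefschetz_toM (P' := (interPred (sysPred (hA s)) (sysPred (hA t))).P)
      (fun X j c hc => by
        obtain ⟨z, hz, rfl⟩ := hc
        exact ⟨(hA s).cl _ _ _ hz, (hA t).cl _ _ _ hz⟩) h) (hasNode_toM hn)
    (fun he => ⟨fewRoots_of_rat hW, hE he⟩) (powProd_toM hV) (powProd_toM hV')
    (fun j c hcs hct => ⟨hcs, hY j c (fixed_iff.2 hct) s t hcs⟩) j c hs (fixed_iff.1 hc)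
  exact h1.2

end Pool.Agent.N174.Lef.Var
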