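import Pool.Agent.N174.Lef.Defs
import Pool.Agent.N174.Lef.Tens

/-!
# The vanishing cohomology
-/

open CategoryTheory AlgebraicGeometry Finset Function

set_option linter.unusedSectionVars false

universe u v w

namespace Pool.Agent.N174.Lef

open Pool.Agent.H914 Pool.Agent.H914.VarClass Pool.Agent.H914.VarClass.Obj
  Pool.Agent.H914.WeilCohomology Pool.Agent.H281R3.HT Pool.Agent.W552 Pool.Agent.TH125.Gal

variable {k : Type u} [Field k] {𝒱 : VarClass k} {ops : CycleOps 𝒱}
  {W : WeilCohomology.{u, v} ops} {X Y : 𝒱.Obj} {f : X ⟶ Y}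

theorem van_map {a : W.H X} (ha : a ∈ vanishing W f) (b : W.H Y) : bil W X a (W.map f b) = 0 := by
  rw [bil_apply, ← W.tr_push, show W.push f a = 0 from ha, zero_mul, map_zero]

/-- the two orders of the factors, for a homogeneous element -/
theorem bil_swap_zero {i : ℕ} {a : W.H X} (ha : a ∈ W.gr X i) {j : ℕ} {b : W.H X}
    (hb : b ∈ W.gr X j) (h : bil W X a b = 0) : bil W X b a = 0 := by
  rw [bil_apply, W.comm hb ha, map_smul, ← bil_apply, h, smul_zero]

theorem map_van (hmid : vanishing W f ≤ W.gr X X.dim) {a : W.H X} (ha : a ∈ vanishing W f)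
    (b : W.H Y) : bil W X (W.map f b) a = 0 := by
  refine gr_induction (W.isInternal Y) (p := fun b => bil W X (W.map f b) a = 0) ?_ ?_ b
  · intro i b hb
    exact bil_swap_zero (hmid ha) (W.map_mem f hb) (van_map ha b)
  · intro b b' hb hb'
    rw [map_add, map_add, LinearMap.add_apply, hb, hb', add_zero]

theorem van_symm (hmid : vanishing W f ≤ W.gr X X.dim) {a b : W.H X}
    (ha : a ∈ vanishing W f) (hb : b ∈ vanishing W f) :
    bil W X a b = (-1 : W.K) ^ X.dim * bil W X b a := by
  rw [bil_apply, W.comm (hmid ha) (hmid hb), map_smul, smul_eq_mul, bil_apply]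
  congr 1
  rcases Nat.even_or_odd X.dim with h | h
  · rw [h.neg_one_pow, (h.mul_left _).neg_one_pow]
  · rw [h.neg_one_pow, (h.mul h).neg_one_pow]

section transfer

variable {s : W.H X →ₗ[W.K] W.H Y} (hs : IsTransfer W f s)

include hs in
theorem van_nondeg (a : vanishing W f) (h : ∀ b, rform W X (vanishing W f) a b = 0) : a = 0 := by
  apply Subtype.ext
  apply W.nondeg
  intro b
  have h1 : b = W.map f (s b) + (b - W.map f (s b)) := by abel
  rw [h1, ← bil_apply, map_add, van_map a.2, zero_add]
  exact h ⟨_, hs.sub_mem b⟩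

/-- the projector onto the image of the pull-back -/
noncomputable def piC (f : X ⟶ Y) (s : W.H X →ₗ[W.K] W.H Y) : W.H X →ₗ[W.K] W.H X :=
  (W.map f).toLinearMap ∘ₗ s

/-- the projector onto the vanishing cohomology -/
noncomputable def piE (f : X ⟶ Y) (s : W.H X →ₗ[W.K] W.H Y) : W.H X →ₗ[W.K] W.H X :=
  LinearMap.id - piC f s

theorem piC_apply (a : W.H X) : piC f s a = W.map f (s a) := rfl

theorem piE_apply (a : W.H X) : piE f s a = a - W.map f (s a) := rfl

theorem piC_add_piE : piC f s + piE f s = LinearMap.id := by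
  rw [piE, add_sub_cancel]

include hs in
theorem piE_mem (a : W.H X) : piE f s a ∈ vanishing W f := hs.sub_mem a

include hs in
theorem bil_piC (hmid : vanishing W f ≤ W.gr X X.dim) (a b : W.H X) :
    bil W X (piC f s a) b = bil W X a (piC f s b) := by
  have h1 : bil W X (piC f s a) b = bil W X (piC f s a) (piC f s b) := by
    have h2 : b = piC f s b + piE f s b := by rw [piE_apply, piC_apply]; abel
    conv_lhs => rw [h2]
    rw [map_add, piC_apply (a := a), map_van hmid (piE_mem hs b), add_zero]
  have h3 : bil W X a (piC f s b) = bil W X (piC f s a) (piC f s b) := by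
    have h2 : a = piC f s a + piE f s a := by rw [piE_apply, piC_apply]; abel
    conv_lhs => rw [h2]
    rw [map_add, LinearMap.add_apply, piC_apply (a := b), van_map (piE_mem hs a), add_zero]
  rw [h1, h3]

include hs in
theorem bil_piE (hmid : vanishing W f ≤ W.gr X X.dim) (a b : W.H X) :
    bil W X (piE f s a) b = bil W X a (piE f s b) := by
  rw [piE_apply, piE_apply, map_sub, map_sub, LinearMap.sub_apply, ← piC_apply, ← piC_apply,
    bil_piC hs hmid]

end transfer

/-- A basis of the vanishing cohomology, with the dual basis. -/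
structure VB (W : WeilCohomology.{u, v} ops) {X Y : 𝒱.Obj} (f : X ⟶ Y) where
  /-- the rank -/
  N : ℕ
  /-- a basis -/
  t : Module.Basis (Fin N) W.K (vanishing W f)
  /-- the dual basis -/
  u : Module.Basis (Fin N) W.K (vanishing W f)
  ut : ∀ i j, bil W X (u i) (t j) = if j = i then 1 else 0

theorem exists_VB {s : W.H X →ₗ[W.K] W.H Y} (hs : IsTransfer W f s) : Nonempty (VB W f) := by
  have h1 : ∀ a, (∀ b, rform W X (vanishing W f) a b = 0) → a = 0 := van_nondeg hs
  have hT : LinearMap.BilinForm.Nondegenerate (rform W X (vanishing W f)) := by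
    refine ⟨h1, ?_⟩
    have h2 : Function.Injective (rform W X (vanishing W f)) :=
      (injective_iff_map_eq_zero _).2 fun a ha => h1 a fun b => by rw [ha]; rfl
    intro a ha
    by_contra ha0
    have h3 : Function.Surjective (rform W X (vanishing W f)) :=
      (LinearMap.injective_iff_surjective_of_finrank_eq_finrank
        (Subspace.dual_finrank_eq).symm).1 h2
    obtain ⟨φ, hφ⟩ : ∃ φ : Module.Dual W.K (vanishing W f), φ a ≠ 0 := by
      by_contra hcon
      push Not at hcon
      exact ha0 ((Module.forall_dual_apply_eq_zero_iff W.K a).1 hcon)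
    obtain ⟨b, rfl⟩ := h3 φ
    exact hφ (ha b)
  let bT := Module.finBasis W.K (vanishing W f)
  exact ⟨{
    N := Module.finrank W.K (vanishing W f)
    t := bT
    u := LinearMap.BilinForm.dualBasis _ hT bT
    ut := fun i j => LinearMap.BilinForm.apply_dualBasis_left hT bT i j }⟩

variable (v : VB W f)

/-- expansion of a vanishing class -/
theorem expand_t {x : W.H X} (hx : x ∈ vanishing W f) :
    x = ∑ i, bil W X (v.u i) x • (v.t i : W.H X) := by
  have h1 := v.t.sum_repr ⟨x, hx⟩
  have h2 : x = ∑ i, v.t.repr ⟨x, hx⟩ i • (v.t i : W.H X) := by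
    conv_lhs => rw [show x = ((⟨x, hx⟩ : vanishing W f) : W.H X) from rfl, ← h1]
    rw [Submodule.coe_sum]
    rfl
  have h3 : ∀ i, bil W X (v.u i) x = v.t.repr ⟨x, hx⟩ i := by
    intro i
    conv_lhs => rw [h2]
    rw [map_sum, Finset.sum_eq_single i]
    · rw [map_smul, v.ut, if_pos rfl, smul_eq_mul, mul_one]
    · intro j _ hj
      rw [map_smul, v.ut, if_neg hj, smul_zero]
    · intro h
      exact absurd (Finset.mem_univ _) h
  rw [Finset.sum_congr rfl fun i _ => by rw [h3]]
  exact h2

theorem expand_u {x : W.H X} (hx : x ∈ vanishing W f) :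
    x = ∑ i, bil W X x (v.t i) • (v.u i : W.H X) := by
  have h1 := v.u.sum_repr ⟨x, hx⟩
  have h2 : x = ∑ i, v.u.repr ⟨x, hx⟩ i • (v.u i : W.H X) := by
    conv_lhs => rw [show x = ((⟨x, hx⟩ : vanishing W f) : W.H X) from rfl, ← h1]
    rw [Submodule.coe_sum]
    rfl
  have h3 : ∀ i, bil W X x (v.t i) = v.u.repr ⟨x, hx⟩ i := by
    intro i
    conv_lhs => rw [h2]
    rw [map_sum, LinearMap.sum_apply, Finset.sum_eq_single i]
    · rw [map_smul, LinearMap.smul_apply, v.ut, if_pos rfl, smul_eq_mul, mul_one]
    · intro j _ hj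
      rw [map_smul, LinearMap.smul_apply, v.ut, if_neg (Ne.symm hj), smul_zero]
    · intro h
      exact absurd (Finset.mem_univ _) h
  rw [Finset.sum_congr rfl fun i _ => by rw [h3]]
  exact h2

/-- the projector onto the vanishing cohomology in a basis -/
theorem piE_eq {s : W.H X →ₗ[W.K] W.H Y} (hs : IsTransfer W f s) (a : W.H X) :
    piE f s a = ∑ i, bil W X (v.u i) a • (v.t i : W.H X) := by
  conv_lhs => rw [expand_t v (piE_mem hs a)]
  refine Finset.sum_congr rfl fun i _ => ?_
  rw [piE_apply, map_sub, van_map (v.u i).2, sub_zero]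

end Pool.Agent.N174.Lef
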